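import Pool.Agent.WK.Stmts
import Pool.Agent.Helper15_E.Line

/-!
# MP_7d2497_an, squad WK, row DE0 (helper17): density in the functions whose transform vanishes
at one point
-/

set_option autoImplicit false

namespace Pool.Agent.WK

open MeasureTheory Filter Topology Complex
open Pool.Agent.H78E

noncomputable section

namespace H17

theorem w0 {φ : ℝ → ℝ} (hφ : IsWeight φ) (t : ℝ) : 0 ≤ φ t := zero_le_one.trans (hφ.one_le t)

theorem lp_sub {φ : ℝ → ℝ} (hφ : IsWeight φ) {f g : ℝ → ℂ} (hf : LP φ f) (hg : LP φ g) (a : ℂ) :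
    LP φ (fun t => f t - a * g t) := by
  have hm := hf.1.1.sub (hg.1.1.const_mul a)
  refine ⟨⟨hm, ?_⟩, fun t ht => by simp [hf.2 t ht, hg.2 t ht]⟩
  have h1 := hf.1.2.add (hg.1.2.const_mul ‖a‖)
  refine h1.mono' (hφ.meas.aestronglyMeasurable.mul hm.norm) (ae_of_all _ fun t => ?_)
  rw [Real.norm_of_nonneg (mul_nonneg (w0 hφ t) (norm_nonneg _))]
  calc φ t * ‖f t - a * g t‖ ≤ φ t * (‖f t‖ + ‖a‖ * ‖g t‖) :=
        mul_le_mul_of_nonneg_left ((norm_sub_le _ _).trans (by rw [norm_mul])) (w0 hφ t)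
    _ = φ t * ‖f t‖ + ‖a‖ * (φ t * ‖g t‖) := by ring

theorem lp_sub1 {φ : ℝ → ℝ} (hφ : IsWeight φ) {f g : ℝ → ℂ} (hf : LP φ f) (hg : LP φ g) :
    LP φ (fun t => f t - g t) := by
  have h := lp_sub hφ hf hg 1
  simpa using h

theorem lp_zero {φ : ℝ → ℝ} : LP φ (fun _ => 0) := by
  refine ⟨⟨aestronglyMeasurable_const, ?_⟩, fun _ _ => rfl⟩
  simp

theorem lp_add {φ : ℝ → ℝ} (hφ : IsWeight φ) {f g : ℝ → ℂ} (hf : LP φ f) (hg : LP φ g) (a : ℂ) :
    LP φ (fun t => f t + a * g t) := by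
  have h := lp_sub hφ hf hg (-a)
  simpa using h

theorem lp_sum {φ : ℝ → ℝ} (hφ : IsWeight φ) {g : ℕ → ℝ → ℂ} (hg : ∀ n, LP φ (g n)) (c : ℕ → ℂ)
    (N : ℕ) : LP φ (fun t => ∑ n ∈ Finset.range N, c n * g n t) := by
  induction N with
  | zero => simpa using lp_zero
  | succ N ih =>
    simp_rw [Finset.sum_range_succ]
    exact lp_add hφ ih (hg N) (c N)

theorem tri {φ : ℝ → ℝ} (hφ : IsWeight φ) {f g h : ℝ → ℂ} (hf : LP φ f) (hg : LP φ g)
    (hh : LP φ h) : ∫ t, φ t * ‖f t - h t‖ ≤ (∫ t, φ t * ‖f t - g t‖) + ∫ t, φ t * ‖g t - h t‖ := by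
  rw [← integral_add (lp_sub1 hφ hf hg).1.2 (lp_sub1 hφ hg hh).1.2]
  refine integral_mono (lp_sub1 hφ hf hh).1.2
    ((lp_sub1 hφ hf hg).1.2.add (lp_sub1 hφ hg hh).1.2) fun t => ?_
  change φ t * ‖f t - h t‖ ≤ φ t * ‖f t - g t‖ + φ t * ‖g t - h t‖
  rw [← mul_add]
  exact mul_le_mul_of_nonneg_left (norm_sub_le_norm_sub_add_norm_sub _ _ _) (w0 hφ t)

theorem int_of {φ : ℝ → ℝ} (hφ : IsWeight φ) {f : ℝ → ℂ} (hf : L1 φ f) : Integrable f := by
  refine hf.2.mono' hf.1 (ae_of_all _ fun t => ?_)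
  have := mul_le_mul_of_nonneg_right (hφ.one_le t) (norm_nonneg (f t))
  rwa [one_mul] at this

theorem ex_norm (t x : ℝ) : ‖Complex.exp (-(Complex.I * (t : ℂ) * (x : ℂ)))‖ = 1 := by
  rw [Complex.norm_exp]
  simp

theorem ft_int {φ : ℝ → ℝ} (hφ : IsWeight φ) {f : ℝ → ℂ} (hf : LP φ f) (x : ℝ) :
    Integrable fun t : ℝ => f t * Complex.exp (-(Complex.I * (t : ℂ) * (x : ℂ))) := by
  refine (int_of hφ hf.1).norm.mono' (hf.1.1.mul (by fun_prop)) (ae_of_all _ fun t => ?_)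
  rw [norm_mul, ex_norm, mul_one]

theorem ft_sub {φ : ℝ → ℝ} (hφ : IsWeight φ) {f g : ℝ → ℂ} (hf : LP φ f) (hg : LP φ g) (a : ℂ)
    (x : ℝ) : FT (fun t => f t - a * g t) (x : ℂ) = FT f (x : ℂ) - a * FT g (x : ℂ) := by
  unfold FT
  rw [← integral_const_mul, ← integral_sub (ft_int hφ hf x) ((ft_int hφ hg x).const_mul a)]
  congr 1
  funext t
  ring

theorem ft_le {φ : ℝ → ℝ} (hφ : IsWeight φ) {f : ℝ → ℂ} (hf : LP φ f) (x : ℝ) :
    ‖FT f (x : ℂ)‖ ≤ ∫ t, φ t * ‖f t‖ := by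
  unfold FT
  refine (norm_integral_le_integral_norm _).trans
    (integral_mono (ft_int hφ hf x).norm hf.1.2 fun t => ?_)
  change ‖f t * Complex.exp (-(Complex.I * (t : ℂ) * (x : ℂ)))‖ ≤ φ t * ‖f t‖
  rw [norm_mul, ex_norm, mul_one]
  have := mul_le_mul_of_nonneg_right (hφ.one_le t) (norm_nonneg (f t))
  rwa [one_mul] at this

/-! ### nice functions -/

/-- continuous functions with exponential decay -/
structure Nc (w : ℝ → ℂ) : Prop where
  cont : Continuous w
  zero : ∀ t : ℝ, t ≤ 0 → w t = 0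
  dec : ∃ A : ℝ, ∀ t : ℝ, 0 ≤ t → ‖w t‖ ≤ A * Real.exp (-(t / 2))

theorem Nc.lp {φ : ℝ → ℝ} (hφ : IsWeight φ) {w : ℝ → ℂ} (hw : Nc w) : LP φ w := by
  obtain ⟨A, hA⟩ := hw.dec
  have hA0 : 0 ≤ A := by
    have := (norm_nonneg _).trans (hA 0 le_rfl)
    simpa using this
  refine ⟨⟨hw.cont.aestronglyMeasurable, ?_⟩, fun t ht => hw.zero t ht.le⟩
  refine ((Pool.Agent.Helper15_E.integrable_weight hφ (show (0 : ℝ) < 1 / 2 by norm_num)).const_mul
    A).mono' (hφ.meas.aestronglyMeasurable.mul hw.cont.aestronglyMeasurable.norm)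
    (ae_of_all _ fun t => ?_)
  rw [Real.norm_of_nonneg (mul_nonneg (w0 hφ t) (norm_nonneg _))]
  rcases le_or_gt 0 t with ht | ht
  · rw [abs_of_nonneg ht]
    calc φ t * ‖w t‖ ≤ φ t * (A * Real.exp (-(t / 2))) := mul_le_mul_of_nonneg_left (hA t ht) (w0 hφ t)
      _ = A * (φ t * Real.exp (-(1 / 2 * t))) := by
        rw [show -(t / 2) = -(1 / 2 * t) by ring]
        ring
  · rw [hw.zero t ht.le, norm_zero, mul_zero]
    exact mul_nonneg hA0 (mul_nonneg (w0 hφ t) (Real.exp_pos _).le)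

theorem Nc.sub {w v : ℝ → ℂ} (hw : Nc w) (hv : Nc v) (a : ℂ) : Nc fun t => w t - a * v t := by
  obtain ⟨A, hA⟩ := hw.dec
  obtain ⟨B, hB⟩ := hv.dec
  refine ⟨hw.cont.sub (hv.cont.const_mul a |>.comp continuous_id), fun t ht => ?_, A + ‖a‖ * B,
    fun t ht => ?_⟩
  · simp [hw.zero t ht, hv.zero t ht]
  · calc ‖w t - a * v t‖ ≤ ‖w t‖ + ‖a‖ * ‖v t‖ := (norm_sub_le _ _).trans (by rw [norm_mul])
      _ ≤ A * Real.exp (-(t / 2)) + ‖a‖ * (B * Real.exp (-(t / 2))) :=
        add_le_add (hA t ht) (mul_le_mul_of_nonneg_left (hB t ht) (norm_nonneg _))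
      _ = (A + ‖a‖ * B) * Real.exp (-(t / 2)) := by ring

theorem Nc.add {w v : ℝ → ℂ} (hw : Nc w) (hv : Nc v) (a : ℂ) : Nc fun t => w t + a * v t := by
  have h := hw.sub hv (-a)
  simpa using h

theorem Nc.zero' : Nc fun _ => 0 :=
  ⟨continuous_const, fun _ _ => rfl, 0, fun t _ => by simp⟩

theorem Nc.sum {g : ℕ → ℝ → ℂ} (hg : ∀ n, Nc (g n)) (c : ℕ → ℂ) (N : ℕ) :
    Nc fun t => ∑ n ∈ Finset.range N, c n * g n t := by
  induction N with
  | zero => simpa using Nc.zero'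
  | succ N ih =>
    simp_rw [Finset.sum_range_succ]
    exact ih.add (hg N) (c N)

theorem nc_q {l : ℝ} (hl : 3 / 2 ≤ l) : Nc (q l) := by
  refine ⟨?_, fun t ht => ?_, l ^ 4, fun t ht => ?_⟩
  · unfold q
    refine Continuous.if_le (by fun_prop) continuous_const continuous_const continuous_id ?_
    intro t ht
    rw [← ht]
    simp
  · unfold q
    rcases eq_or_lt_of_le ht with h | h
    · rw [h]
      simp
    · rw [if_neg (not_le.2 h)]
  · unfold q
    rw [if_pos ht, Complex.norm_real, Real.norm_of_nonneg (by positivity)]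
    have h1 : t ^ 3 / 6 ≤ Real.exp t := by
      have := Real.pow_div_factorial_le_exp t ht 3
      simpa [Nat.factorial] using this
    calc l ^ 4 * t ^ 3 / 6 * Real.exp (-(l * t)) = l ^ 4 * (t ^ 3 / 6) * Real.exp (-(l * t)) := by ring
      _ ≤ l ^ 4 * Real.exp t * Real.exp (-(l * t)) := by gcongr
      _ = l ^ 4 * Real.exp (t + -(l * t)) := by rw [mul_assoc, ← Real.exp_add]
      _ ≤ l ^ 4 * Real.exp (-(t / 2)) := by
        apply mul_le_mul_of_nonneg_left _ (by positivity)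
        rw [Real.exp_le_exp]
        nlinarith

/-- a nice function whose transform at `x` is one -/
def vx (x t : ℝ) : ℂ :=
  if 0 ≤ t then ((t * Real.exp (-t) : ℝ) : ℂ) * Complex.exp (Complex.I * (t : ℂ) * (x : ℂ)) else 0

theorem nc_vx (x : ℝ) : Nc (vx x) := by
  refine ⟨?_, fun t ht => ?_, 2, fun t ht => ?_⟩
  · unfold vx
    refine Continuous.if_le (by fun_prop) continuous_const continuous_const continuous_id ?_
    intro t ht
    rw [← ht]
    simp
  · unfold vx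
    rcases eq_or_lt_of_le ht with h | h
    · rw [h]
      simp
    · rw [if_neg (not_le.2 h)]
  · unfold vx
    rw [if_pos ht, norm_mul, Complex.norm_real, Real.norm_of_nonneg (by positivity)]
    have h0 : ‖Complex.exp (Complex.I * (t : ℂ) * (x : ℂ))‖ = 1 := by
      rw [Complex.norm_exp]
      simp
    have h1 : t / 2 ≤ Real.exp (t / 2) := (by linarith [Real.add_one_le_exp (t / 2)])
    rw [h0, mul_one]
    calc t * Real.exp (-t) ≤ 2 * Real.exp (t / 2) * Real.exp (-t) :=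
          mul_le_mul_of_nonneg_right (by linarith) (Real.exp_pos _).le
      _ = 2 * Real.exp (-(t / 2)) := by
        rw [mul_assoc, ← Real.exp_add]
        congr 2
        ring

theorem ft_vx (x : ℝ) : FT (vx x) (x : ℂ) = 1 := by
  unfold FT
  have h1 : ∀ t : ℝ, vx x t * Complex.exp (-(Complex.I * (t : ℂ) * (x : ℂ))) =
      (Set.Ioi (0 : ℝ)).indicator (fun t : ℝ => ((Real.exp (-t) * t ^ ((2 : ℝ) - 1) : ℝ) : ℂ)) t := by
    intro t
    rcases lt_trichotomy t 0 with h | h | h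
    · rw [Set.indicator_of_notMem (show t ∉ Set.Ioi (0 : ℝ) from not_lt.2 h.le)]
      unfold vx
      rw [if_neg (not_le.2 h), zero_mul]
    · rw [h, Set.indicator_of_notMem (Set.notMem_Ioi.2 (le_refl (0 : ℝ)))]
      unfold vx
      simp
    · rw [Set.indicator_of_mem (show t ∈ Set.Ioi (0 : ℝ) from h)]
      unfold vx
      rw [if_pos h.le, mul_assoc, ← Complex.exp_add, add_neg_cancel, Complex.exp_zero, mul_one,
        show (2 : ℝ) - 1 = 1 by norm_num, Real.rpow_one, mul_comm]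
  rw [integral_congr_ae (ae_of_all _ h1), integral_indicator measurableSet_Ioi, integral_complex_ofReal,
    ← Real.Gamma_eq_integral (by norm_num), Real.Gamma_two]
  simp

/-! ### the primitive -/

/-- the modulated function -/
def mo (x : ℝ) (w : ℝ → ℂ) (s : ℝ) : ℂ := w s * Complex.exp (-(Complex.I * (s : ℂ) * (x : ℂ)))

/-- the solution of `g' = i x g + w` -/
def pr (x : ℝ) (w : ℝ → ℂ) (t : ℝ) : ℂ :=
  Complex.exp (Complex.I * (t : ℂ) * (x : ℂ)) * ∫ s in (0 : ℝ)..t, mo x w s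

theorem mo_cont {x : ℝ} {w : ℝ → ℂ} (hw : Continuous w) : Continuous (mo x w) := by
  unfold mo
  fun_prop

theorem pr_deriv (x : ℝ) {w : ℝ → ℂ} (hw : Continuous w) (t : ℝ) :
    HasDerivAt (pr x w) (Complex.I * (x : ℂ) * pr x w t + w t) t := by
  have h1 : HasDerivAt (fun t => ∫ s in (0 : ℝ)..t, mo x w s) (mo x w t) t :=
    intervalIntegral.integral_hasDerivAt_right ((mo_cont hw).intervalIntegrable _ _)
      ((mo_cont hw).stronglyMeasurableAtFilter _ _) (mo_cont hw).continuousAt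
  have h2 : HasDerivAt (fun t : ℝ => Complex.exp (Complex.I * (t : ℂ) * (x : ℂ)))
      (Complex.exp (Complex.I * (t : ℂ) * (x : ℂ)) * (Complex.I * 1 * (x : ℂ))) t := by
    have h3 : HasDerivAt (fun t : ℝ => Complex.I * (t : ℂ) * (x : ℂ)) (Complex.I * 1 * (x : ℂ)) t :=
      ((Complex.ofRealCLM.hasDerivAt (x := t)).const_mul Complex.I).mul_const (x : ℂ)
    exact h3.cexp
  have h4 := h2.mul h1
  refine h4.congr_deriv ?_
  unfold pr
  have h5 : Complex.exp (Complex.I * (t : ℂ) * (x : ℂ)) * mo x w t = w t := by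
    unfold mo
    rw [mul_comm (w t), ← mul_assoc, ← Complex.exp_add, add_neg_cancel, Complex.exp_zero, one_mul]
  rw [h5]
  ring

theorem pr_cont (x : ℝ) {w : ℝ → ℂ} (hw : Continuous w) : Continuous (pr x w) :=
  continuous_iff_continuousAt.2 fun t => (pr_deriv x hw t).continuousAt

theorem nc_pr {φ : ℝ → ℝ} (hφ : IsWeight φ) {x : ℝ} {w : ℝ → ℂ} (hw : Nc w)
    (h0 : FT w (x : ℂ) = 0) : Nc (pr x w) := by
  obtain ⟨A, hA⟩ := hw.dec
  refine ⟨pr_cont x hw.cont, fun t ht => ?_, 2 * A, fun t ht => ?_⟩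
  · unfold pr
    have h1 : ∫ s in (0 : ℝ)..t, mo x w s = ∫ s in (0 : ℝ)..t, (0 : ℂ) := by
      apply intervalIntegral.integral_congr
      intro s hs
      rw [Set.uIcc_of_ge ht] at hs
      change w s * _ = 0
      rw [hw.zero s hs.2, zero_mul]
    rw [h1, intervalIntegral.integral_zero, mul_zero]
  · have hint : Integrable (mo x w) := ft_int hφ (hw.lp hφ) x
    have h1 : ∫ s in Set.Ioi (0 : ℝ), mo x w s = 0 := by
      rw [setIntegral_eq_integral_of_forall_compl_eq_zero]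
      · exact h0
      · intro s hs
        rw [Set.notMem_Ioi] at hs
        unfold mo
        rw [hw.zero s hs, zero_mul]
    have h2 := intervalIntegral.integral_Ioi_sub_Ioi (f := mo x w) (μ := volume)
      (hint.integrableOn (s := Set.Ioi 0)) ht
    rw [h1, zero_sub] at h2
    have h3 : ‖∫ s in Set.Ioi t, mo x w s‖ ≤ ∫ s in Set.Ioi t, A * Real.exp (-(1 / 2) * s) := by
      refine (norm_integral_le_integral_norm _).trans (setIntegral_mono_on hint.norm.integrableOn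
        ((integrableOn_exp_mul_Ioi (by norm_num) t).const_mul A) measurableSet_Ioi fun s hs => ?_)
      have hs0 : 0 ≤ s := ht.trans (le_of_lt hs)
      unfold mo
      rw [norm_mul, ex_norm, mul_one]
      refine (hA s hs0).trans (le_of_eq ?_)
      rw [show -(s / 2) = -(1 / 2) * s by ring]
    rw [integral_const_mul, integral_exp_mul_Ioi (by norm_num)] at h3
    unfold pr
    have h4 : ‖Complex.exp (Complex.I * (t : ℂ) * (x : ℂ))‖ = 1 := by
      rw [Complex.norm_exp]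
      simp
    rw [norm_mul, h4, one_mul, ← h2, norm_neg]
    refine h3.trans (le_of_eq ?_)
    rw [show -(t / 2) = -(1 / 2) * t by ring]
    ring

theorem cv_eq {x : ℝ} {w : ℝ → ℂ} (hw : Nc w) (hg : Nc (pr x w)) (t : ℝ) :
    cv (fun t => w t + pr x w t) (kx x) t = pr x w t := by
  unfold cv
  rcases le_or_gt t 0 with ht | ht
  · rw [hg.zero t ht, integral_eq_zero_of_ae]
    refine ae_of_all _ fun s => ?_
    change (w (t - s) + pr x w (t - s)) * kx x s = 0
    rcases lt_or_ge s 0 with h | h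
    · unfold kx
      rw [if_neg (not_le.2 h), mul_zero]
    · rw [hw.zero (t - s) (by linarith), hg.zero (t - s) (by linarith), add_zero, zero_mul]
  · have h1 : ∫ s : ℝ, (w (t - s) + pr x w (t - s)) * kx x s =
        ∫ s in Set.Icc (0 : ℝ) t, (w (t - s) + pr x w (t - s)) * kx x s := by
      rw [setIntegral_eq_integral_of_forall_compl_eq_zero]
      intro s hs
      rw [Set.mem_Icc, not_and_or, not_le, not_le] at hs
      rcases hs with h | h
      · unfold kx
        rw [if_neg (not_le.2 h), mul_zero]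
      · rw [hw.zero (t - s) (by linarith), hg.zero (t - s) (by linarith), add_zero, zero_mul]
    have h2 : ∫ s in Set.Icc (0 : ℝ) t, (w (t - s) + pr x w (t - s)) * kx x s =
        ∫ s in (0 : ℝ)..t, (w (t - s) + pr x w (t - s)) *
          Complex.exp ((-1 + Complex.I * (x : ℂ)) * (s : ℂ)) := by
      rw [intervalIntegral.integral_of_le ht.le, ← integral_Icc_eq_integral_Ioc]
      refine setIntegral_congr_fun measurableSet_Icc fun s hs => ?_
      unfold kx
      rw [if_pos hs.1]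
    rw [h1, h2]
    have h3 : ∀ s : ℝ, HasDerivAt (fun s : ℝ => -(pr x w (t - s) *
        Complex.exp ((-1 + Complex.I * (x : ℂ)) * (s : ℂ)))) ((w (t - s) + pr x w (t - s)) *
          Complex.exp ((-1 + Complex.I * (x : ℂ)) * (s : ℂ))) s := by
      intro s
      have e1 : HasDerivAt (fun s : ℝ => t - s) (-1) s := (hasDerivAt_id s).const_sub t
      have e2 := (pr_deriv x hw.cont (t - s)).scomp s e1
      have e3 : HasDerivAt (fun s : ℝ => (-1 + Complex.I * (x : ℂ)) * (s : ℂ))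
          ((-1 + Complex.I * (x : ℂ)) * 1) s :=
        (Complex.ofRealCLM.hasDerivAt (x := s)).const_mul _
      have e4 := (e2.mul e3.cexp).neg
      refine e4.congr_deriv ?_
      simp only [Function.comp_apply, neg_smul, one_smul, mul_one]
      ring
    rw [intervalIntegral.integral_eq_sub_of_hasDerivAt (fun s _ => h3 s)]
    · rw [sub_self, hg.zero 0 le_rfl]
      simp
    · apply Continuous.intervalIntegrable
      have c1 := hw.cont
      have c2 := hg.cont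
      fun_prop

theorem rr_eq {x : ℝ} {w : ℝ → ℂ} (hw : Nc w) (hg : Nc (pr x w)) (t : ℝ) :
    RR x (fun t => w t + pr x w t) t = w t := by
  unfold RR
  rw [cv_eq hw hg]
  ring

theorem rr_sum {φ : ℝ → ℝ} (hφ : IsWeight φ) (x : ℝ)
    (hadd : ∀ f : ℝ → ℂ, LP φ f → ∀ g : ℝ → ℂ, LP φ g → ∀ a : ℂ, ∀ t : ℝ,
      RR x (fun t => f t - a * g t) t = RR x f t - a * RR x g t)
    {f : ℝ → ℂ} (hf : LP φ f) {g : ℕ → ℝ → ℂ} (hg : ∀ n, LP φ (g n)) (c : ℕ → ℂ) (N : ℕ) (t : ℝ) :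
    RR x (fun t => f t - ∑ n ∈ Finset.range N, c n * g n t) t =
      RR x f t - ∑ n ∈ Finset.range N, c n * RR x (g n) t := by
  induction N with
  | zero => simp
  | succ N ih =>
    have h1 : (fun t => f t - ∑ n ∈ Finset.range (N + 1), c n * g n t) =
        fun t => (fun t => f t - ∑ n ∈ Finset.range N, c n * g n t) t - c N * g N t := by
      funext t
      rw [Finset.sum_range_succ]
      ring
    rw [h1, hadd _ (lp_sub1 hφ hf (lp_sum hφ hg c N)) _ (hg N), ih, Finset.sum_range_succ]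
    ring

end H17

open H17

/-- DE0 -/
theorem de0 (den : DenStmt) (fac : FacStmt) : De0Stmt := by
  intro φ hφ x0 f hf hf0 ε hε
  obtain ⟨D, hD, hfac⟩ := fac φ hφ
  have hadd : ∀ f : ℝ → ℂ, LP φ f → ∀ g : ℝ → ℂ, LP φ g → ∀ a : ℂ, ∀ t : ℝ,
      RR x0 (fun t => f t - a * g t) t = RR x0 f t - a * RR x0 g t :=
    fun f hf g hg a t => (hfac x0 f hf).2.2.2 g hg a t
  obtain ⟨q', hq'⟩ : ∃ q' : ℕ → ℝ → ℂ, q' = fun n : ℕ => q ((n : ℝ) + 3 / 2) := ⟨_, rfl⟩
  have hqn : ∀ n, Nc (q' n) := by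
    intro n
    rw [hq']
    exact nc_q (by linarith [Nat.cast_nonneg (α := ℝ) n])
  have hql : ∀ n, LP φ (q' n) := fun n => (hqn n).lp hφ
  have hv := nc_vx x0
  have hvl : LP φ (vx x0) := hv.lp hφ
  set W := ∫ t, φ t * ‖vx x0 t‖ with hW
  have hW0 : 0 ≤ W := integral_nonneg fun t => mul_nonneg (w0 hφ t) (norm_nonneg _)
  -- the first approximation
  set δ := ε / (2 * (1 + W)) with hδ
  have hδ0 : 0 < δ := by positivity
  obtain ⟨N₁, c₁, h1⟩ := den φ hφ f hf δ hδ0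
  obtain ⟨w, hw⟩ : ∃ w : ℝ → ℂ, w = fun t => ∑ n ∈ Finset.range N₁, c₁ n * q' n t := ⟨_, rfl⟩
  have hwn : Nc w := by
    rw [hw]
    exact Nc.sum hqn c₁ N₁
  have hwl := hwn.lp hφ
  have h1' : ∫ t, φ t * ‖f t - w t‖ < δ := by
    rw [hw, hq']
    exact h1
  obtain ⟨a, ha⟩ : ∃ a : ℂ, a = FT w (x0 : ℂ) := ⟨_, rfl⟩
  have ha1 : ‖a‖ ≤ δ := by
    have h2 := ft_sub hφ hf hwl 1 x0
    have h3 := ft_le hφ (lp_sub hφ hf hwl 1) x0
    rw [h2, hf0, one_mul, zero_sub, norm_neg, ← ha] at h3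
    refine h3.trans (le_of_lt ?_)
    simpa using h1'
  obtain ⟨w', hw'⟩ : ∃ w' : ℝ → ℂ, w' = fun t => w t - a * vx x0 t := ⟨_, rfl⟩
  have hwn' : Nc w' := by
    rw [hw']
    exact hwn.sub hv a
  have hwl' := hwn'.lp hφ
  have hw0' : FT w' (x0 : ℂ) = 0 := by
    rw [hw', ft_sub hφ hwl hvl, ft_vx, ← ha]
    ring
  have h2 : ∫ t, φ t * ‖f t - w' t‖ < ε / 2 := by
    have h3 := tri hφ hf hwl hwl'
    have h4 : ∫ t, φ t * ‖w t - w' t‖ = ‖a‖ * W := by
      rw [hW, ← integral_const_mul]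
      congr 1
      funext t
      rw [hw']
      simp only [sub_sub_cancel]
      rw [norm_mul]
      ring
    rw [h4] at h3
    have h5 : ‖a‖ * W ≤ δ * W := mul_le_mul_of_nonneg_right ha1 hW0
    have h6 : δ + δ * W = ε / 2 := by
      rw [hδ]
      field_simp
    linarith
  -- the second approximation
  have hgn : Nc (pr x0 w') := nc_pr hφ hwn' hw0'
  obtain ⟨u, hu⟩ : ∃ u : ℝ → ℂ, u = fun t => w' t + pr x0 w' t := ⟨_, rfl⟩
  have hun : Nc u := by
    rw [hu]
    have := hwn'.add hgn 1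
    simpa using this
  have hul := hun.lp hφ
  have hru : ∀ t, RR x0 u t = w' t := by
    intro t
    rw [hu]
    exact rr_eq hwn' hgn t
  obtain ⟨N, c, h3⟩ := den φ hφ u hul (ε / (2 * (D + 1))) (by positivity)
  refine ⟨N, c, ?_⟩
  have h3' : ∫ t, φ t * ‖u t - ∑ n ∈ Finset.range N, c n * q' n t‖ < ε / (2 * (D + 1)) := by
    rw [hq']
    exact h3
  have hsl := lp_sum hφ hql c N
  have h4 := (hfac x0 _ (lp_sub1 hφ hul hsl)).2.1
  have h5 : ∀ t, RR x0 (fun t => u t - ∑ n ∈ Finset.range N, c n * q' n t) t =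
      w' t - ∑ n ∈ Finset.range N, c n * RR x0 (q' n) t := by
    intro t
    rw [rr_sum hφ x0 hadd hul hql c N t, hru]
  simp only [h5] at h4
  have hRl : ∀ n, LP φ (RR x0 (q' n)) := fun n => (hfac x0 _ (hql n)).1
  have h6 := tri hφ hf hwl' (lp_sum hφ hRl c N)
  have h7 : D * ∫ t, φ t * ‖u t - ∑ n ∈ Finset.range N, c n * q' n t‖ ≤
      D * (ε / (2 * (D + 1))) := mul_le_mul_of_nonneg_left h3'.le hD
  have h8 : D * (ε / (2 * (D + 1))) ≤ ε / 2 := by
    rw [mul_div_assoc', div_le_div_iff₀ (by positivity) (by norm_num)]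
    nlinarith
  have h9 : ∫ t, φ t * ‖f t - ∑ n ∈ Finset.range N, c n * RR x0 (q' n) t‖ < ε := by linarith
  rw [hq'] at h9
  exact h9

end

end Pool.Agent.WK
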