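import Pool.Agent.WK.Stmts

/-!
# MP_7d2497_an, squad WK, row ADD (helper60): adding one point
-/

set_option autoImplicit false

namespace Pool.Agent.WK

open MeasureTheory Filter Topology Complex
open Pool.Agent.H78E

noncomputable section

namespace H60A

theorem norm_expR (x t : ℝ) : ‖expR x t‖ = 1 := by
  unfold expR
  rw [Complex.norm_exp]
  have : (-(Complex.I * (t : ℂ) * (x : ℂ))).re = 0 := by simp
  rw [this, Real.exp_zero]

theorem cont_expR (x : ℝ) : Continuous (expR x) := by
  unfold expR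
  fun_prop

theorem cont_ES (F : Finset ℝ) (c : ℝ → ℂ) : Continuous (ES F c) := by
  unfold ES
  exact continuous_finsetSum _ fun x _ => continuous_const.mul (cont_expR x)

theorem coh_nonneg {φ : ℝ → ℝ} (hφ : IsWeight φ) {K : Set ℝ} {T C : ℝ} (h : Coh φ K T C) :
    0 ≤ C := by
  have h1 := h ∅ 0 1 (by simp) (fun t _ _ => by simp [ES]) 0
  have h2 := hφ.one_le (-|0|)
  simp only [ES, Finset.sum_empty, norm_zero, mul_one] at h1
  by_contra hc
  push Not at hc
  nlinarith

theorem int_u {φ : ℝ → ℝ} (hφ : IsWeight φ) {f : ℝ → ℂ} (hf : L1 φ f) : Integrable f := by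
  refine hf.2.mono' hf.1 (ae_of_all _ fun t => ?_)
  have := mul_le_mul_of_nonneg_right (hφ.one_le t) (norm_nonneg (f t))
  rw [one_mul] at this
  exact this

theorem tail {g : ℝ → ℝ} (hg : Integrable g) {ε : ℝ} (hε : 0 < ε) (T : ℝ) :
    ∃ T' : ℝ, T ≤ T' ∧ 0 ≤ T' ∧ ∫ t in Set.Ioi T', g t < ε := by
  have h1 : Tendsto (fun n : ℕ => ∫ t in Set.Ioi (n : ℝ), g t) atTop
      (𝓝 (∫ t in ⋂ n : ℕ, Set.Ioi (n : ℝ), g t)) := by
    apply tendsto_setIntegral_of_antitone
    · exact fun n => measurableSet_Ioi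
    · intro m n hmn
      apply Set.Ioi_subset_Ioi
      exact_mod_cast hmn
    · exact ⟨0, hg.integrableOn⟩
  have h2 : (⋂ n : ℕ, Set.Ioi (n : ℝ)) = ∅ := by
    ext x
    simp only [Set.mem_iInter, Set.mem_Ioi, Set.mem_empty_iff_false, iff_false, not_forall, not_lt]
    exact exists_nat_ge x
  rw [h2, setIntegral_empty] at h1
  obtain ⟨n, hn1, hn2⟩ := ((h1.eventually_lt_const hε).and
    (eventually_ge_atTop ⌈max T 0⌉₊)).exists
  have h3 : max T 0 ≤ n := (Nat.le_ceil _).trans (by exact_mod_cast hn2)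
  exact ⟨n, (le_max_left _ _).trans h3, (le_max_right _ _).trans h3, hn1⟩

end H60A

open H60A

theorem add (hspu : SpuStmt) (hlew : LewStmt) : AddStmt := by
  intro φ hφ K T C y hcoh hsp hy
  have hC := coh_nonneg hφ hcoh
  obtain ⟨u, hu, hucont, ⟨A0, hA0⟩, hu1, hu0⟩ := hspu φ hφ K hsp y
  have hui := int_u hφ hu.1
  have hrw : IsWeight (fun t => φ (-t)) := (hlew φ hφ).2.2
  obtain ⟨D, hD0, hD⟩ := (hlew _ hrw).1
  obtain ⟨hu', -⟩ := hD u A0 hucont.aestronglyMeasurable hu.2 hA0
  have hui' : Integrable fun t : ℝ => φ (-t) * ‖u t‖ := hu'.1.2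
  have hC1 : 0 < 1 + C := by linarith
  obtain ⟨T', hT1, hT2, hT3⟩ := tail hui' (show 0 < 1 / (2 * (1 + C)) by positivity) T
  set I : ℝ := ∫ t, ‖u t‖ with hI
  have hI0 : 0 ≤ I := integral_nonneg fun _ => norm_nonneg _
  refine ⟨T', (1 + C) * (2 * I + 2), ?_⟩
  intro F c m hF hm s
  have hm0 : 0 ≤ m := (norm_nonneg _).trans (hm 0 le_rfl hT2)
  set a : ℂ := if y ∈ F then c y else 0 with ha
  have hdec : ∀ t, ES F c t = a * expR y t + ES (F.erase y) c t := by
    intro t
    unfold ES
    by_cases hyF : y ∈ F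
    · rw [ha, if_pos hyF, Finset.add_sum_erase F (fun x => c x * expR x t) hyF]
    · rw [ha, if_neg hyF, Finset.erase_eq_of_notMem hyF, zero_mul, zero_add]
  have hE : ((F.erase y : Finset ℝ) : Set ℝ) ⊆ K := by
    intro x hx
    rw [Finset.mem_coe, Finset.mem_erase] at hx
    rcases hF hx.2 with h | h
    · exact absurd h hx.1
    · exact h
  have hq : ∀ s, ‖ES (F.erase y) c s‖ ≤ C * (m + ‖a‖) * φ (-|s|) := by
    apply hcoh _ _ _ hE
    intro t h0 hT
    have h1 : ES (F.erase y) c t = ES F c t - a * expR y t := by rw [hdec]; ring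
    rw [h1]
    refine (norm_sub_le _ _).trans ?_
    rw [norm_mul, norm_expR, mul_one]
    have := hm t h0 (hT.trans hT1)
    linarith
  have hp : ∀ s, ‖ES F c s‖ ≤ (1 + C) * (m + ‖a‖) * φ (-|s|) := by
    intro s
    rw [hdec]
    refine (norm_add_le _ _).trans ?_
    rw [norm_mul, norm_expR, mul_one]
    have h1 := hq s
    have h2 := hφ.one_le (-|s|)
    have h3 : ‖a‖ ≤ (m + ‖a‖) * φ (-|s|) := by
      have : 0 ≤ ‖a‖ := norm_nonneg _
      nlinarith
    calc ‖a‖ + ‖ES (F.erase y) c s‖ ≤ (m + ‖a‖) * φ (-|s|) + C * (m + ‖a‖) * φ (-|s|) :=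
          add_le_add h3 h1
      _ = _ := by ring
  have hint : ∫ t, u t * ES F c t = a := by
    have h1 : ∀ x : ℝ, Integrable fun t => u t * expR x t := by
      intro x
      refine hui.norm.mono' (hui.1.mul (cont_expR x).aestronglyMeasurable)
        (ae_of_all _ fun t => ?_)
      rw [norm_mul, norm_expR, mul_one]
    have h2 : ∀ t, u t * ES F c t = ∑ x ∈ F, c x * (u t * expR x t) := by
      intro t
      unfold ES
      rw [Finset.mul_sum]
      refine Finset.sum_congr rfl fun x _ => ?_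
      ring
    simp_rw [h2]
    rw [integral_finsetSum _ fun x _ => (h1 x).const_mul _]
    have h3 : ∀ x : ℝ, ∫ t, c x * (u t * expR x t) = c x * FT u (x : ℂ) := by
      intro x
      rw [integral_const_mul]
      rfl
    simp_rw [h3]
    by_cases hyF : y ∈ F
    · rw [Finset.sum_eq_single y, hu1, mul_one, ha, if_pos hyF]
      · intro x hx hxy
        have hxK : x ∈ K := by
          rcases hF hx with h | h
          · exact absurd h hxy
          · exact h
        rw [hu0 x hxK hxy, mul_zero]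
      · intro h
        exact absurd hyF h
    · rw [ha, if_neg hyF]
      refine Finset.sum_eq_zero fun x hx => ?_
      have hxy : x ≠ y := fun h => hyF (h ▸ hx)
      have hxK : x ∈ K := by
        rcases hF hx with h | h
        · exact absurd h hxy
        · exact h
      rw [hu0 x hxK hxy, mul_zero]
  have hbd : ‖a‖ ≤ m * I + (1 + C) * (m + ‖a‖) * ∫ t in Set.Ioi T', φ (-t) * ‖u t‖ := by
    have hg : Integrable fun t => m * ‖u t‖ + (1 + C) * (m + ‖a‖) *
        (Set.Ioi T').indicator (fun t => φ (-t) * ‖u t‖) t :=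
      (hui.norm.const_mul m).add ((hui'.indicator measurableSet_Ioi).const_mul _)
    have h1 : ∀ t, ‖u t * ES F c t‖ ≤ m * ‖u t‖ + (1 + C) * (m + ‖a‖) *
        (Set.Ioi T').indicator (fun t => φ (-t) * ‖u t‖) t := by
      intro t
      have hnn : 0 ≤ (1 + C) * (m + ‖a‖) := by positivity
      rw [norm_mul]
      rcases lt_or_ge t 0 with h0 | h0
      · rw [hu.2 t h0, norm_zero, zero_mul, mul_zero, zero_add]
        have h2 : t ∉ Set.Ioi T' := by
          rw [Set.mem_Ioi]
          linarith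
        rw [Set.indicator_of_notMem h2, mul_zero]
      rcases le_or_gt t T' with h1 | h1
      · have h2 : t ∉ Set.Ioi T' := by
          rw [Set.mem_Ioi]
          linarith
        rw [Set.indicator_of_notMem h2, mul_zero, add_zero, mul_comm]
        exact mul_le_mul_of_nonneg_right (hm t h0 h1) (norm_nonneg _)
      · rw [Set.indicator_of_mem (Set.mem_Ioi.mpr h1)]
        have h2 := hp t
        rw [abs_of_nonneg h0] at h2
        have h3 : 0 ≤ m * ‖u t‖ := by positivity
        calc ‖u t‖ * ‖ES F c t‖ ≤ ‖u t‖ * ((1 + C) * (m + ‖a‖) * φ (-t)) :=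
              mul_le_mul_of_nonneg_left h2 (norm_nonneg _)
          _ = (1 + C) * (m + ‖a‖) * (φ (-t) * ‖u t‖) := by ring
          _ ≤ _ := by linarith
    have h2 := norm_integral_le_of_norm_le hg (ae_of_all _ h1)
    rw [hint] at h2
    rw [integral_add (hui.norm.const_mul m) ((hui'.indicator measurableSet_Ioi).const_mul _),
      integral_const_mul, integral_const_mul, integral_indicator measurableSet_Ioi] at h2
    exact h2
  have hbd2 : ‖a‖ ≤ m * (2 * I + 1) := by
    have h1 : (1 + C) * (m + ‖a‖) * ∫ t in Set.Ioi T', φ (-t) * ‖u t‖ ≤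
        (1 + C) * (m + ‖a‖) * (1 / (2 * (1 + C))) :=
      mul_le_mul_of_nonneg_left hT3.le (by positivity)
    have h2 : (1 + C) * (m + ‖a‖) * (1 / (2 * (1 + C))) = (m + ‖a‖) / 2 := by
      field_simp
    rw [h2] at h1
    linarith
  have hφs := hφ.one_le (-|s|)
  calc ‖ES F c s‖ ≤ (1 + C) * (m + ‖a‖) * φ (-|s|) := hp s
    _ ≤ (1 + C) * (m + m * (2 * I + 1)) * φ (-|s|) := by gcongr
    _ = (1 + C) * (2 * I + 2) * m * φ (-|s|) := by ring

end

end Pool.Agent.WK
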