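import Pool.Agent.WK.Stmts

/-!
# MP_7d2497_an, squad WK, module AID: approximate identity adapted to a sparse set
-/

set_option autoImplicit false

namespace Pool.Agent.WK

open MeasureTheory Filter Topology Complex
open Pool.Agent.H78E

noncomputable section

namespace AID

/-- the integrand of a pairing is integrable -/
theorem int_mul {φ : ℝ → ℝ} {f ψ : ℝ → ℂ} (hf : L1 φ f) (hψ : AEStronglyMeasurable ψ volume)
    {C : ℝ} (hC : ∀ t : ℝ, ‖ψ t‖ ≤ C * φ t) : Integrable (fun t => f t * ψ t) := by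
  refine Integrable.mono' (hf.2.const_mul C) (hf.1.mul hψ) (Eventually.of_forall fun t => ?_)
  rw [norm_mul]
  calc ‖f t‖ * ‖ψ t‖ ≤ ‖f t‖ * (C * φ t) := mul_le_mul_of_nonneg_left (hC t) (norm_nonneg _)
    _ = C * (φ t * ‖f t‖) := by ring

theorem norm_int_mul {φ : ℝ → ℝ} {f ψ : ℝ → ℂ} (hf : L1 φ f)
    {C : ℝ} (hC : ∀ t : ℝ, ‖ψ t‖ ≤ C * φ t) :
    ‖∫ t : ℝ, f t * ψ t‖ ≤ C * ∫ t : ℝ, φ t * ‖f t‖ := by
  rw [← integral_const_mul]
  refine norm_integral_le_of_norm_le (hf.2.const_mul C) (Eventually.of_forall fun t => ?_)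
  rw [norm_mul]
  calc ‖f t‖ * ‖ψ t‖ ≤ ‖f t‖ * (C * φ t) := mul_le_mul_of_nonneg_left (hC t) (norm_nonneg _)
    _ = C * (φ t * ‖f t‖) := by ring

/-- tails of a sparse set -/
theorem tail {K : Set ℝ} (hK : Sparse K) {ε : ℝ} (hε : 0 < ε) :
    ∃ F : Finset ℝ, (F : Set ℝ) ⊆ K ∧
      (∑' x : (K \ (F : Set ℝ) : Set ℝ), 1 / (1 + (x : ℝ) ^ 2)) < ε := by
  classical
  set g : ℝ → ℝ := fun x => 1 / (1 + x ^ 2) with hg
  have h1 : Summable (K.indicator g) := by
    rw [← summable_subtype_iff_indicator]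
    exact hK
  have h2 := tendsto_tsum_compl_atTop_zero (K.indicator g)
  have h3 : ∀ᶠ s : Finset ℝ in atTop, (∑' a : {x // x ∉ s}, K.indicator g a) < ε :=
    h2.eventually (gt_mem_nhds hε)
  obtain ⟨s, hs⟩ := h3.exists
  refine ⟨s.filter (fun x => x ∈ K), ?_, ?_⟩
  · intro x hx
    simp only [Finset.coe_filter, Set.mem_ofPred_eq] at hx
    exact hx.2
  · have h4 : (∑' x : (K \ ((s.filter (fun x => x ∈ K) : Finset ℝ) : Set ℝ) : Set ℝ),
        1 / (1 + (x : ℝ) ^ 2)) = ∑' a : {x // x ∉ s}, K.indicator g a := by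
      have e1 := tsum_subtype (K \ ((s.filter (fun x => x ∈ K) : Finset ℝ) : Set ℝ)) g
      have e2 := tsum_subtype ({x | x ∉ s}) (K.indicator g)
      refine e1.trans (Eq.trans ?_ e2.symm)
      apply tsum_congr
      intro x
      by_cases hx : x ∈ K
      · by_cases hxs : x ∈ s
        · rw [Set.indicator_of_notMem, Set.indicator_of_notMem]
          · simpa using hxs
          · simp [hxs, hx]
        · rw [Set.indicator_of_mem, Set.indicator_of_mem, Set.indicator_of_mem hx]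
          · simpa using hxs
          · simp [hxs, hx]
      · rw [Set.indicator_of_notMem]
        · by_cases hxs : x ∈ s
          · rw [Set.indicator_of_notMem]
            simpa using hxs
          · rw [Set.indicator_of_mem, Set.indicator_of_notMem hx]
            simpa using hxs
        · intro h
          exact hx h.1
    rw [h4]
    exact hs

end AID

open AID in
theorem aid (hBla : BlaStmt) (hLew : LewStmt) (hQai : QaiStmt) (hSum : SumStmt) : AidStmt := by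
  intro φ hφ K hK
  obtain ⟨⟨D0, hD0, hlew⟩, -, -⟩ := hLew φ hφ
  obtain ⟨⟨D, hD⟩, hq⟩ := hQai φ hφ
  have key : ∀ n : ℕ, ∃ (f : ℝ → ℂ) (F : Finset ℝ), LP φ f ∧
      LP φ (fun t => f t - q ((n : ℝ) + 1) t) ∧
      (∫ t : ℝ, φ t * ‖f t - q ((n : ℝ) + 1) t‖) ≤ 1 / ((n : ℝ) + 1) ∧
      (F : Set ℝ) ⊆ K ∧ ∀ x ∈ K, x ∉ F → FT f (x : ℂ) = 0 := by
    intro n
    have hl : (1 : ℝ) ≤ (n : ℝ) + 1 := by
      have : (0 : ℝ) ≤ n := Nat.cast_nonneg n
      linarith
    have hl0 : (0 : ℝ) < (n : ℝ) + 1 := by linarith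
    obtain ⟨C, hC, hb⟩ := hBla ((n : ℝ) + 1) hl
    have hε : 0 < 1 / (((n : ℝ) + 1) * (D0 * C + 1)) := by positivity
    obtain ⟨F, hFK, hFs⟩ := tail hK hε
    have hsub : K \ (F : Set ℝ) ⊆ K := Set.sdiff_subset
    obtain ⟨f, hfc, hf0, ⟨A, hfA⟩, hfq, hfz⟩ := hb (K \ (F : Set ℝ)) (hSum.2.2.2.1 K _ hsub hK)
    have hf1 : LP φ f := (hlew f A hfc.aestronglyMeasurable (fun t ht => hf0 t ht.le) hfA).1
    have hq1 : LP φ (q ((n : ℝ) + 1)) := (hD _ hl).1
    have hS : 0 ≤ ∑' x : (K \ (F : Set ℝ) : Set ℝ), 1 / (1 + (x : ℝ) ^ 2) :=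
      tsum_nonneg fun x => by positivity
    have h2 := hlew (fun t => f t - q ((n : ℝ) + 1) t)
      (C * (∑' x : (K \ (F : Set ℝ) : Set ℝ), 1 / (1 + (x : ℝ) ^ 2)))
      (hf1.1.1.sub hq1.1.1) (fun t ht => by
        show f t - q ((n : ℝ) + 1) t = 0
        rw [hf0 t ht.le, hq1.2 t ht, sub_zero]) (fun t _ => hfq t)
    refine ⟨f, F, hf1, h2.1, h2.2.trans ?_, hFK, ?_⟩
    · calc D0 * (C * (∑' x : (K \ (F : Set ℝ) : Set ℝ), 1 / (1 + (x : ℝ) ^ 2)))
          = (D0 * C) * (∑' x : (K \ (F : Set ℝ) : Set ℝ), 1 / (1 + (x : ℝ) ^ 2)) := by ring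
        _ ≤ (D0 * C + 1) * (1 / (((n : ℝ) + 1) * (D0 * C + 1))) := by
            apply mul_le_mul _ hFs.le hS (by positivity)
            linarith
        _ = 1 / ((n : ℝ) + 1) := by
            have : D0 * C + 1 ≠ 0 := by positivity
            field_simp
    · intro x hx hxF
      have hx0 : ((x : ℂ)).im ≤ 0 := by simp
      exact (hfz (x : ℂ) hx0).2 ⟨x, ⟨hx, by simpa using hxF⟩, rfl⟩
  choose f F hf hfq hfs hFK hFz using key
  refine ⟨f, F, D + 1, fun n => ⟨hf n, ?_⟩, fun n => ⟨hFK n, hFz n⟩, ?_⟩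
  · have hl : (1 : ℝ) ≤ (n : ℝ) + 1 := by
      have : (0 : ℝ) ≤ n := Nat.cast_nonneg n
      linarith
    have hq1 := hD _ hl
    have h1 : ∫ t : ℝ, φ t * ‖f n t‖ ≤
        ∫ t : ℝ, (φ t * ‖q ((n : ℝ) + 1) t‖ + φ t * ‖f n t - q ((n : ℝ) + 1) t‖) := by
      apply integral_mono (hf n).1.2 (hq1.1.1.2.add (hfq n).1.2)
      intro t
      have h0 : 0 ≤ φ t := le_trans zero_le_one (hφ.one_le t)
      have h3 : ‖f n t‖ ≤ ‖q ((n : ℝ) + 1) t‖ + ‖f n t - q ((n : ℝ) + 1) t‖ := by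
        calc ‖f n t‖ = ‖q ((n : ℝ) + 1) t + (f n t - q ((n : ℝ) + 1) t)‖ := by
              rw [add_sub_cancel]
          _ ≤ _ := norm_add_le _ _
      show φ t * ‖f n t‖ ≤ φ t * ‖q ((n : ℝ) + 1) t‖ + φ t * ‖f n t - q ((n : ℝ) + 1) t‖
      rw [← mul_add]
      exact mul_le_mul_of_nonneg_left h3 h0
    rw [integral_add hq1.1.1.2 (hfq n).1.2] at h1
    have h4 : 1 / ((n : ℝ) + 1) ≤ 1 := by
      rw [div_le_one (by linarith)]
      exact hl
    linarith [hfs n, hq1.2]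
  · rintro ψ hψ ⟨C, hC⟩
    have hC0 : 0 ≤ C := by
      have h1 := hC 0
      have h2 := hφ.one_le 0
      by_contra h
      push Not at h
      have : C * φ 0 < 0 := mul_neg_of_neg_of_pos h (by linarith)
      linarith [norm_nonneg (ψ 0)]
    have h1 := hq ψ hψ ⟨C, hC⟩
    have h2 : Tendsto (fun n : ℕ => ∫ t : ℝ, (f n t - q ((n : ℝ) + 1) t) * ψ t) atTop (𝓝 0) := by
      have h3 : Tendsto (fun n : ℕ => C * (1 / ((n : ℝ) + 1))) atTop (𝓝 0) := by
        have := tendsto_one_div_add_atTop_nhds_zero_nat (𝕜 := ℝ)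
        simpa using this.const_mul C
      refine squeeze_zero_norm (fun n => ?_) h3
      refine (norm_int_mul (hfq n).1 hC).trans ?_
      exact mul_le_mul_of_nonneg_left (hfs n) hC0
    have h4 := h1.add h2
    rw [add_zero] at h4
    refine h4.congr fun n => ?_
    have hl : (1 : ℝ) ≤ (n : ℝ) + 1 := by
      have : (0 : ℝ) ≤ n := Nat.cast_nonneg n
      linarith
    rw [← integral_add (int_mul (hD _ hl).1.1 hψ.aestronglyMeasurable hC)
      (int_mul (hfq n).1 hψ.aestronglyMeasurable hC)]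
    apply integral_congr_ae
    refine Eventually.of_forall fun t => ?_
    show q ((n : ℝ) + 1) t * ψ t + (f n t - q ((n : ℝ) + 1) t) * ψ t = f n t * ψ t
    ring

end

end Pool.Agent.WK
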