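import Pool.Agent.WK.Stmts
import Pool.Agent.Helper7_WK.Uniq
import Pool.Agent.Helper72_E.Bip
import Pool.Agent.Helper85_E.Lapu

/-!
# MP_7d2497_an, squad WK: row VAN
-/

namespace Pool.Agent.WK

open MeasureTheory Filter Topology Complex
open Pool.Agent.H78E

theorem van : VanStmt := by
  intro φ hφ K hK hKc D hD h0 hS
  exact Pool.Agent.Helper7_WK.uniq (Pool.Agent.Helper15_E.line bipolar) H85.lapu hφ hD h0 hK hKc hS

end Pool.Agent.WK
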