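import Pool.Agent.WK.Sim
import Pool.Agent.WK.Van

/-!
# MP_7d2497_an, squad WK: row ASUR
-/

namespace Pool.Agent.WK

open MeasureTheory Filter Topology Complex
open Pool.Agent.H78E

theorem asur (hSim : SimStmt) (hVan : VanStmt) : AsurStmt := by
  intro φ hφ K hN L hKL hE g hg
  by_cases hg0 : g =ᵐ[volume] 0
  · refine ⟨0, ⟨LInf.zero72, fun f _ s => by simp⟩, ?_⟩
    filter_upwards [hg0] with t ht _
    rw [ht]
  obtain ⟨hne, hsimple, hspec⟩ := hSim φ hφ K hN g hg hg0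
  obtain ⟨G, hG, hGe, hGs⟩ := hE g hg.1 hne hsimple (hspec.trans (Set.image_mono hKL))
  have hGK : Spec φ G ⊆ K := by
    intro x hx
    have h1 : (x : ℂ) ∈ SpecPos φ g := by
      rw [← hGs]
      exact ⟨x, hx, rfl⟩
    obtain ⟨y, hy, hxy⟩ := hspec h1
    exact (Complex.ofReal_injective hxy) ▸ hy
  refine ⟨G, ⟨hG, fun f hf s => ?_⟩, hGe⟩
  have key := Pool.Agent.Helper7_WK.cr_eq_zero hφ hG hf.1.1
  apply key
  apply hVan φ hφ K hN.closed hN.countable _ (Pool.Agent.Helper7_WK.cr_linf hφ hG hf.1.1) _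
    ((Pool.Agent.Helper7_WK.Spec_cr bipolar hφ hG hf.1.1).trans hGK)
  refine Eventually.of_forall fun u hu => ?_
  have h2 := hg.2 _ (JK_shift hφ hf hu)
  rw [← h2, ← Pool.Agent.Helper7_WK.cr_shift]
  unfold Pool.Agent.Helper7_WK.cr
  apply integral_congr_ae
  filter_upwards [Pool.Agent.Helper7_WK.ae_add u hGe] with t ht
  by_cases h0 : 0 ≤ t
  · rw [ht (by linarith)]
  · rw [hf.1.2 t (not_le.mp h0), zero_mul, zero_mul]

end Pool.Agent.WK
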