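import Pool.Agent.WK.Stmts

/-!
# MP_7d2497_an, squad WK, row AV (helper60): averages
-/

set_option autoImplicit false

namespace Pool.Agent.WK

open MeasureTheory Filter Topology Complex
open Pool.Agent.H78E

noncomputable section

namespace H60V

theorem int_u {φ : ℝ → ℝ} (hφ : IsWeight φ) {f : ℝ → ℂ} (hf : L1 φ f) : Integrable f := by
  refine hf.2.mono' hf.1 (ae_of_all _ fun t => ?_)
  have := mul_le_mul_of_nonneg_right (hφ.one_le t) (norm_nonneg (f t))
  rw [one_mul] at this
  exact this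

theorem cv_eq (f k : ℝ → ℂ) :
    cv f k = convolution k f (ContinuousLinearMap.mul ℂ ℂ) volume := by
  funext t
  unfold cv convolution
  congr 1
  funext s
  simp [mul_comm]

theorem cv_assoc {v k x : ℝ → ℂ} (hv : Integrable v) (hk : Integrable k) (hx : Integrable x) :
    ∀ᵐ t : ℝ, cv (cv v k) x t = cv v (cv k x) t := by
  have h1 := hx.ae_convolution_exists (ContinuousLinearMap.mul ℂ ℂ) hk
  have h2 := hk.norm.ae_convolution_exists (ContinuousLinearMap.mul ℝ ℝ) hv.norm
  have h3 := hk.norm.integrable_convolution (ContinuousLinearMap.mul ℝ ℝ) hv.norm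
  have h4 := hx.norm.ae_convolution_exists (ContinuousLinearMap.mul ℝ ℝ) h3
  filter_upwards [h4] with t ht
  rw [cv_eq, cv_eq v k, cv_eq v (cv k x), cv_eq k x]
  exact (convolution_assoc (ContinuousLinearMap.mul ℂ ℂ) (ContinuousLinearMap.mul ℂ ℂ)
    (ContinuousLinearMap.mul ℂ ℂ) (ContinuousLinearMap.mul ℂ ℂ)
    (fun a b c => by simp [mul_assoc]) hx.1 hk.1 hv.1 h1 h2 ht).symm

theorem cv_sub {v k x : ℝ → ℂ} (hv : Integrable v) (hk : Integrable k) (hx : Integrable x) :
    ∀ᵐ t : ℝ, cv v (fun s => k s - x s) t = cv v k t - cv v x t := by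
  have h1 := hk.ae_convolution_exists (ContinuousLinearMap.mul ℂ ℂ) hv
  have h2 := hx.ae_convolution_exists (ContinuousLinearMap.mul ℂ ℂ) hv
  filter_upwards [h1, h2] with t ht1 ht2
  have i1 : Integrable fun s => v (t - s) * k s := by
    refine ht1.congr (ae_of_all _ fun s => ?_)
    simp [mul_comm]
  have i2 : Integrable fun s => v (t - s) * x s := by
    refine ht2.congr (ae_of_all _ fun s => ?_)
    simp [mul_comm]
  unfold cv
  rw [← integral_sub i1 i2]
  congr 1
  funext s
  ring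

theorem LP_sub {φ : ℝ → ℝ} (hφ : IsWeight φ) {f g : ℝ → ℂ} (hf : LP φ f) (hg : LP φ g) :
    LP φ fun t => f t - g t := by
  refine ⟨⟨hf.1.1.sub hg.1.1, ?_⟩, fun t ht => by show f t - g t = 0; rw [hf.2 t ht, hg.2 t ht, sub_zero]⟩
  refine (hf.1.2.add hg.1.2).mono'
    (hφ.meas.aestronglyMeasurable.mul (hf.1.1.sub hg.1.1).norm) (ae_of_all _ fun t => ?_)
  have h0 : 0 ≤ φ t := zero_le_one.trans (hφ.one_le t)
  rw [Real.norm_of_nonneg (mul_nonneg h0 (norm_nonneg _))]
  calc φ t * ‖f t - g t‖ ≤ φ t * (‖f t‖ + ‖g t‖) :=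
        mul_le_mul_of_nonneg_left (norm_sub_le _ _) h0
    _ = _ := mul_add _ _ _

theorem kx_LP (hlew : LewStmt) {φ : ℝ → ℝ} (hφ : IsWeight φ) (x0 : ℝ) : LP φ (kx x0) := by
  obtain ⟨D, -, hD⟩ := (hlew φ hφ).1
  refine (hD (kx x0) 1 ?_ ?_ ?_).1
  · have : Measurable (kx x0) := by
      unfold kx
      exact Measurable.ite measurableSet_Ici (by fun_prop) measurable_const
    exact this.aestronglyMeasurable
  · intro t ht
    unfold kx
    rw [if_neg (by linarith)]
  · intro t ht
    unfold kx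
    rw [if_pos ht, Complex.norm_exp, one_mul]
    apply Real.exp_le_exp.2
    simp
    linarith

theorem ka_meas (L y : ℝ) : Measurable (ka L y) := by
  unfold ka
  refine Measurable.ite ?_ (by fun_prop) measurable_const
  exact measurableSet_Icc (a := (0 : ℝ)) (b := L)

theorem ka_norm {L : ℝ} (hL : 0 < L) (y t : ℝ) :
    ‖ka L y t‖ = (Set.Icc 0 L).indicator (fun _ => 1 / L) t := by
  unfold ka
  by_cases h : 0 ≤ t ∧ t ≤ L
  · rw [if_pos h, Set.indicator_of_mem (Set.mem_Icc.mpr h), norm_mul, Complex.norm_real,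
      Real.norm_of_nonneg (by positivity), Complex.norm_exp]
    have : (Complex.I * (y : ℂ) * (t : ℂ)).re = 0 := by simp
    rw [this, Real.exp_zero, mul_one]
  · rw [if_neg h, Set.indicator_of_notMem (by rw [Set.mem_Icc]; exact h), norm_zero]

theorem ka_LP {φ : ℝ → ℝ} (hφ : IsWeight φ) {L S : ℝ} (hL : 0 < L) (y : ℝ)
    (hS : ∀ t : ℝ, 0 ≤ t → t ≤ L → φ t ≤ S) :
    LP φ (ka L y) ∧ ∫ t : ℝ, φ t * ‖ka L y t‖ ≤ S := by
  have hb : ∀ t, φ t * ‖ka L y t‖ ≤ (Set.Icc 0 L).indicator (fun _ => S / L) t := by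
    intro t
    rw [ka_norm hL]
    by_cases h : t ∈ Set.Icc 0 L
    · rw [Set.indicator_of_mem h, Set.indicator_of_mem h]
      have := hS t h.1 h.2
      rw [mul_one_div]
      gcongr
    · rw [Set.indicator_of_notMem h, Set.indicator_of_notMem h, mul_zero]
  have hi : Integrable ((Set.Icc 0 L).indicator fun _ : ℝ => S / L) := by
    rw [integrable_indicator_iff measurableSet_Icc]
    exact integrableOn_const (by simp)
  have h0 : ∀ t, 0 ≤ φ t * ‖ka L y t‖ := fun t =>
    mul_nonneg (zero_le_one.trans (hφ.one_le t)) (norm_nonneg _)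
  have hint : Integrable fun t => φ t * ‖ka L y t‖ := by
    refine hi.mono' (hφ.meas.aestronglyMeasurable.mul (ka_meas L y).norm.aestronglyMeasurable)
      (ae_of_all _ fun t => ?_)
    rw [Real.norm_of_nonneg (h0 t)]
    exact hb t
  refine ⟨⟨⟨(ka_meas L y).aestronglyMeasurable, hint⟩, fun t ht => ?_⟩, ?_⟩
  · unfold ka
    rw [if_neg (by intro h; linarith [h.1])]
  · refine (integral_mono hint hi hb).trans (le_of_eq ?_)
    rw [integral_indicator measurableSet_Icc, setIntegral_const, measureReal_def, Real.volume_Icc,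
      sub_zero, ENNReal.toReal_ofReal hL.le, smul_eq_mul]
    field_simp

theorem FT_ka {L : ℝ} (hL : 0 < L) (y : ℝ) : FT (ka L y) (y : ℂ) = 1 := by
  unfold FT
  have h1 : ∀ t : ℝ, ka L y t * Complex.exp (-(Complex.I * (t : ℂ) * (y : ℂ))) =
      (Set.Icc 0 L).indicator (fun _ => ((1 / L : ℝ) : ℂ)) t := by
    intro t
    unfold ka
    by_cases h : 0 ≤ t ∧ t ≤ L
    · rw [if_pos h, Set.indicator_of_mem (Set.mem_Icc.mpr h), mul_assoc, ← Complex.exp_add]
      have : Complex.I * (y : ℂ) * (t : ℂ) + -(Complex.I * (t : ℂ) * (y : ℂ)) = 0 := by ring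
      rw [this, Complex.exp_zero, mul_one]
    · rw [if_neg h, Set.indicator_of_notMem (by rw [Set.mem_Icc]; exact h), zero_mul]
  simp_rw [h1]
  rw [integral_indicator measurableSet_Icc, setIntegral_const, measureReal_def, Real.volume_Icc,
    sub_zero, ENNReal.toReal_ofReal hL.le, Complex.real_smul, ← Complex.ofReal_mul]
  have : L * (1 / L) = 1 := by field_simp
  rw [this, Complex.ofReal_one]

/-- The convolution of the two kernels. -/
theorem cv_ka_kx {L : ℝ} (hL : 0 < L) (y x0 : ℝ) {t : ℝ} (ht : 0 ≤ t) :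
    (-1 + Complex.I * ((x0 : ℂ) - y)) * cv (ka L y) (kx x0) t =
      ((1 / L : ℝ) : ℂ) * Complex.exp (Complex.I * y * t) *
        (Complex.exp ((-1 + Complex.I * ((x0 : ℂ) - y)) * (t : ℂ)) -
          Complex.exp ((-1 + Complex.I * ((x0 : ℂ) - y)) * ((max 0 (t - L) : ℝ) : ℂ))) := by
  set β : ℂ := -1 + Complex.I * ((x0 : ℂ) - y) with hβ
  have hβ0 : β ≠ 0 := by
    intro h
    have := congrArg Complex.re h
    simp [hβ] at this
  set a : ℝ := max 0 (t - L) with ha
  have hat : a ≤ t := max_le ht (by linarith)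
  have h1 : ∀ s : ℝ, ka L y (t - s) * kx x0 s = (Set.Icc a t).indicator (fun s : ℝ =>
      ((1 / L : ℝ) : ℂ) * Complex.exp (Complex.I * y * t) * Complex.exp (β * (s : ℂ))) s := by
    intro s
    by_cases hs : s ∈ Set.Icc a t
    · have h2 : 0 ≤ s := (le_max_left _ _).trans hs.1
      have h3 : t - L ≤ s := (le_max_right _ _).trans hs.1
      rw [Set.indicator_of_mem hs]
      unfold ka kx
      rw [if_pos ⟨by linarith [hs.2], by linarith⟩, if_pos h2]
      have h4 : Complex.exp (Complex.I * (y : ℂ) * ((t - s : ℝ) : ℂ)) *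
          Complex.exp ((-1 + Complex.I * (x0 : ℂ)) * (s : ℂ)) =
          Complex.exp (Complex.I * y * t) * Complex.exp (β * (s : ℂ)) := by
        rw [← Complex.exp_add, ← Complex.exp_add]
        congr 1
        rw [hβ]
        push_cast
        ring
      linear_combination ((1 / L : ℝ) : ℂ) * h4
    · rw [Set.indicator_of_notMem hs]
      unfold ka kx
      by_cases h2 : 0 ≤ s
      · rw [if_neg, zero_mul]
        rintro ⟨h3, h4⟩
        exact hs ⟨max_le h2 (by linarith), by linarith⟩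
      · rw [if_neg h2, mul_zero]
  unfold cv
  simp_rw [h1]
  rw [integral_indicator measurableSet_Icc, integral_Icc_eq_integral_Ioc,
    ← intervalIntegral.integral_of_le hat, intervalIntegral.integral_const_mul,
    integral_exp_mul_complex hβ0]
  field_simp

/-- The key identity. -/
theorem key {L : ℝ} (hL : 0 < L) (y x0 : ℝ) {t : ℝ} (htL : t ≠ L) :
    ka L y t - cv (ka L y) (kx x0) t = ((1 / L : ℝ) : ℂ) * (kx x0 t -
      Complex.exp (Complex.I * y * L) * kx x0 (t - L)) +
        Complex.I * ((y : ℂ) - x0) * cv (ka L y) (kx x0) t := by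
  rcases lt_or_ge t 0 with h0 | h0
  · have h1 : cv (ka L y) (kx x0) t = 0 := by
      unfold cv
      refine integral_eq_zero_of_ae (ae_of_all _ fun s => ?_)
      show ka L y (t - s) * kx x0 s = 0
      unfold ka kx
      by_cases h2 : 0 ≤ s
      · rw [if_neg, zero_mul]
        intro h3
        linarith [h3.1]
      · rw [if_neg h2, mul_zero]
    rw [h1]
    unfold ka kx
    rw [if_neg (by intro h; linarith [h.1]), if_neg (by linarith), if_neg (by linarith)]
    ring
  · have h1 := cv_ka_kx hL y x0 h0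
    have h2 : ka L y t = ((1 / L : ℝ) : ℂ) * (kx x0 t -
        Complex.exp (Complex.I * y * L) * kx x0 (t - L)) -
        (-1 + Complex.I * ((x0 : ℂ) - y)) * cv (ka L y) (kx x0) t := by
      rw [h1]
      have e1 : kx x0 t = Complex.exp (Complex.I * y * t) *
          Complex.exp ((-1 + Complex.I * ((x0 : ℂ) - y)) * (t : ℂ)) := by
        unfold kx
        rw [if_pos h0, ← Complex.exp_add]
        congr 1
        ring
      rcases lt_or_gt_of_ne htL with h3 | h3
      · have e2 : kx x0 (t - L) = 0 := by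
          unfold kx
          rw [if_neg (by linarith)]
        have e3 : max 0 (t - L) = 0 := max_eq_left (by linarith)
        have e4 : ka L y t = ((1 / L : ℝ) : ℂ) * Complex.exp (Complex.I * y * t) := by
          unfold ka
          rw [if_pos ⟨h0, h3.le⟩]
        rw [e1, e2, e3, e4]
        simp only [Complex.ofReal_zero, mul_zero, Complex.exp_zero]
        ring
      · have e2 : Complex.exp (Complex.I * y * L) * kx x0 (t - L) =
            Complex.exp (Complex.I * y * t) *
              Complex.exp ((-1 + Complex.I * ((x0 : ℂ) - y)) * ((t - L : ℝ) : ℂ)) := by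
          unfold kx
          rw [if_pos (by linarith), ← Complex.exp_add, ← Complex.exp_add]
          congr 1
          push_cast
          ring
        have e3 : max 0 (t - L) = t - L := max_eq_right (by linarith)
        have e4 : ka L y t = 0 := by
          unfold ka
          rw [if_neg (by intro h; linarith [h.2])]
        rw [e1, e2, e3, e4]
        ring
    rw [h2]
    ring

end H60V

open H60V

theorem av (hcnv : CnvStmt) (hlew : LewStmt) : AvStmt := by
  intro φ hφ x0
  have hφ0 : ∀ t, 0 ≤ φ t := fun t => zero_le_one.trans (hφ.one_le t)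
  have hx := kx_LP hlew hφ x0
  set M : ℝ := ∫ t : ℝ, φ t * ‖kx x0 t‖ with hM
  have hM0 : 0 ≤ M := integral_nonneg fun t => mul_nonneg (hφ0 t) (norm_nonneg _)
  refine ⟨M, hM0, ?_⟩
  intro L y S v hL hS hv
  obtain ⟨hk, hkS⟩ := ka_LP hφ hL y hS
  obtain ⟨c1, c2, c3⟩ := hcnv φ hφ v (ka L y) hv hk
  obtain ⟨d1, d2, d3⟩ := hcnv φ hφ (ka L y) (kx x0) hk hx
  refine ⟨c1, ?_, ?_, ?_⟩
  · rw [c3 _ (by simp), FT_ka hL, mul_one]
  · intro x hx0
    rw [c3 _ (by simp), hx0, zero_mul]
  · have hvi := int_u hφ hv.1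
    have hki := int_u hφ hk.1
    have hxi := int_u hφ hx.1
    have hEi := int_u hφ d1.1
    have hae : ∀ᵐ t : ℝ, φ t * ‖RR x0 (cv v (ka L y)) t‖ =
        φ t * ‖cv v (fun s => ka L y s - cv (ka L y) (kx x0) s) t‖ := by
      filter_upwards [cv_assoc hvi hki hxi, cv_sub hvi hki hEi] with t h1 h2
      unfold RR
      rw [h1, h2]
    rw [integral_congr_ae hae]
    have hLP := LP_sub hφ hk d1
    obtain ⟨-, e2, -⟩ := hcnv φ hφ v (fun s => ka L y s - cv (ka L y) (kx x0) s) hv hLP
    refine e2.trans ?_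
    rw [mul_comm]
    refine mul_le_mul_of_nonneg_right ?_ (integral_nonneg fun t =>
      mul_nonneg (hφ0 t) (norm_nonneg _))
    -- the norm of the kernel
    have hsh : Integrable fun t : ℝ => φ (t + L) * ‖kx x0 t‖ := by
      refine (hx.1.2.const_mul (φ L)).mono' ?_ (ae_of_all _ fun t => ?_)
      · exact (hφ.meas.comp (measurable_id.add_const L)).aestronglyMeasurable.mul hx.1.1.norm
      · rw [Real.norm_of_nonneg (mul_nonneg (hφ0 _) (norm_nonneg _))]
        have := mul_le_mul_of_nonneg_right (hφ.submul t L) (norm_nonneg (kx x0 t))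
        linarith
    have hsh1 : Integrable fun t : ℝ => φ t * ‖kx x0 (t - L)‖ := by
      have := hsh.comp_sub_right L
      simpa only [sub_add_cancel] using this
    have hsh2 : ∫ t : ℝ, φ t * ‖kx x0 (t - L)‖ ≤ φ L * M := by
      have h1 := integral_sub_right_eq_self (fun t : ℝ => φ (t + L) * ‖kx x0 t‖) L
        (μ := (volume : Measure ℝ))
      simp only [sub_add_cancel] at h1
      rw [h1, hM, ← integral_const_mul]
      refine integral_mono hsh (hx.1.2.const_mul (φ L)) fun t => ?_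
      have := mul_le_mul_of_nonneg_right (hφ.submul t L) (norm_nonneg (kx x0 t))
      show φ (t + L) * ‖kx x0 t‖ ≤ φ L * (φ t * ‖kx x0 t‖)
      linarith
    have hnek : ∀ᵐ t : ℝ, t ≠ L := by
      rw [ae_iff]
      have : {a : ℝ | ¬ a ≠ L} = {L} := by
        ext a
        simp
      rw [this]
      exact Real.volume_singleton
    have hbd : ∀ᵐ t : ℝ, φ t * ‖ka L y t - cv (ka L y) (kx x0) t‖ ≤
        (1 / L) * (φ t * ‖kx x0 t‖) + (1 / L) * (φ t * ‖kx x0 (t - L)‖) +
          |y - x0| * (φ t * ‖cv (ka L y) (kx x0) t‖) := by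
      filter_upwards [hnek] with t ht
      rw [key hL y x0 ht]
      have n1 : ‖Complex.exp (Complex.I * y * L)‖ = 1 := by
        rw [Complex.norm_exp]
        have : (Complex.I * (y : ℂ) * (L : ℂ)).re = 0 := by simp
        rw [this, Real.exp_zero]
      have n2 : ‖Complex.I * ((y : ℂ) - x0)‖ = |y - x0| := by
        rw [norm_mul, Complex.norm_I, one_mul, ← Complex.ofReal_sub, Complex.norm_real,
          Real.norm_eq_abs]
      have n3 : ‖((1 / L : ℝ) : ℂ)‖ = 1 / L := by
        rw [Complex.norm_real, Real.norm_of_nonneg (by positivity)]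
      have n4 : ‖((1 / L : ℝ) : ℂ) * (kx x0 t - Complex.exp (Complex.I * y * L) * kx x0 (t - L)) +
          Complex.I * ((y : ℂ) - x0) * cv (ka L y) (kx x0) t‖ ≤
          (1 / L) * (‖kx x0 t‖ + ‖kx x0 (t - L)‖) + |y - x0| * ‖cv (ka L y) (kx x0) t‖ := by
        refine (norm_add_le _ _).trans ?_
        rw [norm_mul, norm_mul, n2, n3]
        have n5 := norm_sub_le (kx x0 t) (Complex.exp (Complex.I * y * L) * kx x0 (t - L))
        rw [norm_mul, n1, one_mul] at n5
        have : (1 / L) * ‖kx x0 t - Complex.exp (Complex.I * y * L) * kx x0 (t - L)‖ ≤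
            (1 / L) * (‖kx x0 t‖ + ‖kx x0 (t - L)‖) :=
          mul_le_mul_of_nonneg_left n5 (by positivity)
        linarith
      calc φ t * ‖((1 / L : ℝ) : ℂ) * (kx x0 t -
            Complex.exp (Complex.I * y * L) * kx x0 (t - L)) +
          Complex.I * ((y : ℂ) - x0) * cv (ka L y) (kx x0) t‖
          ≤ φ t * ((1 / L) * (‖kx x0 t‖ + ‖kx x0 (t - L)‖) +
            |y - x0| * ‖cv (ka L y) (kx x0) t‖) := mul_le_mul_of_nonneg_left n4 (hφ0 t)
        _ = _ := by ring
    have i1 : Integrable fun t : ℝ => (1 / L) * (φ t * ‖kx x0 t‖) := hx.1.2.const_mul _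
    have i2 : Integrable fun t : ℝ => (1 / L) * (φ t * ‖kx x0 (t - L)‖) := hsh1.const_mul _
    have i3 : Integrable fun t : ℝ => |y - x0| * (φ t * ‖cv (ka L y) (kx x0) t‖) :=
      d1.1.2.const_mul _
    refine (integral_mono_ae hLP.1.2 ((i1.add i2).add i3) hbd).trans ?_
    have hsum : ∫ t : ℝ, ((1 / L) * (φ t * ‖kx x0 t‖) + (1 / L) * (φ t * ‖kx x0 (t - L)‖) +
        |y - x0| * (φ t * ‖cv (ka L y) (kx x0) t‖)) = (1 / L) * M +
          (1 / L) * (∫ t : ℝ, φ t * ‖kx x0 (t - L)‖) +
            |y - x0| * ∫ t : ℝ, φ t * ‖cv (ka L y) (kx x0) t‖ := by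
      have i12 : Integrable fun t : ℝ => (1 / L) * (φ t * ‖kx x0 t‖) +
          (1 / L) * (φ t * ‖kx x0 (t - L)‖) := i1.add i2
      rw [integral_add i12 i3, integral_add i1 i2, integral_const_mul, integral_const_mul,
        integral_const_mul]
    have h5 : ∫ t : ℝ, φ t * ‖cv (ka L y) (kx x0) t‖ ≤ S * M :=
      d2.trans (mul_le_mul_of_nonneg_right hkS hM0)
    calc (∫ t : ℝ, ((1 / L) * (φ t * ‖kx x0 t‖) + (1 / L) * (φ t * ‖kx x0 (t - L)‖) +
        |y - x0| * (φ t * ‖cv (ka L y) (kx x0) t‖)))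
        = (1 / L) * M + (1 / L) * (∫ t : ℝ, φ t * ‖kx x0 (t - L)‖) +
            |y - x0| * ∫ t : ℝ, φ t * ‖cv (ka L y) (kx x0) t‖ := hsum
      _ ≤ (1 / L) * M + (1 / L) * (φ L * M) + |y - x0| * (S * M) := by gcongr
      _ = M * ((1 + φ L) / L + |y - x0| * S) := by ring

end

end Pool.Agent.WK
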