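import Pool.Agent.WK.Stmts

set_option autoImplicit false

namespace Pool.Agent.WK

open Complex

theorem bf0 : Bf0Stmt := by
  intro x z hz
  have him : (z - (x : ℂ) - Complex.I).im = z.im - 1 := by simp
  have hr : 3 / 4 ≤ ‖z - (x : ℂ) - Complex.I‖ := by
    have h1 := Complex.abs_im_le_norm (z - (x : ℂ) - Complex.I)
    rw [him] at h1
    have h2 : 1 - z.im ≤ |z.im - 1| := by
      have := neg_abs_le (z.im - 1)
      linarith
    linarith
  have hr0 : z - (x : ℂ) - Complex.I ≠ 0 := by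
    intro h
    rw [h, norm_zero] at hr
    linarith
  have h2x : (2 * (x : ℂ) - Complex.I) ≠ 0 := by
    intro h
    have := congrArg Complex.im h
    simp at this
  have h2x' : (2 * (x : ℂ) + Complex.I) ≠ 0 := by
    intro h
    have := congrArg Complex.im h
    simp at this
  have hnorm : ‖2 * (x : ℂ) + Complex.I‖ = ‖2 * (x : ℂ) - Complex.I‖ := by
    have h : (2 * (x : ℂ) - Complex.I) = (starRingEnd ℂ) (2 * (x : ℂ) + Complex.I) := by
      rw [map_add, map_mul, Complex.conj_ofReal, Complex.conj_I, map_ofNat, sub_eq_add_neg]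
    rw [h, Complex.norm_conj]
  have hp2 : 0 < ‖2 * (x : ℂ) - Complex.I‖ := norm_pos_iff.mpr h2x
  have hpr : 0 < ‖z - (x : ℂ) - Complex.I‖ := norm_pos_iff.mpr hr0
  refine ⟨?_, ?_, ?_⟩
  · unfold bf
    rw [norm_div, norm_mul, norm_mul, hnorm, mul_div_mul_left _ _ hp2.ne']
    rw [div_le_one hpr]
    rw [← Real.sqrt_sq (norm_nonneg (z - (x : ℂ))), ← Real.sqrt_sq (norm_nonneg (z - (x : ℂ) - Complex.I))]
    apply Real.sqrt_le_sqrt
    rw [← Complex.normSq_eq_norm_sq, ← Complex.normSq_eq_norm_sq, Complex.normSq_apply,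
      Complex.normSq_apply, him]
    simp only [Complex.sub_re, Complex.sub_im, Complex.ofReal_re, Complex.ofReal_im,
      Complex.I_re]
    nlinarith
  · have hb : 1 - bf x z = -(1 + 2 * Complex.I * z) /
        ((2 * (x : ℂ) - Complex.I) * (z - (x : ℂ) - Complex.I)) := by
      unfold bf
      field_simp
      linear_combination (1 : ℂ) * Complex.I_sq
    rw [hb, norm_div, norm_neg, norm_mul]
    have h1 : ‖1 + 2 * Complex.I * z‖ ≤ 1 + 2 * ‖z‖ := by
      calc ‖1 + 2 * Complex.I * z‖ ≤ ‖(1 : ℂ)‖ + ‖2 * Complex.I * z‖ := norm_add_le _ _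
        _ = 1 + 2 * ‖z‖ := by simp
    have h2 : 1 ≤ ‖2 * (x : ℂ) - Complex.I‖ := by
      have := Complex.abs_im_le_norm (2 * (x : ℂ) - Complex.I)
      simpa using this
    have h3 : 2 * |x| ≤ ‖2 * (x : ℂ) - Complex.I‖ := by
      have := Complex.abs_re_le_norm (2 * (x : ℂ) - Complex.I)
      simpa [abs_mul] using this
    have h4 : |x| ≤ ‖z - (x : ℂ) - Complex.I‖ + ‖z‖ + 1 := by
      have h5 : (x : ℂ) = z - Complex.I - (z - (x : ℂ) - Complex.I) := by ring
      have h6 : ‖(x : ℂ)‖ ≤ ‖z‖ + ‖Complex.I‖ + ‖z - (x : ℂ) - Complex.I‖ := by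
        conv_lhs => rw [h5]
        exact (norm_sub_le _ _).trans (add_le_add (norm_sub_le _ _) le_rfl)
      rw [Complex.norm_real, Real.norm_eq_abs, Complex.norm_I] at h6
      linarith
    set r := ‖z - (x : ℂ) - Complex.I‖ with hrdef
    set A := ‖2 * (x : ℂ) - Complex.I‖ with hAdef
    have hz0 := norm_nonneg z
    have hx0 := abs_nonneg x
    have h5 : 1 + x ^ 2 ≤ A * (1 + |x|) := by
      have h6 : x ^ 2 = |x| * |x| := by rw [← sq, sq_abs]
      nlinarith
    have h6 : 1 + |x| ≤ 4 * (1 + ‖z‖) * r := by nlinarith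
    have h7 : 1 + x ^ 2 ≤ A * (4 * (1 + ‖z‖) * r) :=
      h5.trans (mul_le_mul_of_nonneg_left h6 hp2.le)
    have h8 : 0 < 1 + x ^ 2 := by positivity
    rw [mul_one_div, div_le_div_iff₀ (mul_pos hp2 hpr) h8]
    calc ‖1 + 2 * Complex.I * z‖ * (1 + x ^ 2)
        ≤ (2 * (1 + ‖z‖)) * (A * (4 * (1 + ‖z‖) * r)) := by
          apply mul_le_mul _ h7 h8.le (by positivity)
          linarith
      _ = 8 * (1 + ‖z‖) ^ 2 * (A * r) := by ring
  · unfold bf
    rw [div_eq_zero_iff, mul_eq_zero, mul_eq_zero]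
    constructor
    · rintro ((h | h) | (h | h))
      · exact absurd h h2x'
      · exact sub_eq_zero.mp h
      · exact absurd h h2x
      · exact absurd h hr0
    · intro h
      left; right
      rw [h, sub_self]

end Pool.Agent.WK
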