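import Pool.Agent.WK.Bf2

/-!
# MP_7d2497_an, squad WK: row BF1 (finite products)
-/

set_option autoImplicit false

namespace Pool.Agent.WK

open MeasureTheory Filter Topology Complex
open Pool.Agent.H78E

noncomputable section

namespace H32

theorem norm_kernel (t : ℝ) (z : ℂ) :
    ‖Complex.exp (-(Complex.I * (t : ℂ) * z))‖ = Real.exp (t * z.im) := by
  rw [Complex.norm_exp]
  congr 1
  simp

theorem kernel_bound {f : ℝ → ℂ} {A : ℝ} (hA : ∀ t : ℝ, 0 ≤ t → ‖f t‖ ≤ A * Real.exp (-(t / 2)))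
    {z : ℂ} (hz : z.im ≤ 1 / 4) (t : ℝ) (ht : 0 ≤ t) :
    ‖f t * Complex.exp (-(Complex.I * (t : ℂ) * z))‖ ≤ A * Real.exp (-(1 / 4 * t)) := by
  rw [norm_mul, norm_kernel]
  have h1 : Real.exp (t * z.im) ≤ Real.exp (t * (1 / 4)) :=
    Real.exp_le_exp.2 (mul_le_mul_of_nonneg_left hz ht)
  calc ‖f t‖ * Real.exp (t * z.im) ≤ ‖f t‖ * Real.exp (t * (1 / 4)) :=
        mul_le_mul_of_nonneg_left h1 (norm_nonneg _)
    _ ≤ A * Real.exp (-(t / 2)) * Real.exp (t * (1 / 4)) :=
        mul_le_mul_of_nonneg_right (hA t ht) (Real.exp_nonneg _)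
    _ = A * Real.exp (-(1 / 4 * t)) := by
        rw [mul_assoc, ← Real.exp_add]
        congr 2
        ring

theorem integrable_kernel {f : ℝ → ℂ} {A : ℝ} (hf : Continuous f)
    (h0 : ∀ t : ℝ, t ≤ 0 → f t = 0) (hA : ∀ t : ℝ, 0 ≤ t → ‖f t‖ ≤ A * Real.exp (-(t / 2)))
    {z : ℂ} (hz : z.im ≤ 1 / 4) :
    Integrable (fun t : ℝ => f t * Complex.exp (-(Complex.I * (t : ℂ) * z))) := by
  refine integrable_of_exp (B := A) (b := 1 / 4) (by norm_num) (hf.mul (by fun_prop)) ?_ ?_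
  · intro t ht
    rw [h0 t ht, zero_mul]
  · intro t ht
    exact kernel_bound hA hz t ht

theorem q_zero {l t : ℝ} (ht : t ≤ 0) : q l t = 0 := by
  unfold q
  by_cases h : 0 ≤ t
  · have : t = 0 := le_antisymm ht h
    rw [if_pos h, this]
    simp
  · rw [if_neg h]

theorem q_cont (l : ℝ) : Continuous (q l) := by
  unfold q
  apply Continuous.if_le
  · fun_prop
  · exact continuous_const
  · exact continuous_const
  · exact continuous_id
  · intro t ht
    rw [← ht]
    simp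

theorem q_bound {l : ℝ} (hl : 1 ≤ l) (t : ℝ) (ht : 0 ≤ t) :
    ‖q l t‖ ≤ 8 * l ^ 4 * Real.exp (-(t / 2)) := by
  unfold q
  rw [if_pos ht, Complex.norm_real, Real.norm_eq_abs, abs_of_nonneg (by positivity)]
  have h1 : (t / 2) ^ 3 / 6 ≤ Real.exp (t / 2) := by
    have := Real.pow_div_factorial_le_exp (t / 2) (by positivity) 3
    have h6 : ((Nat.factorial 3 : ℕ) : ℝ) = 6 := by norm_num [Nat.factorial]
    rw [h6] at this
    exact this
  have h2 : Real.exp (-(l * t)) ≤ Real.exp (-t) := by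
    apply Real.exp_le_exp.2
    nlinarith
  have h3 : t ^ 3 / 6 = 8 * ((t / 2) ^ 3 / 6) := by ring
  calc l ^ 4 * t ^ 3 / 6 * Real.exp (-(l * t)) = l ^ 4 * (t ^ 3 / 6) * Real.exp (-(l * t)) := by
        ring
    _ ≤ l ^ 4 * (8 * Real.exp (t / 2)) * Real.exp (-t) := by
        rw [h3]
        gcongr
    _ = 8 * l ^ 4 * (Real.exp (t / 2) * Real.exp (-t)) := by ring
    _ = 8 * l ^ 4 * Real.exp (-(t / 2)) := by
        rw [← Real.exp_add]
        congr 2
        ring

theorem tendsto_pe (n : ℕ) {r : ℂ} (hr : 0 < r.re) :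
    Tendsto (fun t : ℝ => (t : ℂ) ^ n * Complex.exp (-(r * (t : ℂ)))) atTop (𝓝 0) := by
  have h1 : Tendsto (fun t : ℝ => (r.re * t) ^ n * Real.exp (-(r.re * t))) atTop (𝓝 0) :=
    (Real.tendsto_pow_mul_exp_neg_atTop_nhds_zero n).comp
      (tendsto_id.const_mul_atTop hr)
  have h2 := h1.const_mul ((r.re ^ n)⁻¹)
  rw [mul_zero] at h2
  refine squeeze_zero_norm' ?_ h2
  filter_upwards [eventually_ge_atTop (0 : ℝ)] with t ht
  rw [norm_mul, norm_pow, Complex.norm_real, Real.norm_eq_abs, abs_of_nonneg ht, Complex.norm_exp]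
  have h3 : (-(r * (t : ℂ))).re = -(r.re * t) := by simp
  rw [h3, mul_pow]
  have h4 : r.re ^ n ≠ 0 := by positivity
  apply le_of_eq
  field_simp

theorem q_FT {l : ℝ} (hl : 1 ≤ l) {z : ℂ} (hz : z.im ≤ 1 / 4) :
    FT (q l) z = ((l : ℂ) / ((l : ℂ) + Complex.I * z)) ^ 4 := by
  have hint := integrable_kernel (q_cont l) (fun t ht => q_zero ht) (q_bound hl) hz
  unfold FT
  have h1 : ∫ t : ℝ, q l t * Complex.exp (-(Complex.I * (t : ℂ) * z)) =
      ∫ t in Set.Ioi (0 : ℝ), q l t * Complex.exp (-(Complex.I * (t : ℂ) * z)) := by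
    symm
    apply setIntegral_eq_integral_of_forall_compl_eq_zero
    intro t ht
    rw [q_zero (not_lt.1 ht), zero_mul]
  obtain ⟨r, hrr⟩ : ∃ r : ℂ, r = (l : ℂ) + Complex.I * z := ⟨_, rfl⟩
  have hr : 0 < r.re := by
    rw [hrr]
    simp
    linarith
  have hr0 : r ≠ 0 := by
    intro h
    rw [h] at hr
    simp at hr
  have hval : ∀ t : ℝ, 0 ≤ t → q l t * Complex.exp (-(Complex.I * (t : ℂ) * z)) =
      ((l : ℂ) ^ 4 / 6) * ((t : ℂ) ^ 3 * Complex.exp (-(r * (t : ℂ)))) := by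
    intro t ht
    unfold q
    rw [if_pos ht]
    push_cast
    have h5 : Complex.exp (-(r * (t : ℂ))) =
        Complex.exp (-((l : ℂ) * t)) * Complex.exp (-(Complex.I * (t : ℂ) * z)) := by
      rw [← Complex.exp_add, hrr]
      congr 1
      ring
    rw [h5]
    ring
  have h3 : ∫ t in Set.Ioi (0 : ℝ), q l t * Complex.exp (-(Complex.I * (t : ℂ) * z)) =
      ∫ t in Set.Ioi (0 : ℝ), ((l : ℂ) ^ 4 / 6) *
        ((t : ℂ) ^ 3 * Complex.exp (-(r * (t : ℂ)))) := by
    apply setIntegral_congr_fun measurableSet_Ioi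
    intro t ht
    exact hval t (le_of_lt ht)
  have hi : IntegrableOn (fun t : ℝ => ((l : ℂ) ^ 4 / 6) *
      ((t : ℂ) ^ 3 * Complex.exp (-(r * (t : ℂ))))) (Set.Ioi 0) := by
    refine hint.integrableOn.congr_fun ?_ measurableSet_Ioi
    intro t ht
    exact hval t (le_of_lt ht)
  have hd : ∀ t ∈ Set.Ici (0 : ℝ), HasDerivAt (fun t : ℝ => -((l : ℂ) ^ 4 / 6) *
      (Complex.exp (-(r * (t : ℂ))) * ((t : ℂ) ^ 3 / r + 3 * (t : ℂ) ^ 2 / r ^ 2 +
        6 * (t : ℂ) / r ^ 3 + 6 / r ^ 4)))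
      (((l : ℂ) ^ 4 / 6) * ((t : ℂ) ^ 3 * Complex.exp (-(r * (t : ℂ))))) t := by
    intro t _
    have h0 : HasDerivAt (fun t : ℝ => (t : ℂ)) 1 t := Complex.ofRealCLM.hasDerivAt (x := t)
    have h2 : HasDerivAt (fun t : ℝ => Complex.exp (-(r * (t : ℂ))))
        (Complex.exp (-(r * (t : ℂ))) * (-(r * 1))) t := ((h0.const_mul r).neg).cexp
    have h4 : HasDerivAt (fun t : ℝ => (t : ℂ) ^ 3 / r + 3 * (t : ℂ) ^ 2 / r ^ 2 +
        6 * (t : ℂ) / r ^ 3 + 6 / r ^ 4)
        (((3 : ℕ) : ℂ) * (t : ℂ) ^ (3 - 1) * 1 / r + 3 * (((2 : ℕ) : ℂ) * (t : ℂ) ^ (2 - 1) * 1)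
          / r ^ 2 + 6 * 1 / r ^ 3) t :=
      ((((h0.pow 3).div_const r).add (((h0.pow 2).const_mul 3).div_const (r ^ 2))).add
        ((h0.const_mul 6).div_const (r ^ 3))).add_const _
    refine ((h2.mul h4).const_mul (-((l : ℂ) ^ 4 / 6))).congr_deriv ?_
    field_simp
    push_cast
    ring
  have ht : Tendsto (fun t : ℝ => -((l : ℂ) ^ 4 / 6) *
      (Complex.exp (-(r * (t : ℂ))) * ((t : ℂ) ^ 3 / r + 3 * (t : ℂ) ^ 2 / r ^ 2 +
        6 * (t : ℂ) / r ^ 3 + 6 / r ^ 4))) atTop (𝓝 0) := by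
    have h5 := (((((tendsto_pe 3 hr).mul_const (1 / r)).add
      ((tendsto_pe 2 hr).mul_const (3 / r ^ 2))).add
      ((tendsto_pe 1 hr).mul_const (6 / r ^ 3))).add
      ((tendsto_pe 0 hr).mul_const (6 / r ^ 4))).const_mul (-((l : ℂ) ^ 4 / 6))
    simp only [zero_mul, add_zero, mul_zero] at h5
    refine h5.congr fun t => ?_
    ring
  have h6 := integral_Ioi_of_hasDerivAt_of_tendsto' hd hi ht
  rw [h1, h3, h6, ← hrr]
  simp only [Complex.ofReal_zero, mul_zero, neg_zero, Complex.exp_zero, one_mul]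
  rw [div_pow]
  field_simp
  ring

theorem isB_q {l : ℝ} (hl : 1 ≤ l) : IsB l ∅ (q l) := by
  refine ⟨q_cont l, fun t ht => q_zero ht, ⟨8 * l ^ 4, fun t ht => q_bound hl t ht⟩, ?_⟩
  intro z hz
  rw [Finset.prod_empty, mul_one, q_FT hl hz]

/-- the convolution with `exp ((-1 + i x) t)` on the half-line -/
def gg (f : ℝ → ℂ) (x t : ℝ) : ℂ :=
  Complex.exp ((-1 + Complex.I * (x : ℂ)) * (t : ℂ)) *
    ∫ s in (0 : ℝ)..t, f s * Complex.exp ((1 - Complex.I * (x : ℂ)) * (s : ℂ))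

theorem gg_deriv {f : ℝ → ℂ} (hf : Continuous f) (x t : ℝ) :
    HasDerivAt (gg f x) ((-1 + Complex.I * (x : ℂ)) * gg f x t + f t) t := by
  have hc : Continuous fun s : ℝ => f s * Complex.exp ((1 - Complex.I * (x : ℂ)) * (s : ℂ)) :=
    hf.mul (by fun_prop)
  have h1 : HasDerivAt (fun t : ℝ => ∫ s in (0 : ℝ)..t, f s *
      Complex.exp ((1 - Complex.I * (x : ℂ)) * (s : ℂ)))
      (f t * Complex.exp ((1 - Complex.I * (x : ℂ)) * (t : ℂ))) t :=
    (hc.integral_hasStrictDerivAt 0 t).hasDerivAt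
  have h2 : HasDerivAt (fun t : ℝ => Complex.exp ((-1 + Complex.I * (x : ℂ)) * (t : ℂ)))
      (Complex.exp ((-1 + Complex.I * (x : ℂ)) * (t : ℂ)) * (-1 + Complex.I * (x : ℂ))) t := by
    have h3 : HasDerivAt (fun t : ℝ => (-1 + Complex.I * (x : ℂ)) * (t : ℂ))
        ((-1 + Complex.I * (x : ℂ)) * 1) t :=
      (Complex.ofRealCLM.hasDerivAt (x := t)).const_mul _
    rw [mul_one] at h3
    exact h3.cexp
  have h4 := h2.mul h1
  have h5 : Complex.exp ((-1 + Complex.I * (x : ℂ)) * (t : ℂ)) *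
      (f t * Complex.exp ((1 - Complex.I * (x : ℂ)) * (t : ℂ))) = f t := by
    rw [mul_left_comm, ← Complex.exp_add]
    have : (-1 + Complex.I * (x : ℂ)) * (t : ℂ) + (1 - Complex.I * (x : ℂ)) * (t : ℂ) = 0 := by
      ring
    rw [this, Complex.exp_zero, mul_one]
  refine h4.congr_deriv ?_
  rw [h5]
  unfold gg
  ring

theorem gg_zero {f : ℝ → ℂ} (h0 : ∀ t : ℝ, t ≤ 0 → f t = 0) (x t : ℝ) (ht : t ≤ 0) :
    gg f x t = 0 := by
  unfold gg
  have h1 : ∫ s in (0 : ℝ)..t, f s * Complex.exp ((1 - Complex.I * (x : ℂ)) * (s : ℂ)) =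
      ∫ _s in (0 : ℝ)..t, (0 : ℂ) := by
    apply intervalIntegral.integral_congr
    intro s hs
    rw [Set.uIcc_of_ge ht] at hs
    simp only
    rw [h0 s hs.2, zero_mul]
  rw [h1, intervalIntegral.integral_zero, mul_zero]

theorem gg_bound {f : ℝ → ℂ} {A : ℝ} (hf : Continuous f)
    (hA : ∀ t : ℝ, 0 ≤ t → ‖f t‖ ≤ A * Real.exp (-(t / 2))) (x t : ℝ) (ht : 0 ≤ t) :
    ‖gg f x t‖ ≤ 2 * A * Real.exp (-(t / 2)) := by
  have hA0 : 0 ≤ A := by
    have := hA 0 le_rfl
    rw [zero_div, neg_zero, Real.exp_zero, mul_one] at this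
    exact (norm_nonneg _).trans this
  unfold gg
  have h1 : ‖Complex.exp ((-1 + Complex.I * (x : ℂ)) * (t : ℂ))‖ = Real.exp (-t) := by
    rw [Complex.norm_exp]
    congr 1
    simp
  have h2 : ‖∫ s in (0 : ℝ)..t, f s * Complex.exp ((1 - Complex.I * (x : ℂ)) * (s : ℂ))‖ ≤
      ∫ s in (0 : ℝ)..t, A * Real.exp (s / 2) := by
    refine (intervalIntegral.norm_integral_le_integral_norm ht).trans ?_
    apply intervalIntegral.integral_mono_on ht
    · apply Continuous.intervalIntegrable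
      exact (hf.mul (by fun_prop)).norm
    · apply Continuous.intervalIntegrable
      fun_prop
    · intro s hs
      rw [norm_mul, Complex.norm_exp]
      have h3 : ((1 - Complex.I * (x : ℂ)) * (s : ℂ)).re = s := by simp
      rw [h3]
      calc ‖f s‖ * Real.exp s ≤ A * Real.exp (-(s / 2)) * Real.exp s :=
            mul_le_mul_of_nonneg_right (hA s hs.1) (Real.exp_nonneg _)
        _ = A * Real.exp (s / 2) := by
            rw [mul_assoc, ← Real.exp_add]
            congr 2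
            ring
  have h3 : ∫ s in (0 : ℝ)..t, A * Real.exp (s / 2) ≤ 2 * A * Real.exp (t / 2) := by
    have hd : ∀ s ∈ Set.uIcc 0 t, HasDerivAt (fun s : ℝ => 2 * A * Real.exp (s / 2))
        (A * Real.exp (s / 2)) s := by
      intro s _
      have h4 : HasDerivAt (fun s : ℝ => s / 2) (1 / 2) s := (hasDerivAt_id s).div_const 2
      have h5 := (h4.exp).const_mul (2 * A)
      refine h5.congr_deriv ?_
      ring
    rw [intervalIntegral.integral_eq_sub_of_hasDerivAt hd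
      (Continuous.intervalIntegrable (by fun_prop) _ _)]
    have h6 : 0 ≤ 2 * A * Real.exp ((0 : ℝ) / 2) := by positivity
    linarith
  rw [norm_mul, h1]
  calc Real.exp (-t) * ‖∫ s in (0 : ℝ)..t, f s *
        Complex.exp ((1 - Complex.I * (x : ℂ)) * (s : ℂ))‖ ≤
        Real.exp (-t) * (2 * A * Real.exp (t / 2)) :=
        mul_le_mul_of_nonneg_left (h2.trans h3) (Real.exp_nonneg _)
    _ = 2 * A * (Real.exp (-t) * Real.exp (t / 2)) := by ring
    _ = 2 * A * Real.exp (-(t / 2)) := by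
        rw [← Real.exp_add]
        congr 2
        ring

theorem gg_FT {f : ℝ → ℂ} {A : ℝ} (hf : Continuous f) (h0 : ∀ t : ℝ, t ≤ 0 → f t = 0)
    (hA : ∀ t : ℝ, 0 ≤ t → ‖f t‖ ≤ A * Real.exp (-(t / 2))) (x : ℝ) {z : ℂ}
    (hz : z.im ≤ 1 / 4) : (1 + Complex.I * (z - x)) * FT (gg f x) z = FT f z := by
  have hgd := fun t => gg_deriv hf x t
  have hgc : Continuous (gg f x) := continuous_iff_continuousAt.2 fun t => (hgd t).continuousAt
  have hg0 := gg_zero h0 x
  have hgb := gg_bound hf hA x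
  have hif := integrable_kernel hf h0 hA hz
  have hig := integrable_kernel hgc hg0 hgb hz
  have hd : ∀ t : ℝ, HasDerivAt (fun t : ℝ => gg f x t * Complex.exp (-(Complex.I * (t : ℂ) * z)))
      (f t * Complex.exp (-(Complex.I * (t : ℂ) * z)) -
        (1 + Complex.I * (z - x)) * (gg f x t * Complex.exp (-(Complex.I * (t : ℂ) * z)))) t := by
    intro t
    have h2 : HasDerivAt (fun t : ℝ => Complex.exp (-(Complex.I * (t : ℂ) * z)))
        (Complex.exp (-(Complex.I * (t : ℂ) * z)) * (-(Complex.I * 1 * z))) t := by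
      have h3 : HasDerivAt (fun t : ℝ => -(Complex.I * (t : ℂ) * z)) (-(Complex.I * 1 * z)) t :=
        (((Complex.ofRealCLM.hasDerivAt (x := t)).const_mul _).mul_const _).neg
      exact h3.cexp
    refine ((hgd t).mul h2).congr_deriv ?_
    ring
  have hi : Integrable fun t : ℝ => f t * Complex.exp (-(Complex.I * (t : ℂ) * z)) -
      (1 + Complex.I * (z - x)) * (gg f x t * Complex.exp (-(Complex.I * (t : ℂ) * z))) :=
    hif.sub (hig.const_mul _)
  have hbot : Tendsto (fun t : ℝ => gg f x t * Complex.exp (-(Complex.I * (t : ℂ) * z))) atBot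
      (𝓝 0) := by
    refine tendsto_const_nhds.congr' ?_
    filter_upwards [eventually_le_atBot (0 : ℝ)] with t ht
    rw [hg0 t ht, zero_mul]
  have htop : Tendsto (fun t : ℝ => gg f x t * Complex.exp (-(Complex.I * (t : ℂ) * z))) atTop
      (𝓝 0) := by
    have h1 : Tendsto (fun t : ℝ => 2 * A * Real.exp (-(1 / 4 * t))) atTop (𝓝 0) := by
      have h2 : Tendsto (fun t : ℝ => Real.exp (-(1 / 4 * t))) atTop (𝓝 0) := by
        apply Real.tendsto_exp_atBot.comp
        apply tendsto_neg_atTop_atBot.comp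
        exact tendsto_id.const_mul_atTop (by norm_num)
      have h3 := h2.const_mul (2 * A)
      rwa [mul_zero] at h3
    refine squeeze_zero_norm' ?_ h1
    filter_upwards [eventually_ge_atTop (0 : ℝ)] with t ht
    exact kernel_bound hgb hz t ht
  have h := integral_of_hasDerivAt_of_tendsto hd hi hbot htop
  rw [sub_zero, integral_sub hif (hig.const_mul _), integral_const_mul] at h
  unfold FT
  linear_combination -h

theorem isB_insert {l : ℝ} {F : Finset ℝ} {f : ℝ → ℂ} (h : IsB l F f) {x : ℝ} (hx : x ∉ F) :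
    ∃ f' : ℝ → ℂ, IsB l (insert x F) f' := by
  obtain ⟨hf, h0, ⟨A, hA⟩, hFT⟩ := h
  have hgd := fun t => gg_deriv hf x t
  have hgc : Continuous (gg f x) := continuous_iff_continuousAt.2 fun t => (hgd t).continuousAt
  have hg0 := gg_zero h0 x
  have hgb := gg_bound hf hA x
  obtain ⟨c, hc⟩ : ∃ c : ℂ, c = (2 * (x : ℂ) + Complex.I) / (2 * (x : ℂ) - Complex.I) := ⟨_, rfl⟩
  refine ⟨fun t => c * (f t - gg f x t), continuous_const.mul (hf.sub hgc), ?_,
    ⟨‖c‖ * (3 * A), ?_⟩, ?_⟩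
  · intro t ht
    simp only
    rw [h0 t ht, hg0 t ht, sub_zero, mul_zero]
  · intro t ht
    simp only
    rw [norm_mul, mul_assoc]
    apply mul_le_mul_of_nonneg_left _ (norm_nonneg _)
    refine (norm_sub_le _ _).trans ?_
    have h1 := hA t ht
    have h2 := hgb t ht
    linarith
  · intro z hz
    have hif := integrable_kernel hf h0 hA hz
    have hig := integrable_kernel hgc hg0 hgb hz
    have h1 : FT (fun t => c * (f t - gg f x t)) z = c * (FT f z - FT (gg f x) z) := by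
      unfold FT
      rw [← integral_sub hif hig, ← integral_const_mul]
      apply integral_congr_ae
      refine Eventually.of_forall fun t => ?_
      simp only
      ring
    have h2 := gg_FT hf h0 hA x hz
    rw [h1, Finset.prod_insert hx, mul_left_comm, ← hFT z hz]
    have h3 : (z - (x : ℂ) - Complex.I) ≠ 0 := by
      intro h
      have := congrArg Complex.im h
      simp at this
      linarith
    have h4 : (2 * (x : ℂ) - Complex.I) ≠ 0 := by
      intro h
      have := congrArg Complex.im h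
      simp at this
    have h5 : FT (gg f x) z = FT f z / (Complex.I * (z - x - Complex.I)) := by
      rw [eq_div_iff (mul_ne_zero Complex.I_ne_zero h3), ← h2]
      linear_combination (-FT (gg f x) z) * Complex.I_sq
    rw [h5, hc]
    unfold bf
    field_simp
    linear_combination (-(FT f z) * (2 * (x : ℂ) + Complex.I)) * Complex.I_sq

end H32

open H32 in
theorem bf1 : Bf1Stmt := by
  intro l hl
  refine ⟨isB_q hl, ?_⟩
  intro F
  induction F using Finset.induction_on with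
  | empty => exact ⟨q l, isB_q hl⟩
  | insert x F hx ih =>
    obtain ⟨f, hf⟩ := ih
    exact isB_insert hf hx

end

end Pool.Agent.WK
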