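import Pool.Agent.WK.Stmts

/-!
# MP_7d2497_an, squad WK: row BF2 (Fourier inversion)
-/

set_option autoImplicit false

namespace Pool.Agent.WK

open MeasureTheory Filter Topology Complex
open Pool.Agent.H78E

noncomputable section

namespace H32

theorem ofReal_exp_neg (b t : ℝ) : ‖Complex.exp ((b : ℂ) * (t : ℂ))‖ = Real.exp (b * t) := by
  rw [Complex.norm_exp]
  congr 1
  simp

/-- integrability of a function on the half-line with exponential decay -/
theorem integrable_of_exp {g : ℝ → ℂ} {B b : ℝ} (hb : 0 < b) (hg : Continuous g)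
    (h0 : ∀ t : ℝ, t ≤ 0 → g t = 0) (hB : ∀ t : ℝ, 0 ≤ t → ‖g t‖ ≤ B * Real.exp (-(b * t))) :
    Integrable g := by
  have h1 : IntegrableOn (fun t : ℝ => |B| * Real.exp (-b * t)) (Set.Ioi 0) :=
    (exp_neg_integrableOn_Ioi 0 hb).const_mul _
  have h2 : IntegrableOn g (Set.Ioi 0) := by
    refine Integrable.mono' h1 hg.aestronglyMeasurable ?_
    refine (ae_restrict_iff' measurableSet_Ioi).2 (Eventually.of_forall fun t ht => ?_)
    refine (hB t (le_of_lt ht)).trans ?_
    rw [show -(b * t) = -b * t by ring]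
    exact mul_le_mul_of_nonneg_right (le_abs_self B) (Real.exp_nonneg _)
  rw [← integrableOn_iff_integrable_of_support_subset (s := Set.Ioi 0)]
  · exact h2
  · intro t ht
    by_contra hc
    exact ht (h0 t (not_lt.1 hc))

end H32

open H32 in
theorem bf2 : Bf2Stmt := by
  intro w A M hw h0 hA hint hM t
  obtain ⟨W, hW⟩ : ∃ W : ℝ → ℂ, W = fun t => w t * Complex.exp (((1 / 4 : ℝ) : ℂ) * (t : ℂ)) :=
    ⟨_, rfl⟩
  have hWc : Continuous W := by
    rw [hW]
    exact hw.mul (by fun_prop)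
  have hW0 : ∀ t : ℝ, t ≤ 0 → W t = 0 := by
    intro t ht
    rw [hW]
    simp only
    rw [h0 t ht, zero_mul]
  have hWn : ∀ t : ℝ, ‖W t‖ = ‖w t‖ * Real.exp (1 / 4 * t) := by
    intro t
    rw [hW]
    simp only
    rw [norm_mul, ofReal_exp_neg]
  have hWb : ∀ t : ℝ, 0 ≤ t → ‖W t‖ ≤ A * Real.exp (-(1 / 4 * t)) := by
    intro t ht
    rw [hWn]
    refine (mul_le_mul_of_nonneg_right (hA t ht) (Real.exp_nonneg _)).trans ?_
    rw [mul_assoc, ← Real.exp_add]
    apply le_of_eq
    congr 2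
    ring
  have hWi : Integrable W := integrable_of_exp (by norm_num) hWc hW0 hWb
  have hF : ∀ ξ : ℝ, FourierTransform.fourier W ξ =
      FT w (((2 * Real.pi * ξ : ℝ) : ℂ) + Complex.I / 4) := by
    intro ξ
    rw [Real.fourier_eq']
    unfold FT
    apply integral_congr_ae
    refine Eventually.of_forall fun v => ?_
    simp only
    rw [hW]
    simp only [smul_eq_mul]
    rw [mul_comm, mul_assoc, ← Complex.exp_add]
    congr 2
    simp only [RCLike.inner_apply, conj_trivial]
    push_cast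
    linear_combination ((v : ℂ) / 4) * Complex.I_sq
  have h2pi : (2 * Real.pi) ≠ 0 := by positivity
  have hFi : Integrable (FourierTransform.fourier W) := by
    have h1 := (integrable_comp_mul_left_iff
      (fun x : ℝ => FT w ((x : ℂ) + Complex.I / 4)) h2pi).2 hint
    refine h1.congr (Eventually.of_forall fun ξ => ?_)
    exact (hF ξ).symm
  have hinv := hWi.fourierInv_fourier_eq hFi hWc.continuousAt (v := t)
  have hle : ‖W t‖ ≤ ∫ ξ : ℝ, ‖FourierTransform.fourier W ξ‖ := by
    rw [← hinv, Real.fourierInv_eq']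
    refine (norm_integral_le_integral_norm _).trans (le_of_eq ?_)
    apply integral_congr_ae
    refine Eventually.of_forall fun v => ?_
    simp only [norm_smul]
    rw [Complex.norm_exp]
    simp
  have hsc : ∫ ξ : ℝ, ‖FourierTransform.fourier W ξ‖ ≤ M := by
    have h1 : ∫ ξ : ℝ, ‖FourierTransform.fourier W ξ‖ =
        ∫ ξ : ℝ, (fun x : ℝ => ‖FT w ((x : ℂ) + Complex.I / 4)‖) (2 * Real.pi * ξ) := by
      apply integral_congr_ae
      refine Eventually.of_forall fun ξ => ?_
      simp only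
      rw [hF ξ]
    have h2 := Measure.integral_comp_mul_left
      (fun x : ℝ => ‖FT w ((x : ℂ) + Complex.I / 4)‖) (2 * Real.pi)
    rw [smul_eq_mul] at h2
    rw [h1]
    refine (le_of_eq h2).trans ?_
    have h3 : 0 ≤ ∫ x : ℝ, ‖FT w ((x : ℂ) + Complex.I / 4)‖ :=
      integral_nonneg fun x => norm_nonneg _
    have h4 : |(2 * Real.pi)⁻¹| ≤ 1 := by
      rw [abs_of_pos (by positivity)]
      apply inv_le_one_of_one_le₀
      nlinarith [Real.pi_gt_three]
    calc |(2 * Real.pi)⁻¹| * ∫ x : ℝ, ‖FT w ((x : ℂ) + Complex.I / 4)‖ ≤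
        1 * ∫ x : ℝ, ‖FT w ((x : ℂ) + Complex.I / 4)‖ := mul_le_mul_of_nonneg_right h4 h3
      _ ≤ M := by rw [one_mul]; exact hM
  have h5 : ‖w t‖ * Real.exp (1 / 4 * t) ≤ M := by
    rw [← hWn]
    exact hle.trans hsc
  have h6 : ‖w t‖ = ‖w t‖ * Real.exp (1 / 4 * t) * Real.exp (-(t / 4)) := by
    rw [mul_assoc, ← Real.exp_add]
    have : 1 / 4 * t + -(t / 4) = 0 := by ring
    rw [this, Real.exp_zero, mul_one]
  rw [h6]
  exact mul_le_mul_of_nonneg_right h5 (Real.exp_nonneg _)

end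

end Pool.Agent.WK
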