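import Pool.Agent.WK.Stmts

/-!
# BF3: comparison of two Blaschke products
-/

set_option autoImplicit false

namespace Pool.Agent.WK

open MeasureTheory Filter Topology Complex
open Pool.Agent.H78E

noncomputable section

namespace BF3

theorem one_sub_prod {ι : Type} [DecidableEq ι] (s : Finset ι) (b : ι → ℂ)
    (hb : ∀ i ∈ s, ‖b i‖ ≤ 1) : ‖∏ i ∈ s, b i‖ ≤ 1 ∧ ‖1 - ∏ i ∈ s, b i‖ ≤ ∑ i ∈ s, ‖1 - b i‖ := by
  induction s using Finset.induction_on with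
  | empty => simp
  | insert a s ha ih =>
    obtain ⟨h1, h2⟩ := ih fun i hi => hb i (Finset.mem_insert_of_mem hi)
    have h3 := hb a (Finset.mem_insert_self _ _)
    rw [Finset.prod_insert ha, Finset.sum_insert ha]
    constructor
    · rw [norm_mul]
      exact mul_le_one₀ h3 (norm_nonneg _) h1
    · have e : 1 - b a * ∏ i ∈ s, b i = (1 - b a) + b a * (1 - ∏ i ∈ s, b i) := by ring
      rw [e]
      have h4 : ‖b a * (1 - ∏ i ∈ s, b i)‖ ≤ ∑ i ∈ s, ‖1 - b i‖ := by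
        rw [norm_mul]
        calc ‖b a‖ * ‖1 - ∏ i ∈ s, b i‖ ≤ 1 * ‖1 - ∏ i ∈ s, b i‖ := by gcongr
          _ ≤ ∑ i ∈ s, ‖1 - b i‖ := by rw [one_mul]; exact h2
      exact (norm_add_le _ _).trans (by gcongr)

/-- the point of the line `Im z = 1/4` -/
theorem im_pt (x : ℝ) : ((x : ℂ) + Complex.I / 4).im = 1 / 4 := by
  simp

theorem den_eq (l x : ℝ) : (l : ℂ) + Complex.I * ((x : ℂ) + Complex.I / 4) =
    ((l - 1 / 4 : ℝ) : ℂ) + (x : ℂ) * Complex.I := by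
  have h := Complex.I_mul_I
  push_cast
  linear_combination (1 / 4) * h

theorem norm_den_sq (l x : ℝ) : ‖(l : ℂ) + Complex.I * ((x : ℂ) + Complex.I / 4)‖ ^ 2 =
    (l - 1 / 4) ^ 2 + x ^ 2 := by
  rw [den_eq, ← Complex.normSq_eq_norm_sq, Complex.normSq_add_mul_I]

theorem norm_pt_sq (x : ℝ) : ‖(x : ℂ) + Complex.I / 4‖ ^ 2 = x ^ 2 + 1 / 16 := by
  have e : (x : ℂ) + Complex.I / 4 = (x : ℂ) + ((1 / 4 : ℝ) : ℂ) * Complex.I := by
    push_cast
    ring
  rw [e, ← Complex.normSq_eq_norm_sq, Complex.normSq_add_mul_I]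
  norm_num

theorem weight {l : ℝ} (hl : 1 ≤ l) (x : ℝ) :
    ‖((l : ℂ) / ((l : ℂ) + Complex.I * ((x : ℂ) + Complex.I / 4))) ^ 4‖ *
      (8 * (1 + ‖(x : ℂ) + Complex.I / 4‖) ^ 2) ≤ 57 * l ^ 4 * (1 + x ^ 2)⁻¹ := by
  set n : ℝ := ‖(x : ℂ) + Complex.I / 4‖ with hn
  set m : ℝ := ‖(l : ℂ) + Complex.I * ((x : ℂ) + Complex.I / 4)‖ with hm
  have h1 : n ^ 2 = x ^ 2 + 1 / 16 := norm_pt_sq x
  have h2 : m ^ 2 = (l - 1 / 4) ^ 2 + x ^ 2 := norm_den_sq l x
  have h3 : (1 + n) ^ 2 ≤ 2 * (x ^ 2 + 17 / 16) := by nlinarith [sq_nonneg (1 - n)]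
  have h4 : (9 / 16 : ℝ) ≤ (l - 1 / 4) ^ 2 := by nlinarith
  have h5 : x ^ 2 + 17 / 16 ≤ 2 * m ^ 2 := by rw [h2]; nlinarith [sq_nonneg x]
  have h6 : 9 / 16 * (1 + x ^ 2) ≤ m ^ 2 := by rw [h2]; nlinarith [sq_nonneg x]
  have hmp : 0 < m ^ 2 := by nlinarith [sq_nonneg x]
  have hx : 0 < 1 + x ^ 2 := by positivity
  rw [norm_pow, norm_div, Complex.norm_real, Real.norm_of_nonneg (by linarith : (0 : ℝ) ≤ l),
    ← hm, div_pow]
  have e : m ^ 4 = m ^ 2 * m ^ 2 := by ring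
  rw [e]
  calc l ^ 4 / (m ^ 2 * m ^ 2) * (8 * (1 + n) ^ 2) ≤
      l ^ 4 / (m ^ 2 * m ^ 2) * (8 * (2 * (2 * m ^ 2))) := by
        gcongr
        exact h3.trans (by linarith)
    _ = 32 * l ^ 4 * (m ^ 2)⁻¹ := by
        field_simp
        ring
    _ ≤ 32 * l ^ 4 * (9 / 16 * (1 + x ^ 2))⁻¹ := by
        gcongr
    _ = (32 * 16 / 9) * l ^ 4 * (1 + x ^ 2)⁻¹ := by
        rw [mul_inv]
        ring
    _ ≤ 57 * l ^ 4 * (1 + x ^ 2)⁻¹ := by
        gcongr
        norm_num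

theorem integrable_ft {f : ℝ → ℂ} {A : ℝ} (hc : Continuous f) (h0 : ∀ t : ℝ, t ≤ 0 → f t = 0)
    (hA : ∀ t : ℝ, 0 ≤ t → ‖f t‖ ≤ A * Real.exp (-(t / 2))) (x : ℝ) :
    Integrable fun t : ℝ =>
      f t * Complex.exp (-(Complex.I * (t : ℂ) * ((x : ℂ) + Complex.I / 4))) := by
  have hA0 : 0 ≤ A := by
    have := (norm_nonneg _).trans (hA 0 le_rfl)
    simpa using this
  have hb : Integrable (fun t : ℝ => A * Real.exp (-(1 / 4) * t)) (volume.restrict (Set.Ioi 0)) :=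
    (exp_neg_integrableOn_Ioi 0 (by norm_num : (0 : ℝ) < 1 / 4)).const_mul A
  have hcont : Continuous fun t : ℝ =>
      f t * Complex.exp (-(Complex.I * (t : ℂ) * ((x : ℂ) + Complex.I / 4))) := by
    fun_prop
  have h1 : IntegrableOn (fun t : ℝ =>
      f t * Complex.exp (-(Complex.I * (t : ℂ) * ((x : ℂ) + Complex.I / 4)))) (Set.Ioi 0) := by
    refine Integrable.mono' hb hcont.aestronglyMeasurable ?_
    filter_upwards [ae_restrict_mem measurableSet_Ioi] with t ht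
    rw [norm_mul, Complex.norm_exp]
    have e : (-(Complex.I * (t : ℂ) * ((x : ℂ) + Complex.I / 4))).re = t / 4 := by
      simp
      ring
    rw [e]
    calc ‖f t‖ * Real.exp (t / 4) ≤ A * Real.exp (-(t / 2)) * Real.exp (t / 4) := by
          gcongr
          exact hA t (le_of_lt ht)
      _ = A * Real.exp (-(1 / 4) * t) := by
          rw [mul_assoc, ← Real.exp_add]
          congr 2
          ring
  have h2 : IntegrableOn (fun t : ℝ =>
      f t * Complex.exp (-(Complex.I * (t : ℂ) * ((x : ℂ) + Complex.I / 4)))) (Set.Iic 0) := by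
    refine IntegrableOn.congr_fun (f := fun _ => (0 : ℂ)) integrableOn_zero ?_ measurableSet_Iic
    intro t ht
    simp only
    rw [h0 t ht, zero_mul]
  have h3 := h2.union h1
  rw [Set.Iic_union_Ioi, integrableOn_univ] at h3
  exact h3

end BF3

open BF3 in
/-- BF3 -/
theorem bf3 (hb0 : Bf0Stmt) (hb2 : Bf2Stmt) : Bf3Stmt := by
  intro l hl
  refine ⟨57 * l ^ 4 * Real.pi, by positivity, ?_⟩
  intro F F' f f' hF hf hf'
  obtain ⟨hc, hz, ⟨A, hA⟩, hft⟩ := hf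
  obtain ⟨hc', hz', ⟨A', hA'⟩, hft'⟩ := hf'
  set S : ℝ := ∑ x ∈ F' \ F, 1 / (1 + x ^ 2) with hS
  have hS0 : 0 ≤ S := Finset.sum_nonneg fun x _ => by positivity
  have hFT : ∀ x : ℝ, FT (fun t => f t - f' t) ((x : ℂ) + Complex.I / 4) =
      ((l : ℂ) / ((l : ℂ) + Complex.I * ((x : ℂ) + Complex.I / 4))) ^ 4 *
        (∏ y ∈ F, bf y ((x : ℂ) + Complex.I / 4) -
          ∏ y ∈ F', bf y ((x : ℂ) + Complex.I / 4)) := by
    intro x
    have h1 := hft ((x : ℂ) + Complex.I / 4) (by rw [im_pt])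
    have h2 := hft' ((x : ℂ) + Complex.I / 4) (by rw [im_pt])
    rw [mul_sub, ← h1, ← h2]
    unfold FT
    rw [← integral_sub (integrable_ft hc hz hA x) (integrable_ft hc' hz' hA' x)]
    apply integral_congr_ae
    filter_upwards with t
    ring
  have hbd : ∀ x : ℝ, ‖FT (fun t => f t - f' t) ((x : ℂ) + Complex.I / 4)‖ ≤
      57 * l ^ 4 * S * (1 + x ^ 2)⁻¹ := by
    intro x
    rw [hFT x]
    set z : ℂ := (x : ℂ) + Complex.I / 4 with hzd
    have him : z.im ≤ 1 / 4 := by rw [hzd, im_pt]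
    rw [← Finset.prod_sdiff hF, norm_mul]
    have e : ∏ y ∈ F, bf y z - (∏ y ∈ F' \ F, bf y z) * ∏ y ∈ F, bf y z =
        (∏ y ∈ F, bf y z) * (1 - ∏ y ∈ F' \ F, bf y z) := by ring
    rw [e, norm_mul]
    have h1 := (one_sub_prod F (fun y => bf y z) fun y _ => (hb0 y z him).1).1
    have h2 := (one_sub_prod (F' \ F) (fun y => bf y z) fun y _ => (hb0 y z him).1).2
    have h3 : ∑ y ∈ F' \ F, ‖1 - bf y z‖ ≤ 8 * (1 + ‖z‖) ^ 2 * S := by
      rw [hS, Finset.mul_sum]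
      exact Finset.sum_le_sum fun y _ => (hb0 y z him).2.1
    have h4 := weight hl x
    rw [← hzd] at h4
    calc ‖((l : ℂ) / ((l : ℂ) + Complex.I * z)) ^ 4‖ *
          (‖∏ y ∈ F, bf y z‖ * ‖1 - ∏ y ∈ F' \ F, bf y z‖) ≤
        ‖((l : ℂ) / ((l : ℂ) + Complex.I * z)) ^ 4‖ * (1 * (8 * (1 + ‖z‖) ^ 2 * S)) := by
          gcongr
          exact h2.trans h3
      _ = ‖((l : ℂ) / ((l : ℂ) + Complex.I * z)) ^ 4‖ * (8 * (1 + ‖z‖) ^ 2) * S := by ring
      _ ≤ 57 * l ^ 4 * (1 + x ^ 2)⁻¹ * S := by gcongr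
      _ = 57 * l ^ 4 * S * (1 + x ^ 2)⁻¹ := by ring
  have hdom : Integrable fun x : ℝ => 57 * l ^ 4 * S * (1 + x ^ 2)⁻¹ :=
    integrable_inv_one_add_sq.const_mul _
  have hmeas : Measurable fun x : ℝ => FT (fun t => f t - f' t) ((x : ℂ) + Complex.I / 4) := by
    have e : (fun x : ℝ => FT (fun t => f t - f' t) ((x : ℂ) + Complex.I / 4)) = fun x : ℝ =>
        ((l : ℂ) / ((l : ℂ) + Complex.I * ((x : ℂ) + Complex.I / 4))) ^ 4 *
        (∏ y ∈ F, bf y ((x : ℂ) + Complex.I / 4) -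
          ∏ y ∈ F', bf y ((x : ℂ) + Complex.I / 4)) := funext hFT
    rw [e]
    have hm : ∀ y : ℝ, Measurable fun x : ℝ => bf y ((x : ℂ) + Complex.I / 4) := by
      intro y
      unfold bf
      fun_prop
    refine Measurable.mul (by fun_prop) (Measurable.sub ?_ ?_)
    · exact Finset.measurable_fun_prod _ fun y _ => hm y
    · exact Finset.measurable_fun_prod _ fun y _ => hm y
  have hint : Integrable fun x : ℝ => FT (fun t => f t - f' t) ((x : ℂ) + Complex.I / 4) :=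
    hdom.mono' hmeas.aestronglyMeasurable (Filter.Eventually.of_forall hbd)
  have hM : (∫ x : ℝ, ‖FT (fun t => f t - f' t) ((x : ℂ) + Complex.I / 4)‖) ≤
      57 * l ^ 4 * Real.pi * S := by
    calc (∫ x : ℝ, ‖FT (fun t => f t - f' t) ((x : ℂ) + Complex.I / 4)‖) ≤
        ∫ x : ℝ, 57 * l ^ 4 * S * (1 + x ^ 2)⁻¹ := integral_mono hint.norm hdom hbd
      _ = 57 * l ^ 4 * Real.pi * S := by
          rw [integral_const_mul, integral_univ_inv_one_add_sq]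
          ring
  have := hb2 (fun t => f t - f' t) (A + A') (57 * l ^ 4 * Real.pi * S) (hc.sub hc')
    (fun t ht => by rw [hz t ht, hz' t ht, sub_zero])
    (fun t ht => by
      refine (norm_sub_le _ _).trans ?_
      rw [add_mul]
      exact add_le_add (hA t ht) (hA' t ht)) hint hM
  exact this

end

end Pool.Agent.WK
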