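import Pool.Agent.WK.Bf3

/-!
# BLA: infinite Blaschke products
-/

set_option autoImplicit false

namespace Pool.Agent.WK

open MeasureTheory Filter Topology Complex
open Pool.Agent.H78E

noncomputable section

namespace BLA

/-- integrability of the integrand of the transform, `Im z ≤ 0` -/
theorem integrable_ft {f : ℝ → ℂ} {A : ℝ} (hc : Continuous f) (h0 : ∀ t : ℝ, t ≤ 0 → f t = 0)
    (hA : ∀ t : ℝ, 0 ≤ t → ‖f t‖ ≤ A * Real.exp (-(t / 4))) {z : ℂ} (hz : z.im ≤ 0) :
    Integrable (fun t : ℝ => f t * Complex.exp (-(Complex.I * (t : ℂ) * z))) ∧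
      ‖∫ t : ℝ, f t * Complex.exp (-(Complex.I * (t : ℂ) * z))‖ ≤ 4 * A := by
  have hb : IntegrableOn (fun t : ℝ => A * Real.exp (-(1 / 4) * t)) (Set.Ioi 0) :=
    (exp_neg_integrableOn_Ioi 0 (by norm_num : (0 : ℝ) < 1 / 4)).const_mul A
  have hcont : Continuous fun t : ℝ => f t * Complex.exp (-(Complex.I * (t : ℂ) * z)) := by
    fun_prop
  have hle : ∀ t : ℝ, 0 < t → ‖f t * Complex.exp (-(Complex.I * (t : ℂ) * z))‖ ≤
      A * Real.exp (-(1 / 4) * t) := by
    intro t ht
    rw [norm_mul, Complex.norm_exp]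
    have e : (-(Complex.I * (t : ℂ) * z)).re = t * z.im := by
      simp
    rw [e]
    have h1 : Real.exp (t * z.im) ≤ 1 := by
      rw [Real.exp_le_one_iff]
      exact mul_nonpos_of_nonneg_of_nonpos ht.le hz
    have h2 : -(1 / 4) * t = -(t / 4) := by ring
    rw [h2]
    calc ‖f t‖ * Real.exp (t * z.im) ≤ ‖f t‖ * 1 := by gcongr
      _ ≤ A * Real.exp (-(t / 4)) := by rw [mul_one]; exact hA t ht.le
  have h1 : IntegrableOn (fun t : ℝ => f t * Complex.exp (-(Complex.I * (t : ℂ) * z)))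
      (Set.Ioi 0) := by
    refine Integrable.mono' hb hcont.aestronglyMeasurable ?_
    filter_upwards [ae_restrict_mem measurableSet_Ioi] with t ht
    exact hle t ht
  have hz0 : ∀ t ∈ Set.Iic (0 : ℝ), (0 : ℂ) = f t * Complex.exp (-(Complex.I * (t : ℂ) * z)) := by
    intro t ht
    rw [h0 t ht, zero_mul]
  have h2 : IntegrableOn (fun t : ℝ => f t * Complex.exp (-(Complex.I * (t : ℂ) * z)))
      (Set.Iic 0) :=
    IntegrableOn.congr_fun (f := fun _ => (0 : ℂ)) integrableOn_zero hz0 measurableSet_Iic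
  have h3 := h2.union h1
  rw [Set.Iic_union_Ioi, integrableOn_univ] at h3
  refine ⟨h3, ?_⟩
  have h4 : ∫ t : ℝ, f t * Complex.exp (-(Complex.I * (t : ℂ) * z)) =
      ∫ t in Set.Ioi (0 : ℝ), f t * Complex.exp (-(Complex.I * (t : ℂ) * z)) := by
    rw [← integral_add_compl measurableSet_Ioi h3]
    have h5 : ∫ t in (Set.Ioi (0 : ℝ))ᶜ, f t * Complex.exp (-(Complex.I * (t : ℂ) * z)) = 0 := by
      rw [Set.compl_Ioi]
      rw [← setIntegral_congr_fun measurableSet_Iic hz0]
      simp
    rw [h5, add_zero]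
  rw [h4]
  calc ‖∫ t in Set.Ioi (0 : ℝ), f t * Complex.exp (-(Complex.I * (t : ℂ) * z))‖ ≤
      ∫ t in Set.Ioi (0 : ℝ), ‖f t * Complex.exp (-(Complex.I * (t : ℂ) * z))‖ :=
        norm_integral_le_integral_norm _
    _ ≤ ∫ t in Set.Ioi (0 : ℝ), A * Real.exp (-(1 / 4) * t) :=
        setIntegral_mono_on h1.norm hb measurableSet_Ioi fun t ht => hle t ht
    _ = 4 * A := by
        rw [integral_const_mul, integral_exp_mul_Ioi (by norm_num) 0]
        norm_num
        ring

theorem den_ne {l : ℝ} (hl : 1 ≤ l) {z : ℂ} (hz : z.im ≤ 0) :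
    (l : ℂ) / ((l : ℂ) + Complex.I * z) ≠ 0 := by
  apply div_ne_zero
  · exact_mod_cast (by linarith : l ≠ 0)
  · intro h
    have := congrArg Complex.re h
    simp at this
    linarith

end BLA

open BLA BF3 in
/-- BLA -/
theorem bla (hb0 : Bf0Stmt) (hb1 : Bf1Stmt) (hb3 : Bf3Stmt) : BlaStmt := by
  classical
  intro l hl
  obtain ⟨C, hC0, hC⟩ := hb3 l hl
  refine ⟨C, hC0, ?_⟩
  intro K hK
  set w : K → ℝ := fun x => 1 / (1 + (x : ℝ) ^ 2) with hw
  have hw0 : ∀ x, 0 ≤ w x := fun x => by rw [hw]; positivity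
  have hsum : Summable w := hK
  set T : ℝ := ∑' x : K, w x with hT
  set S : Finset K → ℝ := fun F => ∑ x ∈ F, w x with hS
  have hST : ∀ F, S F ≤ T := fun F => hsum.sum_le_tsum F fun x _ => hw0 x
  have hT0 : 0 ≤ T := (Finset.sum_nonneg fun x _ => hw0 x).trans (hST ∅)
  have hlimS : Tendsto S atTop (𝓝 T) := hsum.hasSum
  set em : K ↪ ℝ := Function.Embedding.subtype _ with hem
  have hex : ∀ F : Finset K, ∃ f : ℝ → ℂ, IsB l (F.map em) f := fun F => (hb1 l hl).2 _
  choose fn hfn using hex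
  -- the comparison
  have hcmp : ∀ (F F' : Finset K), F ⊆ F' → ∀ t : ℝ,
      ‖fn F t - fn F' t‖ ≤ C * (S F' - S F) * Real.exp (-(t / 4)) := by
    intro F F' h t
    have h1 := hC (F.map em) (F'.map em) (fn F) (fn F') (Finset.map_subset_map.2 h) (hfn F)
      (hfn F') t
    have h2 : ∑ x ∈ F'.map em \ F.map em, 1 / (1 + x ^ 2) = S F' - S F := by
      rw [← Finset.map_sdiff, Finset.sum_map, hS]
      simp only
      rw [← Finset.sum_sdiff h]
      rw [add_sub_cancel_right]
      rfl
    rw [h2] at h1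
    exact h1
  have hcmpT : ∀ (F F' : Finset K), F ⊆ F' → ∀ t : ℝ,
      ‖fn F t - fn F' t‖ ≤ C * (T - S F) * Real.exp (-(t / 4)) := by
    intro F F' h t
    refine (hcmp F F' h t).trans ?_
    have := hST F'
    gcongr
  -- the limit
  have hlim : ∀ t : ℝ, ∃ y : ℂ, Tendsto (fun F => fn F t) atTop (𝓝 y) := by
    intro t
    apply cauchySeq_tendsto_of_complete
    rw [Metric.cauchySeq_iff']
    intro ε hε
    have h1 : Tendsto (fun F => C * (T - S F) * Real.exp (-(t / 4))) atTop (𝓝 0) := by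
      have h2 : Tendsto (fun F => T - S F) atTop (𝓝 0) := by
        have := hlimS.const_sub T
        rwa [sub_self] at this
      have h3 := (h2.const_mul C).mul_const (Real.exp (-(t / 4)))
      rwa [mul_zero, zero_mul] at h3
    obtain ⟨F0, hF0⟩ := (h1.eventually (gt_mem_nhds hε)).exists
    refine ⟨F0, fun F hF => ?_⟩
    rw [dist_comm, dist_eq_norm]
    exact (hcmpT F0 F hF t).trans_lt hF0
  choose f hf using hlim
  have hfF : ∀ (F : Finset K) (t : ℝ), ‖fn F t - f t‖ ≤ C * (T - S F) * Real.exp (-(t / 4)) := by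
    intro F t
    refine le_of_tendsto ((tendsto_const_nhds.sub (hf t)).norm) ?_
    filter_upwards [eventually_ge_atTop F] with F' hF'
    exact hcmpT F F' hF' t
  have hf0 : ∀ t : ℝ, t ≤ 0 → f t = 0 := by
    intro t ht
    refine tendsto_nhds_unique (hf t) ?_
    have : (fun F => fn F t) = fun _ => (0 : ℂ) := funext fun F => (hfn F).2.1 t ht
    rw [this]
    exact tendsto_const_nhds
  have hcont : Continuous f := by
    have hu : TendstoUniformly fn f atTop := by
      rw [Metric.tendstoUniformly_iff]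
      intro ε hε
      have h1 : Tendsto (fun F => C * (T - S F)) atTop (𝓝 0) := by
        have h2 : Tendsto (fun F => T - S F) atTop (𝓝 0) := by
          have := hlimS.const_sub T
          rwa [sub_self] at this
        have h3 := h2.const_mul C
        rwa [mul_zero] at h3
      filter_upwards [h1.eventually (gt_mem_nhds hε)] with F hF t
      rw [dist_comm, dist_eq_norm]
      rcases le_total t 0 with ht | ht
      · rw [hf0 t ht, (hfn F).2.1 t ht, sub_zero, norm_zero]
        exact hε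
      · refine (hfF F t).trans_lt (lt_of_le_of_lt ?_ hF)
        have h4 : Real.exp (-(t / 4)) ≤ 1 := by
          rw [Real.exp_le_one_iff]
          linarith
        have h5 : 0 ≤ C * (T - S F) := mul_nonneg hC0 (by linarith [hST F])
        calc C * (T - S F) * Real.exp (-(t / 4)) ≤ C * (T - S F) * 1 := by gcongr
          _ = C * (T - S F) := mul_one _
    exact hu.continuous (Filter.Frequently.of_forall fun F => (hfn F).1)
  have hq : ∀ t : ℝ, ‖f t - q l t‖ ≤ C * T * Real.exp (-(t / 4)) := by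
    intro t
    refine le_of_tendsto (((hf t).sub tendsto_const_nhds).norm) ?_
    filter_upwards with F
    have h1 := hC ∅ (F.map em) (q l) (fn F) (Finset.empty_subset _) (hb1 l hl).1 (hfn F) t
    rw [norm_sub_rev] at h1
    refine h1.trans ?_
    have h2 : ∑ x ∈ F.map em \ ∅, 1 / (1 + x ^ 2) = S F := by
      rw [Finset.sdiff_empty, Finset.sum_map]
      rfl
    rw [h2]
    have := hST F
    gcongr
  obtain ⟨A, hA⟩ := (hb1 l hl).1.2.2.1
  have hfA : ∀ t : ℝ, 0 ≤ t → ‖f t‖ ≤ (A + C * T) * Real.exp (-(t / 4)) := by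
    intro t ht
    have hA0 : 0 ≤ A := by
      have := (norm_nonneg _).trans (hA 0 le_rfl)
      simpa using this
    have h1 : f t = (f t - q l t) + q l t := by ring
    rw [h1]
    refine (norm_add_le _ _).trans ?_
    have h2 : A * Real.exp (-(t / 2)) ≤ A * Real.exp (-(t / 4)) := by
      gcongr
      linarith
    have h3 := hq t
    have h4 := hA t ht
    rw [add_mul]
    linarith
  refine ⟨f, hcont, hf0, ⟨A + C * T, hfA⟩, hq, ?_⟩
  intro z hz
  have hfnA : ∀ F, ∃ B : ℝ, ∀ t : ℝ, 0 ≤ t → ‖fn F t‖ ≤ B * Real.exp (-(t / 4)) := by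
    intro F
    obtain ⟨B, hB⟩ := (hfn F).2.2.1
    have hB0 : 0 ≤ B := by
      have := (norm_nonneg _).trans (hB 0 le_rfl)
      simpa using this
    refine ⟨B, fun t ht => (hB t ht).trans ?_⟩
    gcongr
    linarith
  -- convergence of the transforms
  have hFT : ∀ F, ‖FT (fn F) z - FT f z‖ ≤ 4 * (C * (T - S F)) := by
    intro F
    obtain ⟨B, hB⟩ := hfnA F
    have i1 := (integrable_ft (hfn F).1 (hfn F).2.1 hB hz).1
    have i2 := (integrable_ft hcont hf0 hfA hz).1
    have h1 := (integrable_ft (f := fun t => fn F t - f t) (A := C * (T - S F))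
      ((hfn F).1.sub hcont) (fun t ht => by rw [(hfn F).2.1 t ht, hf0 t ht, sub_zero])
      (fun t _ => hfF F t) hz).2
    have h2 : FT (fn F) z - FT f z =
        ∫ t : ℝ, (fn F t - f t) * Complex.exp (-(Complex.I * (t : ℂ) * z)) := by
      unfold FT
      rw [← integral_sub i1 i2]
      apply integral_congr_ae
      filter_upwards with t
      ring
    rw [h2]
    exact h1
  have hlimFT : Tendsto (fun F => FT (fn F) z) atTop (𝓝 (FT f z)) := by
    rw [tendsto_iff_norm_sub_tendsto_zero]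
    refine squeeze_zero (fun _ => norm_nonneg _) hFT ?_
    have h2 : Tendsto (fun F => T - S F) atTop (𝓝 0) := by
      have := hlimS.const_sub T
      rwa [sub_self] at this
    have h3 := (h2.const_mul C).const_mul 4
    rwa [mul_zero, mul_zero] at h3
  have hval : ∀ F, FT (fn F) z = ((l : ℂ) / ((l : ℂ) + Complex.I * z)) ^ 4 *
      ∏ x ∈ F, bf (x : ℝ) z := by
    intro F
    have h1 := (hfn F).2.2.2 z (by linarith)
    rw [Finset.prod_map] at h1
    exact h1
  constructor
  · -- outside `K` the transform does not vanish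
    intro h0
    by_contra hzK
    set D : ℝ := 8 * (1 + ‖z‖) ^ 2 with hD
    have hD0 : 0 < D := by rw [hD]; positivity
    have hne : ∀ x : K, bf (x : ℝ) z ≠ 0 := by
      intro x h
      apply hzK
      exact ⟨x, x.2, ((hb0 x z (by linarith)).2.2.1 h).symm⟩
    obtain ⟨F0, hF0⟩ : ∃ F0, D * (T - S F0) ≤ 1 / 2 := by
      have h2 : Tendsto (fun F => T - S F) atTop (𝓝 0) := by
        have := hlimS.const_sub T
        rwa [sub_self] at this
      have h3 := h2.const_mul D
      rw [mul_zero] at h3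
      obtain ⟨F0, h⟩ := (h3.eventually (gt_mem_nhds (by norm_num : (0 : ℝ) < 1 / 2))).exists
      exact ⟨F0, h.le⟩
    set c : ℝ := ‖((l : ℂ) / ((l : ℂ) + Complex.I * z)) ^ 4‖ * (‖∏ x ∈ F0, bf (x : ℝ) z‖ * (1 / 2))
      with hc
    have hcpos : 0 < c := by
      have h1 : 0 < ‖((l : ℂ) / ((l : ℂ) + Complex.I * z)) ^ 4‖ :=
        norm_pos_iff.2 (pow_ne_zero _ (den_ne hl hz))
      have h2 : 0 < ‖∏ x ∈ F0, bf (x : ℝ) z‖ :=
        norm_pos_iff.2 (Finset.prod_ne_zero_iff.2 fun x _ => hne x)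
      positivity
    have hle : c ≤ ‖FT f z‖ := by
      refine ge_of_tendsto hlimFT.norm ?_
      filter_upwards [eventually_ge_atTop F0] with F hF
      rw [hval F, ← Finset.prod_sdiff hF, norm_mul, norm_mul, hc,
        mul_comm ‖∏ x ∈ F \ F0, bf (x : ℝ) z‖]
      have h1 := (one_sub_prod (F \ F0) (fun y : K => bf (y : ℝ) z)
        fun y _ => (hb0 y z (by linarith)).1).2
      have h2 : ∑ y ∈ F \ F0, ‖1 - bf (y : ℝ) z‖ ≤ D * (T - S F0) := by
        calc ∑ y ∈ F \ F0, ‖1 - bf (y : ℝ) z‖ ≤ ∑ y ∈ F \ F0, D * w y :=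
              Finset.sum_le_sum fun y _ => (hb0 y z (by linarith)).2.1
          _ = D * ∑ y ∈ F \ F0, w y := by rw [Finset.mul_sum]
          _ = D * (S F - S F0) := by
              congr 1
              rw [hS]
              simp only
              rw [← Finset.sum_sdiff hF, add_sub_cancel_right]
          _ ≤ D * (T - S F0) := by
              have := hST F
              gcongr
      have h3 : 1 / 2 ≤ ‖∏ y ∈ F \ F0, bf (y : ℝ) z‖ := by
        have h4 : ‖(1 : ℂ)‖ ≤ ‖1 - ∏ y ∈ F \ F0, bf (y : ℝ) z‖ +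
            ‖∏ y ∈ F \ F0, bf (y : ℝ) z‖ := by
          have := norm_add_le (1 - ∏ y ∈ F \ F0, bf (y : ℝ) z) (∏ y ∈ F \ F0, bf (y : ℝ) z)
          rwa [sub_add_cancel] at this
        rw [norm_one] at h4
        linarith
      gcongr
    rw [h0, norm_zero] at hle
    linarith
  · rintro ⟨x, hx, rfl⟩
    refine tendsto_nhds_unique hlimFT ?_
    refine tendsto_const_nhds.congr' ?_
    filter_upwards [eventually_ge_atTop ({⟨x, hx⟩} : Finset K)] with F hF
    rw [hval F, Finset.prod_eq_zero (hF (Finset.mem_singleton_self _))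
      ((hb0 x x (by simp)).2.2.2 rfl), mul_zero]

end

end Pool.Agent.WK
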