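import Pool.Agent.WK.Stmts

set_option autoImplicit false

namespace Pool.Agent.WK

theorem blk : BlkStmt := by
  classical
  intro L hL
  have h1 : ∀ k : ℕ, ∃ (y : ℝ) (G : Finset ℝ), (∀ x ∈ G, x ∈ L ∧ (4 : ℝ) ^ k ≤ |x|) ∧
      (∀ x ∈ G, y ≤ x ∧ x ≤ y + 1) ∧ G.card = k + 1 := by
    intro k
    have h2 := hL ((4 : ℝ) ^ k) k
    unfold LocB at h2
    push Not at h2
    obtain ⟨y, F, hF, hFy, hcard⟩ := h2
    obtain ⟨G, hG, hGc⟩ := Finset.exists_subset_card_eq (Nat.succ_le_of_lt hcard)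
    exact ⟨y, G, fun x hx => hF (hG hx), fun x hx => hFy x (hG hx), hGc⟩
  choose y G hGL hGy hGc using h1
  refine ⟨⋃ k, (G k : Set ℝ), ?_, ?_, ?_⟩
  · intro x hx
    obtain ⟨k, hk⟩ := Set.mem_iUnion.mp hx
    exact (hGL k x hk).1
  · -- summability
    have hs : Summable (fun p : (Σ k : ℕ, G k) => 1 / (1 + (p.2 : ℝ) ^ 2)) := by
      rw [summable_sigma_of_nonneg (fun p => by positivity)]
      refine ⟨fun k => Summable.of_finite, ?_⟩
      have h3 : Summable (fun k : ℕ => ((k : ℝ) + 1) * (1 / 16) ^ k) := by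
        have h4 : Summable (fun k : ℕ => (k : ℝ) ^ 1 * (1 / 16 : ℝ) ^ k) :=
          summable_pow_mul_geometric_of_norm_lt_one 1 (by norm_num)
        have h5 : Summable (fun k : ℕ => (1 / 16 : ℝ) ^ k) :=
          summable_geometric_of_lt_one (by norm_num) (by norm_num)
        refine (h4.add h5).congr fun k => ?_
        ring
      refine Summable.of_nonneg_of_le (fun k => tsum_nonneg fun x => by positivity)
        (fun k => ?_) h3
      rw [tsum_fintype]
      have h6 : ∀ x ∈ (Finset.univ : Finset (G k)), 1 / (1 + (x : ℝ) ^ 2) ≤ (1 / 16) ^ k := by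
        intro x _
        have h7 := (hGL k x x.2).2
        have h8 : (16 : ℝ) ^ k ≤ (x : ℝ) ^ 2 := by
          rw [← sq_abs]
          calc (16 : ℝ) ^ k = ((4 : ℝ) ^ k) ^ 2 := by
                rw [← pow_mul, mul_comm, pow_mul]; norm_num
            _ ≤ |(x : ℝ)| ^ 2 := pow_le_pow_left₀ (by positivity) h7 2
        rw [one_div_pow]
        exact one_div_le_one_div_of_le (by positivity) (by linarith)
      calc ∑ x : G k, 1 / (1 + (x : ℝ) ^ 2)
          ≤ (Finset.univ : Finset (G k)).card • ((1 / 16 : ℝ) ^ k) :=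
            Finset.sum_le_card_nsmul _ _ _ h6
        _ = ((k : ℝ) + 1) * (1 / 16) ^ k := by
            rw [nsmul_eq_mul, Finset.card_univ, Fintype.card_coe, hGc]
            push_cast
            ring
    have h9 : ∀ x : (⋃ k, (G k : Set ℝ) : Set ℝ), ∃ k, (x : ℝ) ∈ G k := fun x => by
      obtain ⟨k, hk⟩ := Set.mem_iUnion.mp x.2
      exact ⟨k, hk⟩
    choose κ hκ using h9
    let s : (⋃ k, (G k : Set ℝ) : Set ℝ) → (Σ k : ℕ, G k) := fun x => ⟨κ x, ⟨x, hκ x⟩⟩
    have hinj : Function.Injective s := by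
      intro a b hab
      have : ((s a).2 : ℝ) = (s b).2 := by rw [hab]
      exact Subtype.ext this
    have hc : Summable ((fun p : (Σ k : ℕ, G k) => 1 / (1 + (p.2 : ℝ) ^ 2)) ∘ s) :=
      Summable.comp_injective hs hinj
    unfold Sparse
    exact hc
  · intro N hN
    have h1 := hN (y N) (G N) (fun x hx => Set.mem_iUnion.mpr ⟨N, hx⟩) (hGy N)
    rw [hGc] at h1
    omega

end Pool.Agent.WK
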