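import Pool.Agent.WK.Stmts
import Pool.Agent.Helper7_WK.Clu0

/-!
# MP_7d2497_an, squad WK: row CLU
-/

namespace Pool.Agent.WK

open MeasureTheory Filter Topology Complex
open Pool.Agent.H78E

theorem clu : CluStmt := by
  intro φ _ K T C h
  obtain ⟨N, hN⟩ := Pool.Agent.Helper7_WK.clu0 (φ := φ) K C (max T 1)
    (lt_of_lt_of_le one_pos (le_max_right _ _)) (by
      intro F hF c m hm s
      exact h F c m (fun x hx => hF x hx) (fun t h1 h2 => hm t h1 (h2.trans (le_max_left _ _))) s)
  refine ⟨N, fun y F hF hy => hN y F fun x hx => ⟨hF hx, hy x hx⟩⟩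

end Pool.Agent.WK
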