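import Pool.Agent.WK.Stmts

/-!
# MP_7d2497_an, squad WK, row CNV (helper25): convolution on the half-line
-/

set_option autoImplicit false

namespace Pool.Agent.WK

open MeasureTheory Filter Topology Complex
open Pool.Agent.H78E

noncomputable section

namespace H25

theorem int_of_L1 {φ : ℝ → ℝ} (hφ : IsWeight φ) {f : ℝ → ℂ} (hf : L1 φ f) : Integrable f := by
  refine hf.2.mono' hf.1 (ae_of_all _ fun t => ?_)
  have := mul_le_mul_of_nonneg_right (hφ.one_le t) (norm_nonneg (f t))
  rw [one_mul] at this
  exact this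

theorem cv_eq (f k : ℝ → ℂ) :
    cv f k = convolution k f (ContinuousLinearMap.mul ℂ ℂ) volume := by
  funext t
  unfold cv convolution
  congr 1
  funext s
  simp [mul_comm]

theorem cv_int {f k : ℝ → ℂ} (hf : Integrable f) (hk : Integrable k) : Integrable (cv f k) := by
  rw [cv_eq]
  exact hk.integrable_convolution _ hf

theorem cv_integral {f k : ℝ → ℂ} (hf : Integrable f) (hk : Integrable k) :
    ∫ t, cv f k t = (∫ t, f t) * ∫ t, k t := by
  rw [cv_eq, integral_convolution _ hk hf]
  simp [mul_comm]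

/-- the modulated function -/
def md (z : ℂ) (f : ℝ → ℂ) (t : ℝ) : ℂ := f t * Complex.exp (-(Complex.I * (t : ℂ) * z))

theorem md_int {f : ℝ → ℂ} (hf : Integrable f) (h0 : ∀ t : ℝ, t < 0 → f t = 0) {z : ℂ}
    (hz : z.im ≤ 0) : Integrable (md z f) := by
  refine hf.norm.mono' (hf.1.mul (by fun_prop)) (ae_of_all _ fun t => ?_)
  unfold md
  rw [norm_mul]
  rcases lt_or_ge t 0 with h | h
  · rw [h0 t h]
    simp
  · have h1 : ‖Complex.exp (-(Complex.I * (t : ℂ) * z))‖ ≤ 1 := by
      rw [Complex.norm_exp]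
      apply Real.exp_le_one_iff.2
      have : (-(Complex.I * (t : ℂ) * z)).re = t * z.im := by
        simp
      rw [this]
      exact mul_nonpos_of_nonneg_of_nonpos h hz
    exact mul_le_of_le_one_right (norm_nonneg _) h1

theorem md_cv (z : ℂ) (f k : ℝ → ℂ) : md z (cv f k) = cv (md z f) (md z k) := by
  funext t
  unfold md cv
  rw [← integral_mul_const]
  congr 1
  funext s
  have h1 : Complex.exp (-(Complex.I * (t : ℂ) * z)) =
      Complex.exp (-(Complex.I * ((t - s : ℝ) : ℂ) * z)) *
        Complex.exp (-(Complex.I * (s : ℂ) * z)) := by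
    rw [← Complex.exp_add]
    congr 1
    push_cast
    ring
  rw [h1]
  ring

end H25

open H25

theorem cnv : CnvStmt := by
  intro φ hφ f k hf hk
  have hfi := int_of_L1 hφ hf.1
  have hki := int_of_L1 hφ hk.1
  have hφ0 : ∀ t, 0 ≤ φ t := fun t => zero_le_one.trans (hφ.one_le t)
  have hci := cv_int hfi hki
  set F : ℝ → ℝ := fun t => φ t * ‖f t‖ with hF
  set K : ℝ → ℝ := fun t => φ t * ‖k t‖ with hK
  have hFi : Integrable F := hf.1.2
  have hKi : Integrable K := hk.1.2
  have hcon := hKi.integrable_convolution (ContinuousLinearMap.mul ℝ ℝ) hFi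
  have hae := hKi.ae_convolution_exists (ContinuousLinearMap.mul ℝ ℝ) hFi
  have hle : ∀ᵐ t, φ t * ‖cv f k t‖ ≤
      convolution K F (ContinuousLinearMap.mul ℝ ℝ) volume t := by
    filter_upwards [hae] with t ht
    have h1 : ‖cv f k t‖ ≤ ∫ s, ‖f (t - s)‖ * ‖k s‖ := by
      unfold cv
      refine (norm_integral_le_integral_norm _).trans (le_of_eq ?_)
      congr 1
      funext s
      rw [norm_mul]
    have h2 : Integrable (fun s => K s * F (t - s)) := ht
    calc φ t * ‖cv f k t‖ ≤ φ t * ∫ s, ‖f (t - s)‖ * ‖k s‖ :=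
          mul_le_mul_of_nonneg_left h1 (hφ0 t)
      _ = ∫ s, φ t * (‖f (t - s)‖ * ‖k s‖) := by rw [integral_const_mul]
      _ ≤ ∫ s, K s * F (t - s) := by
          refine integral_mono_of_nonneg (ae_of_all _ fun s => ?_) h2 (ae_of_all _ fun s => ?_)
          · exact mul_nonneg (hφ0 t) (mul_nonneg (norm_nonneg _) (norm_nonneg _))
          · have h3 : φ t ≤ φ (t - s) * φ s := by
              have := hφ.submul (t - s) s
              rwa [sub_add_cancel] at this
            have h4 := mul_le_mul_of_nonneg_right h3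
              (mul_nonneg (norm_nonneg (f (t - s))) (norm_nonneg (k s)))
            refine h4.trans (le_of_eq ?_)
            simp only [hF, hK]
            ring
      _ = convolution K F (ContinuousLinearMap.mul ℝ ℝ) volume t := rfl
  have hint : Integrable (fun t => φ t * ‖cv f k t‖) := by
    refine hcon.mono' (hφ.meas.aestronglyMeasurable.mul hci.1.norm) ?_
    filter_upwards [hle] with t ht
    rw [Real.norm_of_nonneg (mul_nonneg (hφ0 t) (norm_nonneg _))]
    exact ht
  refine ⟨⟨⟨hci.1, hint⟩, fun t ht => ?_⟩, ?_, fun z hz => ?_⟩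
  · unfold cv
    rw [integral_eq_zero_of_ae]
    refine ae_of_all _ fun s => ?_
    rcases lt_or_ge s 0 with h | h
    · simp [hk.2 s h]
    · simp [hf.2 (t - s) (by linarith)]
  · refine (integral_mono_ae hint hcon hle).trans (le_of_eq ?_)
    rw [integral_convolution _ hKi hFi]
    simp [mul_comm, hF, hK]
  · change ∫ t, md z (cv f k) t = (∫ t, md z f t) * ∫ t, md z k t
    rw [md_cv]
    exact cv_integral (md_int hfi hf.2 hz) (md_int hki hk.2 hz)

end

end Pool.Agent.WK
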