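import Pool.Agent.WK.Stmts
import Pool.Agent.Helper7_WK.CrCont

/-!
# MP_7d2497_an, squad WK: row CON
-/

namespace Pool.Agent.WK

open MeasureTheory Filter Topology Complex
open Pool.Agent.H78E

theorem con7 : ConStmt := by
  intro φ hφ f G hf hG
  refine ⟨Pool.Agent.Helper7_WK.cr_continuous hφ hG hf, fun C hC s => ?_⟩
  have hC0 : 0 ≤ C := by
    obtain ⟨t, ht⟩ := hC.exists
    have h1 := norm_nonneg (G t)
    have h2 := Pool.Agent.Helper7_WK.weight_pos hφ t
    by_contra hcon
    push Not at hcon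
    have := mul_neg_of_neg_of_pos hcon h2
    linarith
  have h1 : ‖∫ t : ℝ, f t * G (t + s)‖ ≤ ∫ t : ℝ, (C * φ s) * (φ t * ‖f t‖) := by
    refine norm_integral_le_of_norm_le (hf.2.const_mul _) ?_
    filter_upwards [Pool.Agent.Helper7_WK.ae_add s hC] with t ht
    rw [norm_mul]
    calc ‖f t‖ * ‖G (t + s)‖ ≤ ‖f t‖ * (C * φ (t + s)) :=
          mul_le_mul_of_nonneg_left ht (norm_nonneg _)
      _ ≤ ‖f t‖ * (C * (φ t * φ s)) := by
          apply mul_le_mul_of_nonneg_left _ (norm_nonneg _)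
          exact mul_le_mul_of_nonneg_left (hφ.submul t s) hC0
      _ = _ := by ring
  rw [integral_const_mul] at h1
  calc _ ≤ _ := h1
    _ = _ := by ring

end Pool.Agent.WK
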