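import Pool.Agent.WK.Stmts
import Pool.Agent.Helper15_E.Line

/-! # CON: correlations are continuous and weighted bounded -/

set_option autoImplicit false

namespace Pool.Agent.WK

open MeasureTheory Filter Topology Complex
open Pool.Agent.H78E Pool.Agent.Helper15_E

namespace CON

variable {φ : ℝ → ℝ} {f G : ℝ → ℂ}

theorem pos (hφ : IsWeight φ) (t : ℝ) : 0 < φ t := lt_of_lt_of_le one_pos (hφ.one_le t)

theorem c_nonneg (hφ : IsWeight φ) {C : ℝ} (hC : ∀ᵐ t : ℝ, ‖G t‖ ≤ C * φ t) : 0 ≤ C := by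
  obtain ⟨t, ht⟩ := hC.exists
  by_contra h
  rw [not_le] at h
  have h1 := mul_neg_of_neg_of_pos h (pos hφ t)
  have h2 := norm_nonneg (G t)
  linarith

theorem shift_ae (s : ℝ) {p : ℝ → Prop} (h : ∀ᵐ t : ℝ, p t) : ∀ᵐ t : ℝ, p (t + s) :=
  (measurePreserving_add_right volume s).quasiMeasurePreserving.ae h

theorem shift_meas (s : ℝ) (h : AEStronglyMeasurable G volume) :
    AEStronglyMeasurable (fun t => G (t + s)) volume :=
  h.comp_measurePreserving (measurePreserving_add_right volume s)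

theorem pt (hφ : IsWeight φ) {C : ℝ} (hC : ∀ᵐ t : ℝ, ‖G t‖ ≤ C * φ t) (s : ℝ) :
    ∀ᵐ t : ℝ, ‖f t * G (t + s)‖ ≤ C * φ s * (φ t * ‖f t‖) := by
  have hC0 := c_nonneg hφ hC
  filter_upwards [shift_ae s hC] with t ht
  rw [norm_mul]
  have h1 : ‖G (t + s)‖ ≤ C * (φ t * φ s) :=
    ht.trans (mul_le_mul_of_nonneg_left (hφ.submul t s) hC0)
  calc ‖f t‖ * ‖G (t + s)‖ ≤ ‖f t‖ * (C * (φ t * φ s)) :=
        mul_le_mul_of_nonneg_left h1 (norm_nonneg _)
    _ = C * φ s * (φ t * ‖f t‖) := by ring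

theorem integ (hφ : IsWeight φ) (hf : L1 φ f) (hG : AEStronglyMeasurable G volume) {C : ℝ}
    (hC : ∀ᵐ t : ℝ, ‖G t‖ ≤ C * φ t) (s : ℝ) : Integrable (fun t => f t * G (t + s)) :=
  (hf.2.const_mul (C * φ s)).mono' (hf.1.mul (shift_meas s hG)) (pt hφ hC s)

theorem bound (hφ : IsWeight φ) (hf : L1 φ f) {C : ℝ}
    (hC : ∀ᵐ t : ℝ, ‖G t‖ ≤ C * φ t) (s : ℝ) :
    ‖∫ t : ℝ, f t * G (t + s)‖ ≤ C * (∫ t : ℝ, φ t * ‖f t‖) * φ s := by
  refine (norm_integral_le_of_norm_le (hf.2.const_mul (C * φ s)) (pt hφ hC s)).trans (le_of_eq ?_)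
  rw [integral_const_mul]
  ring

/-- continuous functions with compact support are dense -/
theorem dense (hφ : IsWeight φ) (hf : L1 φ f) {ε : ℝ} (hε : 0 < ε) :
    ∃ g : ℝ → ℂ, HasCompactSupport g ∧ Continuous g ∧ L1 φ g ∧
      ∫ t : ℝ, φ t * ‖f t - g t‖ ≤ ε := by
  have hφm : Measurable fun t => (φ t : ℂ) := Complex.measurable_ofReal.comp hφ.meas
  have hn : ∀ (t : ℝ) (z : ℂ), ‖(φ t : ℂ) * z‖ = φ t * ‖z‖ := by
    intro t z
    rw [norm_mul, Complex.norm_real, Real.norm_eq_abs, abs_of_pos (pos hφ t)]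
  have h1 : Integrable (fun t => (φ t : ℂ) * f t) := by
    refine hf.2.mono' (hφm.aestronglyMeasurable.mul hf.1) (ae_of_all _ fun t => ?_)
    rw [hn]
  obtain ⟨h, hs, hi, hc, hint⟩ := h1.exists_hasCompactSupport_integral_sub_le (half_pos hε)
  obtain ⟨R0, hR0⟩ := hs.isCompact.isBounded.exists_norm_le
  obtain ⟨R, hR⟩ : ∃ R, R = max R0 0 := ⟨_, rfl⟩
  have hR1 : 0 ≤ R := by rw [hR]; exact le_max_right _ _
  have hsup : ∀ t, R < |t| → h t = 0 := by
    intro t ht
    by_contra hne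
    have h2 := hR0 t (subset_tsupport _ hne)
    rw [Real.norm_eq_abs] at h2
    have h3 : R0 ≤ R := by rw [hR]; exact le_max_left _ _
    linarith
  obtain ⟨C1, hC1, hw⟩ := weight_bound hφ one_pos
  obtain ⟨S, hS⟩ : ∃ S, S = C1 * Real.exp (R + 1) := ⟨_, rfl⟩
  have hS0 : 0 < S := by rw [hS]; positivity
  have hφS : ∀ t, |t| ≤ R + 1 → φ t ≤ S := by
    intro t ht
    refine (hw t).trans ?_
    rw [hS, one_mul]
    exact mul_le_mul_of_nonneg_left (Real.exp_le_exp.2 ht) hC1.le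
  obtain ⟨k, hk⟩ : ∃ k : ℝ → ℂ, k = fun t => h t / (φ t : ℂ) := ⟨_, rfl⟩
  have hφk : ∀ t, (φ t : ℂ) * k t = h t := by
    intro t
    have : (φ t : ℂ) ≠ 0 := Complex.ofReal_ne_zero.2 (pos hφ t).ne'
    rw [hk]
    field_simp
  have hkm : AEStronglyMeasurable k volume := by
    rw [hk]
    exact (hc.measurable.div hφm).aestronglyMeasurable
  have hki : Integrable k := by
    refine hint.norm.mono' hkm (ae_of_all _ fun t => ?_)
    rw [← hφk t, hn]
    exact le_mul_of_one_le_left (norm_nonneg _) (hφ.one_le t)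
  have hk0 : ∀ t, R < |t| → k t = 0 := by
    intro t ht
    rw [hk]
    simp only [hsup t ht, zero_div]
  obtain ⟨g1, g1s, g1i, g1c, g1int⟩ := hki.exists_hasCompactSupport_integral_sub_le
    (show 0 < ε / 2 / S by positivity)
  obtain ⟨χ, hχ⟩ : ∃ χ : ℝ → ℝ, χ = fun t => max 0 (min 1 (R + 1 - |t|)) := ⟨_, rfl⟩
  have hχc : Continuous χ := by
    rw [hχ]
    exact continuous_const.max (continuous_const.min (continuous_const.sub continuous_abs))
  have hχ0 : ∀ t, 0 ≤ χ t := fun t => by rw [hχ]; exact le_max_left _ _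
  have hχ1 : ∀ t, χ t ≤ 1 := fun t => by rw [hχ]; exact max_le zero_le_one (min_le_left _ _)
  have hχR : ∀ t, |t| ≤ R → χ t = 1 := by
    intro t ht
    rw [hχ]
    simp only
    rw [min_eq_left (by linarith), max_eq_right zero_le_one]
  have hχR' : ∀ t, R + 1 < |t| → χ t = 0 := by
    intro t ht
    rw [hχ]
    simp only
    rw [min_eq_right (by linarith), max_eq_left (by linarith)]
  obtain ⟨g, hg⟩ : ∃ g : ℝ → ℂ, g = fun t => (χ t : ℂ) * g1 t := ⟨_, rfl⟩
  have hgs : HasCompactSupport g := by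
    rw [hg]
    exact g1s.mul_left
  have hgc : Continuous g := by
    rw [hg]
    exact (Complex.continuous_ofReal.comp hχc).mul g1c
  have hkg : ∀ t, φ t * ‖k t - g t‖ ≤ S * ‖k t - g1 t‖ := by
    intro t
    have e1 : k t = (χ t : ℂ) * k t := by
      by_cases ht : |t| ≤ R
      · rw [hχR t ht, Complex.ofReal_one, one_mul]
      · rw [not_le] at ht
        rw [hk0 t ht, mul_zero]
    have e2 : k t - g t = (χ t : ℂ) * (k t - g1 t) := by
      rw [hg, mul_sub, ← e1]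
    rw [e2, norm_mul, Complex.norm_real, Real.norm_eq_abs, abs_of_nonneg (hχ0 t)]
    by_cases ht : |t| ≤ R + 1
    · calc φ t * (χ t * ‖k t - g1 t‖) ≤ S * (1 * ‖k t - g1 t‖) := by
            apply mul_le_mul (hφS t ht) _ (mul_nonneg (hχ0 t) (norm_nonneg _)) hS0.le
            exact mul_le_mul_of_nonneg_right (hχ1 t) (norm_nonneg _)
        _ = S * ‖k t - g1 t‖ := by ring
    · rw [not_le] at ht
      rw [hχR' t ht, zero_mul, mul_zero]
      positivity
  have hgi : Integrable (fun t => φ t * ‖g t‖) := by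
    refine (g1int.norm.const_mul S).mono' (hφ.meas.aestronglyMeasurable.mul
      hgc.norm.aestronglyMeasurable) (ae_of_all _ fun t => ?_)
    rw [Real.norm_eq_abs, abs_of_nonneg (mul_nonneg (pos hφ t).le (norm_nonneg _))]
    rw [hg]
    simp only
    rw [norm_mul, Complex.norm_real, Real.norm_eq_abs, abs_of_nonneg (hχ0 t)]
    by_cases ht : |t| ≤ R + 1
    · calc φ t * (χ t * ‖g1 t‖) ≤ S * (1 * ‖g1 t‖) := by
            apply mul_le_mul (hφS t ht) _ (mul_nonneg (hχ0 t) (norm_nonneg _)) hS0.le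
            exact mul_le_mul_of_nonneg_right (hχ1 t) (norm_nonneg _)
        _ = S * ‖g1 t‖ := by ring
    · rw [not_le] at ht
      rw [hχR' t ht, zero_mul, mul_zero]
      positivity
  refine ⟨g, hgs, hgc, ⟨hgc.aestronglyMeasurable, hgi⟩, ?_⟩
  have hptw : ∀ t, φ t * ‖f t - g t‖ ≤ ‖(φ t : ℂ) * f t - h t‖ + S * ‖k t - g1 t‖ := by
    intro t
    have e3 : ‖(φ t : ℂ) * f t - h t‖ = φ t * ‖f t - k t‖ := by
      rw [← hφk t, ← mul_sub, hn]
    rw [e3]
    have e4 : ‖f t - g t‖ ≤ ‖f t - k t‖ + ‖k t - g t‖ := by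
      have := norm_add_le (f t - k t) (k t - g t)
      rwa [sub_add_sub_cancel] at this
    calc φ t * ‖f t - g t‖ ≤ φ t * (‖f t - k t‖ + ‖k t - g t‖) :=
          mul_le_mul_of_nonneg_left e4 (pos hφ t).le
      _ = φ t * ‖f t - k t‖ + φ t * ‖k t - g t‖ := by ring
      _ ≤ _ := add_le_add le_rfl (hkg t)
  have hI1 : Integrable fun t => ‖(φ t : ℂ) * f t - h t‖ := (h1.sub hint).norm
  have hI2 : Integrable fun t => S * ‖k t - g1 t‖ := (hki.sub g1int).norm.const_mul S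
  have hI3 : Integrable fun t => φ t * ‖f t - g t‖ := by
    refine (hI1.add hI2).mono' (hφ.meas.aestronglyMeasurable.mul
      (hf.1.sub hgc.aestronglyMeasurable).norm) (ae_of_all _ fun t => ?_)
    rw [Real.norm_eq_abs, abs_of_nonneg (mul_nonneg (pos hφ t).le (norm_nonneg _))]
    exact hptw t
  calc ∫ t : ℝ, φ t * ‖f t - g t‖ ≤ ∫ t : ℝ, (‖(φ t : ℂ) * f t - h t‖ + S * ‖k t - g1 t‖) :=
        integral_mono hI3 (hI1.add hI2) hptw
    _ = (∫ t : ℝ, ‖(φ t : ℂ) * f t - h t‖) + S * ∫ t : ℝ, ‖k t - g1 t‖ := by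
        rw [integral_add hI1 hI2, integral_const_mul]
    _ ≤ ε / 2 + S * (ε / 2 / S) := add_le_add hi (mul_le_mul_of_nonneg_left g1i hS0.le)
    _ = ε := by field_simp; ring

/-- continuity for a continuous function with compact support -/
theorem cont_cc (hφ : IsWeight φ) {g : ℝ → ℂ} (hs : HasCompactSupport g) (hc : Continuous g)
    (hG : AEStronglyMeasurable G volume) {C : ℝ} (hC : ∀ᵐ t : ℝ, ‖G t‖ ≤ C * φ t) :
    Continuous fun s : ℝ => ∫ t : ℝ, g t * G (t + s) := by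
  have hC0 := c_nonneg hφ hC
  have e : (fun s : ℝ => ∫ t : ℝ, g t * G (t + s)) = fun s : ℝ => ∫ t : ℝ, g (t - s) * G t := by
    funext s
    have := integral_add_right_eq_self (μ := (volume : Measure ℝ)) (fun t => g (t - s) * G t) s
    rw [← this]
    simp only [add_sub_cancel_right]
  rw [e]
  obtain ⟨M, hM⟩ : ∃ M : ℝ, ∀ t, ‖(Real.exp (2 * |t|) : ℂ) * g t‖ ≤ M := by
    have h1 : HasCompactSupport fun t : ℝ => (Real.exp (2 * |t|) : ℂ) * g t := hs.mul_left
    have h2 : Continuous fun t : ℝ => (Real.exp (2 * |t|) : ℂ) * g t := by fun_prop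
    exact h1.exists_bound_of_continuous h2
  have hM' : ∀ t, ‖g t‖ ≤ M * Real.exp (-(2 * |t|)) := by
    intro t
    have h1 := hM t
    rw [norm_mul, Complex.norm_real, Real.norm_eq_abs, abs_of_pos (Real.exp_pos _)] at h1
    rw [Real.exp_neg, ← div_eq_mul_inv, le_div_iff₀ (Real.exp_pos _)]
    linarith [mul_comm ‖g t‖ (Real.exp (2 * |t|))]
  have hM0 : 0 ≤ M := (norm_nonneg _).trans (hM 0)
  rw [continuous_iff_continuousAt]
  intro s₀
  have hnear : ∀ᶠ s : ℝ in 𝓝 s₀, |s - s₀| ≤ 1 := by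
    have := Metric.closedBall_mem_nhds s₀ one_pos
    filter_upwards [this] with s hs
    rwa [Metric.mem_closedBall, Real.dist_eq] at hs
  apply continuousAt_of_dominated
    (bound := fun t => M * Real.exp (2 * (|s₀| + 1)) * C * (φ t * Real.exp (-(2 * |t|))))
  · exact Eventually.of_forall fun s =>
      ((hc.comp (continuous_id.sub continuous_const)).aestronglyMeasurable).mul hG
  · filter_upwards [hnear] with s hs
    filter_upwards [hC] with t ht
    rw [norm_mul]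
    have h1 : ‖g (t - s)‖ ≤ M * (Real.exp (2 * (|s₀| + 1)) * Real.exp (-(2 * |t|))) := by
      refine (hM' _).trans (mul_le_mul_of_nonneg_left ?_ hM0)
      rw [← Real.exp_add, Real.exp_le_exp]
      have h2 : |t| ≤ |t - s| + |s| := by
        have := abs_add_le (t - s) s
        rwa [sub_add_cancel] at this
      have h3 : |s| ≤ |s - s₀| + |s₀| := by
        have := abs_add_le (s - s₀) s₀
        rwa [sub_add_cancel] at this
      linarith
    calc ‖g (t - s)‖ * ‖G t‖ ≤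
          (M * (Real.exp (2 * (|s₀| + 1)) * Real.exp (-(2 * |t|)))) * (C * φ t) :=
          mul_le_mul h1 ht (norm_nonneg _) (by positivity)
      _ = _ := by ring
  · exact (integrable_weight hφ two_pos).const_mul _
  · refine ae_of_all _ fun t => ?_
    exact ((hc.comp (continuous_const.sub continuous_id)).mul continuous_const).continuousAt

end CON

/-- CON -/
theorem con : ConStmt := by
  intro φ hφ f G hf hG
  refine ⟨?_, fun C hC s => CON.bound hφ hf hC s⟩
  obtain ⟨hGm, C, hC⟩ := hG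
  have hC0 := CON.c_nonneg hφ hC
  rw [continuous_iff_continuousAt]
  intro s₀
  rw [Metric.continuousAt_iff]
  intro ε hε
  obtain ⟨C1, hC1, hw⟩ := weight_bound hφ one_pos
  obtain ⟨S, hS⟩ : ∃ S, S = C1 * Real.exp (|s₀| + 1) := ⟨_, rfl⟩
  have hS0 : 0 < S := by rw [hS]; positivity
  have hφS : ∀ s, |s - s₀| ≤ 1 → φ s ≤ S := by
    intro s hs
    refine (hw s).trans ?_
    rw [hS, one_mul]
    apply mul_le_mul_of_nonneg_left _ hC1.le
    rw [Real.exp_le_exp]
    have h3 : |s| ≤ |s - s₀| + |s₀| := by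
      have := abs_add_le (s - s₀) s₀
      rwa [sub_add_cancel] at this
    linarith
  obtain ⟨δ, hδ⟩ : ∃ δ, δ = ε / (4 * ((C + 1) * S)) := ⟨_, rfl⟩
  have hδ0 : 0 < δ := by rw [hδ]; positivity
  obtain ⟨g, hgs, hgc, hg1, hgi⟩ := CON.dense hφ hf hδ0
  have hfg : L1 φ (fun t => f t - g t) := by
    refine ⟨hf.1.sub hg1.1, ?_⟩
    refine (hf.2.add hg1.2).mono' (hφ.meas.aestronglyMeasurable.mul (hf.1.sub hg1.1).norm)
      (ae_of_all _ fun t => ?_)
    rw [Real.norm_eq_abs, abs_of_nonneg (mul_nonneg (CON.pos hφ t).le (norm_nonneg _))]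
    calc φ t * ‖f t - g t‖ ≤ φ t * (‖f t‖ + ‖g t‖) :=
          mul_le_mul_of_nonneg_left (norm_sub_le _ _) (CON.pos hφ t).le
      _ = φ t * ‖f t‖ + φ t * ‖g t‖ := by ring
  have hdiff : ∀ s, |s - s₀| ≤ 1 →
      ‖(∫ t : ℝ, f t * G (t + s)) - ∫ t : ℝ, g t * G (t + s)‖ ≤ ε / 4 := by
    intro s hs
    rw [← integral_sub (CON.integ hφ hf hGm hC s) (CON.integ hφ hg1 hGm hC s)]
    have e1 : (fun t => f t * G (t + s) - g t * G (t + s)) = fun t => (f t - g t) * G (t + s) := by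
      funext t
      ring
    rw [e1]
    refine (CON.bound hφ hfg hC s).trans ?_
    calc C * (∫ t : ℝ, φ t * ‖f t - g t‖) * φ s ≤ (C + 1) * δ * S := by
          apply mul_le_mul _ (hφS s hs) (CON.pos hφ s).le (by positivity)
          apply mul_le_mul (by linarith) hgi _ (by positivity)
          exact integral_nonneg fun t => mul_nonneg (CON.pos hφ t).le (norm_nonneg _)
      _ = ε / 4 := by
          rw [hδ]
          field_simp
  have hcc := (CON.cont_cc hφ hgs hgc hGm hC).continuousAt (x := s₀)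
  rw [Metric.continuousAt_iff] at hcc
  obtain ⟨η, hη, hη1⟩ := hcc (ε / 4) (by positivity)
  refine ⟨min η 1, lt_min hη one_pos, fun s hs => ?_⟩
  have h1 := hη1 (lt_of_lt_of_le hs (min_le_left _ _))
  have h2 : |s - s₀| ≤ 1 := by
    have := lt_of_lt_of_le hs (min_le_right _ _)
    rw [Real.dist_eq] at this
    exact this.le
  have h3 := hdiff s h2
  have h4 := hdiff s₀ (by rw [sub_self, abs_zero]; exact zero_le_one)
  rw [dist_eq_norm] at h1 ⊢
  obtain ⟨a, ha⟩ : ∃ a, a = ∫ t : ℝ, f t * G (t + s) := ⟨_, rfl⟩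
  obtain ⟨b, hb⟩ : ∃ b, b = ∫ t : ℝ, f t * G (t + s₀) := ⟨_, rfl⟩
  obtain ⟨a', ha'⟩ : ∃ a', a' = ∫ t : ℝ, g t * G (t + s) := ⟨_, rfl⟩
  obtain ⟨b', hb'⟩ : ∃ b', b' = ∫ t : ℝ, g t * G (t + s₀) := ⟨_, rfl⟩
  rw [← ha, ← ha'] at h3
  rw [← hb, ← hb'] at h4
  rw [← ha', ← hb'] at h1
  rw [← ha, ← hb]
  have h5 : a - b = (a - a') + (a' - b') + (b' - b) := by ring
  rw [h5]
  have h6 : ‖b' - b‖ ≤ ε / 4 := by
    rw [norm_sub_rev]
    exact h4
  calc ‖(a - a') + (a' - b') + (b' - b)‖ ≤ ‖(a - a') + (a' - b')‖ + ‖b' - b‖ := norm_add_le _ _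
    _ ≤ ‖a - a'‖ + ‖a' - b'‖ + ‖b' - b‖ := add_le_add (norm_add_le _ _) le_rfl
    _ < ε := by linarith

end Pool.Agent.WK
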