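import Pool.Agent.Helper78_E.Stmts

/-!
# MP_7d2497_an, squad WK: definitions

Weights with `φ(-t) = o(φ(t))`, `t → +∞`. All definitions are at the level of functions.
-/

set_option autoImplicit false

namespace Pool.Agent.WK

open MeasureTheory Filter Topology Complex
open Pool.Agent.H78E

noncomputable section

/-- Weighted integrable functions of the half-line. -/
def LP (φ : ℝ → ℝ) (f : ℝ → ℂ) : Prop := L1 φ f ∧ ∀ t : ℝ, t < 0 → f t = 0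

/-- The transform of a function supported on the half-line, `Im z ≤ 0`. -/
def FT (f : ℝ → ℂ) (z : ℂ) : ℂ := ∫ t : ℝ, f t * Complex.exp (-(Complex.I * (t : ℂ) * z))

/-- The set `J_K`: transform zero on `K`. -/
def JK (φ : ℝ → ℝ) (K : Set ℝ) (f : ℝ → ℂ) : Prop := LP φ f ∧ ∀ x ∈ K, FT f (x : ℂ) = 0

/-- The annihilator of `J_K` on the half-line. -/
def MK (φ : ℝ → ℝ) (K : Set ℝ) (h : ℝ → ℂ) : Prop :=
  LInfPos φ h ∧ ∀ f : ℝ → ℂ, JK φ K f → ∫ t : ℝ, f t * h t = 0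

/-- The annihilator of all translates of `J_K` on the line. -/
def XK (φ : ℝ → ℝ) (K : Set ℝ) (G : ℝ → ℂ) : Prop :=
  LInf φ G ∧ ∀ f : ℝ → ℂ, JK φ K f → ∀ s : ℝ, ∫ t : ℝ, f t * G (t + s) = 0

/-- Finite exponential sums. -/
def ES (F : Finset ℝ) (c : ℝ → ℂ) (t : ℝ) : ℂ := ∑ x ∈ F, c x * expR x t

/-- The restriction inequality with constant `C`. -/
def Ineq (φ : ℝ → ℝ) (K : Set ℝ) (C : ℝ) : Prop :=
  ∀ (F : Finset ℝ) (c : ℝ → ℂ) (A : ℝ), (F : Set ℝ) ⊆ K →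
    (∀ t : ℝ, 0 ≤ t → ‖ES F c t‖ ≤ A * φ t) → ∀ t : ℝ, t ≤ 0 → ‖ES F c t‖ ≤ C * A * φ t

/-- The local inequality: coherent sets of frequencies, with the weight `φ(-|s|)`. -/
def Coh (φ : ℝ → ℝ) (K : Set ℝ) (T C : ℝ) : Prop :=
  ∀ (F : Finset ℝ) (c : ℝ → ℂ) (A : ℝ), (F : Set ℝ) ⊆ K →
    (∀ t : ℝ, 0 ≤ t → t ≤ T → ‖ES F c t‖ ≤ A) → ∀ s : ℝ, ‖ES F c s‖ ≤ C * A * φ (-|s|)

/-- Blaschke condition. -/
def Sparse (K : Set ℝ) : Prop := Summable (fun x : K => 1 / (1 + (x : ℝ) ^ 2))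

/-- Locally finite. -/
def LocFin (K : Set ℝ) : Prop := ∀ R : ℝ, (K ∩ Set.Icc (-R) R).Finite

/-- At most `N` points in every interval of length one. -/
def LocB (K : Set ℝ) (N : ℕ) : Prop :=
  ∀ (y : ℝ) (F : Finset ℝ), (F : Set ℝ) ⊆ K → (∀ x ∈ F, y ≤ x ∧ x ≤ y + 1) → F.card ≤ N

/-- Nice sets. -/
structure Nice (φ : ℝ → ℝ) (K : Set ℝ) : Prop where
  closed : IsClosed K
  countable : K.Countable
  n1 : ∀ z : ℂ, z.im ≤ 0 → z ∉ (fun x : ℝ => (x : ℂ)) '' K → ∃ f : ℝ → ℂ, JK φ K f ∧ FT f z ≠ 0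
  n2 : ∀ h : ℝ → ℂ, MK φ K h → (¬ h =ᵐ[volume] 0) → (SpecPos φ h).Nonempty
  n3 : ∀ h : ℝ → ℂ, MK φ K h → ∀ x : ℝ, SpecPos φ h = {(x : ℂ)} →
    ∃ c : ℂ, h =ᵐ[volume] fun t => c * expPos (x : ℂ) t

/-- Density of the functions whose transform has finite support on `K`, inside the functions
whose transform vanishes on `Z`. -/
def Dns (φ : ℝ → ℝ) (K Z : Set ℝ) : Prop :=
  ∀ f : ℝ → ℂ, LP φ f → (∀ x ∈ Z, FT f (x : ℂ) = 0) → ∀ ε : ℝ, 0 < ε →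
    ∃ f' : ℝ → ℂ, LP φ f' ∧
      (∃ F : Finset ℝ, (∀ x ∈ F, x ∈ K ∧ x ∉ Z) ∧ ∀ x ∈ K, x ∉ F → FT f' (x : ℂ) = 0) ∧
      ∫ t : ℝ, φ t * ‖f t - f' t‖ < ε

/-- The approximate identity, with transform `(l / (l + iz))^4`. -/
def q (l : ℝ) (t : ℝ) : ℂ :=
  if 0 ≤ t then ((l ^ 4 * t ^ 3 / 6 * Real.exp (-(l * t)) : ℝ) : ℂ) else 0

/-- The Blaschke factor of the half-plane `Im z < 1/2` at the real point `x`. -/
def bf (x : ℝ) (z : ℂ) : ℂ :=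
  ((2 * (x : ℂ) + Complex.I) * (z - (x : ℂ))) / ((2 * (x : ℂ) - Complex.I) * (z - (x : ℂ) - Complex.I))

/-- A continuous function on the half-line, decreasing like `exp(-t/2)`, with transform
`(l / (l + iz))^4 ∏ bf x z`, `x ∈ F`. -/
def IsB (l : ℝ) (F : Finset ℝ) (f : ℝ → ℂ) : Prop :=
  Continuous f ∧ (∀ t : ℝ, t ≤ 0 → f t = 0) ∧
    (∃ A : ℝ, ∀ t : ℝ, 0 ≤ t → ‖f t‖ ≤ A * Real.exp (-(t / 2))) ∧
    ∀ z : ℂ, z.im ≤ 1 / 4 →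
      FT f z = ((l : ℂ) / ((l : ℂ) + Complex.I * z)) ^ 4 * ∏ x ∈ F, bf x z

/-- The condition (i) of the theorem. -/
def CondI (φ : ℝ → ℝ) (L : Set ℝ) : Prop :=
  ∃ R T C : ℝ, Coh φ {x | x ∈ L ∧ R ≤ |x|} T C

/-- The condition (ii) of the theorem. -/
def CondII (φ : ℝ → ℝ) (L : Set ℝ) : Prop :=
  (∃ C : ℝ, ∀ t : ℝ, 0 ≤ t → t ≤ C * φ t) ∨
    ∀ K ⊆ L, IsClosed K → Bornology.IsBounded K → K.Finite

end

end Pool.Agent.WK
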