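import Pool.Agent.Helper77_WK.Den

/-! WK, module DEN. -/

set_option autoImplicit false

namespace Pool.Agent.WK

theorem den : DenStmt := H77.den

end Pool.Agent.WK
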