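import Pool.Agent.WK.Stmts
import Pool.Agent.Helper72_E.Bip
import Pool.Agent.Helper15_E.Line

/-!
# MP_7d2497_an, squad WK, row DISC (helper9): discreteness when `t / φ` is bounded
-/

set_option autoImplicit false

namespace Pool.Agent.WK

open MeasureTheory Filter Topology Complex
open Pool.Agent.H78E

noncomputable section

namespace Disc9

variable {φ : ℝ → ℝ}

theorem int_of_L1 (hφ : IsWeight φ) {f : ℝ → ℂ} (hf : L1 φ f) : Integrable f := by
  refine hf.2.mono' hf.1 (ae_of_all _ fun t => ?_)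
  have := mul_le_mul_of_nonneg_right (hφ.one_le t) (norm_nonneg (f t))
  rw [one_mul] at this
  exact this

/-- multiplication by `t` is integrable -/
theorem int_t {C : ℝ} (hC : ∀ t : ℝ, 0 ≤ t → t ≤ C * φ t) {f : ℝ → ℂ}
    (hf : LP φ f) : Integrable (fun t : ℝ => |t| * ‖f t‖) := by
  refine (hf.1.2.const_mul C).mono' ?_ (ae_of_all _ fun t => ?_)
  · exact (continuous_abs.aestronglyMeasurable).mul hf.1.1.norm
  · rw [Real.norm_eq_abs, abs_mul, abs_abs, abs_norm]
    rcases lt_or_ge t 0 with h | h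
    · rw [hf.2 t h]
      simp
    · rw [abs_of_nonneg h]
      have := mul_le_mul_of_nonneg_right (hC t h) (norm_nonneg (f t))
      linarith

/-- the function `t exp(-itx)` on the half-line -/
def hh (x : ℝ) (t : ℝ) : ℂ := (t : ℂ) * expPos (x : ℂ) t

theorem hh_pos (x : ℝ) {t : ℝ} (ht : 0 ≤ t) :
    hh x t = (t : ℂ) * Complex.exp (-(Complex.I * (t : ℂ) * (x : ℂ))) := by
  unfold hh expPos
  rw [if_pos ht]

theorem hh_neg (x : ℝ) {t : ℝ} (ht : t < 0) : hh x t = 0 := by
  unfold hh expPos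
  rw [if_neg (not_le.2 ht), mul_zero]

theorem norm_exp_real (t x : ℝ) :
    ‖Complex.exp (-(Complex.I * (t : ℂ) * (x : ℂ)))‖ = 1 := by
  rw [Complex.norm_exp]
  have : (-(Complex.I * (t : ℂ) * (x : ℂ))).re = 0 := by simp
  rw [this, Real.exp_zero]

theorem deriv_FT (hφ : IsWeight φ) {C : ℝ} (hC : ∀ t : ℝ, 0 ≤ t → t ≤ C * φ t) {f : ℝ → ℂ}
    (hf : LP φ f) (x0 : ℝ) :
    HasDerivAt (fun x : ℝ => FT f (x : ℂ)) (-Complex.I * ∫ t : ℝ, f t * hh x0 t) x0 := by
  have hfi := int_of_L1 hφ hf.1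
  have key := (hasDerivAt_integral_of_dominated_loc_of_deriv_le (μ := (volume : Measure ℝ))
    (F := fun (x : ℝ) (t : ℝ) => f t * Complex.exp (-(Complex.I * (t : ℂ) * (x : ℂ))))
    (F' := fun (x : ℝ) (t : ℝ) =>
      f t * (Complex.exp (-(Complex.I * (t : ℂ) * (x : ℂ))) * (-(Complex.I * (t : ℂ)))))
    (bound := fun t => |t| * ‖f t‖) (s := Set.univ) (x₀ := x0) univ_mem
    (Eventually.of_forall fun x => hfi.1.mul
      (by fun_prop : Continuous fun t : ℝ =>
        Complex.exp (-(Complex.I * (t : ℂ) * (x : ℂ)))).aestronglyMeasurable)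
    (by
      refine hfi.norm.mono' (hfi.1.mul (by fun_prop : Continuous fun t : ℝ =>
        Complex.exp (-(Complex.I * (t : ℂ) * (x0 : ℂ)))).aestronglyMeasurable)
        (ae_of_all _ fun t => ?_)
      rw [norm_mul, norm_exp_real, mul_one])
    (hfi.1.mul (by fun_prop : Continuous fun t : ℝ =>
        Complex.exp (-(Complex.I * (t : ℂ) * (x0 : ℂ))) *
          (-(Complex.I * (t : ℂ)))).aestronglyMeasurable)
    (ae_of_all _ fun t x _ => by
      rw [norm_mul, norm_mul, norm_exp_real, one_mul, norm_neg, norm_mul, Complex.norm_I, one_mul,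
        Complex.norm_real, Real.norm_eq_abs, mul_comm])
    (int_t hC hf)
    (ae_of_all _ fun t x _ => by
      have h1 : HasDerivAt (fun x : ℝ => -(Complex.I * (t : ℂ) * (x : ℂ)))
          (-(Complex.I * (t : ℂ))) x := by
        have h2 : HasDerivAt (fun x : ℝ => (x : ℂ)) 1 x := Complex.ofRealCLM.hasDerivAt
        have h3 := (h2.const_mul (Complex.I * (t : ℂ))).neg
        rw [mul_one] at h3
        exact h3
      exact (h1.cexp).const_mul (f t))).2
  have e : (∫ t : ℝ, f t * (Complex.exp (-(Complex.I * (t : ℂ) * (x0 : ℂ))) *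
      (-(Complex.I * (t : ℂ))))) = -Complex.I * ∫ t : ℝ, f t * hh x0 t := by
    rw [← integral_const_mul]
    refine integral_congr_ae (ae_of_all _ fun t => ?_)
    simp only
    rcases lt_or_ge t 0 with h | h
    · rw [hf.2 t h]
      ring
    · rw [hh_pos x0 h]
      ring
  rw [← e]
  exact key

theorem hh_mem (hφ : IsWeight φ) {C : ℝ} (hC : ∀ t : ℝ, 0 ≤ t → t ≤ C * φ t) (x0 : ℝ) :
    LInfPos φ (hh x0) := by
  refine ⟨⟨?_, max C 0, ae_of_all _ fun t => ?_⟩, fun t ht => hh_neg x0 ht⟩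
  · apply Measurable.aestronglyMeasurable
    unfold hh expPos
    apply Measurable.mul (by fun_prop)
    exact Measurable.ite measurableSet_Ici (by fun_prop) measurable_const
  · have hp : 0 ≤ φ t := zero_le_one.trans (hφ.one_le t)
    rcases lt_or_ge t 0 with h | h
    · rw [hh_neg x0 h, norm_zero]
      exact mul_nonneg (le_max_right _ _) hp
    · rw [hh_pos x0 h, norm_mul, norm_exp_real, mul_one, Complex.norm_real, Real.norm_eq_abs,
        abs_of_nonneg h]
      exact (hC t h).trans (mul_le_mul_of_nonneg_right (le_max_left _ _) hp)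

theorem int_f_hh (hφ : IsWeight φ) {C : ℝ} (hC : ∀ t : ℝ, 0 ≤ t → t ≤ C * φ t) {f : ℝ → ℂ}
    (hf : LP φ f) (x0 : ℝ) : Integrable (fun t => f t * hh x0 t) :=
  hf.1.mulInt72 (hh_mem hφ hC x0).1

theorem int_f_exp (hφ : IsWeight φ) {f : ℝ → ℂ} (hf : LP φ f) (x0 : ℝ) :
    Integrable (fun t : ℝ => f t * Complex.exp (-(Complex.I * (t : ℂ) * (x0 : ℂ)))) := by
  have hfi := int_of_L1 hφ hf.1
  refine hfi.norm.mono' (hfi.1.mul (by fun_prop : Continuous fun t : ℝ =>
    Complex.exp (-(Complex.I * (t : ℂ) * (x0 : ℂ)))).aestronglyMeasurable)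
    (ae_of_all _ fun t => ?_)
  rw [norm_mul, norm_exp_real, mul_one]

/-- correlations with `hh` -/
theorem corr (hφ : IsWeight φ) {C : ℝ} (hC : ∀ t : ℝ, 0 ≤ t → t ≤ C * φ t) {f : ℝ → ℂ}
    (hf : LP φ f) (x0 : ℝ) {s : ℝ} (hs : 0 ≤ s) :
    ∫ t : ℝ, f t * hh x0 (t + s) = Complex.exp (-(Complex.I * (s : ℂ) * (x0 : ℂ))) *
      ((∫ t : ℝ, f t * hh x0 t) + (s : ℂ) * FT f (x0 : ℂ)) := by
  unfold FT
  rw [← integral_const_mul, ← integral_add (int_f_hh hφ hC hf x0)
    ((int_f_exp hφ hf x0).const_mul _), ← integral_const_mul]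
  refine integral_congr_ae (ae_of_all _ fun t => ?_)
  simp only
  rcases lt_or_ge t 0 with h | h
  · rw [hf.2 t h]
    ring
  · rw [hh_pos x0 h, hh_pos x0 (add_nonneg h hs)]
    have e : Complex.exp (-(Complex.I * ((t + s : ℝ) : ℂ) * (x0 : ℂ))) =
        Complex.exp (-(Complex.I * (s : ℂ) * (x0 : ℂ))) *
          Complex.exp (-(Complex.I * (t : ℂ) * (x0 : ℂ))) := by
      rw [← Complex.exp_add]
      congr 1
      push_cast
      ring
    rw [e]
    push_cast
    ring

/-- the derivative of a function with a double zero -/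
theorem double_zero (hφ : IsWeight φ) {C : ℝ} (hC : ∀ t : ℝ, 0 ≤ t → t ≤ C * φ t)
    {f u : ℝ → ℂ} (hf : LP φ f) (hu : LP φ u) (x0 : ℝ)
    (h : ∀ x : ℝ, FT f (x : ℂ) =
      (((x : ℂ) - (x0 : ℂ)) / ((x : ℂ) - (x0 : ℂ) - Complex.I)) ^ 2 * FT u (x : ℂ)) :
    ∫ t : ℝ, f t * hh x0 t = 0 := by
  have h1 := deriv_FT hφ hC hf x0
  have h2 := deriv_FT hφ hC hu x0
  have hx : HasDerivAt (fun x : ℝ => (x : ℂ) - (x0 : ℂ)) 1 x0 :=
    (Complex.ofRealCLM.hasDerivAt (x := x0)).sub_const _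
  have hy : HasDerivAt (fun x : ℝ => (x : ℂ) - (x0 : ℂ) - Complex.I) 1 x0 := hx.sub_const _
  have hne : ((x0 : ℂ) - (x0 : ℂ) - Complex.I) ≠ 0 := by
    simp
  have hr := hx.div hy hne
  have hr2 := (hr.mul hr).mul h2
  have hr3 : HasDerivAt (fun x : ℝ => FT f (x : ℂ)) 0 x0 := by
    have e : (fun x : ℝ => FT f (x : ℂ)) = fun x : ℝ =>
        (((x : ℂ) - (x0 : ℂ)) / ((x : ℂ) - (x0 : ℂ) - Complex.I)) *
        (((x : ℂ) - (x0 : ℂ)) / ((x : ℂ) - (x0 : ℂ) - Complex.I)) * FT u (x : ℂ) := by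
      funext x
      rw [h x]
      ring
    rw [e]
    refine (hr2.congr_deriv ?_)
    simp
  have h3 := h1.unique hr3
  rcases mul_eq_zero.1 h3 with h4 | h4
  · simp at h4
  · exact h4

/-- a function with prescribed nonzero transform at one point -/
def uu (z : ℂ) (t : ℝ) : ℂ :=
  if 0 ≤ t ∧ t ≤ 1 then (starRingEnd ℂ) (Complex.exp (-(Complex.I * (t : ℂ) * z))) else 0

theorem uu_meas (z : ℂ) : Measurable (uu z) := by
  unfold uu
  refine Measurable.ite ?_ ?_ measurable_const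
  · exact measurableSet_Icc
  · have : Continuous fun t : ℝ => (starRingEnd ℂ) (Complex.exp (-(Complex.I * (t : ℂ) * z))) :=
      Complex.continuous_conj.comp (by fun_prop)
    exact this.measurable

theorem uu_eq (z : ℂ) : uu z = Set.indicator (Set.Icc (0 : ℝ) 1)
    (fun t : ℝ => (starRingEnd ℂ) (Complex.exp (-(Complex.I * (t : ℂ) * z)))) := by
  funext t
  unfold uu
  by_cases h : t ∈ Set.Icc (0 : ℝ) 1
  · rw [Set.indicator_of_mem h, if_pos (show 0 ≤ t ∧ t ≤ 1 from h)]
  · rw [Set.indicator_of_notMem h, if_neg (show ¬ (0 ≤ t ∧ t ≤ 1) from h)]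

theorem norm_exp_le {z : ℂ} (hz : z.im ≤ 0) {t : ℝ} (ht : 0 ≤ t) :
    ‖Complex.exp (-(Complex.I * (t : ℂ) * z))‖ ≤ 1 := by
  rw [Complex.norm_exp]
  apply Real.exp_le_one_iff.2
  have : (-(Complex.I * (t : ℂ) * z)).re = t * z.im := by
    simp
  rw [this]
  exact mul_nonpos_of_nonneg_of_nonpos ht hz

theorem uu_LP (hφ : IsWeight φ) {z : ℂ} (hz : z.im ≤ 0) : LP φ (uu z) := by
  refine ⟨⟨(uu_meas z).aestronglyMeasurable, ?_⟩, fun t ht => ?_⟩
  · obtain ⟨B, hB, hb⟩ := Helper15_E.weight_bound hφ one_pos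
    have h1 : Integrable (Set.indicator (Set.Icc (0 : ℝ) 1) (fun _ : ℝ => B * Real.exp 1)) := by
      rw [integrable_indicator_iff measurableSet_Icc]
      exact integrableOn_const (by simp)
    refine h1.mono' (hφ.meas.mul (uu_meas z).norm).aestronglyMeasurable (ae_of_all _ fun t => ?_)
    have hp : 0 ≤ φ t := zero_le_one.trans (hφ.one_le t)
    rw [Real.norm_eq_abs, abs_of_nonneg (mul_nonneg hp (norm_nonneg _)), uu_eq]
    by_cases h : t ∈ Set.Icc (0 : ℝ) 1
    · rw [Set.indicator_of_mem h, Set.indicator_of_mem h, RCLike.norm_conj]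
      have h2 : φ t ≤ B * Real.exp 1 := by
        refine (hb t).trans ?_
        have : Real.exp (1 * |t|) ≤ Real.exp 1 := by
          apply Real.exp_le_exp.2
          rw [one_mul, abs_of_nonneg h.1]
          exact h.2
        exact mul_le_mul_of_nonneg_left this hB.le
      calc φ t * ‖Complex.exp (-(Complex.I * (t : ℂ) * z))‖ ≤ φ t * 1 :=
            mul_le_mul_of_nonneg_left (norm_exp_le hz h.1) hp
        _ ≤ B * Real.exp 1 := by rw [mul_one]; exact h2
    · rw [Set.indicator_of_notMem h, Set.indicator_of_notMem h, norm_zero, mul_zero]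
  · unfold uu
    rw [if_neg]
    rintro ⟨h, -⟩
    exact absurd ht (not_lt.2 h)

theorem FT_uu (z : ℂ) : FT (uu z) z ≠ 0 := by
  have e : FT (uu z) z =
      ((∫ t in (0 : ℝ)..1, Complex.normSq (Complex.exp (-(Complex.I * (t : ℂ) * z))) : ℝ) : ℂ) := by
    unfold FT
    rw [intervalIntegral.integral_of_le zero_le_one, ← integral_Icc_eq_integral_Ioc,
      ← integral_indicator measurableSet_Icc, ← integral_complex_ofReal]
    refine integral_congr_ae (ae_of_all _ fun t => ?_)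
    simp only
    rw [uu_eq]
    by_cases h : t ∈ Set.Icc (0 : ℝ) 1
    · rw [Set.indicator_of_mem h, Set.indicator_of_mem h, Complex.normSq_eq_conj_mul_self]
    · rw [Set.indicator_of_notMem h, Set.indicator_of_notMem h, zero_mul, Complex.ofReal_zero]
  rw [e]
  have hc : Continuous fun t : ℝ =>
      Complex.normSq (Complex.exp (-(Complex.I * (t : ℂ) * z))) :=
    Complex.continuous_normSq.comp (by fun_prop)
  have hpos := intervalIntegral.intervalIntegral_pos_of_pos_on
    (hc.intervalIntegrable (μ := volume) (0 : ℝ) 1)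
    (fun t _ => Complex.normSq_pos.2 (Complex.exp_ne_zero _)) zero_lt_one
  exact_mod_cast hpos.ne'

end Disc9

open Disc9

theorem disc (spc : SpcStmt) (fac : FacStmt) : DiscStmt := by
  intro φ hφ hC g hg hS K hK
  obtain ⟨C, hC⟩ := hC
  have hcl : IsClosed K := by
    have h1 := (spc φ hφ g hg).2
    rw [hK] at h1
    have h2 := h1.preimage Complex.continuous_ofReal
    unfold rc at h2
    rwa [Set.preimage_image_eq _ Complex.ofReal_injective] at h2
  intro R
  by_contra hinf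
  obtain ⟨x0, -, hx0⟩ := Set.Infinite.exists_accPt_of_subset_isCompact (K := Set.Icc (-R) R)
    hinf isCompact_Icc Set.inter_subset_right
  have hacc : AccPt x0 (𝓟 K) := hx0.mono (principal_mono.2 Set.inter_subset_left)
  have hx0K : x0 ∈ K := by
    have : x0 ∈ closure K := hacc.clusterPt.mem_closure
    rwa [hcl.closure_eq] at this
  -- the transforms of annihilating functions vanish on `K`
  have hvan : ∀ f : ℝ → ℂ, LP φ f → (∀ s : ℝ, 0 ≤ s → ∫ t : ℝ, f t * g (t + s) = 0) →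
      ∀ x ∈ K, FT f (x : ℂ) = 0 := by
    intro f hf h x hx
    have hm : (x : ℂ) ∈ SpecPos φ g := by
      rw [hK]
      exact ⟨x, hx, rfl⟩
    exact (((spc φ hφ g hg).1 (x : ℂ)).1 hm).2 f hf h
  have hhm := hh_mem hφ hC x0
  -- `hh x0` is in the closed span of the translates
  have hB : hh x0 ∈ BPos φ g := by
    refine (bipolarPos φ hφ g (hh x0) hg hhm).2 fun f hf hf0 hfg => ?_
    have hv := hvan f ⟨hf, hf0⟩ hfg
    have hd := deriv_FT hφ hC (f := f) ⟨hf, hf0⟩ x0
    by_contra hne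
    have h2 := hd.eventually_ne (c := 0) (mul_ne_zero (neg_ne_zero.2 Complex.I_ne_zero) hne)
    have h3 : ∃ᶠ y in 𝓝[≠] x0, y ∈ K := by
      rw [frequently_nhdsWithin_iff]
      refine (accPt_iff_frequently.1 hacc).mono fun y hy => ⟨hy.2, hy.1⟩
    obtain ⟨y, hy1, hy2⟩ := (h3.and_eventually h2).exists
    exact hy2 (hv y hy1)
  -- its spectrum is `{x0}`
  have hSp : SpecPos φ (hh x0) = {(x0 : ℂ)} := by
    apply Set.eq_singleton_iff_unique_mem.2
    constructor
    · refine ((spc φ hφ (hh x0) hhm).1 (x0 : ℂ)).2 ⟨by simp, fun f hf hs => ?_⟩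
      have h0 := hs 0 le_rfl
      have h1 := hs 1 zero_le_one
      rw [corr hφ hC hf x0 le_rfl] at h0
      rw [corr hφ hC hf x0 zero_le_one] at h1
      have h2 := (mul_eq_zero.1 h0).resolve_left (Complex.exp_ne_zero _)
      have h3 := (mul_eq_zero.1 h1).resolve_left (Complex.exp_ne_zero _)
      rw [Complex.ofReal_zero, zero_mul, add_zero] at h2
      rw [h2, zero_add, Complex.ofReal_one, one_mul] at h3
      exact h3
    · intro z hz
      obtain ⟨hzi, hz2⟩ := ((spc φ hφ (hh x0) hhm).1 z).1 hz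
      by_contra hne
      obtain ⟨D, -, hfac⟩ := fac φ hφ
      have hu := uu_LP hφ hzi
      obtain ⟨r1, -, r2, -⟩ := hfac x0 (uu z) hu
      obtain ⟨s1, -, s2, -⟩ := hfac x0 (RR x0 (uu z)) r1
      have key : ∀ w : ℂ, w.im ≤ 0 → FT (RR x0 (RR x0 (uu z))) w =
          ((w - (x0 : ℂ)) / (w - (x0 : ℂ) - Complex.I)) ^ 2 * FT (uu z) w := by
        intro w hw
        rw [s2 w hw, r2 w hw]
        ring
      have k1 : ∫ t : ℝ, RR x0 (RR x0 (uu z)) t * hh x0 t = 0 :=
        double_zero hφ hC s1 hu x0 fun x => key x (by simp)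
      have k2 : FT (RR x0 (RR x0 (uu z))) (x0 : ℂ) = 0 := by
        rw [key _ (by simp)]
        simp
      have k3 := hz2 _ s1 fun s hs => by
        rw [corr hφ hC s1 x0 hs, k1, k2]
        ring
      rw [key z hzi] at k3
      rcases mul_eq_zero.1 k3 with k4 | k4
      · have k5 := pow_eq_zero_iff (two_ne_zero) |>.1 k4
        rcases div_eq_zero_iff.1 k5 with k6 | k6
        · exact hne (sub_eq_zero.1 k6)
        · have k7 := congrArg Complex.im k6
          simp at k7
          linarith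
      · exact FT_uu z k4
  obtain ⟨c, z', hz', hae⟩ := hS (hh x0) hB ⟨_, hSp⟩
  have hne : NeBot (ae (volume.restrict (Set.Ioi (‖c‖)))) := by
    rw [ae_neBot, Ne, Measure.restrict_eq_zero]
    simp
  obtain ⟨t, ht1, ht2⟩ := ((ae_restrict_of_ae (s := Set.Ioi (‖c‖)) hae).and
    (ae_restrict_mem measurableSet_Ioi)).exists
  have ht0 : 0 ≤ t := (norm_nonneg c).trans (le_of_lt ht2)
  have h1 := congrArg norm ht1
  rw [hh_pos x0 ht0, norm_mul, norm_exp_real, mul_one, Complex.norm_real, Real.norm_eq_abs,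
    abs_of_nonneg ht0, norm_mul] at h1
  have h2 : ‖expPos z' t‖ ≤ 1 := by
    unfold expPos
    rw [if_pos ht0]
    exact norm_exp_le hz' ht0
  have h3 : ‖c‖ * ‖expPos z' t‖ ≤ ‖c‖ * 1 := mul_le_mul_of_nonneg_left h2 (norm_nonneg c)
  have h4 : ‖c‖ < t := ht2
  linarith

end

end Pool.Agent.WK
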