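import Pool.Agent.WK.Sim
import Pool.Agent.Helper72_E.Bip

/-!
# MP_7d2497_an, squad WK: row EXT, in the general form with the hypothesis `Ineq`
-/

namespace Pool.Agent.WK

open MeasureTheory Filter Topology Complex
open Pool.Agent.H78E

noncomputable section

namespace H7

variable {φ : ℝ → ℝ}

theorem ae_exists_pos (hφ : IsWeight φ) {g : ℝ → ℂ} {C : ℝ} (hC : ∀ᵐ t : ℝ, ‖g t‖ ≤ C * φ t) :
    0 ≤ C := by
  obtain ⟨t, ht⟩ := hC.exists
  have h1 := norm_nonneg (g t)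
  have h2 := Pool.Agent.Helper7_WK.weight_pos hφ t
  by_contra hcon
  push Not at hcon
  have := mul_neg_of_neg_of_pos hcon h2
  linarith

theorem expR_add (x s t : ℝ) : expR x (t + s) = expR x s * expR x t := by
  unfold expR
  rw [← Complex.exp_add]
  congr 1
  push_cast
  ring

theorem LP_smul {f : ℝ → ℂ} (hf : LP φ f) (c : ℂ) : LP φ (fun t => c * f t) := by
  refine ⟨L1.smul72 hf.1 c, fun t ht => ?_⟩
  simp only
  rw [hf.2 t ht, mul_zero]

theorem LP_add (hφ : IsWeight φ) {f g : ℝ → ℂ} (hf : LP φ f) (hg : LP φ g) :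
    LP φ (fun t => f t + g t) := by
  refine ⟨L1.add72 hf.1 hg.1 hφ, fun t ht => ?_⟩
  simp only
  rw [hf.2 t ht, hg.2 t ht, add_zero]

theorem LP_sub (hφ : IsWeight φ) {f g : ℝ → ℂ} (hf : LP φ f) (hg : LP φ g) :
    LP φ (fun t => f t - g t) := by
  have h := LP_add hφ hf (LP_smul hg (-1))
  have e : (fun t => f t - g t) = fun t => f t + -1 * g t := by
    ext t
    ring
  rw [e]
  exact h

theorem LP_zero : LP φ (fun _ => (0 : ℂ)) := ⟨L1.zero72, fun _ _ => rfl⟩

theorem LP_sum (hφ : IsWeight φ) {ι : Type} (s : Finset ι) (f : ι → ℝ → ℂ)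
    (hf : ∀ i ∈ s, LP φ (f i)) : LP φ (fun t => ∑ i ∈ s, f i t) := by
  classical
  induction s using Finset.induction_on with
  | empty =>
    simp only [Finset.sum_empty]
    exact LP_zero
  | insert i s hi ih =>
    simp only [Finset.sum_insert hi]
    exact LP_add hφ (hf i (Finset.mem_insert_self i s))
      (ih fun j hj => hf j (Finset.mem_insert_of_mem hj))

theorem LP_shift (hφ : IsWeight φ) {f : ℝ → ℂ} (hf : LP φ f) {s : ℝ} (hs : 0 ≤ s) :
    LP φ (fun t => f (t - s)) :=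
  ⟨L1.shift72 hφ hf.1 s, fun t ht => hf.2 _ (by linarith)⟩

theorem FT_eq (f : ℝ → ℂ) (x : ℝ) : FT f (x : ℂ) = ∫ t : ℝ, f t * expR x t := rfl

theorem int_expR (hφ : IsWeight φ) {f : ℝ → ℂ} (hf : L1 φ f) (x : ℝ) :
    Integrable (fun t => f t * expR x t) volume :=
  L1.mulInt72 hf (Pool.Agent.Helper7_WK.expR_linf' hφ x)

theorem FT_smul (f : ℝ → ℂ) (c : ℂ) (x : ℝ) : FT (fun t => c * f t) (x : ℂ) = c * FT f (x : ℂ) := by
  rw [FT_eq, FT_eq, ← integral_const_mul]
  congr 1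
  ext1 t
  ring

theorem FT_sub (hφ : IsWeight φ) {f g : ℝ → ℂ} (hf : L1 φ f) (hg : L1 φ g) (x : ℝ) :
    FT (fun t => f t - g t) (x : ℂ) = FT f (x : ℂ) - FT g (x : ℂ) := by
  rw [FT_eq, FT_eq, FT_eq, ← integral_sub (int_expR hφ hf x) (int_expR hφ hg x)]
  congr 1
  ext1 t
  ring

theorem FT_sum (hφ : IsWeight φ) {ι : Type} (s : Finset ι) (f : ι → ℝ → ℂ)
    (hf : ∀ i ∈ s, L1 φ (f i)) (x : ℝ) :
    FT (fun t => ∑ i ∈ s, f i t) (x : ℂ) = ∑ i ∈ s, FT (f i) (x : ℂ) := by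
  simp only [FT_eq]
  rw [← integral_finsetSum]
  · congr 1
    ext1 t
    rw [Finset.sum_mul]
  · intro i hi
    exact int_expR hφ (hf i hi) x

theorem FT_shift (f : ℝ → ℂ) (s x : ℝ) :
    FT (fun t => f (t - s)) (x : ℂ) = expR x s * FT f (x : ℂ) := by
  rw [FT_eq, FT_eq, ← Pool.Agent.Helper7_WK.cr_shift (expR x) f s, ← integral_const_mul]
  unfold Pool.Agent.Helper7_WK.cr
  congr 1
  ext1 t
  rw [expR_add]
  ring

/-- Two functions with the same integrals against the weighted space of the half-line agree on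
the half-line. -/
theorem eq_of_pairing (hφ : IsWeight φ) {g G : ℝ → ℂ} (hg : LInf φ g) (hG : LInf φ G)
    (h : ∀ w : ℝ → ℂ, LP φ w → ∫ t : ℝ, w t * G t = ∫ t : ℝ, w t * g t) :
    ∀ᵐ t : ℝ, 0 ≤ t → G t = g t := by
  have pos := Pool.Agent.Helper7_WK.weight_pos hφ
  have hD : LInf φ (fun t => G t - g t) := by
    obtain ⟨m1, C1, hC1⟩ := hg
    obtain ⟨m2, C2, hC2⟩ := hG
    refine ⟨m2.sub m1, C2 + C1, ?_⟩
    filter_upwards [hC1, hC2] with t h1 h2
    calc ‖G t - g t‖ ≤ ‖G t‖ + ‖g t‖ := norm_sub_le _ _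
      _ ≤ (C2 + C1) * φ t := by linarith
  obtain ⟨D, C, hDm, hDb, hDe⟩ := Pool.Agent.Helper15_E.rep hD hφ
  have hC0 : 0 ≤ C := ae_exists_pos hφ (Eventually.of_forall hDb)
  -- the test function
  set w : ℝ → ℂ := fun t => if 0 ≤ t then (starRingEnd ℂ) (D t) *
    ((Real.exp (-t) / (φ t) ^ 2 : ℝ) : ℂ) else 0 with hw
  have hwm : Measurable w := by
    refine Measurable.ite measurableSet_Ici ?_ measurable_const
    refine ((continuous_star (R := ℂ)).measurable.comp hDm).mul ?_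
    exact Complex.measurable_ofReal.comp ((by fun_prop : Measurable fun t : ℝ => Real.exp (-t)).div
      (hφ.meas.pow_const 2))
  have hwb : ∀ t, φ t * ‖w t‖ ≤ C * (Set.Ici (0 : ℝ)).indicator (fun t => Real.exp (-t)) t := by
    intro t
    by_cases ht : 0 ≤ t
    · rw [hw]
      simp only
      rw [if_pos ht, Set.indicator_of_mem (show t ∈ Set.Ici (0 : ℝ) from ht), norm_mul,
        Complex.norm_conj, Complex.norm_real, Real.norm_of_nonneg (by positivity)]
      have h1 := hDb t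
      have h2 := pos t
      have h3 : φ t * (‖D t‖ * (Real.exp (-t) / φ t ^ 2)) = (‖D t‖ / φ t) * Real.exp (-t) := by
        field_simp
      rw [h3]
      apply mul_le_mul_of_nonneg_right _ (Real.exp_pos _).le
      rw [div_le_iff₀ h2]
      exact h1
    · rw [hw]
      simp only
      rw [if_neg ht, Set.indicator_of_notMem (show t ∉ Set.Ici (0 : ℝ) from ht)]
      simp
  have hei : Integrable (fun t => C * (Set.Ici (0 : ℝ)).indicator (fun t => Real.exp (-t)) t) volume := by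
    apply Integrable.const_mul
    rw [integrable_indicator_iff measurableSet_Ici, integrableOn_Ici_iff_integrableOn_Ioi]
    have := exp_neg_integrableOn_Ioi (0 : ℝ) one_pos
    simpa using this
  have hwLP : LP φ w := by
    refine ⟨⟨hwm.aestronglyMeasurable, ?_⟩, fun t ht => ?_⟩
    · refine hei.mono' (hφ.meas.mul hwm.norm).aestronglyMeasurable (Eventually.of_forall fun t => ?_)
      rw [Real.norm_of_nonneg (mul_nonneg (pos t).le (norm_nonneg _))]
      exact hwb t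
    · rw [hw]
      simp only
      rw [if_neg (not_le.mpr ht)]
  have h1 := h w hwLP
  have h2 : ∫ t : ℝ, w t * (G t - g t) = 0 := by
    have e : ∀ t : ℝ, w t * (G t - g t) = w t * G t - w t * g t := fun t => by ring
    simp_rw [e]
    rw [integral_sub (L1.mulInt72 hwLP.1 hG) (L1.mulInt72 hwLP.1 hg), h1, sub_self]
  set k : ℝ → ℝ := fun t => if 0 ≤ t then ‖D t‖ ^ 2 * (Real.exp (-t) / (φ t) ^ 2) else 0 with hk
  have hkk : ∀ t, ((k t : ℝ) : ℂ) = w t * D t := by
    intro t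
    rw [hk, hw]
    simp only
    by_cases ht : 0 ≤ t
    · rw [if_pos ht, if_pos ht, mul_assoc, mul_comm ((Real.exp (-t) / φ t ^ 2 : ℝ) : ℂ), ← mul_assoc,
        mul_comm ((starRingEnd ℂ) (D t)), Complex.mul_conj, Complex.normSq_eq_norm_sq]
      push_cast
      ring
    · rw [if_neg ht, if_neg ht, zero_mul]
      rfl
  have hki : Integrable k volume := by
    have h3 : Integrable (fun t => w t * D t) volume :=
      L1.mulInt72 hwLP.1 ⟨hDm.aestronglyMeasurable, C, Eventually.of_forall hDb⟩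
    have h4 : Integrable (fun t => ((k t : ℝ) : ℂ)) volume := by
      refine h3.congr (Eventually.of_forall fun t => ?_)
      exact (hkk t).symm
    have h5 := h4.re
    refine h5.congr (Eventually.of_forall fun t => ?_)
    simp
  have hk0 : ∫ t : ℝ, k t = 0 := by
    have h3 : ((∫ t : ℝ, k t : ℝ) : ℂ) = 0 := by
      rw [← integral_complex_ofReal, ← h2]
      apply integral_congr_ae
      filter_upwards [hDe] with t ht
      rw [hkk t, ht]
    exact_mod_cast h3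
  have hknn : 0 ≤ k := by
    intro t
    rw [hk]
    simp only [Pi.zero_apply]
    split_ifs with ht
    · positivity
    · exact le_rfl
  have h6 := (integral_eq_zero_iff_of_nonneg hknn hki).mp hk0
  filter_upwards [h6, hDe] with t h7 h8 ht
  rw [hk] at h7
  simp only [Pi.zero_apply] at h7
  rw [if_pos ht] at h7
  have h9 : Real.exp (-t) / φ t ^ 2 ≠ 0 := by
    have := pos t
    positivity
  have h10 : ‖D t‖ ^ 2 = 0 := (mul_eq_zero.mp h7).resolve_right h9
  have h11 : D t = 0 := by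
    rw [sq_eq_zero_iff, norm_eq_zero] at h10
    exact h10
  rw [h8] at h11
  exact sub_eq_zero.mp h11

end H7

/-- EXTG: the extension, for sets with separating functions and an adapted approximate
identity. -/
theorem extG (hWlm : WlmStmt) (hCon : ConStmt) (hFub : FubStmt) {φ : ℝ → ℝ} (hφ : IsWeight φ)
    (K : Set ℝ)
    (hU : ∀ x ∈ K, ∃ u : ℝ → ℂ, LP φ u ∧ FT u (x : ℂ) = 1 ∧ ∀ y ∈ K, y ≠ x → FT u (y : ℂ) = 0)
    (hA : ∃ (f : ℕ → ℝ → ℂ) (F : ℕ → Finset ℝ) (D : ℝ),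
      (∀ n : ℕ, LP φ (f n) ∧ ∫ t : ℝ, φ t * ‖f n t‖ ≤ D) ∧
      (∀ n : ℕ, (F n : Set ℝ) ⊆ K ∧ ∀ x ∈ K, x ∉ F n → FT (f n) (x : ℂ) = 0) ∧
      ∀ ψ : ℝ → ℂ, Continuous ψ → (∃ C : ℝ, ∀ t : ℝ, ‖ψ t‖ ≤ C * φ t) →
        Tendsto (fun n : ℕ => ∫ t : ℝ, f n t * ψ t) atTop (𝓝 (ψ 0)))
    (C : ℝ) (hI : Ineq φ K C) (g : ℝ → ℂ) (hg : MK φ K g) :
    ∃ G : ℝ → ℂ, XK φ K G ∧ ∀ᵐ t : ℝ, 0 ≤ t → G t = g t := by
  classical
  have pos := Pool.Agent.Helper7_WK.weight_pos hφ
  obtain ⟨f, F, D, hf, hF, hlim⟩ := hA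
  have hu : ∀ x : ℝ, ∃ u : ℝ → ℂ, LP φ u ∧ (x ∈ K → FT u (x : ℂ) = 1 ∧
      ∀ y ∈ K, y ≠ x → FT u (y : ℂ) = 0) := by
    intro x
    by_cases hx : x ∈ K
    · obtain ⟨u, h1, h2, h3⟩ := hU x hx
      exact ⟨u, h1, fun _ => ⟨h2, h3⟩⟩
    · exact ⟨fun _ => 0, H7.LP_zero, fun h => absurd h hx⟩
  choose u hu1 hu2 using hu
  set c : ℝ → ℂ := fun x => ∫ t : ℝ, u x t * g t with hc
  set P : ℕ → ℝ → ℂ := fun n => ES (F n) (fun x => FT (f n) (x : ℂ) * c x) with hP
  obtain ⟨Cg, hCg⟩ := hg.1.1.2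
  have hCg0 : 0 ≤ Cg := H7.ae_exists_pos hφ hCg
  -- the correlations on the half-line
  have hcorr : ∀ (n : ℕ) (s : ℝ), 0 ≤ s → ∫ t : ℝ, f n t * g (t + s) = P n s := by
    intro n s hs
    set v : ℝ → ℂ := fun t => f n (t - s) - ∑ x ∈ F n, (expR x s * FT (f n) (x : ℂ)) * u x t with hv
    have hsum : LP φ (fun t => ∑ x ∈ F n, (expR x s * FT (f n) (x : ℂ)) * u x t) :=
      H7.LP_sum hφ (F n) (fun x t => (expR x s * FT (f n) (x : ℂ)) * u x t)
        (fun x _ => H7.LP_smul (hu1 x) _)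
    have hshift : LP φ (fun t => f n (t - s)) := H7.LP_shift hφ (hf n).1 hs
    have hvJ : JK φ K v := by
      refine ⟨H7.LP_sub hφ hshift hsum, fun y hy => ?_⟩
      rw [hv, H7.FT_sub hφ hshift.1 hsum.1, H7.FT_shift,
        H7.FT_sum hφ (F n) (fun x t => (expR x s * FT (f n) (x : ℂ)) * u x t)
          (fun x _ => (H7.LP_smul (hu1 x) _).1)]
      have e : ∀ x ∈ F n, FT (fun t => expR x s * FT (f n) (x : ℂ) * u x t) (y : ℂ) =
          if x = y then expR y s * FT (f n) (y : ℂ) else 0 := by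
        intro x hx
        have hxK : x ∈ K := (hF n).1 hx
        rw [H7.FT_smul]
        split_ifs with hxy
        · rw [hxy, (hu2 y hy).1, mul_one]
        · rw [(hu2 x hxK).2 y hy (fun h => hxy h.symm), mul_zero]
      rw [Finset.sum_congr rfl e, Finset.sum_ite_eq' (F n) y]
      split_ifs with hyF
      · exact sub_self _
      · rw [(hF n).2 y hy hyF, mul_zero, sub_zero]
    have h1 := hg.2 v hvJ
    have e1 : ∀ t : ℝ, v t * g t = f n (t - s) * g t -
        ∑ x ∈ F n, (expR x s * FT (f n) (x : ℂ)) * (u x t * g t) := by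
      intro t
      rw [hv]
      simp only
      rw [sub_mul, Finset.sum_mul]
      congr 1
      refine Finset.sum_congr rfl fun x _ => ?_
      ring
    have hi : ∀ x ∈ F n, Integrable (fun t => (expR x s * FT (f n) (x : ℂ)) * (u x t * g t)) volume :=
      fun x _ => (L1.mulInt72 (hu1 x).1 hg.1.1).const_mul _
    simp_rw [e1] at h1
    rw [integral_sub (L1.mulInt72 hshift.1 hg.1.1) (integrable_finsetSum _ hi),
      integral_finsetSum _ hi, sub_eq_zero] at h1
    have e2 : ∫ t : ℝ, f n t * g (t + s) = ∫ t : ℝ, f n (t - s) * g t :=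
      Pool.Agent.Helper7_WK.cr_shift g (f n) s
    rw [e2, h1, hP]
    simp only
    unfold ES
    refine Finset.sum_congr rfl fun x _ => ?_
    rw [integral_const_mul]
    ring
  -- the bounds
  set M : ℝ := Cg * D with hM
  have hb1 : ∀ (n : ℕ) (t : ℝ), 0 ≤ t → ‖P n t‖ ≤ M * φ t := by
    intro n t ht
    rw [← hcorr n t ht]
    refine ((hCon φ hφ (f n) g (hf n).1.1 hg.1.1).2 Cg hCg t).trans ?_
    apply mul_le_mul_of_nonneg_right _ (pos t).le
    exact mul_le_mul_of_nonneg_left (hf n).2 hCg0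
  have hb2 : ∀ (n : ℕ) (t : ℝ), t ≤ 0 → ‖P n t‖ ≤ C * M * φ t := fun n =>
    hI (F n) _ M (hF n).1 (hb1 n)
  have hb : ∀ (n : ℕ) (t : ℝ), ‖P n t‖ ≤ max M (C * M) * φ t := by
    intro n t
    rcases le_total 0 t with h | h
    · exact (hb1 n t h).trans (mul_le_mul_of_nonneg_right (le_max_left _ _) (pos t).le)
    · exact (hb2 n t h).trans (mul_le_mul_of_nonneg_right (le_max_right _ _) (pos t).le)
  have hPX : ∀ n : ℕ, XK φ K (P n) := by
    intro n
    have := Pool.Agent.Helper7_WK.ep_XK hφ (K := K) (F n) (fun x hx => (hF n).1 hx)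
      (fun x => FT (f n) (x : ℂ) * c x)
    exact ⟨this.1, fun f' hf' s => this.2 f' ⟨hf'.1.1, hf'.1.2, hf'.2⟩ s⟩
  obtain ⟨G, hG, hGl⟩ := hWlm φ hφ (Ultrafilter.of atTop) P (max M (C * M))
    (fun n => (hPX n).1.1) hb
  have hUle : ((Ultrafilter.of atTop : Ultrafilter ℕ) : Filter ℕ) ≤ atTop := Ultrafilter.of_le atTop
  refine ⟨G, ⟨hG, fun f' hf' s => ?_⟩, ?_⟩
  · -- `G` is in `X_K`
    have h1 : L1 φ (fun t => f' (t - s)) := L1.shift72 hφ hf'.1.1 s
    have h2 := hGl _ h1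
    have h3 : ∀ n : ℕ, ∫ t : ℝ, f' (t - s) * P n t = 0 := by
      intro n
      rw [← Pool.Agent.Helper7_WK.cr_shift (P n) f' s]
      exact (hPX n).2 f' hf' s
    simp_rw [h3] at h2
    have h4 := tendsto_nhds_unique h2 tendsto_const_nhds
    have h5 : ∫ t : ℝ, f' t * G (t + s) = ∫ t : ℝ, f' (t - s) * G t :=
      Pool.Agent.Helper7_WK.cr_shift G f' s
    rw [h5, h4]
  · -- `G = g` on the half-line
    apply H7.eq_of_pairing hφ hg.1.1 hG
    intro w hw
    have h1 := hGl w hw.1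
    have hψ := hCon φ hφ w g hw.1 hg.1.1
    have h2 := hlim (fun s => ∫ t : ℝ, w t * g (t + s)) hψ.1 ⟨Cg * ∫ t : ℝ, φ t * ‖w t‖,
      fun t => hψ.2 Cg hCg t⟩
    have h3 : ∀ n : ℕ, ∫ t : ℝ, w t * P n t = ∫ s : ℝ, f n s * ∫ t : ℝ, w t * g (t + s) := by
      intro n
      have h4 := hFub φ hφ w (f n) g hw.1 (hf n).1.1 hg.1.1 0
      simp only [add_zero] at h4
      rw [← h4]
      congr 1
      ext1 t
      by_cases ht : 0 ≤ t
      · rw [← hcorr n t ht]
      · rw [hw.2 t (not_le.mp ht), zero_mul, zero_mul]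
    have h5 : Tendsto (fun n => ∫ t : ℝ, w t * P n t) (Ultrafilter.of atTop : Ultrafilter ℕ)
        (𝓝 (∫ t : ℝ, w t * g t)) := by
      simp_rw [h3]
      have h6 := h2.mono_left hUle
      simp only [add_zero] at h6
      exact h6
    exact tendsto_nhds_unique h1 h5

/-- EXT with the inequality between the two half-lines as hypothesis. -/
theorem extIneq (hSpu : SpuStmt) (hAid : AidStmt) (hWlm : WlmStmt) (hCon : ConStmt)
    (hFub : FubStmt) : ∀ φ : ℝ → ℝ, IsWeight φ → ∀ (K : Set ℝ) (C : ℝ), Sparse K →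
    Ineq φ K C → ∀ g : ℝ → ℂ, MK φ K g →
    ∃ G : ℝ → ℂ, XK φ K G ∧ ∀ᵐ t : ℝ, 0 ≤ t → G t = g t := by
  intro φ hφ K C hS hI g hg
  refine extG hWlm hCon hFub hφ K (fun x _ => ?_) (hAid φ hφ K hS) C hI g hg
  obtain ⟨u, h1, _, _, h4, h5⟩ := hSpu φ hφ K hS x
  exact ⟨u, h1, h4, h5⟩

/-- The local inequality implies the inequality between the two half-lines. -/
theorem ineq_of_coh {φ : ℝ → ℝ} (hφ : IsWeight φ) {K : Set ℝ} {T C : ℝ} (h : Coh φ K T C) :
    ∃ C' : ℝ, Ineq φ K C' := by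
  obtain ⟨S, hS1, hS⟩ := Pool.Agent.Helper7_WK.weight_loc hφ T
  refine ⟨C * S, fun F c A hF hA t ht => ?_⟩
  have pos := Pool.Agent.Helper7_WK.weight_pos hφ
  have hA0 : 0 ≤ A := by
    have h1 := (norm_nonneg _).trans (hA 0 le_rfl)
    by_contra hcon
    push Not at hcon
    have := mul_neg_of_neg_of_pos hcon (pos 0)
    linarith
  have h1 := h F c (A * S) hF (by
    intro v hv1 hv2
    refine (hA v hv1).trans ?_
    apply mul_le_mul_of_nonneg_left _ hA0
    apply hS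
    rw [abs_of_nonneg hv1]
    exact hv2) t
  rw [abs_of_nonpos ht, neg_neg] at h1
  calc ‖ES F c t‖ ≤ C * (A * S) * φ t := h1
    _ = _ := by ring

theorem ext (hSpu : SpuStmt) (hAid : AidStmt) (hWlm : WlmStmt) (hCon : ConStmt)
    (hFub : FubStmt) : ExtStmt := by
  intro φ hφ K T C hS hCoh g hg
  obtain ⟨C', hC'⟩ := ineq_of_coh hφ hCoh
  exact extIneq hSpu hAid hWlm hCon hFub φ hφ K C' hS hC' g hg

end

end Pool.Agent.WK
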