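import Pool.Agent.WK.Cnv

/-!
# MP_7d2497_an, squad WK, row FAC: the operator `RR x`
-/

set_option autoImplicit false

namespace Pool.Agent.WK

open MeasureTheory Filter Topology Complex
open Pool.Agent.H78E

noncomputable section

namespace H39

open H25

theorem measurable_kx (x : ℝ) : Measurable (kx x) := by
  unfold kx
  exact Measurable.ite measurableSet_Ici (by fun_prop) measurable_const

theorem norm_kx_of_nonneg (x : ℝ) {t : ℝ} (ht : 0 ≤ t) : ‖kx x t‖ = Real.exp (-t) := by
  unfold kx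
  rw [if_pos ht, Complex.norm_exp]
  congr 1
  simp

theorem kx_of_neg (x : ℝ) {t : ℝ} (ht : t < 0) : kx x t = 0 := by
  unfold kx
  rw [if_neg (not_le.2 ht)]

theorem norm_kx_le (x t : ℝ) : ‖kx x t‖ ≤ 1 := by
  rcases lt_or_ge t 0 with h | h
  · rw [kx_of_neg x h, norm_zero]
    exact zero_le_one
  · rw [norm_kx_of_nonneg x h]
    exact Real.exp_le_one_iff.2 (by linarith)

theorem FT_kx (x : ℝ) {z : ℂ} (hz : z.im ≤ 0) :
    FT (kx x) z = 1 / (1 + Complex.I * (z - (x : ℂ))) := by
  have h1 : ∀ t : ℝ, kx x t * Complex.exp (-(Complex.I * (t : ℂ) * z)) =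
      Set.indicator (Set.Ici (0 : ℝ))
        (fun t : ℝ => Complex.exp (-(1 + Complex.I * (z - (x : ℂ))) * (t : ℂ))) t := by
    intro t
    unfold kx
    by_cases ht : 0 ≤ t
    · rw [if_pos ht, Set.indicator_of_mem (Set.mem_Ici.2 ht), ← Complex.exp_add]
      congr 1
      ring
    · rw [if_neg ht, Set.indicator_of_notMem (by rwa [Set.mem_Ici]), zero_mul]
  have hre : (-(1 + Complex.I * (z - (x : ℂ)))).re < 0 := by
    have : (-(1 + Complex.I * (z - (x : ℂ)))).re = -1 + z.im := by
      simp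
      ring
    rw [this]
    linarith
  unfold FT
  simp_rw [h1]
  rw [integral_indicator measurableSet_Ici, integral_Ici_eq_integral_Ioi,
    integral_exp_mul_complex_Ioi hre]
  simp only [Complex.ofReal_zero, mul_zero, Complex.exp_zero]
  rw [neg_div_neg_eq]

theorem conv_int {φ : ℝ → ℝ} (hφ : IsWeight φ) {f : ℝ → ℂ} (hf : LP φ f) (x t : ℝ) :
    Integrable (fun s : ℝ => f (t - s) * kx x s) := by
  have h1 : Integrable (fun s : ℝ => f (t - s)) := (int_of_L1 hφ hf.1).comp_sub_left t
  refine h1.norm.mono' (h1.1.mul (measurable_kx x).aestronglyMeasurable)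
    (ae_of_all _ fun s => ?_)
  rw [norm_mul]
  exact mul_le_of_le_one_right (norm_nonneg _) (norm_kx_le x s)

end H39

open H25 H39

theorem fac (hC : CnvStmt) (hL : LewStmt) : FacStmt := by
  intro φ hφ
  obtain ⟨⟨D, hD0, hD⟩, -, -⟩ := hL φ hφ
  refine ⟨1 + D, by linarith, fun x f hf => ?_⟩
  have hφ0 : ∀ t, 0 ≤ φ t := fun t => zero_le_one.trans (hφ.one_le t)
  obtain ⟨hk, hkD⟩ := hD (kx x) 1 (measurable_kx x).aestronglyMeasurable
    (fun t ht => kx_of_neg x ht) (by
      intro t ht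
      rw [norm_kx_of_nonneg x ht, one_mul, Real.exp_le_exp]
      linarith)
  rw [mul_one] at hkD
  obtain ⟨hc, hcn, hcF⟩ := hC φ hφ f (kx x) hf hk
  have hle : ∀ t, φ t * ‖RR x f t‖ ≤ φ t * ‖f t‖ + φ t * ‖cv f (kx x) t‖ := by
    intro t
    rw [← mul_add]
    exact mul_le_mul_of_nonneg_left (norm_sub_le _ _) (hφ0 t)
  have hsum : Integrable (fun t : ℝ => φ t * ‖f t‖ + φ t * ‖cv f (kx x) t‖) :=
    hf.1.2.add hc.1.2
  have hm : AEStronglyMeasurable (RR x f) volume := hf.1.1.sub hc.1.1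
  have hint : Integrable (fun t : ℝ => φ t * ‖RR x f t‖) := by
    refine hsum.mono' (hφ.meas.aestronglyMeasurable.mul hm.norm) (ae_of_all _ fun t => ?_)
    rw [Real.norm_eq_abs, abs_of_nonneg (mul_nonneg (hφ0 t) (norm_nonneg _))]
    exact hle t
  refine ⟨⟨⟨hm, hint⟩, fun t ht => ?_⟩, ?_, fun z hz => ?_, fun g hg a t => ?_⟩
  · unfold RR
    rw [hf.2 t ht, hc.2 t ht, sub_zero]
  · calc ∫ t : ℝ, φ t * ‖RR x f t‖ ≤ ∫ t : ℝ, (φ t * ‖f t‖ + φ t * ‖cv f (kx x) t‖) :=
          integral_mono hint hsum hle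
      _ = (∫ t : ℝ, φ t * ‖f t‖) + ∫ t : ℝ, φ t * ‖cv f (kx x) t‖ :=
          integral_add hf.1.2 hc.1.2
      _ ≤ (∫ t : ℝ, φ t * ‖f t‖) + (∫ t : ℝ, φ t * ‖f t‖) * D := by
          have h0 : 0 ≤ ∫ t : ℝ, φ t * ‖f t‖ :=
            integral_nonneg fun t => mul_nonneg (hφ0 t) (norm_nonneg _)
          have := mul_le_mul_of_nonneg_left hkD h0
          linarith
      _ = (1 + D) * ∫ t : ℝ, φ t * ‖f t‖ := by ring
  · have i1 : Integrable (md z f) := md_int (int_of_L1 hφ hf.1) hf.2 hz
    have i2 : Integrable (md z (cv f (kx x))) := md_int (int_of_L1 hφ hc.1) hc.2 hz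
    have e1 : FT (RR x f) z = FT f z - FT (cv f (kx x)) z := by
      have e2 : ∀ t, RR x f t * Complex.exp (-(Complex.I * (t : ℂ) * z)) =
          md z f t - md z (cv f (kx x)) t := by
        intro t
        unfold RR md
        rw [sub_mul]
      unfold FT
      simp_rw [e2]
      exact integral_sub i1 i2
    rw [e1, hcF z hz, FT_kx x hz]
    have h1 : z - (x : ℂ) - Complex.I ≠ 0 := by
      intro h
      have := congrArg Complex.im h
      simp at this
      linarith
    have h2 : 1 + Complex.I * (z - (x : ℂ)) = Complex.I * (z - (x : ℂ) - Complex.I) := by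
      rw [mul_sub Complex.I (z - (x : ℂ)) Complex.I, Complex.I_mul_I]
      ring
    rw [h2]
    have hI : Complex.I ≠ 0 := Complex.I_ne_zero
    have h3 : 1 / (Complex.I * (z - (x : ℂ) - Complex.I)) =
        -Complex.I / (z - (x : ℂ) - Complex.I) := by
      rw [div_eq_div_iff (mul_ne_zero hI h1) h1]
      have : Complex.I * Complex.I = -1 := Complex.I_mul_I
      linear_combination (z - (x : ℂ) - Complex.I) * this
    rw [h3]
    field_simp
    ring
  · unfold RR
    have e1 : cv (fun t => f t - a * g t) (kx x) t = cv f (kx x) t - a * cv g (kx x) t := by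
      unfold cv
      rw [← integral_const_mul, ← integral_sub (conv_int hφ hf x t)
        ((conv_int hφ hg x t).const_mul a)]
      congr 1
      funext s
      ring
    rw [e1]
    ring

end

end Pool.Agent.WK
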