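import Pool.Agent.WK.Stmts
import Pool.Agent.Helper18_WK.Seq

/-!
# MP_7d2497_an, squad WK: FAST, fast sequences are nice
-/

set_option autoImplicit false

namespace Pool.Agent.WK

open MeasureTheory Filter Topology Complex
open Pool.Agent.H78E (IsWeight LInf LInfPos L1 X Y mem_Y expPos chi rr chi_rr one_add_ne rr_coe)
open Pool.Agent.WKS

noncomputable section

namespace H18

variable {φ : ℝ → ℝ}

/-- the class of `exp(-t)` in the weighted space -/
theorem exists_rrW (hφ : IsWeight φ) : ∃ F : Y, ∀ z : ℂ, z.im ≤ 0 → chiW φ z F ≠ 0 := by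
  have hL1 : L1 φ (expPos (-Complex.I)) := by
    have hm : Measurable (expPos (-Complex.I)) := by
      unfold expPos
      refine Measurable.ite measurableSet_Ici ?_ measurable_const
      exact Continuous.measurable (by fun_prop)
    refine ⟨hm.aestronglyMeasurable, ?_⟩
    refine (Pool.Agent.Helper15_E.integrable_weight hφ one_pos).mono'
      (hφ.meas.aestronglyMeasurable.mul hm.aestronglyMeasurable.norm) ?_
    refine Eventually.of_forall fun t => ?_
    rw [norm_mul, norm_norm, Real.norm_of_nonneg (one_le_max_zero hφ t).le]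
    refine mul_le_mul_of_nonneg_left ?_ (one_le_max_zero hφ t).le
    unfold expPos
    split_ifs with h
    · rw [Complex.norm_exp, one_mul, abs_of_nonneg h]
      simp
    · rw [norm_zero]
      exact (Real.exp_pos _).le
  obtain ⟨F, hF⟩ := toYW hφ hL1 (Eventually.of_forall fun t ht => by
    unfold expPos
    rw [if_neg (not_le.mpr ht)])
  refine ⟨F, fun z hz => ?_⟩
  have e : dv φ F = rr := by
    apply Subtype.ext
    apply Lp.ext
    exact hF.trans rr_coe.symm
  rw [chiW_apply, e, chi_rr hz]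
  exact one_div_ne_zero (one_add_ne hz)

/-- a functional vanishing on the differences at `x` is a multiple of the character at `x` -/
theorem functional_mul (hφ : IsWeight φ) (x : ℝ) (ℓ : Y →L[ℂ] ℂ)
    (h : ∀ a : ℝ, 0 ≤ a → a ≤ 1 → ∀ v : Y, ℓ (df φ x a v) = 0) {F : Y}
    (hF : chiW φ (x : ℂ) F = 0) : ℓ F = 0 := by
  have h1 : ∀ a : ℝ, 0 ≤ a → a ≤ 1 → ∀ v : Y,
      ℓ (YW φ a v) = Complex.exp (-(Complex.I * (a : ℂ) * (x : ℂ))) * ℓ v := by
    intro a ha ha1 v
    have h2 := h a ha ha1 v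
    unfold df at h2
    rw [map_sub, map_smul, sub_eq_zero, smul_eq_mul] at h2
    rw [h2, ← mul_assoc, ← Complex.exp_add, neg_add_cancel, Complex.exp_zero, one_mul]
  have h2 : ∀ a : ℝ, 0 ≤ a → a ≤ 1 → ∀ (k : ℕ) (v : Y), ℓ (YW φ ((k : ℝ) * a) v) =
      Complex.exp (-(Complex.I * (((k : ℝ) * a : ℝ) : ℂ) * (x : ℂ))) * ℓ v := by
    intro a ha ha1 k
    induction k with
    | zero =>
      intro v
      simp only [Nat.cast_zero, zero_mul]
      rw [YW_zero hφ]
      simp
    | succ k ih =>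
      intro v
      have e : ((k + 1 : ℕ) : ℝ) * a = a + (k : ℝ) * a := by
        push_cast
        ring
      rw [e, YW_add hφ ha (by positivity), h1 a ha ha1, ih, ← mul_assoc, ← Complex.exp_add]
      congr 2
      push_cast
      ring
  have h3 : ∀ s : ℝ, 0 ≤ s → ∀ v : Y,
      ℓ (YW φ s v) = Complex.exp (-(Complex.I * (s : ℂ) * (x : ℂ))) * ℓ v := by
    intro s hs v
    have hk : (0 : ℝ) < ((⌈s⌉₊ + 1 : ℕ) : ℝ) := by positivity
    have h4 := h2 (s / ((⌈s⌉₊ + 1 : ℕ) : ℝ)) (by positivity) (by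
      rw [div_le_one hk]
      push_cast
      linarith [Nat.le_ceil s]) (⌈s⌉₊ + 1) v
    rwa [mul_div_cancel₀ _ hk.ne'] at h4
  have h4 : ∀ f g : Y, ℓ (convW hφ f g) = chiW φ (x : ℂ) f * ℓ g := by
    intro f g
    unfold convW
    have h5 := ContinuousLinearMap.integral_comp_comm ℓ ((WS hφ).cont_mul (GI_dv hφ f) g)
    rw [(WS hφ).pi_apply (GI_dv hφ f), chiW_eq_Ioi (by simp) f]
    refine Eq.trans h5.symm ?_
    rw [← integral_mul_const]
    apply setIntegral_congr_fun measurableSet_Ioi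
    intro s hs
    simp only [map_smul, WS_T, smul_eq_mul]
    rw [h3 s (le_of_lt hs)]
    ring
  obtain ⟨R, hR⟩ := exists_rrW hφ
  have h5 : chiW φ (x : ℂ) F * ℓ R = chiW φ (x : ℂ) R * ℓ F := by
    rw [← h4, ← h4, convW_comm]
  rw [hF, zero_mul] at h5
  rcases mul_eq_zero.mp h5.symm with h6 | h6
  · exact absurd h6 (hR (x : ℂ) (by simp))
  · exact h6

theorem exists_functional {Z : Type} [NormedAddCommGroup Z] [NormedSpace ℂ Z] (V : Submodule ℂ Z)
    (hV : IsClosed (V : Set Z)) {F : Z} (hn : F ∉ V) :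
    ∃ ℓ : Z →L[ℂ] ℂ, (∀ G ∈ V, ℓ G = 0) ∧ ℓ F ≠ 0 := by
  have := hV
  have hne : (V.mkQL F : Z ⧸ V) ≠ 0 := by
    intro h0
    exact hn ((Submodule.Quotient.mk_eq_zero V).mp h0)
  have h2 : ‖(V.mkQL F : Z ⧸ V)‖ ≠ 0 := norm_ne_zero_iff.mpr hne
  obtain ⟨g, -, hg⟩ := exists_dual_vector ℂ (V.mkQL F : Z ⧸ V) h2
  refine ⟨g.comp V.mkQL, fun G hG => ?_, ?_⟩
  · have h3 : (V.mkQL G : Z ⧸ V) = 0 := (Submodule.Quotient.mk_eq_zero V).mpr hG
    rw [ContinuousLinearMap.comp_apply, h3, map_zero]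
  · rw [ContinuousLinearMap.comp_apply, hg]
    intro h1
    exact h2 (RCLike.ofReal_eq_zero.mp h1)

/-- a closed subspace containing the differences at `x` contains the kernel of the character -/
theorem ker_le (hφ : IsWeight φ) (x : ℝ) (V : Submodule ℂ Y) (hV : IsClosed (V : Set Y))
    (h : ∀ a : ℝ, 0 ≤ a → a ≤ 1 → ∀ v : Y, df φ x a v ∈ V) {F : Y}
    (hF : chiW φ (x : ℂ) F = 0) : F ∈ V := by
  by_contra hn
  obtain ⟨ℓ, h1, h2⟩ := exists_functional V hV hn
  exact h2 (functional_mul hφ x ℓ (fun a ha ha1 v => h1 _ (h a ha ha1 v)) hF)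

theorem chiW_FT {z : ℂ} (hz : z.im ≤ 0) {F : Y} {f : ℝ → ℂ}
    (hf : ((dv φ F : X) : ℝ → ℂ) =ᵐ[volume] f) (h0 : ∀ t : ℝ, t < 0 → f t = 0) :
    chiW φ z F = FT f z := by
  rw [chiW_rep hz F]
  unfold FT
  apply integral_congr_ae
  filter_upwards [hf] with t ht
  rw [ht]
  unfold expPos
  by_cases h : 0 ≤ t
  · rw [if_pos h]
  · rw [if_neg h, h0 t (not_le.mp h)]
    ring

theorem norm_Y (hφ : IsWeight φ) (F : Y) : ‖F‖ = ∫ t : ℝ, φ t * ‖((dv φ F : X) : ℝ → ℂ) t‖ := by
  have h1 : ‖F‖ = ∫ t : ℝ, ‖((F : X) : ℝ → ℂ) t‖ := L1.norm_eq_integral_norm (F : X)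
  rw [h1]
  apply integral_congr_ae
  filter_upwards [coe_eq_mul_dv hφ F] with t ht
  rw [ht, norm_mul, Complex.norm_real, Real.norm_of_nonneg (one_le_max_zero hφ t).le]

end H18

open H18

theorem fast : FastStmt := by
  intro φ hφ hu E hEc hEb hEi
  -- an accumulation point
  have hcomp : IsCompact E := Metric.isCompact_of_isClosed_isBounded hEc hEb
  obtain ⟨x₀, hx₀E, hacc⟩ := hEi.exists_accPt_of_subset_isCompact hcomp subset_rfl
  have hE : ∀ r : ℝ, 0 < r → ∃ x ∈ E, x ≠ x₀ ∧ |x - x₀| < r := by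
    intro r hr
    obtain ⟨y, ⟨hy1, hy2⟩, hy3⟩ := (accPt_iff_nhds.mp hacc) (Metric.ball x₀ r)
      (Metric.ball_mem_nhds x₀ hr)
    exact ⟨y, hy2, hy3, by rwa [Metric.mem_ball, Real.dist_eq] at hy1⟩
  obtain ⟨L, x, C, B, hL, hxE, hxne, hxd, hC, hB, hB', hn, hd⟩ := exists_seq hφ hu hE
  -- the distances decrease
  have hmono : StrictAnti (fun n => |x n - x₀|) := by
    apply strictAnti_nat_of_succ_lt
    intro n
    have h1 := hxd n
    have h2 := abs_pos.mpr (sub_ne_zero.mpr (hxne n))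
    linarith
  have hinj : Function.Injective x := by
    intro m n hmn
    apply hmono.injective
    simp only [hmn]
  have hbound : ∀ n, |x n - x₀| ≤ |x 0 - x₀| * (1 / 2) ^ n := by
    intro n
    induction n with
    | zero => simp
    | succ n ih =>
      have h1 := hxd n
      calc |x (n + 1) - x₀| ≤ |x n - x₀| / 2 := h1.le
        _ ≤ (|x 0 - x₀| * (1 / 2) ^ n) / 2 := by linarith
        _ = |x 0 - x₀| * (1 / 2) ^ (n + 1) := by
            rw [pow_succ]
            ring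
  have hlim : Tendsto x atTop (𝓝 x₀) := by
    rw [tendsto_iff_norm_sub_tendsto_zero]
    refine squeeze_zero (fun _ => norm_nonneg _) hbound ?_
    have h1 : Tendsto (fun n : ℕ => ((1 : ℝ) / 2) ^ n) atTop (𝓝 0) :=
      tendsto_pow_atTop_nhds_zero_of_lt_one (by norm_num) (by norm_num)
    simpa using h1.const_mul |x 0 - x₀|
  refine ⟨insert x₀ (Set.range x), x₀, ?_, Set.mem_insert _ _, ?_, ?_, ?_, ?_⟩
  · rintro y (rfl | ⟨n, rfl⟩)
    · exact hx₀E
    · exact hxE n
  · exact (Set.infinite_range_of_injective hinj).mono (Set.subset_insert _ _)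
  · exact hlim.isCompact_insert_range.isClosed
  · exact (Set.countable_range x).insert _
  · -- density
    intro f hf hf0 ε hε
    obtain ⟨⟨hfL, hfz⟩⟩ : LP φ f ∧ True := ⟨hf, trivial⟩
    obtain ⟨F, hF⟩ := toYW hφ hfL (Eventually.of_forall hfz)
    have hF0 : chiW φ (x₀ : ℂ) F = 0 := by
      rw [chiW_FT (by simp) hF hfz]
      exact hf0 x₀ rfl
    -- the subspace
    let V : Submodule ℂ Y :=
      { carrier := {G | chiW φ (x₀ : ℂ) G = 0 ∧ ∃ N, ∀ n, N ≤ n → chiW φ (x n : ℂ) G = 0}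
        zero_mem' := ⟨map_zero _, 0, fun n _ => map_zero _⟩
        add_mem' := by
          rintro G G' ⟨h1, N, h2⟩ ⟨h1', N', h2'⟩
          refine ⟨by rw [map_add, h1, h1', add_zero], max N N', fun n hn => ?_⟩
          rw [map_add, h2 n ((le_max_left _ _).trans hn), h2' n ((le_max_right _ _).trans hn),
            add_zero]
        smul_mem' := by
          rintro c G ⟨h1, N, h2⟩
          refine ⟨by rw [map_smul, h1, smul_zero], N, fun n hn => ?_⟩
          rw [map_smul, h2 n hn, smul_zero] }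
    have hV : F ∈ V.topologicalClosure := by
      refine ker_le hφ x₀ _ V.isClosed_topologicalClosure ?_ hF0
      intro a ha ha1 v
      change df φ x₀ a v ∈ closure (V : Set Y)
      rw [Metric.mem_closure_iff]
      intro δ hδ
      have h1 : Tendsto (fun N : ℕ => 2 * ((1 : ℝ) / 2) ^ N * ‖v‖) atTop (𝓝 0) := by
        have h2 : Tendsto (fun n : ℕ => ((1 : ℝ) / 2) ^ n) atTop (𝓝 0) :=
          tendsto_pow_atTop_nhds_zero_of_lt_one (by norm_num) (by norm_num)
        simpa using (h2.const_mul 2).mul_const ‖v‖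
      obtain ⟨N, hN⟩ := (h1.eventually_lt_const hδ).exists
      obtain ⟨G, hG1, hG2, hG3⟩ := exists_limit hφ hL hC hB hB' hn hd ha ha1 v N
      refine ⟨G, ⟨hG2, N, hG3⟩, ?_⟩
      rw [dist_comm, dist_eq_norm]
      exact lt_of_le_of_lt hG1 hN
    have hV' : F ∈ closure (V : Set Y) := hV
    rw [Metric.mem_closure_iff] at hV'
    obtain ⟨G, ⟨hG1, N, hG2⟩, hG3⟩ := hV' ε hε
    obtain ⟨f', hf'1, hf'2, hf'3⟩ := ofYW hφ G
    refine ⟨f', ⟨hf'1, hf'2⟩, ⟨(Finset.range N).image x, ?_, ?_⟩, ?_⟩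
    · intro y hy
      rw [Finset.mem_image] at hy
      obtain ⟨n, -, rfl⟩ := hy
      exact ⟨Or.inr ⟨n, rfl⟩, hxne n⟩
    · rintro y (rfl | ⟨n, rfl⟩) hy
      · rw [← chiW_FT (by simp) hf'3 hf'2]
        exact hG1
      · rw [← chiW_FT (by simp) hf'3 hf'2]
        apply hG2
        by_contra hlt
        apply hy
        rw [Finset.mem_image]
        exact ⟨n, Finset.mem_range.mpr (not_le.mp hlt), rfl⟩
    · have h1 : ∫ t : ℝ, φ t * ‖f t - f' t‖ = ‖F - G‖ := by
        rw [norm_Y hφ]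
        apply integral_congr_ae
        have h2 : ((dv φ (F - G) : X) : ℝ → ℂ) =ᵐ[volume] fun t =>
            ((dv φ F : X) : ℝ → ℂ) t - ((dv φ G : X) : ℝ → ℂ) t := by
          rw [map_sub]
          exact Lp.coeFn_sub (dv φ F : X) (dv φ G : X)
        filter_upwards [h2, hF, hf'3] with t h3 h4 h5
        rw [h3, h4, h5]
      rw [h1, ← dist_eq_norm]
      exact hG3

end

end Pool.Agent.WK
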