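import Pool.Agent.WK.Stmts
import Pool.Agent.Helper15_E.Line

/-!
# MP_7d2497_an, squad WK: row FUB
-/

set_option autoImplicit false

namespace Pool.Agent.WK

open MeasureTheory Filter Topology Complex
open Pool.Agent.H78E

noncomputable section

namespace H83Fub

theorem exL1 {φ : ℝ → ℝ} {f : ℝ → ℂ} (hf : L1 φ f) :
    ∃ g : ℝ → ℂ, Measurable g ∧ f =ᵐ[volume] g ∧ Integrable (fun t => φ t * ‖g t‖) := by
  refine ⟨hf.1.mk f, hf.1.stronglyMeasurable_mk.measurable, hf.1.ae_eq_mk, ?_⟩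
  refine hf.2.congr ?_
  filter_upwards [hf.1.ae_eq_mk] with t ht
  rw [← ht]

theorem exLInf {φ : ℝ → ℝ} (hφ : IsWeight φ) {G : ℝ → ℂ} (hG : LInf φ G) :
    ∃ (g : ℝ → ℂ) (C : ℝ), Measurable g ∧ G =ᵐ[volume] g ∧ ∀ t, ‖g t‖ ≤ C * φ t := by
  obtain ⟨h1, C, h2⟩ := hG
  have hm := h1.stronglyMeasurable_mk.measurable
  have hS : MeasurableSet {t : ℝ | ‖h1.mk G t‖ ≤ |C| * φ t} :=
    measurableSet_le hm.norm (hφ.meas.const_mul _)
  refine ⟨{t : ℝ | ‖h1.mk G t‖ ≤ |C| * φ t}.indicator (h1.mk G), |C|, hm.indicator hS, ?_, ?_⟩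
  · filter_upwards [h1.ae_eq_mk, h2] with t ht1 ht2
    have h3 : t ∈ {t : ℝ | ‖h1.mk G t‖ ≤ |C| * φ t} := by
      show ‖h1.mk G t‖ ≤ |C| * φ t
      rw [← ht1]
      have := hφ.one_le t
      have := le_abs_self C
      nlinarith
    rw [Set.indicator_of_mem h3, ht1]
  · intro t
    by_cases h3 : t ∈ {t : ℝ | ‖h1.mk G t‖ ≤ |C| * φ t}
    · rw [Set.indicator_of_mem h3]
      exact h3
    · rw [Set.indicator_of_notMem h3, norm_zero]
      have := hφ.one_le t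
      have := abs_nonneg C
      nlinarith

theorem inner_eq {u u' G G' : ℝ → ℂ} (hu : u =ᵐ[volume] u') (hG : G =ᵐ[volume] G') (c : ℝ) :
    ∫ s : ℝ, u s * G (s + c) = ∫ s : ℝ, u' s * G' (s + c) := by
  apply integral_congr_ae
  have h1 := (measurePreserving_add_right (volume : Measure ℝ) c).quasiMeasurePreserving.ae_eq_comp hG
  filter_upwards [hu, h1] with s hs1 hs2
  have hs3 : G (s + c) = G' (s + c) := hs2
  rw [hs1, hs3]

theorem outer_eq {f f' u u' G G' : ℝ → ℂ} (hf : f =ᵐ[volume] f') (hu : u =ᵐ[volume] u')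
    (hG : G =ᵐ[volume] G') (a : ℝ) :
    ∫ t : ℝ, f t * ∫ s : ℝ, u s * G (s + (t + a)) =
      ∫ t : ℝ, f' t * ∫ s : ℝ, u' s * G' (s + (t + a)) := by
  apply integral_congr_ae
  filter_upwards [hf] with t ht
  rw [ht, inner_eq hu hG]

end H83Fub

open H83Fub in
theorem fub : FubStmt := by
  intro φ hφ f u G hf hu hG a
  obtain ⟨f', mf, ef, jf⟩ := exL1 hf
  obtain ⟨u', mu, eu, ju⟩ := exL1 hu
  obtain ⟨G', C, mG, eG, bG⟩ := exLInf hφ hG
  rw [outer_eq ef eu eG, outer_eq eu ef eG]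
  have key := Pool.Agent.Helper15_E.integrable_prod hφ mf jf mu ju mG bG a
  have h1 : ∀ t : ℝ, f' t * ∫ s : ℝ, u' s * G' (s + (t + a)) =
      ∫ s : ℝ, f' t * (u' s * G' (s + (t + a))) := fun t => (integral_const_mul _ _).symm
  have h2 : ∀ s : ℝ, u' s * ∫ t : ℝ, f' t * G' (t + (s + a)) =
      ∫ t : ℝ, f' t * (u' s * G' (s + (t + a))) := by
    intro s
    rw [← integral_const_mul]
    congr 1
    funext t
    rw [show t + (s + a) = s + (t + a) by ring]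
    ring
  simp_rw [h1, h2]
  exact integral_integral_swap key

end

end Pool.Agent.WK
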