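import Pool.Agent.WK.Stmts

/-!
# MP_7d2497_an, squad WK, row NEG (helper24): assembly of necessity
-/

set_option autoImplicit false

namespace Pool.Agent.WK

open MeasureTheory Filter Topology Complex
open Pool.Agent.H78E

noncomputable section

/-- NEG: necessity of the conditions (i) and (ii). -/
theorem neg (hSum : SumStmt) (hSpd : SpdStmt) (hNic : NicStmt) (hAsur : AsurStmt)
    (hOpn : OpnStmt) (hRefl : ReflStmt) (hClu : CluStmt) (hBlk : BlkStmt) (hFast : FastStmt) :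
    NegStmt := by
  intro φ hφ hlim L hE
  have hP : ∀ K : Set ℝ, K ⊆ L → Nice φ K → ∃ T C' : ℝ, Coh φ K T C' := by
    intro K hK hn
    obtain ⟨C, hC⟩ := hOpn φ hφ K hn (fun h hh => hAsur φ hφ K hn L hK hE h hh)
    exact hRefl φ hφ hlim K C hC
  have hS : ∀ K : Set ℝ, Sparse K → Nice φ K := by
    intro K hK
    obtain ⟨hc, hk⟩ := hSum.2.2.1 K (hSum.2.1 K hK)
    exact hNic φ hφ K ∅ (Set.empty_subset _) Set.subsingleton_empty hc hk (hSpd φ hφ K hK)
  constructor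
  · by_cases h : ∃ (R : ℝ) (N : ℕ), LocB {x | x ∈ L ∧ R ≤ |x|} N
    · obtain ⟨R, N, hRN⟩ := h
      obtain ⟨T, C, hC⟩ := hP _ (fun x hx => hx.1) (hS _ (hSum.1 _ N hRN))
      exact ⟨R, T, C, hC⟩
    · obtain ⟨K, hKL, hKs, hKN⟩ := hBlk L (fun R N hl => h ⟨R, N, hl⟩)
      obtain ⟨T, C, hC⟩ := hP K hKL (hS K hKs)
      obtain ⟨N, hN⟩ := hClu φ hφ K T C hC
      exact absurd hN (hKN N)
  · by_contra hcon
    apply hcon
    by_cases h1 : ∃ C : ℝ, ∀ t : ℝ, 0 ≤ t → t ≤ C * φ t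
    · exact Or.inl h1
    · refine Or.inr fun E hEL hEc hEb => ?_
      by_contra hEi
      obtain ⟨K, x0, hKE, hx0, hKi, hKc, hKk, hD⟩ := hFast φ hφ h1 E hEc hEb hEi
      have hn : Nice φ K := hNic φ hφ K {x0} (Set.singleton_subset_iff.2 hx0)
        Set.subsingleton_singleton hKc hKk hD
      obtain ⟨T, C, hC⟩ := hP K (hKE.trans hEL) hn
      obtain ⟨N, hN⟩ := hClu φ hφ K T C hC
      obtain ⟨R, hR⟩ := (hEb.subset hKE).subset_closedBall 0
      apply hKi
      apply (hSum.2.1 K (hSum.1 K N hN) R).subset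
      intro x hx
      refine ⟨hx, ?_⟩
      have hxR := hR hx
      rw [Real.closedBall_eq_Icc] at hxR
      simpa using hxR

end

end Pool.Agent.WK
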