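import Pool.Agent.WK.Stmts
import Pool.Agent.Helper72_E.Bip

/-!
# MP_7d2497_an, squad WK, row NIM (helper3)
-/

set_option autoImplicit false

namespace Pool.Agent.WK

open MeasureTheory Filter Topology Complex
open Pool.Agent.H78E

noncomputable section

namespace H3N

variable {φ : ℝ → ℝ}

theorem norm_expR (x t : ℝ) : ‖expR x t‖ = 1 := by
  unfold expR
  rw [Complex.norm_exp]
  simp

theorem measurable_expR (x : ℝ) : Measurable (expR x) := by
  unfold expR
  fun_prop

theorem expPos_eq (x t : ℝ) : expPos (x : ℂ) t = if 0 ≤ t then expR x t else 0 := rfl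

theorem linfPos_expPos (hφ : IsWeight φ) (x : ℝ) : LInfPos φ (expPos (x : ℂ)) := by
  refine ⟨⟨?_, 1, Eventually.of_forall fun t => ?_⟩, fun t ht => ?_⟩
  · have h1 : expPos (x : ℂ) = fun t => if 0 ≤ t then expR x t else 0 := rfl
    rw [h1]
    exact (Measurable.ite measurableSet_Ici (measurable_expR x)
      measurable_const).aestronglyMeasurable
  · rw [expPos_eq, one_mul]
    split
    · rw [norm_expR]
      exact hφ.one_le t
    · rw [norm_zero]
      exact zero_le_one.trans (hφ.one_le t)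
  · rw [expPos_eq, if_neg (not_le.2 ht)]

/-- the transform of a translate -/
theorem FT_shift (u : ℝ → ℂ) (s y : ℝ) :
    FT (fun t => u (t - s)) (y : ℂ) = expR y s * FT u (y : ℂ) := by
  unfold FT
  rw [← integral_const_mul]
  have h := integral_sub_right_eq_self (μ := (volume : Measure ℝ))
    (fun t => expR y s * (u t * Complex.exp (-(Complex.I * (t : ℂ) * (y : ℂ))))) s
  rw [← h]
  congr 1
  funext t
  have h1 : Complex.exp (-(Complex.I * (t : ℂ) * (y : ℂ))) =
      expR y s * Complex.exp (-(Complex.I * ((t - s : ℝ) : ℂ) * (y : ℂ))) := by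
    unfold expR
    rw [← Complex.exp_add]
    congr 1
    push_cast
    ring
  rw [h1]
  ring

theorem FT_expR (u : ℝ → ℂ) (y : ℝ) : FT u (y : ℂ) = ∫ t : ℝ, u t * expR y t := rfl

theorem linf_expR (hφ : IsWeight φ) (x : ℝ) : LInf φ (expR x) := by
  refine ⟨(measurable_expR x).aestronglyMeasurable, 1, Eventually.of_forall fun t => ?_⟩
  rw [norm_expR, one_mul]
  exact hφ.one_le t

/-- the difference used in the proof is in `J_K` -/
theorem jk_diff (hφ : IsWeight φ) {K : Set ℝ} {x : ℝ} {u : ℝ → ℂ} (hu : LP φ u)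
    (hK : ∀ y ∈ K, y ≠ x → FT u (y : ℂ) = 0) {s : ℝ} (hs : 0 ≤ s) :
    JK φ K ((fun t => u (t - s)) + (-expR x s) • u) := by
  have h1 : L1 φ (fun t => u (t - s)) := hu.1.shift72 hφ s
  have h2 : L1 φ ((-expR x s) • u) := hu.1.smul72 _
  refine ⟨⟨h1.add72 h2 hφ, fun t ht => ?_⟩, fun y hy => ?_⟩
  · rw [Pi.add_apply, Pi.smul_apply, hu.2 t ht, hu.2 (t - s) (by linarith), smul_zero, add_zero]
  · have h3 : FT ((fun t => u (t - s)) + (-expR x s) • u) (y : ℂ) =
        FT (fun t => u (t - s)) (y : ℂ) + (-expR x s) * FT u (y : ℂ) := by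
      simp only [FT_expR]
      rw [← integral_const_mul, ← integral_add (h1.mulInt72 (linf_expR hφ y))
        ((hu.1.mulInt72 (linf_expR hφ y)).const_mul _)]
      congr 1
      funext t
      simp only [Pi.add_apply, Pi.smul_apply, smul_eq_mul]
      ring
    rw [h3, FT_shift]
    by_cases hyx : y = x
    · rw [hyx]
      ring
    · rw [hK y hy hyx]
      ring

end H3N

open H3N

theorem nim (fub : FubStmt) : NimStmt := by
  intro φ hφ K x u h hu hx hK hh
  have key : ∀ s : ℝ, 0 ≤ s → ∫ t : ℝ, u t * h (t + s) = (∫ t : ℝ, u t * h t) * expR x s := by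
    intro s hs
    have h1 := hh.2 _ (jk_diff hφ (x := x) hu hK hs)
    rw [integral_shift72]
    have h2 : ∫ t : ℝ, ((fun t => u (t - s)) + (-expR x s) • u) t * h t =
        (∫ t : ℝ, u (t - s) * h t) + (-expR x s) * ∫ t : ℝ, u t * h t := by
      rw [← integral_const_mul, ← integral_add ((hu.1.shift72 hφ s).mulInt72 hh.1.1)
        ((hu.1.mulInt72 hh.1.1).const_mul _)]
      congr 1
      funext t
      simp only [Pi.add_apply, Pi.smul_apply, smul_eq_mul]
      ring
    rw [h2] at h1
    linear_combination h1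
  refine ⟨key, fun hc => ⟨by simp, ?_⟩⟩
  rw [bipolarPos φ hφ h (expPos (x : ℂ)) hh.1 (linfPos_expPos hφ x)]
  intro f hf hf0 hfh
  have h1 := fub φ hφ f u h hf hu.1 hh.1.1 0
  have h2 : ∫ s : ℝ, u s * ∫ t : ℝ, f t * h (t + (s + 0)) = 0 := by
    rw [← integral_zero ℝ ℂ (μ := volume)]
    congr 1
    funext s
    rcases lt_or_ge s 0 with hs | hs
    · rw [hu.2 s hs, zero_mul]
    · rw [add_zero, hfh s hs, mul_zero]
  have h3 : ∫ t : ℝ, f t * ∫ s : ℝ, u s * h (s + (t + 0)) =
      (∫ t : ℝ, u t * h t) * ∫ t : ℝ, f t * expPos (x : ℂ) t := by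
    rw [← integral_const_mul]
    congr 1
    funext t
    rcases lt_or_ge t 0 with ht | ht
    · rw [hf0 t ht]
      ring
    · rw [add_zero, key t ht, expPos_eq, if_pos ht]
      ring
  rw [h2, h3] at h1
  exact (mul_eq_zero.1 h1).resolve_left hc

end

end Pool.Agent.WK
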