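import Pool.Agent.WK.Stmts

/-!
# MP_7d2497_an, squad WK, row NIU (helper60): separating functions from the density
-/

set_option autoImplicit false

namespace Pool.Agent.WK

open MeasureTheory Filter Topology Complex
open Pool.Agent.H78E

noncomputable section

namespace H60N

theorem int_u {φ : ℝ → ℝ} (hφ : IsWeight φ) {f : ℝ → ℂ} (hf : L1 φ f) : Integrable f := by
  refine hf.2.mono' hf.1 (ae_of_all _ fun t => ?_)
  have := mul_le_mul_of_nonneg_right (hφ.one_le t) (norm_nonneg (f t))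
  rw [one_mul] at this
  exact this

theorem norm_exp_le {t : ℝ} (ht : 0 ≤ t) {z : ℂ} (hz : z.im ≤ 0) :
    ‖Complex.exp (-(Complex.I * (t : ℂ) * z))‖ ≤ 1 := by
  rw [Complex.norm_exp]
  apply Real.exp_le_one_iff.2
  have : (-(Complex.I * (t : ℂ) * z)).re = t * z.im := by simp
  rw [this]
  exact mul_nonpos_of_nonneg_of_nonpos ht hz

theorem md_int {f : ℝ → ℂ} (hf : Integrable f) (h0 : ∀ t : ℝ, t < 0 → f t = 0) {z : ℂ}
    (hz : z.im ≤ 0) : Integrable fun t : ℝ => f t * Complex.exp (-(Complex.I * (t : ℂ) * z)) := by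
  refine hf.norm.mono' (hf.1.mul (by fun_prop)) (ae_of_all _ fun t => ?_)
  rw [norm_mul]
  rcases lt_or_ge t 0 with h | h
  · rw [h0 t h]
    simp
  · exact mul_le_of_le_one_right (norm_nonneg _) (norm_exp_le h hz)

theorem FT_diff {φ : ℝ → ℝ} (hφ : IsWeight φ) {f f' : ℝ → ℂ} (hf : LP φ f) (hf' : LP φ f')
    {z : ℂ} (hz : z.im ≤ 0) : ‖FT f z - FT f' z‖ ≤ ∫ t : ℝ, φ t * ‖f t - f' t‖ := by
  have h1 := int_u hφ hf.1
  have h2 := int_u hφ hf'.1
  unfold FT
  rw [← integral_sub (md_int h1 hf.2 hz) (md_int h2 hf'.2 hz)]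
  have hint : Integrable fun t : ℝ => φ t * ‖f t - f' t‖ := by
    refine (hf.1.2.add hf'.1.2).mono'
      (hφ.meas.aestronglyMeasurable.mul (hf.1.1.sub hf'.1.1).norm) (ae_of_all _ fun t => ?_)
    have h0 : 0 ≤ φ t := zero_le_one.trans (hφ.one_le t)
    rw [Real.norm_of_nonneg (mul_nonneg h0 (norm_nonneg _))]
    calc φ t * ‖f t - f' t‖ ≤ φ t * (‖f t‖ + ‖f' t‖) :=
          mul_le_mul_of_nonneg_left (norm_sub_le _ _) h0
      _ = _ := mul_add _ _ _
  refine norm_integral_le_of_norm_le hint (ae_of_all _ fun t => ?_)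
  rw [← sub_mul, norm_mul]
  rcases lt_or_ge t 0 with h | h
  · rw [hf.2 t h, hf'.2 t h]
    simp
  · have h3 := norm_exp_le h hz
    calc ‖f t - f' t‖ * ‖Complex.exp (-(Complex.I * (t : ℂ) * z))‖ ≤ ‖f t - f' t‖ :=
          mul_le_of_le_one_right (norm_nonneg _) h3
      _ = 1 * ‖f t - f' t‖ := (one_mul _).symm
      _ ≤ φ t * ‖f t - f' t‖ := mul_le_mul_of_nonneg_right (hφ.one_le t) (norm_nonneg _)

theorem LP_smul {φ : ℝ → ℝ} {f : ℝ → ℂ} (hf : LP φ f) (c : ℂ) : LP φ fun t => c * f t := by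
  refine ⟨⟨hf.1.1.const_mul c, ?_⟩, fun t ht => by show c * f t = 0; rw [hf.2 t ht, mul_zero]⟩
  refine (hf.1.2.const_mul ‖c‖).congr (ae_of_all _ fun t => ?_)
  show ‖c‖ * (φ t * ‖f t‖) = φ t * ‖c * f t‖
  rw [norm_mul]
  ring

theorem FT_smul (f : ℝ → ℂ) (c z : ℂ) : FT (fun t => c * f t) z = c * FT f z := by
  unfold FT
  rw [← integral_const_mul]
  congr 1
  funext t
  ring

/-- The transform of the exponential. -/
theorem FT_kx {z : ℂ} (hz : z.im ≤ 0) : FT (kx 0) z ≠ 0 := by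
  have h1 : FT (kx 0) z = ∫ t : ℝ in Set.Ioi 0, Complex.exp ((-1 - Complex.I * z) * (t : ℂ)) := by
    unfold FT
    rw [← integral_Ici_eq_integral_Ioi, ← integral_indicator measurableSet_Ici]
    congr 1
    funext t
    unfold kx
    by_cases h : 0 ≤ t
    · rw [if_pos h, Set.indicator_of_mem (Set.mem_Ici.mpr h), ← Complex.exp_add]
      congr 1
      push_cast
      ring
    · rw [if_neg h, Set.indicator_of_notMem (by rw [Set.mem_Ici]; exact h), zero_mul]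
  have hre : (-1 - Complex.I * z).re < 0 := by
    simp
    linarith
  rw [h1, integral_exp_mul_complex_Ioi hre]
  have h2 : (-1 - Complex.I * z) ≠ 0 := by
    intro h
    rw [h] at hre
    simp at hre
  simp [h2]

theorem kx_LP (hlew : LewStmt) {φ : ℝ → ℝ} (hφ : IsWeight φ) : LP φ (kx 0) := by
  obtain ⟨D, -, hD⟩ := (hlew φ hφ).1
  refine (hD (kx 0) 1 ?_ ?_ ?_).1
  · have : Measurable (kx 0) := by
      unfold kx
      exact Measurable.ite measurableSet_Ici (by fun_prop) measurable_const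
    exact this.aestronglyMeasurable
  · intro t ht
    unfold kx
    rw [if_neg (by linarith)]
  · intro t ht
    unfold kx
    rw [if_pos ht, Complex.norm_exp, one_mul]
    apply Real.exp_le_exp.2
    simp
    linarith

theorem fac_ne {x : ℝ} {z : ℂ} (hz : z.im ≤ 0) : z - (x : ℂ) - Complex.I ≠ 0 := by
  intro h
  have := congrArg Complex.im h
  simp at this
  linarith

/-- A function in the weighted space with prescribed zeros. -/
theorem start (hfac : FacStmt) (hlew : LewStmt) {φ : ℝ → ℝ} (hφ : IsWeight φ) {Z : Set ℝ}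
    (hZ : Z.Subsingleton) {z : ℂ} (hz : z.im ≤ 0) (hzZ : z ∉ rc Z) :
    ∃ f : ℝ → ℂ, LP φ f ∧ (∀ x ∈ Z, FT f (x : ℂ) = 0) ∧ FT f z ≠ 0 := by
  rcases hZ.eq_empty_or_singleton with h | ⟨x0, h⟩
  · refine ⟨kx 0, kx_LP hlew hφ, ?_, FT_kx hz⟩
    rw [h]
    intro x hx
    exact absurd hx (Set.notMem_empty x)
  · obtain ⟨D, -, hD⟩ := hfac φ hφ
    obtain ⟨h1, -, h3, -⟩ := hD x0 (kx 0) (kx_LP hlew hφ)
    refine ⟨RR x0 (kx 0), h1, ?_, ?_⟩
    · intro x hx
      rw [h, Set.mem_singleton_iff] at hx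
      rw [hx, h3 _ (by simp), sub_self]
      simp
    · rw [h3 z hz]
      refine mul_ne_zero (div_ne_zero ?_ (fac_ne hz)) (FT_kx hz)
      intro h4
      apply hzZ
      rw [h]
      exact ⟨x0, rfl, (sub_eq_zero.mp h4).symm⟩

/-- Multiplication of the transform by finitely many factors. -/
theorem kill (hfac : FacStmt) {φ : ℝ → ℝ} (hφ : IsWeight φ) {f : ℝ → ℂ} (hf : LP φ f)
    (S : Finset ℝ) : ∃ g : ℝ → ℂ, LP φ g ∧ ∀ z : ℂ, z.im ≤ 0 →
      (FT g z = 0 ↔ FT f z = 0 ∨ ∃ y ∈ S, z = (y : ℂ)) := by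
  classical
  induction S using Finset.induction_on with
  | empty => exact ⟨f, hf, fun z _ => by simp⟩
  | insert a S _ ih =>
    obtain ⟨g, hg, hgz⟩ := ih
    obtain ⟨D, -, hD⟩ := hfac φ hφ
    obtain ⟨h1, -, h3, -⟩ := hD a g hg
    refine ⟨RR a g, h1, fun z hz => ?_⟩
    rw [h3 z hz, mul_eq_zero, div_eq_zero_iff, hgz z hz]
    constructor
    · rintro ((h | h) | h | ⟨y, hy, h⟩)
      · exact Or.inr ⟨a, Finset.mem_insert_self a S, sub_eq_zero.mp h⟩
      · exact absurd h (fac_ne hz)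
      · exact Or.inl h
      · exact Or.inr ⟨y, Finset.mem_insert_of_mem hy, h⟩
    · rintro (h | ⟨y, hy, h⟩)
      · exact Or.inr (Or.inl h)
      · rcases Finset.mem_insert.mp hy with h5 | h5
        · left
          left
          rw [h, h5, sub_self]
        · exact Or.inr (Or.inr ⟨y, h5, h⟩)

/-- The approximating function. -/
theorem appr (hfac : FacStmt) (hlew : LewStmt) {φ : ℝ → ℝ} (hφ : IsWeight φ) {K Z : Set ℝ}
    (hZ : Z.Subsingleton) (hd : Dns φ K Z) {z : ℂ} (hz : z.im ≤ 0) (hzZ : z ∉ rc Z) :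
    ∃ (f : ℝ → ℂ) (F : Finset ℝ), LP φ f ∧ FT f z ≠ 0 ∧ (∀ x ∈ F, x ∈ K ∧ x ∉ Z) ∧
      ∀ x ∈ K, x ∉ F → FT f (x : ℂ) = 0 := by
  obtain ⟨f, hf, hfZ, hfz⟩ := start hfac hlew hφ hZ hz hzZ
  obtain ⟨f', hf', ⟨F, hF1, hF2⟩, hlt⟩ := hd f hf hfZ (‖FT f z‖) (norm_pos_iff.mpr hfz)
  refine ⟨f', F, hf', ?_, hF1, hF2⟩
  intro h
  have h1 := FT_diff hφ hf hf' hz
  rw [h, sub_zero] at h1
  linarith

end H60N

open H60N

theorem niu (hfac : FacStmt) (hlew : LewStmt) : NiuStmt := by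
  classical
  intro φ hφ K Z hZK hZ hd
  constructor
  · intro x hxK hxZ
    have hz : ((x : ℝ) : ℂ).im ≤ 0 := by simp
    have hzZ : (x : ℂ) ∉ rc Z := by
      rintro ⟨y, hy, hyx⟩
      have : y = x := Complex.ofReal_injective hyx
      exact hxZ (this ▸ hy)
    obtain ⟨f, F, hf, hfz, hF1, hF2⟩ := appr hfac hlew hφ hZ hd hz hzZ
    obtain ⟨g, hg, hgz⟩ := kill hfac hφ hf (F.erase x)
    have hgx : FT g (x : ℂ) ≠ 0 := by
      rw [Ne, hgz _ hz]
      rintro (h | ⟨y, hy, hyx⟩)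
      · exact hfz h
      · have : x = y := by exact_mod_cast hyx
        exact (Finset.mem_erase.mp hy).1 this.symm
    refine ⟨fun t => (FT g (x : ℂ))⁻¹ * g t, LP_smul hg _, ?_, ?_⟩
    · rw [FT_smul, inv_mul_cancel₀ hgx]
    · intro y hyK hyx
      rw [FT_smul]
      have h1 : FT g (y : ℂ) = 0 := by
        rw [hgz _ (by simp)]
        by_cases hyF : y ∈ F
        · exact Or.inr ⟨y, Finset.mem_erase.mpr ⟨hyx, hyF⟩, rfl⟩
        · exact Or.inl (hF2 y hyK hyF)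
      rw [h1, mul_zero]
  · intro z hz hzK
    have hzZ : z ∉ rc Z := by
      rintro ⟨y, hy, hyz⟩
      exact hzK ⟨y, hZK hy, hyz⟩
    obtain ⟨f, F, hf, hfz, hF1, hF2⟩ := appr hfac hlew hφ hZ hd hz hzZ
    obtain ⟨g, hg, hgz⟩ := kill hfac hφ hf F
    refine ⟨g, ⟨hg, ?_⟩, ?_⟩
    · intro y hyK
      rw [hgz _ (by simp)]
      by_cases hyF : y ∈ F
      · exact Or.inr ⟨y, hyF, rfl⟩
      · exact Or.inl (hF2 y hyK hyF)
    · rw [Ne, hgz _ hz]
      rintro (h | ⟨y, hy, hyz⟩)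
      · exact hfz h
      · exact hzK ⟨y, (hF1 y hy).1, hyz.symm⟩

end

end Pool.Agent.WK
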