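import Pool.Agent.WK.Spx
import Pool.Agent.WK.Van
import Pool.Agent.Helper61_E.Dual

/-!
# MP_7d2497_an, squad WK: row OPN
-/

namespace Pool.Agent.WK

open MeasureTheory Filter Topology Complex
open Pool.Agent.H78E

theorem opn (hSpx : SpxStmt) (hVan : VanStmt) : OpnStmt := by
  intro φ hφ K hN hext
  obtain ⟨C, hC, hCb⟩ := Pool.Agent.Helper7_WK.open_map H61.dual hφ {f | JK φ K f}
    (fun f hf => ⟨hf.1.1, hf.1.2⟩) (by
      intro g hg hgJ
      obtain ⟨G, hG, hGe⟩ := hext g ⟨hg, hgJ⟩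
      exact ⟨G, hG.1, hGe, hG.2⟩) (by
      intro G hG h0 hGJ
      apply hVan φ hφ K hN.closed hN.countable G hG h0
      apply (hSpx φ hφ K).1 _ G ⟨hG, hGJ⟩
      intro x hx
      apply hN.n1 (x : ℂ) (by simp)
      rintro ⟨y, hy, hxy⟩
      exact hx ((Complex.ofReal_injective hxy) ▸ hy))
  obtain ⟨B, hB1, hB⟩ := Pool.Agent.Helper7_WK.bound_all hφ
  refine ⟨B * C, ?_⟩
  intro F c A hF hb t _
  have hA : 0 ≤ A := by
    have h1 := (norm_nonneg _).trans (hb 0 le_rfl)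
    have h2 := Pool.Agent.Helper7_WK.weight_pos hφ 0
    by_contra hcon
    push Not at hcon
    have := mul_neg_of_neg_of_pos hcon h2
    linarith
  have hX := (Pool.Agent.Helper7_WK.ep_XK hφ (K := K) F (fun x hx => hF hx) c).2
  have h1 := hCb (ES F c) (Pool.Agent.Helper7_WK.ep_linf hφ F c)
    (fun f hf s => hX f ⟨hf.1.1, hf.1.2, hf.2⟩ s) A hA
    (Eventually.of_forall fun t ht => hb t ht)
  have h2 := hB (ES F c) (Pool.Agent.Helper7_WK.continuous_ep F c) (C * A) (by positivity) h1 t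
  calc ‖ES F c t‖ ≤ B * (C * A) * φ t := h2
    _ = _ := by ring

end Pool.Agent.WK
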