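import Pool.Agent.WK.Stmts

/-!
# MP_7d2497_an, squad WK, row POS (helper68): sufficiency, assembled
-/

set_option autoImplicit false

namespace Pool.Agent.WK

open MeasureTheory Filter Topology Complex
open Pool.Agent.H78E

noncomputable section

namespace H68P

/-- A smaller set of frequencies satisfies the same local inequality. -/
theorem coh_mono {φ : ℝ → ℝ} {K K' : Set ℝ} (h : K' ⊆ K) {T C : ℝ} (hc : Coh φ K T C) :
    Coh φ K' T C :=
  fun F c A hF hA => hc F c A (hF.trans h) hA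

/-- Finitely many points can be added. -/
theorem coh_union (sm : SumStmt) (add : AddStmt) {φ : ℝ → ℝ} (hφ : IsWeight φ) {K : Set ℝ}
    (hs : Sparse K) (hc : ∃ T C : ℝ, Coh φ K T C) (S : Finset ℝ) :
    Sparse (K ∪ (S : Set ℝ)) ∧ ∃ T C : ℝ, Coh φ (K ∪ (S : Set ℝ)) T C := by
  induction S using Finset.induction_on with
  | empty =>
    rw [Finset.coe_empty, Set.union_empty]
    exact ⟨hs, hc⟩
  | insert y S hy ih =>
    obtain ⟨h1, T, C, h2⟩ := ih
    have h3 : K ∪ ((insert y S : Finset ℝ) : Set ℝ) = insert y (K ∪ (S : Set ℝ)) := by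
      rw [Finset.coe_insert, Set.union_insert]
    rw [h3]
    by_cases hyK : y ∈ K ∪ (S : Set ℝ)
    · rw [Set.insert_eq_of_mem hyK]
      exact ⟨h1, T, C, h2⟩
    · exact ⟨sm.2.2.2.2 _ y h1, add φ hφ _ T C y h2 h1 hyK⟩

end H68P

open H68P

theorem pos (spc : SpcStmt) (disc : DiscStmt) (clu : CluStmt) (sm : SumStmt) (add : AddStmt)
    (syn : SynStmt) (ext : ExtStmt) (spe : SpeStmt) : PosStmt := by
  intro φ hφ L hI hII g hg hne hsimple hsub
  obtain ⟨K, hK⟩ : ∃ K : Set ℝ, K = {x : ℝ | (x : ℂ) ∈ SpecPos φ g} := ⟨_, rfl⟩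
  have hmem : ∀ x : ℝ, x ∈ K ↔ (x : ℂ) ∈ SpecPos φ g := fun x => by rw [hK]; exact Iff.rfl
  have hrc : SpecPos φ g = rc K := by
    ext z
    constructor
    · intro hz
      obtain ⟨x, _, hx⟩ := hsub hz
      have hx' : (x : ℂ) = z := hx
      exact ⟨x, (hmem x).2 (by rw [hx']; exact hz), hx⟩
    · rintro ⟨x, hx, hxz⟩
      have hx' : (x : ℂ) = z := hxz
      rw [← hx']
      exact (hmem x).1 hx
  have hKL : K ⊆ L := by
    intro x hx
    obtain ⟨y, hy, hyx⟩ := hsub ((hmem x).1 hx)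
    have h1 : (y : ℂ) = (x : ℂ) := hyx
    have h2 : y = x := Complex.ofReal_injective h1
    rw [← h2]
    exact hy
  have hKcl : IsClosed K := by
    rw [hK]
    exact (spc φ hφ g hg).2.preimage Complex.continuous_ofReal
  have hKne : K.Nonempty := by
    obtain ⟨z, hz⟩ := hne
    rw [hrc] at hz
    obtain ⟨x, hx, _⟩ := hz
    exact ⟨x, hx⟩
  have hlf : LocFin K := by
    rcases hII with hC | hfin
    · exact disc φ hφ hC g hg hsimple K hrc
    · intro R
      exact hfin (K ∩ Set.Icc (-R) R) (Set.inter_subset_left.trans hKL)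
        (hKcl.inter isClosed_Icc) ((Metric.isBounded_Icc (-R) R).subset Set.inter_subset_right)
  obtain ⟨R, T, C, hcoh⟩ := hI
  have hcoh' : Coh φ {x | x ∈ K ∧ R ≤ |x|} T C :=
    coh_mono (K := {x | x ∈ L ∧ R ≤ |x|}) (fun x hx => ⟨hKL hx.1, hx.2⟩) hcoh
  obtain ⟨N, hN⟩ := clu φ hφ _ T C hcoh'
  have hsp' : Sparse {x | x ∈ K ∧ R ≤ |x|} := sm.1 _ N hN
  have hfin : (K ∩ Set.Icc (-R) R).Finite := hlf R
  obtain ⟨S, hS⟩ : ∃ S : Finset ℝ, (S : Set ℝ) = K ∩ Set.Icc (-R) R :=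
    ⟨hfin.toFinset, hfin.coe_toFinset⟩
  have hKS : {x | x ∈ K ∧ R ≤ |x|} ∪ (S : Set ℝ) = K := by
    ext x
    rw [hS]
    constructor
    · rintro (h | h)
      · exact h.1
      · exact h.1
    · intro hx
      rcases le_total R |x| with h | h
      · exact Or.inl ⟨hx, h⟩
      · exact Or.inr ⟨hx, abs_le.1 h⟩
  obtain ⟨hsp, T', C', hcohK⟩ := coh_union sm add hφ hsp' ⟨T, C, hcoh'⟩ S
  rw [hKS] at hsp hcohK
  have hMK : MK φ K g := syn φ hφ g K hg hsimple hrc hKne hlf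
  obtain ⟨G, hXK, hGg⟩ := ext φ hφ K T' C' hsp hcohK g hMK
  refine ⟨G, hXK.1, hGg, ?_⟩
  rw [spe φ hφ K hsp g G hMK hrc hXK hGg, hrc]
  rfl

end

end Pool.Agent.WK
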