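import Pool.Agent.WK.Ext

/-!
# MP_7d2497_an, squad WK: the theorem for all weights and sparse sets
-/

namespace Pool.Agent.WK

open MeasureTheory Filter Topology Complex
open Pool.Agent.H78E

noncomputable section

theorem Ineq.mono {φ : ℝ → ℝ} {K K' : Set ℝ} {C : ℝ} (h : Ineq φ K C) (hK : K' ⊆ K) :
    Ineq φ K' C := fun F c A hF => h F c A (hF.trans hK)

/-- PT2. For every weight: a set `K` with `∑ 1/(1+x²) < ∞` has property (E) if and only if the
exponential sums with frequencies in `K` are controlled on the negative half-line by their size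
on the positive half-line. -/
def Pt2Stmt : Prop := ∀ φ : ℝ → ℝ, IsWeight φ → ∀ K : Set ℝ, Sparse K →
  (PropertyE φ K ↔ ∃ C : ℝ, Ineq φ K C)

theorem pt2 (hSum : SumStmt) (hSpd : SpdStmt) (hNic : NicStmt) (hAsur : AsurStmt)
    (hOpn : OpnStmt) (hSyn : SynStmt) (hSpu : SpuStmt) (hAid : AidStmt) (hWlm : WlmStmt)
    (hCon : ConStmt) (hFub : FubStmt) (hSpe : SpeStmt) : Pt2Stmt := by
  intro φ hφ K hS
  obtain ⟨_, hs2, hs3, hs4, _⟩ := hSum
  constructor
  · intro hE
    have hL := hs3 K (hs2 K hS)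
    have hN : Nice φ K := hNic φ hφ K ∅ (Set.empty_subset K) Set.subsingleton_empty hL.1 hL.2
      (hSpd φ hφ K hS)
    exact hOpn φ hφ K hN (hAsur φ hφ K hN K subset_rfl hE)
  · rintro ⟨C, hC⟩ g hg hne hsimple hsub
    set K' : Set ℝ := {x | (x : ℂ) ∈ SpecPos φ g} with hK'
    have hrc : SpecPos φ g = rc K' := by
      ext z
      constructor
      · intro hz
        obtain ⟨x, _, hx⟩ := hsub hz
        simp only at hx
        exact ⟨x, by rw [hK', Set.mem_ofPred_eq, hx]; exact hz, hx⟩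
      · rintro ⟨x, hx, hxz⟩
        simp only at hxz
        rw [← hxz]
        exact hx
    have hKK : K' ⊆ K := by
      intro x hx
      obtain ⟨y, hy, hxy⟩ := hsub hx
      exact (Complex.ofReal_injective hxy) ▸ hy
    have hS' : Sparse K' := hs4 K K' hKK hS
    have hK'ne : K'.Nonempty := by
      obtain ⟨z, hz⟩ := hne
      rw [hrc] at hz
      obtain ⟨x, hx, _⟩ := hz
      exact ⟨x, hx⟩
    have hM : MK φ K' g := hSyn φ hφ g K' hg hsimple hrc hK'ne (hs2 K' hS')
    obtain ⟨G, hG, hGe⟩ := extIneq hSpu hAid hWlm hCon hFub φ hφ K' C hS' (hC.mono hKK) g hM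
    refine ⟨G, hG.1, hGe, ?_⟩
    rw [hSpe φ hφ K' hS' g G hM hrc hG hGe, hrc]
    rfl

end

end Pool.Agent.WK
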