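import Pool.Agent.WK.Stmts
import Pool.Agent.Helper15_E.Line

/-!
# Row QAI: the approximate identity
-/

set_option autoImplicit false

namespace Pool.Agent.WK.Qai

open MeasureTheory Filter Topology Complex
open Pool.Agent.H78E Pool.Agent.WK

noncomputable section

/-- the real density -/
def qr (l t : ℝ) : ℝ := if 0 ≤ t then l ^ 4 * t ^ 3 / 6 * Real.exp (-(l * t)) else 0

theorem q_eq (l t : ℝ) : q l t = ((qr l t : ℝ) : ℂ) := by
  unfold q qr
  split_ifs <;> simp

theorem qr_nonneg {l : ℝ} (hl : 0 ≤ l) (t : ℝ) : 0 ≤ qr l t := by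
  unfold qr
  split_ifs with h
  · positivity
  · exact le_rfl

theorem meas_qr (l : ℝ) : Measurable (qr l) := by
  unfold qr
  exact Measurable.ite measurableSet_Ici (by fun_prop) measurable_const

theorem meas_q (l : ℝ) : Measurable (q l) := by
  have : q l = fun t => ((qr l t : ℝ) : ℂ) := funext (q_eq l)
  rw [this]
  exact Complex.measurable_ofReal.comp (meas_qr l)

theorem int_cube {b : ℝ} (hb : 0 < b) :
    ∫ t in Set.Ioi (0 : ℝ), t ^ 3 * Real.exp (-(b * t)) = 6 / b ^ 4 := by
  have h := Real.integral_rpow_mul_exp_neg_mul_Ioi (a := 4) (r := b) (by norm_num) hb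
  have h4 : Real.Gamma 4 = 6 := by
    rw [show (4 : ℝ) = ((3 : ℕ) : ℝ) + 1 by norm_num, Real.Gamma_nat_eq_factorial]
    norm_num [Nat.factorial]
  rw [h4] at h
  have e : ∀ t : ℝ, t ^ ((4 : ℝ) - 1) = t ^ 3 := by
    intro t
    rw [show ((4 : ℝ) - 1) = ((3 : ℕ) : ℝ) by norm_num, Real.rpow_natCast]
  simp only [e] at h
  rw [h, show ((4 : ℝ)) = ((4 : ℕ) : ℝ) by norm_num, Real.rpow_natCast]
  rw [one_div, inv_pow]
  ring

theorem intble_cube {b : ℝ} (hb : 0 < b) :
    IntegrableOn (fun t : ℝ => t ^ 3 * Real.exp (-(b * t))) (Set.Ioi 0) := by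
  by_contra h
  have h1 := int_cube hb
  rw [integral_undef h] at h1
  have : (0 : ℝ) < 6 / b ^ 4 := by positivity
  linarith

/-- the majorant -/
def mj (b : ℝ) : ℝ → ℝ := Set.indicator (Set.Ioi 0) fun t => t ^ 3 * Real.exp (-(b * t))

theorem mj_int {b : ℝ} (hb : 0 < b) : Integrable (mj b) := by
  unfold mj
  rw [integrable_indicator_iff measurableSet_Ioi]
  exact intble_cube hb

theorem mj_val {b : ℝ} (hb : 0 < b) : ∫ t, mj b t = 6 / b ^ 4 := by
  unfold mj
  rw [integral_indicator measurableSet_Ioi, int_cube hb]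

theorem qr_mj (l t : ℝ) : qr l t = l ^ 4 / 6 * mj l t := by
  unfold qr mj
  rcases lt_trichotomy t 0 with h | h | h
  · rw [if_neg (not_le.2 h), Set.indicator_of_notMem (by simpa using h.le), mul_zero]
  · subst h
    rw [if_pos le_rfl, Set.indicator_of_notMem (by simp)]
    simp
  · rw [if_pos h.le, Set.indicator_of_mem (by simpa using h)]
    ring

theorem wt_mj {φ : ℝ → ℝ} {C : ℝ} (hC : ∀ t, φ t ≤ C * Real.exp (1 / 2 * |t|)) (b t : ℝ) :
    φ t * mj b t ≤ C * mj (b - 1 / 2) t := by
  unfold mj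
  by_cases h : 0 < t
  · rw [Set.indicator_of_mem (by simpa using h), Set.indicator_of_mem (by simpa using h)]
    have h1 := hC t
    rw [abs_of_pos h] at h1
    have h2 : 0 ≤ t ^ 3 * Real.exp (-(b * t)) := by positivity
    refine (mul_le_mul_of_nonneg_right h1 h2).trans (le_of_eq ?_)
    have e : Real.exp (-((b - 1 / 2) * t)) = Real.exp (1 / 2 * t) * Real.exp (-(b * t)) := by
      rw [← Real.exp_add]
      congr 1
      ring
    rw [e]
    ring
  · rw [Set.indicator_of_notMem (by simpa using h), Set.indicator_of_notMem (by simpa using h)]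
    simp

theorem mj_nonneg (b t : ℝ) : 0 ≤ mj b t := by
  unfold mj
  refine Set.indicator_nonneg (fun t ht => ?_) t
  have : (0 : ℝ) < t := ht
  positivity

theorem norm_q {l : ℝ} (hl : 0 ≤ l) (t : ℝ) : ‖q l t‖ = qr l t := by
  rw [q_eq, Complex.norm_real, Real.norm_eq_abs, abs_of_nonneg (qr_nonneg hl t)]

end

end Pool.Agent.WK.Qai

namespace Pool.Agent.WK

open MeasureTheory Filter Topology Complex
open Pool.Agent.H78E Pool.Agent.WK.Qai

theorem qai : QaiStmt := by
  intro φ hφ
  obtain ⟨C, hC0, hC⟩ := Pool.Agent.Helper15_E.weight_bound hφ (δ := 1 / 2) (by norm_num)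
  have hφ0 : ∀ t, 0 ≤ φ t := fun t => zero_le_one.trans (hφ.one_le t)
  refine ⟨⟨16 * C, fun l hl => ?_⟩, fun ψ hψ hb => ?_⟩
  · have hl0 : 0 ≤ l := by linarith
    have hb : 0 < l - 1 / 2 := by linarith
    have hle : ∀ t, φ t * ‖q l t‖ ≤ l ^ 4 / 6 * C * mj (l - 1 / 2) t := by
      intro t
      rw [norm_q hl0, qr_mj]
      have := wt_mj hC l t
      have h2 : 0 ≤ l ^ 4 / 6 := by positivity
      calc φ t * (l ^ 4 / 6 * mj l t) = l ^ 4 / 6 * (φ t * mj l t) := by ring
        _ ≤ l ^ 4 / 6 * (C * mj (l - 1 / 2) t) := mul_le_mul_of_nonneg_left this h2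
        _ = _ := by ring
    have hint : Integrable (fun t : ℝ => φ t * ‖q l t‖) := by
      refine ((mj_int hb).const_mul (l ^ 4 / 6 * C)).mono'
        (hφ.meas.mul (meas_q l).norm).aestronglyMeasurable (ae_of_all _ fun t => ?_)
      rw [Real.norm_eq_abs, abs_of_nonneg (mul_nonneg (hφ0 t) (norm_nonneg _))]
      exact hle t
    refine ⟨⟨⟨(meas_q l).aestronglyMeasurable, hint⟩, fun t ht => ?_⟩, ?_⟩
    · unfold q
      rw [if_neg (not_le.2 ht)]
    · refine (integral_mono hint ((mj_int hb).const_mul (l ^ 4 / 6 * C)) hle).trans ?_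
      rw [integral_const_mul, mj_val hb]
      have h3 : l ^ 4 ≤ 16 * (l - 1 / 2) ^ 4 := by
        have : l ≤ 2 * (l - 1 / 2) := by linarith
        calc l ^ 4 ≤ (2 * (l - 1 / 2)) ^ 4 := by gcongr
          _ = _ := by ring
      rw [div_mul_eq_mul_div, div_mul_div_comm, div_le_iff₀ (by positivity)]
      nlinarith
  · obtain ⟨K, hK⟩ := hb
    have hK0 : 0 ≤ K := by
      have h1 := (norm_nonneg _).trans (hK 0)
      have h2 := hφ.one_le 0
      by_contra hc
      push Not at hc
      nlinarith
    have hsub : ∀ n : ℕ, ∫ t : ℝ, q ((n : ℝ) + 1) t * ψ t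
        = ∫ u : ℝ, q 1 u * ψ (u / ((n : ℝ) + 1)) := by
      intro n
      have hl : (0 : ℝ) < (n : ℝ) + 1 := by positivity
      set l := (n : ℝ) + 1
      have h1 := Measure.integral_comp_mul_left (fun u : ℝ => q 1 u * ψ (u / l)) l
      have h2 : ∀ t : ℝ, q l t * ψ t = (l : ℂ) * (q 1 (l * t) * ψ (l * t / l)) := by
        intro t
        rw [mul_div_cancel_left₀ t hl.ne', ← mul_assoc]
        congr 1
        rw [q_eq, q_eq, ← Complex.ofReal_mul]
        congr 1
        unfold qr
        by_cases h : 0 ≤ t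
        · rw [if_pos h, if_pos (mul_nonneg hl.le h)]
          ring_nf
        · rw [if_neg h, if_neg (fun h' => h (nonneg_of_mul_nonneg_right h' hl)), mul_zero]
      simp only [h2]
      rw [integral_const_mul, h1, abs_of_pos (inv_pos.2 hl), Complex.real_smul, ← mul_assoc,
        ← Complex.ofReal_mul, mul_inv_cancel₀ hl.ne', Complex.ofReal_one, one_mul]
    simp only [hsub]
    have hlim : ∫ u : ℝ, q 1 u * ψ 0 = ψ 0 := by
      rw [integral_mul_const]
      have : ∫ u : ℝ, q 1 u = 1 := by
        have h1 : ∀ u, q 1 u = ((qr 1 u : ℝ) : ℂ) := q_eq 1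
        simp only [h1]
        rw [integral_complex_ofReal]
        have h2 : ∫ u : ℝ, qr 1 u = 1 := by
          have : ∀ u, qr 1 u = 1 ^ 4 / 6 * mj 1 u := qr_mj 1
          simp only [this]
          rw [integral_const_mul, mj_val one_pos]
          norm_num
        rw [h2]
        simp
      rw [this, one_mul]
    rw [← hlim]
    refine tendsto_integral_of_dominated_convergence
      (fun u => 1 / 6 * (K * C) * mj (1 / 2) u) (fun n => ?_) ?_ (fun n => ?_) ?_
    · exact ((meas_q 1).mul (hψ.measurable.comp (measurable_id.div_const _))).aestronglyMeasurable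
    · exact (mj_int (by norm_num)).const_mul _
    · refine ae_of_all _ fun u => ?_
      rw [norm_mul, norm_q zero_le_one, qr_mj]
      by_cases hu : 0 < u
      · have h1 : ‖ψ (u / ((n : ℝ) + 1))‖ ≤ K * (C * Real.exp (1 / 2 * u)) := by
          refine (hK _).trans (mul_le_mul_of_nonneg_left ((hC _).trans ?_) hK0)
          refine mul_le_mul_of_nonneg_left (Real.exp_le_exp.2 ?_) hC0.le
          have hl : (1 : ℝ) ≤ (n : ℝ) + 1 := by
            have : (0 : ℝ) ≤ n := by positivity
            linarith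
          rw [abs_of_nonneg (by positivity)]
          have := div_le_self hu.le hl
          linarith
        have h2 : mj (1 / 2) u = mj 1 u * Real.exp (1 / 2 * u) := by
          unfold mj
          rw [Set.indicator_of_mem (by simpa using hu), Set.indicator_of_mem (by simpa using hu),
            mul_assoc, ← Real.exp_add]
          congr 2
          ring
        rw [h2]
        have h3 : 0 ≤ 1 ^ 4 / 6 * mj 1 u := mul_nonneg (by norm_num) (mj_nonneg 1 u)
        refine (mul_le_mul_of_nonneg_left h1 h3).trans (le_of_eq ?_)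
        ring
      · have h2 : ∀ b, mj b u = 0 := fun b => by
          unfold mj
          rw [Set.indicator_of_notMem (by simpa using hu)]
        rw [h2, h2]
        simp
    · refine ae_of_all _ fun u => ?_
      refine Tendsto.const_mul _ ?_
      have h1 : Tendsto (fun n : ℕ => u / ((n : ℝ) + 1)) atTop (𝓝 0) :=
        tendsto_const_nhds.div_atTop (tendsto_natCast_atTop_atTop.atTop_add tendsto_const_nhds)
      exact (hψ.tendsto 0).comp h1

end Pool.Agent.WK
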