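import Pool.Agent.WK.Stmts
import Pool.Agent.Helper7_WK.Refl0

/-!
# MP_7d2497_an, squad WK: row REFL
-/

namespace Pool.Agent.WK

open MeasureTheory Filter Topology Complex
open Pool.Agent.H78E

theorem refl : ReflStmt := by
  intro φ hφ ho K C h
  obtain ⟨C', T, _, _, h2⟩ := Pool.Agent.Helper7_WK.refl1 hφ ho K C (by
    intro F hF c A _ hA t ht
    exact h F c A (fun x hx => hF x hx) hA t ht.le)
  refine ⟨T, C', fun F c A hF hA s => h2 F (fun x hx => hF hx) c A hA s⟩

end Pool.Agent.WK
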