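import Pool.Agent.WK.Stmts
import Pool.Agent.Helper7_WK.StepA0

/-!
# MP_7d2497_an, squad WK: row SIM
-/

namespace Pool.Agent.WK

open MeasureTheory Filter Topology Complex
open Pool.Agent.H78E

theorem FT_expPos_sim {φ : ℝ → ℝ} {f : ℝ → ℂ} (hf : LP φ f) (z : ℂ) :
    ∫ t : ℝ, f t * expPos z t = FT f z := by
  unfold FT
  congr 1
  ext1 t
  by_cases h : 0 ≤ t
  · unfold expPos
    rw [if_pos h]
  · rw [hf.2 t (not_le.mp h)]
    ring

theorem JK_shift {φ : ℝ → ℝ} (hφ : IsWeight φ) {K : Set ℝ} {f : ℝ → ℂ} (hf : JK φ K f) {s : ℝ}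
    (hs : 0 ≤ s) : JK φ K (fun t => f (t - s)) := by
  have h := Pool.Agent.Helper7_WK.JK_shift hφ (K := K) (f := f)
    ⟨hf.1.1, hf.1.2, hf.2⟩ hs
  exact ⟨⟨h.1, h.2.1⟩, h.2.2⟩

/-- Elements of `BPos g` are annihilated by `J_K` if `g` is. -/
theorem MK_of_mem_BPos {φ : ℝ → ℝ} (hφ : IsWeight φ) {K : Set ℝ} {g h : ℝ → ℂ} (hg : MK φ K g)
    (hh : h ∈ BPos φ g) : MK φ K h := by
  refine ⟨hh.1, fun f hf => ?_⟩
  have h1 := (bipolarPos φ hφ g h hg.1 hh.1).mp hh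
  apply h1 f hf.1.1 hf.1.2
  intro s hs
  have h2 := hg.2 _ (JK_shift hφ hf hs)
  rw [← h2]
  exact Pool.Agent.Helper7_WK.cr_shift g f s

theorem sim : SimStmt := by
  intro φ hφ K hN g hg hg0
  have hspec : SpecPos φ g ⊆ rc K := by
    intro z hz
    by_contra hcon
    obtain ⟨f, hf, hne⟩ := hN.n1 z hz.1 hcon
    apply hne
    rw [← FT_expPos_sim hf.1]
    exact (MK_of_mem_BPos hφ hg hz.2).2 f hf
  refine ⟨hN.n2 g hg hg0, ?_, hspec⟩
  intro h hh hz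
  obtain ⟨z, hz⟩ := hz
  have hm := MK_of_mem_BPos hφ hg hh
  have hzm : z ∈ SpecPos φ h := by rw [hz]; exact Set.mem_singleton z
  have hzK : z ∈ rc K := by
    by_contra hcon
    obtain ⟨f, hf, hne⟩ := hN.n1 z hzm.1 hcon
    apply hne
    rw [← FT_expPos_sim hf.1]
    exact (MK_of_mem_BPos hφ hm hzm.2).2 f hf
  obtain ⟨x, _, hx⟩ := hzK
  simp only at hx
  rw [← hx] at hz
  obtain ⟨c, hc⟩ := hN.n3 h hm x hz
  exact ⟨c, (x : ℂ), by simp, hc⟩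

end Pool.Agent.WK
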