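import Pool.Agent.WK.Stmts
import Pool.Agent.Helper72_E.Bip

/-!
# MP_7d2497_an, squad WK: row SPC
-/

set_option autoImplicit false

namespace Pool.Agent.WK

open MeasureTheory Filter Topology Complex
open Pool.Agent.H78E

namespace SpcAux

theorem norm_exp_le {z : ℂ} (hz : z.im ≤ 0) {t : ℝ} (ht : 0 ≤ t) :
    ‖Complex.exp (-(Complex.I * (t : ℂ) * z))‖ ≤ 1 := by
  rw [Complex.norm_exp]
  have h1 : (-(Complex.I * (t : ℂ) * z)).re = t * z.im := by
    simp [Complex.mul_re, Complex.mul_im]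
  rw [h1]
  exact Real.exp_le_one_iff.2 (mul_nonpos_of_nonneg_of_nonpos ht hz)

theorem expPos_linf {φ : ℝ → ℝ} (hφ : IsWeight φ) {z : ℂ} (hz : z.im ≤ 0) :
    LInfPos φ (expPos z) := by
  refine ⟨⟨?_, 1, Eventually.of_forall fun t => ?_⟩, fun t ht => ?_⟩
  · have h1 : Measurable (expPos z) := by
      unfold expPos
      exact Measurable.ite measurableSet_Ici (by fun_prop) measurable_const
    exact h1.aestronglyMeasurable
  · rw [one_mul]
    unfold expPos
    split
    · rename_i h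
      exact (norm_exp_le hz h).trans (hφ.one_le t)
    · rw [norm_zero]
      exact zero_le_one.trans (hφ.one_le t)
  · unfold expPos
    rw [if_neg (not_le.2 ht)]

theorem FT_eq {φ : ℝ → ℝ} {f : ℝ → ℂ} (hf : LP φ f) (z : ℂ) :
    ∫ t : ℝ, f t * expPos z t = FT f z := by
  unfold FT
  congr 1
  ext1 t
  by_cases h : 0 ≤ t
  · unfold expPos
    rw [if_pos h]
  · rw [hf.2 t (not_le.mp h)]
    ring

/-- the projection to the closed lower half-plane -/
noncomputable def pr (z : ℂ) : ℂ := (z.re : ℂ) + ((min z.im 0 : ℝ) : ℂ) * Complex.I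

theorem pr_cont : Continuous pr := by
  unfold pr
  fun_prop

theorem pr_im (z : ℂ) : (pr z).im ≤ 0 := by
  unfold pr
  simp

theorem pr_eq {z : ℂ} (hz : z.im ≤ 0) : pr z = z := by
  unfold pr
  rw [min_eq_left hz]
  exact Complex.re_add_im z

theorem FT_cont {φ : ℝ → ℝ} (hφ : IsWeight φ) {f : ℝ → ℂ} (hf : LP φ f) :
    Continuous fun z => FT f (pr z) := by
  have hi : Integrable f volume := by
    refine hf.1.2.mono' hf.1.1 (Eventually.of_forall fun t => ?_)
    calc ‖f t‖ = 1 * ‖f t‖ := (one_mul _).symm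
      _ ≤ φ t * ‖f t‖ := mul_le_mul_of_nonneg_right (hφ.one_le t) (norm_nonneg _)
  unfold FT
  apply continuous_of_dominated (bound := fun t => ‖f t‖)
  · intro z
    exact hf.1.1.mul (Measurable.aestronglyMeasurable (by fun_prop))
  · intro z
    refine Eventually.of_forall fun t => ?_
    by_cases h : 0 ≤ t
    · rw [norm_mul]
      exact mul_le_of_le_one_right (norm_nonneg _) (norm_exp_le (pr_im z) h)
    · rw [hf.2 t (not_le.1 h)]
      simp
  · exact hi.norm
  · refine Eventually.of_forall fun t => ?_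
    have := pr_cont
    fun_prop

end SpcAux

theorem spc : SpcStmt := by
  intro φ hφ g hg
  have hmem : ∀ z : ℂ, z ∈ SpecPos φ g ↔ z.im ≤ 0 ∧ ∀ f : ℝ → ℂ, LP φ f →
      (∀ s : ℝ, 0 ≤ s → ∫ t : ℝ, f t * g (t + s) = 0) → FT f z = 0 := by
    intro z
    constructor
    · rintro ⟨hz, hB⟩
      refine ⟨hz, fun f hf hfg => ?_⟩
      rw [← SpcAux.FT_eq hf]
      exact (bipolarPos φ hφ g (expPos z) hg (SpcAux.expPos_linf hφ hz)).1 hB f hf.1 hf.2 hfg
    · rintro ⟨hz, hf⟩
      refine ⟨hz, (bipolarPos φ hφ g (expPos z) hg (SpcAux.expPos_linf hφ hz)).2 ?_⟩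
      intro f hf1 hf2 hfg
      rw [SpcAux.FT_eq ⟨hf1, hf2⟩]
      exact hf f ⟨hf1, hf2⟩ hfg
  refine ⟨hmem, ?_⟩
  have heq : SpecPos φ g = {z : ℂ | z.im ≤ 0} ∩ ⋂ (f : ℝ → ℂ) (_ : LP φ f)
      (_ : ∀ s : ℝ, 0 ≤ s → ∫ t : ℝ, f t * g (t + s) = 0), {z : ℂ | FT f (SpcAux.pr z) = 0} := by
    ext z
    rw [hmem]
    simp only [Set.mem_inter_iff, Set.mem_iInter, Set.mem_ofPred_eq]
    constructor
    · rintro ⟨hz, h⟩
      refine ⟨hz, fun f hf hfg => ?_⟩
      rw [SpcAux.pr_eq hz]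
      exact h f hf hfg
    · rintro ⟨hz, h⟩
      refine ⟨hz, fun f hf hfg => ?_⟩
      have := h f hf hfg
      rwa [SpcAux.pr_eq hz] at this
  rw [heq]
  refine IsClosed.inter (isClosed_le Complex.continuous_im continuous_const) ?_
  refine isClosed_iInter fun f => isClosed_iInter fun hf => isClosed_iInter fun _ => ?_
  exact isClosed_eq (SpcAux.FT_cont hφ hf) continuous_const

end Pool.Agent.WK
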