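import Pool.Agent.WK.Cnv

/-!
# MP_7d2497_an, squad WK, row SPD (helper25): density for sparse sets
-/

set_option autoImplicit false

namespace Pool.Agent.WK

open MeasureTheory Filter Topology Complex
open Pool.Agent.H78E

noncomputable section

namespace H25

theorem wt_nn {φ : ℝ → ℝ} (hφ : IsWeight φ) (t : ℝ) : 0 ≤ φ t :=
  zero_le_one.trans (hφ.one_le t)

theorem LP_zero {φ : ℝ → ℝ} : LP φ (fun _ => 0) := by
  refine ⟨⟨aestronglyMeasurable_const, ?_⟩, fun t _ => rfl⟩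
  simp

theorem LP_add {φ : ℝ → ℝ} (hφ : IsWeight φ) {f g : ℝ → ℂ} (hf : LP φ f) (hg : LP φ g) :
    LP φ (fun t => f t + g t) := by
  refine ⟨⟨hf.1.1.add hg.1.1, ?_⟩, fun t ht => by
    change f t + g t = 0
    rw [hf.2 t ht, hg.2 t ht, add_zero]⟩
  refine (hf.1.2.add hg.1.2).mono' (hφ.meas.aestronglyMeasurable.mul (hf.1.1.add hg.1.1).norm)
    (ae_of_all _ fun t => ?_)
  have h0 := wt_nn hφ t
  rw [Real.norm_of_nonneg (mul_nonneg h0 (norm_nonneg _)), Pi.add_apply, ← mul_add]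
  exact mul_le_mul_of_nonneg_left (norm_add_le _ _) h0

theorem LP_mul {φ : ℝ → ℝ} {f : ℝ → ℂ} (hf : LP φ f) (c : ℂ) : LP φ (fun t => c * f t) := by
  refine ⟨⟨hf.1.1.const_mul c, ?_⟩, fun t ht => by
    change c * f t = 0
    rw [hf.2 t ht, mul_zero]⟩
  refine (hf.1.2.const_mul ‖c‖).congr (ae_of_all _ fun t => ?_)
  simp only [norm_mul]
  ring

theorem LP_sub {φ : ℝ → ℝ} (hφ : IsWeight φ) {f g : ℝ → ℂ} (hf : LP φ f) (hg : LP φ g) :
    LP φ (fun t => f t - g t) := by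
  have := LP_add hφ hf (LP_mul hg (-1))
  refine (congrArg (LP φ) ?_).mp this
  funext t
  ring

theorem LP_sum {φ : ℝ → ℝ} (hφ : IsWeight φ) {ι : Type} (s : Finset ι) {f : ι → ℝ → ℂ}
    (h : ∀ i ∈ s, LP φ (f i)) : LP φ (fun t => ∑ i ∈ s, f i t) := by
  classical
  induction s using Finset.induction_on with
  | empty => simpa using LP_zero
  | insert a s ha ih =>
    have h1 := LP_add hφ (h a (Finset.mem_insert_self a s))
      (ih fun i hi => h i (Finset.mem_insert_of_mem hi))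
    refine (congrArg (LP φ) ?_).mp h1
    funext t
    rw [Finset.sum_insert ha]

theorem nm_sum {φ : ℝ → ℝ} (hφ : IsWeight φ) {ι : Type} (s : Finset ι) {f : ι → ℝ → ℂ}
    (h : ∀ i ∈ s, LP φ (f i)) :
    ∫ t : ℝ, φ t * ‖∑ i ∈ s, f i t‖ ≤ ∑ i ∈ s, ∫ t : ℝ, φ t * ‖f i t‖ := by
  rw [← integral_finsetSum s fun i hi => (h i hi).1.2]
  refine integral_mono (LP_sum hφ s h).1.2 (integrable_finsetSum s fun i hi => (h i hi).1.2)
    fun t => ?_
  simp only [← Finset.mul_sum]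
  exact mul_le_mul_of_nonneg_left (norm_sum_le _ _) (wt_nn hφ t)

theorem nm_mul {φ : ℝ → ℝ} (f : ℝ → ℂ) (c : ℂ) :
    ∫ t : ℝ, φ t * ‖c * f t‖ = ‖c‖ * ∫ t : ℝ, φ t * ‖f t‖ := by
  rw [← integral_const_mul]
  congr 1
  funext t
  rw [norm_mul]
  ring

theorem FT_sum {φ : ℝ → ℝ} (hφ : IsWeight φ) {ι : Type} (s : Finset ι) {f : ι → ℝ → ℂ}
    (h : ∀ i ∈ s, LP φ (f i)) (c : ι → ℂ) {z : ℂ} (hz : z.im ≤ 0) :
    FT (fun t => ∑ i ∈ s, c i * f i t) z = ∑ i ∈ s, c i * FT (f i) z := by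
  have h1 : ∀ i ∈ s, Integrable (md z (f i)) := fun i hi =>
    md_int (int_of_L1 hφ (h i hi).1) (h i hi).2 hz
  calc FT (fun t => ∑ i ∈ s, c i * f i t) z = ∫ t : ℝ, ∑ i ∈ s, c i * md z (f i) t := by
        unfold FT md
        congr 1
        funext t
        rw [Finset.sum_mul]
        exact Finset.sum_congr rfl fun i _ => by ring
    _ = ∑ i ∈ s, ∫ t : ℝ, c i * md z (f i) t :=
        integral_finsetSum s fun i hi => (h1 i hi).const_mul (c i)
    _ = ∑ i ∈ s, c i * FT (f i) z := by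
        refine Finset.sum_congr rfl fun i _ => ?_
        rw [integral_const_mul]
        rfl

/-- the approximation of `q l` by functions with transform zero outside a finite subset -/
theorem spd_one (bla : BlaStmt) (lew : LewStmt) (sm : SumStmt) {φ : ℝ → ℝ} (hφ : IsWeight φ)
    {K : Set ℝ} (hK : Sparse K) {l : ℝ} (hl : 1 ≤ l) {η : ℝ} (hη : 0 < η) :
    LP φ (q l) ∧ ∃ (g : ℝ → ℂ) (F : Finset ℝ), LP φ g ∧ (∀ x ∈ F, x ∈ K) ∧
      (∀ x ∈ K, x ∉ F → FT g (x : ℂ) = 0) ∧ ∫ t : ℝ, φ t * ‖q l t - g t‖ < η := by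
  classical
  obtain ⟨C, hC, hbla⟩ := bla l hl
  obtain ⟨⟨D, hD, hlew⟩, -, -⟩ := lew φ hφ
  have hlp : ∀ {K' : Set ℝ}, Sparse K' → ∀ f : ℝ → ℂ, Continuous f → (∀ t : ℝ, t ≤ 0 → f t = 0) →
      (∃ A : ℝ, ∀ t : ℝ, 0 ≤ t → ‖f t‖ ≤ A * Real.exp (-(t / 4))) → LP φ f := by
    rintro K' _ f hf h0 ⟨A, hA⟩
    exact (hlew f A hf.aestronglyMeasurable (fun t ht => h0 t ht.le) hA).1
  have hq : LP φ (q l) := by
    have hs : Sparse (∅ : Set ℝ) := by
      unfold Sparse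
      exact (hasSum_empty).summable
    obtain ⟨f, h1, h2, h3, h4, -⟩ := hbla ∅ hs
    have h5 : f = q l := by
      funext t
      have h6 := h4 t
      rw [tsum_empty, mul_zero, zero_mul] at h6
      exact sub_eq_zero.1 (norm_le_zero_iff.1 h6)
    rw [← h5]
    exact hlp hs f h1 h2 h3
  refine ⟨hq, ?_⟩
  have hδ : 0 < η / (D * C + 1) := div_pos hη (by positivity)
  have ht := tendsto_tsum_compl_atTop_zero (fun x : K => 1 / (1 + (x : ℝ) ^ 2))
  obtain ⟨s, hs⟩ := (ht.eventually_lt_const hδ).exists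
  set F : Finset ℝ := s.image Subtype.val with hF
  have hFK : ∀ x ∈ F, x ∈ K := by
    intro x hx
    obtain ⟨y, -, rfl⟩ := Finset.mem_image.1 hx
    exact y.2
  set K' : Set ℝ := K \ (F : Set ℝ) with hK'
  have hsp : Sparse K' := sm.2.2.2.1 K K' Set.sdiff_subset hK
  obtain ⟨g, h1, h2, h3, h4, h5⟩ := hbla K' hsp
  have hg : LP φ g := hlp hsp g h1 h2 h3
  have hts : (∑' x : K', 1 / (1 + (x : ℝ) ^ 2)) =
      ∑' a : {x : K // x ∉ s}, 1 / (1 + ((a : K) : ℝ) ^ 2) := by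
    let e : {x : K // x ∉ s} ≃ K' :=
      { toFun := fun a => ⟨a.1.1, a.1.2, fun h => by
          obtain ⟨y, hy, hy'⟩ := Finset.mem_image.1 (Finset.mem_coe.1 h)
          exact a.2 (by rwa [← Subtype.ext hy'])⟩
        invFun := fun b => ⟨⟨b.1, b.2.1⟩, fun h => b.2.2 (by
          rw [Finset.mem_coe, hF]
          exact Finset.mem_image_of_mem _ h)⟩
        left_inv := fun a => rfl
        right_inv := fun b => rfl }
    exact (Equiv.tsum_eq e (fun x : K' => 1 / (1 + (x : ℝ) ^ 2))).symm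
  have hd := hlew (fun t => q l t - g t) (C * ∑' x : K', 1 / (1 + (x : ℝ) ^ 2))
    (hq.1.1.sub hg.1.1) (fun t ht => by rw [hq.2 t ht, hg.2 t ht, sub_zero])
    (fun t _ => by rw [norm_sub_rev]; exact h4 t)
  refine ⟨g, F, hg, hFK, fun x hx hxF => ?_, hd.2.trans_lt ?_⟩
  · refine (h5 (x : ℂ) (by simp)).2 ?_
    exact ⟨x, ⟨hx, fun h => hxF (Finset.mem_coe.1 h)⟩, rfl⟩
  · rw [hts]
    have h6 : (0 : ℝ) ≤ ∑' a : {x : K // x ∉ s}, 1 / (1 + ((a : K) : ℝ) ^ 2) :=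
      tsum_nonneg fun a => by positivity
    calc D * (C * ∑' a : {x : K // x ∉ s}, 1 / (1 + ((a : K) : ℝ) ^ 2))
        ≤ (D * C + 1) * ∑' a : {x : K // x ∉ s}, 1 / (1 + ((a : K) : ℝ) ^ 2) := by nlinarith
      _ < (D * C + 1) * (η / (D * C + 1)) := by
          apply mul_lt_mul_of_pos_left hs
          positivity
      _ = η := mul_div_cancel₀ η (by positivity)

end H25

open H25

theorem spd (bla : BlaStmt) (den : DenStmt) (lew : LewStmt) (sm : SumStmt) : SpdStmt := by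
  classical
  intro φ hφ K hK f hf _ ε hε
  obtain ⟨N, c, hN⟩ := den φ hφ f hf (ε / 2) (half_pos hε)
  set S : ℝ := ∑ n ∈ Finset.range N, ‖c n‖ with hS
  have hS0 : 0 ≤ S := Finset.sum_nonneg fun n _ => norm_nonneg _
  have hη : 0 < ε / (2 * (S + 1)) := by positivity
  have hone : ∀ n : ℕ, (1 : ℝ) ≤ (n : ℝ) + 3 / 2 := fun n => by
    have : (0 : ℝ) ≤ n := Nat.cast_nonneg n
    linarith
  choose g F hg hFK hFT hgη using fun n : ℕ => (spd_one bla lew sm hφ hK (hone n) hη).2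
  have hq : ∀ n : ℕ, LP φ (q ((n : ℝ) + 3 / 2)) := fun n =>
    (spd_one bla lew sm hφ hK (hone n) hη).1
  have hcg : ∀ n ∈ Finset.range N, LP φ (fun t => c n * g n t) := fun n _ => LP_mul (hg n) (c n)
  have hcd : ∀ n ∈ Finset.range N, LP φ (fun t => c n * (q ((n : ℝ) + 3 / 2) t - g n t)) :=
    fun n _ => LP_mul (LP_sub hφ (hq n) (hg n)) (c n)
  have hcq : LP φ (fun t => ∑ n ∈ Finset.range N, c n * q ((n : ℝ) + 3 / 2) t) :=
    LP_sum hφ _ fun n _ => LP_mul (hq n) (c n)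
  refine ⟨fun t => ∑ n ∈ Finset.range N, c n * g n t, LP_sum hφ _ hcg,
    ⟨(Finset.range N).biUnion F, fun x hx => ?_, fun x hx hxF => ?_⟩, ?_⟩
  · obtain ⟨n, -, hn⟩ := Finset.mem_biUnion.1 hx
    exact ⟨hFK n x hn, fun h => h⟩
  · rw [FT_sum hφ (Finset.range N) (fun n _ => hg n) c (by simp)]
    refine Finset.sum_eq_zero fun n hn => ?_
    rw [hFT n x hx (fun h => hxF (Finset.mem_biUnion.2 ⟨n, hn, h⟩)), mul_zero]
  · have h1 : ∀ t, φ t * ‖f t - ∑ n ∈ Finset.range N, c n * g n t‖ ≤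
        φ t * ‖f t - ∑ n ∈ Finset.range N, c n * q ((n : ℝ) + 3 / 2) t‖ +
        φ t * ‖∑ n ∈ Finset.range N, c n * (q ((n : ℝ) + 3 / 2) t - g n t)‖ := by
      intro t
      rw [← mul_add]
      refine mul_le_mul_of_nonneg_left ?_ (wt_nn hφ t)
      refine le_trans (le_of_eq ?_) (norm_add_le _ _)
      congr 1
      have h2 : ∑ n ∈ Finset.range N, c n * (q ((n : ℝ) + 3 / 2) t - g n t) =
          ∑ n ∈ Finset.range N, c n * q ((n : ℝ) + 3 / 2) t -
            ∑ n ∈ Finset.range N, c n * g n t := by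
        rw [← Finset.sum_sub_distrib]
        exact Finset.sum_congr rfl fun n _ => by ring
      rw [h2]
      ring
    have hd := LP_sum hφ _ hcd
    have hfq := LP_sub hφ hf hcq
    calc ∫ t : ℝ, φ t * ‖f t - ∑ n ∈ Finset.range N, c n * g n t‖
        ≤ ∫ t : ℝ, (φ t * ‖f t - ∑ n ∈ Finset.range N, c n * q ((n : ℝ) + 3 / 2) t‖ +
          φ t * ‖∑ n ∈ Finset.range N, c n * (q ((n : ℝ) + 3 / 2) t - g n t)‖) :=
          integral_mono (LP_sub hφ hf (LP_sum hφ _ hcg)).1.2 (hfq.1.2.add hd.1.2) h1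
      _ = (∫ t : ℝ, φ t * ‖f t - ∑ n ∈ Finset.range N, c n * q ((n : ℝ) + 3 / 2) t‖) +
          ∫ t : ℝ, φ t * ‖∑ n ∈ Finset.range N, c n * (q ((n : ℝ) + 3 / 2) t - g n t)‖ :=
          integral_add hfq.1.2 hd.1.2
      _ < ε / 2 + ε / 2 := by
          refine add_lt_add_of_lt_of_le hN ?_
          refine (nm_sum hφ _ hcd).trans ?_
          calc ∑ n ∈ Finset.range N,
                ∫ t : ℝ, φ t * ‖c n * (q ((n : ℝ) + 3 / 2) t - g n t)‖
              ≤ ∑ n ∈ Finset.range N, ‖c n‖ * (ε / (2 * (S + 1))) := by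
                refine Finset.sum_le_sum fun n _ => ?_
                rw [nm_mul]
                exact mul_le_mul_of_nonneg_left (hgη n).le (norm_nonneg _)
            _ = S * (ε / (2 * (S + 1))) := by rw [hS, Finset.sum_mul]
            _ ≤ (S + 1) * (ε / (2 * (S + 1))) :=
                mul_le_mul_of_nonneg_right (by linarith) hη.le
            _ = ε / 2 := by
                field_simp
      _ = ε := add_halves ε

end

end Pool.Agent.WK
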