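import Pool.Agent.WK.Stmts
import Pool.Agent.Helper72_E.Bip

/-!
# MP_7d2497_an, squad WK, row SPE (helper51): the spectrum of the extension
-/

set_option autoImplicit false

namespace Pool.Agent.WK

open MeasureTheory Filter Topology Complex
open Pool.Agent.H78E

noncomputable section

namespace H51

theorem norm_expR (x t : ℝ) : ‖expR x t‖ = 1 := by
  unfold expR
  rw [Complex.norm_exp]
  simp

theorem expR_measurable (x : ℝ) : Measurable (expR x) := by
  unfold expR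
  fun_prop

theorem expR_linf {φ : ℝ → ℝ} (hφ : IsWeight φ) (x : ℝ) : LInf φ (expR x) := by
  refine ⟨(expR_measurable x).aestronglyMeasurable, 1, Eventually.of_forall fun t => ?_⟩
  rw [norm_expR, one_mul]
  exact hφ.one_le t

theorem expR_add (x t a : ℝ) : expR x (t + a) = expR x a * expR x t := by
  unfold expR
  rw [← Complex.exp_add]
  congr 1
  push_cast
  ring

theorem mem_spec {φ : ℝ → ℝ} (hφ : IsWeight φ) {G : ℝ → ℂ} (hG : LInf φ G) (x : ℝ) :
    x ∈ Spec φ G ↔ ∀ f : ℝ → ℂ, L1 φ f → (∀ s : ℝ, ∫ t : ℝ, f t * G (t + s) = 0) →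
      ∫ t : ℝ, f t * expR x t = 0 :=
  bipolar φ hφ G (expR x) hG (expR_linf hφ x)

theorem integrable_mul {φ : ℝ → ℝ} {f G : ℝ → ℂ} (hf : L1 φ f) (hG : LInf φ G) :
    Integrable (fun t => f t * G t) := by
  obtain ⟨hm, C, hC⟩ := hG
  refine (hf.2.const_mul C).mono' (hf.1.mul hm) ?_
  filter_upwards [hC] with t ht
  rw [norm_mul]
  calc ‖f t‖ * ‖G t‖ ≤ ‖f t‖ * (C * φ t) := mul_le_mul_of_nonneg_left ht (norm_nonneg _)
    _ = C * (φ t * ‖f t‖) := by ring

theorem linf_sub {φ : ℝ → ℝ} {f g : ℝ → ℂ} (hf : LInf φ f) (hg : LInf φ g) (c : ℂ) :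
    LInf φ (fun t => f t - c * g t) := by
  obtain ⟨hm, C, hC⟩ := hf
  obtain ⟨hm', C', hC'⟩ := hg
  refine ⟨hm.sub (hm'.const_mul c), C + ‖c‖ * C', ?_⟩
  filter_upwards [hC, hC'] with t h1 h2
  calc ‖f t - c * g t‖ ≤ ‖f t‖ + ‖c * g t‖ := norm_sub_le _ _
    _ = ‖f t‖ + ‖c‖ * ‖g t‖ := by rw [norm_mul]
    _ ≤ C * φ t + ‖c‖ * (C' * φ t) :=
        add_le_add h1 (mul_le_mul_of_nonneg_left h2 (norm_nonneg _))
    _ = (C + ‖c‖ * C') * φ t := by ring

end H51

open H51

theorem spe (hSpu : SpuStmt) (hNim : NimStmt) (hSpx : SpxStmt) (hVan : VanStmt) (hCon : ConStmt)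
    (hFub : FubStmt) (hSum : SumStmt) (hSpc : SpcStmt) : SpeStmt := by
  intro φ hφ K hK g G hg hS hX hGg
  have hXs : ∀ G' : ℝ → ℂ, XK φ K G' → Spec φ G' ⊆ K := by
    refine (hSpx φ hφ K).1 fun x hx => ?_
    obtain ⟨u, hu, -, -, hu1, hu2⟩ := hSpu φ hφ K hK x
    refine ⟨u, ⟨hu, fun y hy => hu2 y hy fun h => hx (h ▸ hy)⟩, ?_⟩
    rw [hu1]
    exact one_ne_zero
  refine Set.Subset.antisymm (hXs G hX) fun x hx => ?_
  obtain ⟨u, hu, -, -, hu1, hu2⟩ := hSpu φ hφ K hK x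
  obtain ⟨hn, -⟩ := hNim φ hφ K x u g hu hu1 hu2 hg
  set c : ℂ := ∫ t : ℝ, u t * g t with hc
  have hH : ∀ s : ℝ, 0 ≤ s → ∫ t : ℝ, u t * G (t + s) = c * expR x s := by
    intro s hs
    rw [← hn s hs]
    refine integral_congr_ae ?_
    have h1 : ∀ᵐ t : ℝ, 0 ≤ t + s → G (t + s) = g (t + s) :=
      (quasiMeasurePreserving_add_right volume s).ae hGg
    filter_upwards [h1] with t ht
    rcases lt_or_ge t 0 with h | h
    · simp only [hu.2 t h, zero_mul]
    · simp only [ht (add_nonneg h hs)]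
  have hc0 : c ≠ 0 := by
    intro h0
    have hxs : (x : ℂ) ∈ SpecPos φ g := by
      rw [hS]
      exact ⟨x, hx, rfl⟩
    have h2 := (((hSpc φ hφ g hg.1).1 (x : ℂ)).1 hxs).2 u hu fun s hs => by
      rw [hn s hs, h0, zero_mul]
    rw [hu1] at h2
    exact one_ne_zero h2
  obtain ⟨hcont, hbd⟩ := hCon φ hφ u G hu.1 hX.1
  have hHL : LInf φ (fun s : ℝ => ∫ t : ℝ, u t * G (t + s)) := by
    obtain ⟨C, hC⟩ := hX.1.2
    exact ⟨hcont.aestronglyMeasurable, C * ∫ t : ℝ, φ t * ‖u t‖,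
      Eventually.of_forall fun s => hbd C hC s⟩
  set D : ℝ → ℂ := fun s => (∫ t : ℝ, u t * G (t + s)) - c * expR x s with hD
  have hDL : LInf φ D := linf_sub hHL (expR_linf hφ x) c
  have hDX : XK φ K D := by
    refine ⟨hDL, fun f hf a => ?_⟩
    have e1 : ∫ t : ℝ, f t * ∫ s : ℝ, u s * G (s + (t + a)) = 0 := by
      rw [hFub φ hφ f u G hf.1.1 hu.1 hX.1 a]
      have : ∀ s : ℝ, u s * ∫ t : ℝ, f t * G (t + (s + a)) = 0 := fun s => by
        rw [hX.2 f hf (s + a), mul_zero]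
      simp only [this, integral_zero]
    have e2 : ∫ t : ℝ, f t * expR x (t + a) = 0 := by
      have : ∀ t : ℝ, f t * expR x (t + a) = expR x a * (f t * expR x t) := fun t => by
        rw [expR_add]
        ring
      simp only [this]
      rw [integral_const_mul]
      have h3 : ∫ t : ℝ, f t * expR x t = 0 := hf.2 x hx
      rw [h3, mul_zero]
    have i1 : Integrable (fun t : ℝ => f t * ∫ s : ℝ, u s * G (s + (t + a))) :=
      integrable_mul hf.1.1 (LInf.shift72 hφ hHL a)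
    have i2 : Integrable (fun t : ℝ => f t * expR x (t + a)) :=
      integrable_mul hf.1.1 (LInf.shift72 hφ (expR_linf hφ x) a)
    have e3 : ∀ t : ℝ, f t * D (t + a) =
        f t * (∫ s : ℝ, u s * G (s + (t + a))) - c * (f t * expR x (t + a)) := fun t => by
      simp only [hD]
      ring
    simp only [e3]
    rw [integral_sub i1 (i2.const_mul c), e1, integral_const_mul, e2, mul_zero, sub_zero]
  obtain ⟨hcl, hco⟩ := hSum.2.2.1 K (hSum.2.1 K hK)
  have hD0 : D =ᵐ[volume] 0 := by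
    refine hVan φ hφ K hcl hco D hDL (Eventually.of_forall fun t ht => ?_) (hXs D hDX)
    simp only [hD]
    rw [hH t ht, sub_self]
  rw [mem_spec hφ hX.1]
  intro f hf hfG
  have k1 : ∫ t : ℝ, f t * ∫ s : ℝ, u s * G (s + (t + 0)) = 0 := by
    rw [hFub φ hφ f u G hf hu.1 hX.1 0]
    have : ∀ s : ℝ, u s * ∫ t : ℝ, f t * G (t + (s + 0)) = 0 := fun s => by
      rw [hfG (s + 0), mul_zero]
    simp only [this, integral_zero]
  have k2 : ∫ t : ℝ, f t * ∫ s : ℝ, u s * G (s + (t + 0)) = c * ∫ t : ℝ, f t * expR x t := by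
    rw [← integral_const_mul]
    refine integral_congr_ae ?_
    filter_upwards [hD0] with t ht
    have h4 : (∫ s : ℝ, u s * G (s + t)) = c * expR x t := by
      have h5 : (∫ s : ℝ, u s * G (s + t)) - c * expR x t = 0 := ht
      exact sub_eq_zero.1 h5
    simp only [add_zero]
    rw [h4]
    ring
  rw [k1] at k2
  rcases mul_eq_zero.1 k2.symm with h | h
  · exact absurd h hc0
  · exact h

end

end Pool.Agent.WK
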