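import Pool.Agent.WK.Stmts

/-!
# Row SPU: separating functions for sparse sets
-/

set_option autoImplicit false

namespace Pool.Agent.WK

open MeasureTheory Filter Topology Complex
open Pool.Agent.H78E

theorem spu (bla : BlaStmt) (lew : LewStmt) (sm : SumStmt) : SpuStmt := by
  intro φ hφ K hK x
  obtain ⟨C, hC, h⟩ := bla 1 le_rfl
  obtain ⟨f, f1, f2, ⟨A, f3⟩, -, f5⟩ := h (K \ {x}) (sm.2.2.2.1 K _ Set.diff_subset hK)
  obtain ⟨⟨D, hD, hl⟩, -⟩ := lew φ hφ
  have hx : FT f (x : ℂ) ≠ 0 := by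
    intro h0
    have := (f5 (x : ℂ) (by simp)).1 h0
    obtain ⟨y, hy, hyx⟩ := this
    have hyx' : y = x := Complex.ofReal_injective hyx
    exact hy.2 hyx'
  set c := (FT f (x : ℂ))⁻¹ with hc
  have hFT : ∀ z, FT (fun t => c * f t) z = c * FT f z := by
    intro z
    unfold FT
    rw [← integral_const_mul]
    refine integral_congr_ae (ae_of_all _ fun t => ?_)
    simp only [mul_assoc]
  have hb : ∀ t : ℝ, 0 ≤ t → ‖c * f t‖ ≤ ‖c‖ * A * Real.exp (-(t / 4)) := by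
    intro t ht
    rw [norm_mul, mul_assoc]
    exact mul_le_mul_of_nonneg_left (f3 t ht) (norm_nonneg _)
  have hcont : Continuous fun t => c * f t := continuous_const.mul f1
  refine ⟨fun t => c * f t, (hl _ _ hcont.aestronglyMeasurable (fun t ht => ?_) hb).1, hcont,
    ⟨_, hb⟩, ?_, fun y hy hyx => ?_⟩
  · rw [f2 t ht.le, mul_zero]
  · rw [hFT, hc, inv_mul_cancel₀ hx]
  · rw [hFT, (f5 (y : ℂ) (by simp)).2 ⟨y, ⟨hy, hyx⟩, rfl⟩, mul_zero]

end Pool.Agent.WK
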