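import Pool.Agent.WK.Stmts
import Pool.Agent.Helper7_WK.StepA0

/-!
# MP_7d2497_an, squad WK: row SPX
-/

namespace Pool.Agent.WK

open MeasureTheory Filter Topology Complex
open Pool.Agent.H78E

theorem spx : SpxStmt := by
  intro φ hφ K
  refine ⟨fun h G hG => ?_, fun f G hf hG => ?_⟩
  · apply Pool.Agent.Helper7_WK.Spec_XK bipolar hφ (K := K)
    · intro x hx
      obtain ⟨f, hf, hne⟩ := h x hx
      exact ⟨f, ⟨hf.1.1, hf.1.2, hf.2⟩, hne⟩
    · exact ⟨hG.1, fun f hf s => hG.2 f ⟨⟨hf.1, hf.2.1⟩, hf.2.2⟩ s⟩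
  · exact Pool.Agent.Helper7_WK.Spec_cr bipolar hφ hG hf

end Pool.Agent.WK
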