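import Pool.Agent.WK.Stmts

set_option autoImplicit false

namespace Pool.Agent.WK

namespace Sum90

theorem summable_int : Summable (fun m : ℤ => 1 / (1 + (m : ℝ) ^ 2)) := by
  have h1 : Summable (fun m : ℤ => 1 / (m : ℝ) ^ 2) :=
    Real.summable_one_div_int_pow.mpr (by norm_num)
  have h2 : Summable (fun m : ℤ => if m = 0 then (1 : ℝ) else 0) :=
    summable_of_ne_finset_zero (s := {0}) (fun b hb => if_neg (by simpa using hb))
  refine Summable.of_nonneg_of_le (fun m => by positivity) (fun m => ?_) (h1.add h2)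
  by_cases h : m = 0
  · subst h; simp
  · rw [if_neg h, add_zero]
    have hm : (m : ℝ) ≠ 0 := by exact_mod_cast h
    have : 0 < (m : ℝ) ^ 2 := by positivity
    exact one_div_le_one_div_of_le this (by linarith)

theorem part1 (K : Set ℝ) (N : ℕ) (h : LocB K N) : Sparse K := by
  classical
  set c : ℤ → ℝ := fun m => N * (3 * (1 / (1 + (m : ℝ) ^ 2))) with hc
  have hcs : Summable c := (summable_int.mul_left 3).mul_left _
  have hc0 : ∀ m, 0 ≤ c m := fun m => by rw [hc]; positivity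
  unfold Sparse
  refine summable_of_sum_le (c := ∑' m, c m) (fun x => by positivity) (fun F => ?_)
  rw [← Finset.sum_fiberwise_of_maps_to (g := fun x : K => ⌊(x : ℝ)⌋)
    (t := F.image fun x : K => ⌊(x : ℝ)⌋) (fun x hx => Finset.mem_image_of_mem _ hx)]
  refine le_trans (Finset.sum_le_sum (g := c) fun m _ => ?_)
    (hcs.sum_le_tsum _ (fun m _ => hc0 m))
  have hcard : (F.filter fun x : K => ⌊(x : ℝ)⌋ = m).card ≤ N := by
    have h1 := h m ((F.filter fun x : K => ⌊(x : ℝ)⌋ = m).map (Function.Embedding.subtype _))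
      (by
        intro x hx
        rw [Finset.coe_map] at hx
        obtain ⟨y, _, rfl⟩ := hx
        exact y.2)
      (by
        intro x hx
        rw [Finset.mem_map] at hx
        obtain ⟨y, hy, rfl⟩ := hx
        have hy2 := (Finset.mem_filter.mp hy).2
        rw [← hy2]
        exact ⟨Int.floor_le _, (Int.lt_floor_add_one _).le⟩)
    rwa [Finset.card_map] at h1
  have hle : ∀ x ∈ F.filter (fun x : K => ⌊(x : ℝ)⌋ = m),
      1 / (1 + (x : ℝ) ^ 2) ≤ 3 * (1 / (1 + (m : ℝ) ^ 2)) := by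
    intro x hx
    have hx2 := (Finset.mem_filter.mp hx).2
    have h1 : (m : ℝ) ≤ x := by rw [← hx2]; exact Int.floor_le _
    have h2 : (x : ℝ) < m + 1 := by rw [← hx2]; exact Int.lt_floor_add_one _
    rw [mul_one_div, div_le_div_iff₀ (by positivity) (by positivity)]
    nlinarith [sq_nonneg ((x : ℝ) - m), sq_nonneg ((x : ℝ) + m), sq_nonneg ((x : ℝ) - m - 1),
      sq_nonneg (2 * (x : ℝ) - m)]
  calc ∑ x ∈ F.filter (fun x : K => ⌊(x : ℝ)⌋ = m), 1 / (1 + (x : ℝ) ^ 2)
      ≤ (F.filter fun x : K => ⌊(x : ℝ)⌋ = m).card • (3 * (1 / (1 + (m : ℝ) ^ 2))) :=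
        Finset.sum_le_card_nsmul _ _ _ hle
    _ ≤ c m := by
        rw [nsmul_eq_mul, hc]
        exact mul_le_mul_of_nonneg_right (by exact_mod_cast hcard) (by positivity)

theorem part2 (K : Set ℝ) (h : Sparse K) : LocFin K := by
  intro R
  have h1 := h.tendsto_cofinite_zero
  have hε : (0 : ℝ) < 1 / (1 + R ^ 2) := by positivity
  have h2 : {x : K | ¬ (1 / (1 + (x : ℝ) ^ 2) < 1 / (1 + R ^ 2))}.Finite :=
    h1.eventually (gt_mem_nhds hε)
  refine (h2.image Subtype.val).subset ?_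
  rintro x ⟨hx, hx1, hx2⟩
  refine ⟨⟨x, hx⟩, ?_, rfl⟩
  change ¬ (1 / (1 + x ^ 2) < 1 / (1 + R ^ 2))
  push Not
  exact one_div_le_one_div_of_le (by positivity) (by nlinarith)

theorem part3 (K : Set ℝ) (h : LocFin K) : IsClosed K ∧ K.Countable := by
  constructor
  · rw [← isOpen_compl_iff, isOpen_iff_mem_nhds]
    intro x hx
    have h1 : IsOpen (K ∩ Set.Icc (-(|x| + 1)) (|x| + 1))ᶜ := (h _).isClosed.isOpen_compl
    have h2 : x ∈ (K ∩ Set.Icc (-(|x| + 1)) (|x| + 1))ᶜ := fun hx' => hx hx'.1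
    have h3 : x ∈ Set.Ioo (-(|x| + 1)) (|x| + 1) :=
      ⟨by have := neg_abs_le x; linarith, by have := le_abs_self x; linarith⟩
    refine Filter.mem_of_superset (Filter.inter_mem (h1.mem_nhds h2) (isOpen_Ioo.mem_nhds h3)) ?_
    rintro y ⟨hy1, hy2⟩ hy
    exact hy1 ⟨hy, hy2.1.le, hy2.2.le⟩
  · have h1 : K ⊆ ⋃ n : ℕ, K ∩ Set.Icc (-(n : ℝ)) n := by
      intro x hx
      obtain ⟨n, hn⟩ := exists_nat_ge |x|
      exact Set.mem_iUnion.mpr ⟨n, hx, abs_le.mp hn⟩
    exact (Set.countable_iUnion fun n : ℕ => (h n).countable).mono h1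

theorem part4 (K K' : Set ℝ) (h : K' ⊆ K) (hK : Sparse K) : Sparse K' :=
  hK.comp_injective (i := Set.inclusion h) (Set.inclusion_injective h)

theorem part5 (K : Set ℝ) (y : ℝ) (hK : Sparse K) : Sparse (insert y K) := by
  have key : ∀ S : Set ℝ, Sparse S ↔ Summable (S.indicator fun x : ℝ => 1 / (1 + x ^ 2)) := by
    intro S
    exact summable_subtype_iff_indicator (f := fun x : ℝ => 1 / (1 + x ^ 2)) (s := S)
  rw [key] at hK ⊢
  have h1 : Summable (fun x : ℝ => if x = y then 1 / (1 + x ^ 2) else 0) :=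
    summable_of_ne_finset_zero (s := {y}) (fun b hb => if_neg (by simpa using hb))
  refine Summable.of_nonneg_of_le (fun x => Set.indicator_nonneg (fun _ _ => by positivity) _)
    (fun x => ?_) (hK.add h1)
  by_cases hx : x ∈ K
  · rw [Set.indicator_of_mem hx, Set.indicator_of_mem (Set.mem_insert_of_mem _ hx)]
    have : (0 : ℝ) ≤ if x = y then 1 / (1 + x ^ 2) else 0 := by
      split_ifs <;> positivity
    linarith
  · by_cases hy : x = y
    · rw [Set.indicator_of_mem (Set.mem_insert_iff.mpr (Or.inl hy)), Set.indicator_of_notMem hx,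
        if_pos hy, zero_add]
    · rw [Set.indicator_of_notMem (fun h => (Set.mem_insert_iff.mp h).elim hy hx),
        Set.indicator_of_notMem hx, if_neg hy, add_zero]

end Sum90

theorem sum : SumStmt :=
  ⟨Sum90.part1, Sum90.part2, Sum90.part3, Sum90.part4, Sum90.part5⟩

end Pool.Agent.WK
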