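import Pool.Agent.WK.Stmts
import Pool.Agent.Helper67_WKS.Syn

/-!
# MP_7d2497_an, squad WK: module SYN
-/

set_option autoImplicit false

namespace Pool.Agent.WK

open MeasureTheory Filter Topology Complex
open Pool.Agent.H78E

noncomputable section

theorem syn : SynStmt := by
  intro φ hφ g K hg hs hK hne hfin
  refine ⟨hg, fun f hf => ?_⟩
  have h := Pool.Agent.WKS.syn hφ hg hs hK hne hfin hf.1.1 hf.1.2 (fun x hx => hf.2 x hx)
    (s := 0) le_rfl
  simp only [add_zero] at h
  exact h

end

end Pool.Agent.WK
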