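import Pool.Agent.WK.Stmts
import Pool.Agent.Helper61_E.Dual

/-!
# MP_7d2497_an, squad WK, row WLM: weak limits along an ultrafilter
-/

set_option autoImplicit false

namespace Pool.Agent.WK

open MeasureTheory Filter Topology Complex
open Pool.Agent.H78E

/-- row WLM -/
theorem wlm : WlmStmt := by
  intro φ hφ U P C hm hb
  have hpos : ∀ t, 0 < φ t := fun t => lt_of_lt_of_le one_pos (hφ.one_le t)
  have hC : 0 ≤ C := by
    have h1 := hb 0 0
    have h2 := norm_nonneg (P 0 0)
    have h3 := hpos 0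
    by_contra h
    push Not at h
    nlinarith
  obtain ⟨b, hbdef⟩ : ∃ b : ℕ → ℝ → ℂ, b = fun n t => P n t * ((φ t)⁻¹ : ℝ) := ⟨_, rfl⟩
  have hbm : ∀ n, AEStronglyMeasurable (b n) volume := by
    intro n
    rw [hbdef]
    exact (hm n).mul (Complex.measurable_ofReal.comp hφ.meas.inv).aestronglyMeasurable
  have hbb : ∀ n t, ‖b n t‖ ≤ C := by
    intro n t
    rw [hbdef]
    change ‖P n t * ((φ t)⁻¹ : ℝ)‖ ≤ C
    rw [norm_mul, Complex.norm_real, Real.norm_eq_abs, abs_of_pos (inv_pos.2 (hpos t)),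
      mul_inv_le_iff₀ (hpos t)]
    exact hb n t
  have hint : ∀ (n : ℕ) (k : ℝ → ℂ), Integrable k volume →
      Integrable (fun t => k t * b n t) volume := by
    intro n k hk
    have := hk.bdd_mul (hbm n) (ae_of_all _ (hbb n))
    refine this.congr (ae_of_all _ fun t => ?_)
    exact mul_comm _ _
  have hLi : ∀ k : Lp ℂ 1 (volume : Measure ℝ), Integrable (k : ℝ → ℂ) volume := fun k =>
    L1.integrable_coeFn k
  have hbd : ∀ (n : ℕ) (k : Lp ℂ 1 (volume : Measure ℝ)), ‖∫ t : ℝ, k t * b n t‖ ≤ C * ‖k‖ := by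
    intro n k
    rw [L1.norm_eq_integral_norm, ← integral_const_mul]
    refine (norm_integral_le_integral_norm _).trans (integral_mono (hint n _ (hLi k)).norm
      ((hLi k).norm.const_mul C) fun t => ?_)
    change ‖k t * b n t‖ ≤ C * ‖k t‖
    rw [norm_mul, mul_comm]
    exact mul_le_mul_of_nonneg_right (hbb n t) (norm_nonneg _)
  have hlim : ∀ k : Lp ℂ 1 (volume : Measure ℝ), ∃ a : ℂ, ‖a‖ ≤ C * ‖k‖ ∧
      Tendsto (fun n => ∫ t : ℝ, k t * b n t) U (𝓝 a) := by
    intro k
    have h1 : IsCompact (Metric.closedBall (0 : ℂ) (C * ‖k‖)) := isCompact_closedBall _ _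
    obtain ⟨a, ha, ha'⟩ := h1.ultrafilter_le_nhds
      (U.map fun n => ∫ t : ℝ, k t * b n t) (by
        rw [Filter.le_principal_iff]
        refine Filter.mem_map.2 (Filter.Eventually.of_forall fun n => ?_)
        simpa [Metric.mem_closedBall, dist_zero_right] using hbd n k)
    refine ⟨a, by simpa [Metric.mem_closedBall, dist_zero_right] using ha, ha'⟩
  choose ℓ hℓ1 hℓ2 using hlim
  let L0 : Lp ℂ 1 (volume : Measure ℝ) →ₗ[ℂ] ℂ :=
    { toFun := ℓ
      map_add' := by
        intro k1 k2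
        have h1 : ∀ n, ∫ t : ℝ, (k1 + k2 : Lp ℂ 1 (volume : Measure ℝ)) t * b n t =
            (∫ t : ℝ, k1 t * b n t) + ∫ t : ℝ, k2 t * b n t := by
          intro n
          rw [← integral_add (hint n _ (hLi k1)) (hint n _ (hLi k2))]
          refine integral_congr_ae ?_
          filter_upwards [Lp.coeFn_add k1 k2] with t ht
          rw [ht, Pi.add_apply, add_mul]
        have h2 := (hℓ2 k1).add (hℓ2 k2)
        have h3 := hℓ2 (k1 + k2)
        simp only [h1] at h3
        exact tendsto_nhds_unique h3 h2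
      map_smul' := by
        intro c k
        have h1 : ∀ n, ∫ t : ℝ, (c • k : Lp ℂ 1 (volume : Measure ℝ)) t * b n t =
            c * ∫ t : ℝ, k t * b n t := by
          intro n
          rw [← integral_const_mul]
          refine integral_congr_ae ?_
          filter_upwards [Lp.coeFn_smul c k] with t ht
          rw [ht, Pi.smul_apply, smul_eq_mul, mul_assoc]
        have h2 := (hℓ2 k).const_mul c
        have h3 := hℓ2 (c • k)
        simp only [h1] at h3
        exact tendsto_nhds_unique h3 h2 }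
  obtain ⟨h, hhm, ⟨C', hC'⟩, hh⟩ := Pool.Agent.H78E.H61.dual (L0.mkContinuous C hℓ1)
  refine ⟨fun t => h t * (φ t : ℂ), ⟨?_, C', ae_of_all _ fun t => ?_⟩, ?_⟩
  · exact (hhm.mul (Complex.measurable_ofReal.comp hφ.meas)).aestronglyMeasurable
  · rw [norm_mul, Complex.norm_real, Real.norm_eq_abs, abs_of_pos (hpos t)]
    exact mul_le_mul_of_nonneg_right (hC' t) (hpos t).le
  · intro f hf
    obtain ⟨hfm, hfi⟩ := hf
    have hki : Integrable (fun t : ℝ => (φ t : ℂ) * f t) volume := by
      refine (integrable_norm_iff ?_).1 ?_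
      · exact (Complex.measurable_ofReal.comp hφ.meas).aestronglyMeasurable.mul hfm
      · refine hfi.congr (ae_of_all _ fun t => ?_)
        change φ t * ‖f t‖ = ‖(φ t : ℂ) * f t‖
        rw [norm_mul, Complex.norm_real, Real.norm_eq_abs, abs_of_pos (hpos t)]
    have hk := hki.coeFn_toL1
    have h1 := hℓ2 (hki.toL1 _)
    have h2 : ∀ n, ∫ t : ℝ, (hki.toL1 _) t * b n t = ∫ t : ℝ, f t * P n t := by
      intro n
      refine integral_congr_ae ?_
      filter_upwards [hk] with t ht
      rw [ht, hbdef]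
      change (φ t : ℂ) * f t * (P n t * ((φ t)⁻¹ : ℝ)) = f t * P n t
      have h3 : ((φ t : ℝ) : ℂ) ≠ 0 := Complex.ofReal_ne_zero.2 (hpos t).ne'
      push_cast
      field_simp
    have h4 : ℓ (hki.toL1 _) = ∫ t : ℝ, f t * (h t * (φ t : ℂ)) := by
      have h5 : (L0.mkContinuous C hℓ1) (hki.toL1 _) = ∫ t : ℝ, (hki.toL1 _) t * h t := hh (hki.toL1 _)
      have h6 : (L0.mkContinuous C hℓ1) (hki.toL1 _) = ℓ (hki.toL1 _) := rfl
      rw [← h6, h5]
      refine integral_congr_ae ?_
      filter_upwards [hk] with t ht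
      rw [ht]
      ring
    rw [h4] at h1
    simpa only [h2] using h1

end Pool.Agent.WK
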