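import Pool.Agent.WK.Lew
import Pool.Agent.WK.Cnv
import Pool.Agent.WK.Fac
import Pool.Agent.WK.Corr
import Pool.Agent.WK.Fub
import Pool.Agent.WK.Qai
import Pool.Agent.WK.Den
import Pool.Agent.WK.Bf0
import Pool.Agent.WK.Bf1
import Pool.Agent.WK.Bf2
import Pool.Agent.WK.Bf3
import Pool.Agent.WK.Bla
import Pool.Agent.WK.Sum
import Pool.Agent.WK.Blk
import Pool.Agent.WK.Clu
import Pool.Agent.WK.Spu
import Pool.Agent.WK.Spd
import Pool.Agent.WK.Niu
import Pool.Agent.WK.Nim
import Pool.Agent.WK.Nic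
import Pool.Agent.WK.Spc
import Pool.Agent.WK.Sim
import Pool.Agent.WK.Van
import Pool.Agent.WK.Spx
import Pool.Agent.WK.Asur
import Pool.Agent.WK.Opn
import Pool.Agent.WK.Refl
import Pool.Agent.WK.Fast
import Pool.Agent.WK.Add
import Pool.Agent.WK.Aid
import Pool.Agent.WK.Wlm
import Pool.Agent.WK.Ext
import Pool.Agent.WK.Spe
import Pool.Agent.WK.Disc
import Pool.Agent.WK.Syn
import Pool.Agent.WK.Neg
import Pool.Agent.WK.Pos
import Pool.Agent.WK.Pt2

/-!
# MP_7d2497_an, squad WK: assembly
-/

set_option autoImplicit false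

namespace Pool.Agent.WK

open MeasureTheory Filter Topology Complex
open Pool.Agent.H78E

/-- The sets with property (E) for the weights with `φ(-t) = o(φ(t))`. -/
theorem main (φ : ℝ → ℝ) (hφ : IsWeight φ) (ho : Tendsto (fun t => φ (-t) / φ t) atTop (𝓝 0))
    (L : Set ℝ) : PropertyE φ L ↔ CondI φ L ∧ CondII φ L := by
  have hLew : LewStmt := lew
  have hFac : FacStmt := fac cnv hLew
  have hFub : FubStmt := fub
  have hBla : BlaStmt := bla bf0 bf1 (bf3 bf0 bf2)
  have hSum : SumStmt := sum
  have hSpu : SpuStmt := spu hBla hLew hSum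
  have hSpc : SpcStmt := spc
  have hNim : NimStmt := nim hFub
  have hNic : NicStmt := nic (niu hFac hLew) hNim hLew hSpc
  have hExt : ExtStmt := ext hSpu (aid hBla hLew qai hSum) wlm con hFub
  have hSpe : SpeStmt := spe hSpu hNim spx van con hFub hSum hSpc
  constructor
  · intro hE
    exact neg hSum (spd hBla den hLew hSum) hNic (asur sim van) (opn spx van) refl clu blk fast
      φ hφ ho L hE
  · rintro ⟨h1, h2⟩
    exact pos hSpc (disc hSpc hFac) clu hSum (add hSpu hLew) syn hExt hSpe φ hφ L h1 h2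

/-- All weights, sparse sets. -/
theorem main2 : Pt2Stmt := by
  have hLew : LewStmt := lew
  have hFac : FacStmt := fac cnv hLew
  have hFub : FubStmt := fub
  have hBla : BlaStmt := bla bf0 bf1 (bf3 bf0 bf2)
  have hSum : SumStmt := sum
  have hSpu : SpuStmt := spu hBla hLew hSum
  have hSpc : SpcStmt := spc
  have hNim : NimStmt := nim hFub
  have hNic : NicStmt := nic (niu hFac hLew) hNim hLew hSpc
  have hSpe : SpeStmt := spe hSpu hNim spx van con hFub hSum hSpc
  exact pt2 hSum (spd hBla den hLew hSum) hNic (asur sim van) (opn spx van) syn hSpu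
    (aid hBla hLew qai hSum) wlm con hFub hSpe

end Pool.Agent.WK
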