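import Pool.Agent.WK.Stmts
import Pool.Agent.Helper78_E.SpecL
import Pool.Agent.Helper72_E.Bip
import Pool.Agent.Helper15_E.Line
import Pool.Agent.Helper13_E.Dens

/-!
# MP_7d2497_an, squad WK: basic lemmas
-/

set_option autoImplicit false

namespace Pool.Agent.WK

open MeasureTheory Filter Topology Complex
open Pool.Agent.H78E

noncomputable section

variable {φ : ℝ → ℝ}

theorem wpos (hφ : IsWeight φ) (t : ℝ) : 0 < φ t := lt_of_lt_of_le one_pos (hφ.one_le t)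

/-! ### `L1` and `LP` -/

theorem L1.integrable (hφ : IsWeight φ) {f : ℝ → ℂ} (hf : L1 φ f) : Integrable f := by
  refine hf.2.mono' hf.1 (Eventually.of_forall fun t => ?_)
  calc ‖f t‖ = 1 * ‖f t‖ := (one_mul _).symm
    _ ≤ φ t * ‖f t‖ := mul_le_mul_of_nonneg_right (hφ.one_le t) (norm_nonneg _)

theorem L1.int_norm_le (hφ : IsWeight φ) {f : ℝ → ℂ} (hf : L1 φ f) :
    ∫ t, ‖f t‖ ≤ ∫ t, φ t * ‖f t‖ := by
  apply integral_mono (L1.integrable hφ hf).norm hf.2
  intro t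
  calc ‖f t‖ = 1 * ‖f t‖ := (one_mul _).symm
    _ ≤ φ t * ‖f t‖ := mul_le_mul_of_nonneg_right (hφ.one_le t) (norm_nonneg _)

theorem L1_zero : L1 φ (fun _ => (0 : ℂ)) := by
  refine ⟨aestronglyMeasurable_const, ?_⟩
  simp

theorem L1.add (hφ : IsWeight φ) {f g : ℝ → ℂ} (hf : L1 φ f) (hg : L1 φ g) :
    L1 φ (fun t => f t + g t) := by
  refine ⟨hf.1.add hg.1, (hf.2.add hg.2).mono' ?_ (Eventually.of_forall fun t => ?_)⟩
  · exact hφ.meas.aestronglyMeasurable.mul (hf.1.add hg.1).norm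
  · have hp := (wpos hφ t).le
    rw [Real.norm_eq_abs, abs_of_nonneg (mul_nonneg hp (norm_nonneg _))]
    calc φ t * ‖f t + g t‖ ≤ φ t * (‖f t‖ + ‖g t‖) :=
          mul_le_mul_of_nonneg_left (norm_add_le _ _) hp
      _ = φ t * ‖f t‖ + φ t * ‖g t‖ := by ring

theorem L1.smul {f : ℝ → ℂ} (hf : L1 φ f) (c : ℂ) : L1 φ (fun t => c * f t) := by
  refine ⟨hf.1.const_mul c, ?_⟩
  have h := hf.2.const_mul ‖c‖
  refine h.congr (Eventually.of_forall fun t => ?_)
  simp only [norm_mul]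
  ring

theorem L1.neg {f : ℝ → ℂ} (hf : L1 φ f) : L1 φ (fun t => - f t) := by
  refine ⟨hf.1.neg, ?_⟩
  simpa only [norm_neg] using hf.2

theorem L1.sub (hφ : IsWeight φ) {f g : ℝ → ℂ} (hf : L1 φ f) (hg : L1 φ g) :
    L1 φ (fun t => f t - g t) := by
  have h := L1.add hφ hf (L1.neg hg)
  simpa only [sub_eq_add_neg] using h

theorem L1.sum (hφ : IsWeight φ) {ι : Type*} (s : Finset ι) (f : ι → ℝ → ℂ)
    (hf : ∀ i ∈ s, L1 φ (f i)) : L1 φ (fun t => ∑ i ∈ s, f i t) := by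
  classical
  induction s using Finset.induction_on with
  | empty => simpa using L1_zero
  | insert a s ha ih =>
    have h := L1.add hφ (hf a (Finset.mem_insert_self a s))
      (ih (fun i hi => hf i (Finset.mem_insert_of_mem hi)))
    simpa only [Finset.sum_insert ha] using h

/-- the translate, with its norm -/
theorem L1.shift (hφ : IsWeight φ) {f : ℝ → ℂ} (hf : L1 φ f) (s : ℝ) :
    L1 φ (fun t => f (t - s)) ∧ ∫ t, φ t * ‖f (t - s)‖ ≤ φ s * ∫ t, φ t * ‖f t‖ := by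
  have hm : AEStronglyMeasurable (fun t => f (t - s)) volume :=
    hf.1.comp_measurePreserving (measurePreserving_sub_right volume s)
  have h1 : Integrable (fun t => φ (t - s) * ‖f (t - s)‖) := hf.2.comp_sub_right s
  have h2 : ∀ t, φ t * ‖f (t - s)‖ ≤ φ s * (φ (t - s) * ‖f (t - s)‖) := by
    intro t
    have h3 := hφ.submul (t - s) s
    rw [sub_add_cancel] at h3
    calc φ t * ‖f (t - s)‖ ≤ φ (t - s) * φ s * ‖f (t - s)‖ :=
          mul_le_mul_of_nonneg_right h3 (norm_nonneg _)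
      _ = φ s * (φ (t - s) * ‖f (t - s)‖) := by ring
  have h4 : Integrable (fun t => φ t * ‖f (t - s)‖) := by
    refine (h1.const_mul (φ s)).mono' ?_ (Eventually.of_forall fun t => ?_)
    · exact hφ.meas.aestronglyMeasurable.mul hm.norm
    · rw [Real.norm_eq_abs, abs_of_nonneg (mul_nonneg (wpos hφ t).le (norm_nonneg _))]
      exact h2 t
  refine ⟨⟨hm, h4⟩, ?_⟩
  calc ∫ t, φ t * ‖f (t - s)‖ ≤ ∫ t, φ s * (φ (t - s) * ‖f (t - s)‖) :=
        integral_mono h4 (h1.const_mul _) h2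
    _ = φ s * ∫ t, φ t * ‖f t‖ := by
        rw [integral_const_mul, integral_sub_right_eq_self (fun t => φ t * ‖f t‖) s]

theorem LP_zero : LP φ (fun _ => (0 : ℂ)) := ⟨L1_zero, fun _ _ => rfl⟩

theorem LP.integrable (hφ : IsWeight φ) {f : ℝ → ℂ} (hf : LP φ f) : Integrable f :=
  L1.integrable hφ hf.1

theorem LP.add (hφ : IsWeight φ) {f g : ℝ → ℂ} (hf : LP φ f) (hg : LP φ g) :
    LP φ (fun t => f t + g t) :=
  ⟨L1.add hφ hf.1 hg.1, fun t ht => by beta_reduce; rw [hf.2 t ht, hg.2 t ht, add_zero]⟩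

theorem LP.smul {f : ℝ → ℂ} (hf : LP φ f) (c : ℂ) : LP φ (fun t => c * f t) :=
  ⟨L1.smul hf.1 c, fun t ht => by beta_reduce; rw [hf.2 t ht, mul_zero]⟩

theorem LP.sub (hφ : IsWeight φ) {f g : ℝ → ℂ} (hf : LP φ f) (hg : LP φ g) :
    LP φ (fun t => f t - g t) :=
  ⟨L1.sub hφ hf.1 hg.1, fun t ht => by beta_reduce; rw [hf.2 t ht, hg.2 t ht, sub_zero]⟩

theorem LP.sum (hφ : IsWeight φ) {ι : Type*} (s : Finset ι) (f : ι → ℝ → ℂ)
    (hf : ∀ i ∈ s, LP φ (f i)) : LP φ (fun t => ∑ i ∈ s, f i t) :=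
  ⟨L1.sum hφ s f fun i hi => (hf i hi).1, fun t ht =>
    Finset.sum_eq_zero fun i hi => (hf i hi).2 t ht⟩

theorem LP.shift (hφ : IsWeight φ) {f : ℝ → ℂ} (hf : LP φ f) {s : ℝ} (hs : 0 ≤ s) :
    LP φ (fun t => f (t - s)) :=
  ⟨(L1.shift hφ hf.1 s).1, fun t ht => hf.2 _ (by linarith)⟩

/-! ### The transform -/

theorem norm_exp_le {t : ℝ} (ht : 0 ≤ t) {z : ℂ} (hz : z.im ≤ 0) :
    ‖Complex.exp (-(Complex.I * (t : ℂ) * z))‖ ≤ 1 := by
  rw [Complex.norm_exp]
  apply Real.exp_le_one_iff.mpr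
  simp only [Complex.neg_re, Complex.mul_re, Complex.I_re, Complex.ofReal_re, zero_mul,
    Complex.I_im, Complex.ofReal_im, mul_zero, sub_self, Complex.mul_im, one_mul, zero_add]
  nlinarith

theorem FT_real (f : ℝ → ℂ) (x : ℝ) : FT f (x : ℂ) = ∫ t, f t * expR x t := rfl

theorem expPos_measurable (z : ℂ) : Measurable (expPos z) := by
  unfold expPos
  exact Measurable.ite measurableSet_Ici (by fun_prop) measurable_const

theorem norm_expPos_le {z : ℂ} (hz : z.im ≤ 0) (t : ℝ) : ‖expPos z t‖ ≤ 1 := by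
  unfold expPos
  split_ifs with h
  · exact norm_exp_le h hz
  · simp

theorem expPos_linfPos (hφ : IsWeight φ) {z : ℂ} (hz : z.im ≤ 0) : LInfPos φ (expPos z) := by
  refine ⟨⟨(expPos_measurable z).aestronglyMeasurable, 1, Eventually.of_forall fun t => ?_⟩, ?_⟩
  · rw [one_mul]
    exact (norm_expPos_le hz t).trans (hφ.one_le t)
  · intro t ht
    unfold expPos
    rw [if_neg (not_le.mpr ht)]

theorem FT_eq_expPos {f : ℝ → ℂ} (hf : ∀ t : ℝ, t < 0 → f t = 0) (z : ℂ) :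
    FT f z = ∫ t, f t * expPos z t := by
  unfold FT
  congr 1
  ext1 t
  unfold expPos
  split_ifs with h
  · rfl
  · rw [hf t (not_le.mp h), zero_mul, zero_mul]

theorem FT_integrable (hφ : IsWeight φ) {f : ℝ → ℂ} (hf : LP φ f) {z : ℂ} (hz : z.im ≤ 0) :
    Integrable (fun t : ℝ => f t * Complex.exp (-(Complex.I * (t : ℂ) * z))) := by
  refine (LP.integrable hφ hf).norm.mono' ?_ (Eventually.of_forall fun t => ?_)
  · exact hf.1.1.mul (by fun_prop)
  · rw [norm_mul]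
    rcases lt_or_ge t 0 with h | h
    · rw [hf.2 t h, norm_zero, zero_mul]
    · exact mul_le_of_le_one_right (norm_nonneg _) (norm_exp_le h hz)

theorem norm_FT_le (hφ : IsWeight φ) {f : ℝ → ℂ} (hf : LP φ f) {z : ℂ} (hz : z.im ≤ 0) :
    ‖FT f z‖ ≤ ∫ t, φ t * ‖f t‖ := by
  refine le_trans ?_ (L1.int_norm_le hφ hf.1)
  refine norm_integral_le_of_norm_le (LP.integrable hφ hf).norm (Eventually.of_forall fun t => ?_)
  rw [norm_mul]
  rcases lt_or_ge t 0 with h | h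
  · rw [hf.2 t h, norm_zero, zero_mul]
  · exact mul_le_of_le_one_right (norm_nonneg _) (norm_exp_le h hz)

theorem FT_add (hφ : IsWeight φ) {f g : ℝ → ℂ} (hf : LP φ f) (hg : LP φ g) {z : ℂ}
    (hz : z.im ≤ 0) : FT (fun t => f t + g t) z = FT f z + FT g z := by
  unfold FT
  rw [← integral_add (FT_integrable hφ hf hz) (FT_integrable hφ hg hz)]
  congr 1
  ext1 t
  ring

theorem FT_sub (hφ : IsWeight φ) {f g : ℝ → ℂ} (hf : LP φ f) (hg : LP φ g) {z : ℂ}
    (hz : z.im ≤ 0) : FT (fun t => f t - g t) z = FT f z - FT g z := by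
  unfold FT
  rw [← integral_sub (FT_integrable hφ hf hz) (FT_integrable hφ hg hz)]
  congr 1
  ext1 t
  ring

theorem FT_smul (f : ℝ → ℂ) (c z : ℂ) : FT (fun t => c * f t) z = c * FT f z := by
  unfold FT
  rw [← integral_const_mul]
  congr 1
  ext1 t
  ring

theorem FT_zero (z : ℂ) : FT (fun _ => (0 : ℂ)) z = 0 := by
  unfold FT
  simp

theorem FT_sum (hφ : IsWeight φ) {ι : Type*} (s : Finset ι) (f : ι → ℝ → ℂ)
    (hf : ∀ i ∈ s, LP φ (f i)) {z : ℂ} (hz : z.im ≤ 0) :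
    FT (fun t => ∑ i ∈ s, f i t) z = ∑ i ∈ s, FT (f i) z := by
  unfold FT
  rw [← integral_finsetSum s fun i hi => FT_integrable hφ (hf i hi) hz]
  congr 1
  ext1 t
  rw [Finset.sum_mul]

theorem FT_shift (f : ℝ → ℂ) (s : ℝ) (z : ℂ) :
    FT (fun t => f (t - s)) z = Complex.exp (-(Complex.I * (s : ℂ) * z)) * FT f z := by
  unfold FT
  rw [← integral_const_mul, ← integral_sub_right_eq_self (fun t : ℝ =>
    Complex.exp (-(Complex.I * (s : ℂ) * z)) * (f t * Complex.exp (-(Complex.I * (t : ℂ) * z)))) s]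
  congr 1
  ext1 t
  have h : Complex.exp (-(Complex.I * (t : ℂ) * z)) = Complex.exp (-(Complex.I * (s : ℂ) * z)) *
      Complex.exp (-(Complex.I * ((t - s : ℝ) : ℂ) * z)) := by
    rw [← Complex.exp_add]
    congr 1
    push_cast
    ring
  rw [h]
  ring

/-- continuity of the transform in the closed half-plane -/
theorem FT_continuousOn (hφ : IsWeight φ) {f : ℝ → ℂ} (hf : LP φ f) :
    ContinuousOn (FT f) {z : ℂ | z.im ≤ 0} := by
  intro z hz
  apply tendsto_integral_filter_of_dominated_convergence (fun t => ‖f t‖)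
  · exact Eventually.of_forall fun w => hf.1.1.mul (by fun_prop)
  · filter_upwards [self_mem_nhdsWithin] with w hw
    refine Eventually.of_forall fun t => ?_
    rw [norm_mul]
    rcases lt_or_ge t 0 with h | h
    · rw [hf.2 t h, norm_zero, zero_mul]
    · exact mul_le_of_le_one_right (norm_nonneg _) (norm_exp_le h hw)
  · exact (LP.integrable hφ hf).norm
  · refine Eventually.of_forall fun t => ?_
    have h : Continuous (fun w : ℂ => f t * Complex.exp (-(Complex.I * (t : ℂ) * w))) := by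
      fun_prop
    exact (h.tendsto z).mono_left nhdsWithin_le_nhds

/-! ### `LInf` and the pairing -/

theorem LInf.bound_nonneg (hφ : IsWeight φ) {G : ℝ → ℂ} {C : ℝ} (h : ∀ᵐ t : ℝ, ‖G t‖ ≤ C * φ t) :
    0 ≤ C := by
  obtain ⟨t, ht⟩ := h.exists
  by_contra hC
  have h1 := mul_neg_of_neg_of_pos (not_le.mp hC) (wpos hφ t)
  linarith [norm_nonneg (G t)]

theorem LInf.add {f g : ℝ → ℂ} (hf : LInf φ f) (hg : LInf φ g) :
    LInf φ (fun t => f t + g t) := by
  obtain ⟨h1, A, hA⟩ := hf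
  obtain ⟨h2, B, hB⟩ := hg
  refine ⟨h1.add h2, A + B, ?_⟩
  filter_upwards [hA, hB] with t ha hb
  calc ‖f t + g t‖ ≤ ‖f t‖ + ‖g t‖ := norm_add_le _ _
    _ ≤ (A + B) * φ t := by linarith

theorem LInf.smul {f : ℝ → ℂ} (hf : LInf φ f) (c : ℂ) : LInf φ (fun t => c * f t) := by
  obtain ⟨h1, A, hA⟩ := hf
  refine ⟨h1.const_mul c, ‖c‖ * A, ?_⟩
  filter_upwards [hA] with t ha
  rw [norm_mul, mul_assoc]
  exact mul_le_mul_of_nonneg_left ha (norm_nonneg _)

theorem LInf.sub {f g : ℝ → ℂ} (hf : LInf φ f) (hg : LInf φ g) :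
    LInf φ (fun t => f t - g t) := by
  have h := LInf.add hf (LInf.smul hg (-1))
  simpa only [neg_one_mul, sub_eq_add_neg] using h

theorem LInf.shift (hφ : IsWeight φ) {G : ℝ → ℂ} (hG : LInf φ G) (s : ℝ) :
    LInf φ (fun t => G (t + s)) := by
  obtain ⟨h1, A, hA⟩ := hG
  have hA0 := LInf.bound_nonneg hφ hA
  have hq := (measurePreserving_add_right volume s).quasiMeasurePreserving
  refine ⟨h1.comp_measurePreserving (measurePreserving_add_right volume s), A * φ s, ?_⟩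
  filter_upwards [hq.ae hA] with t ht
  calc ‖G (t + s)‖ ≤ A * φ (t + s) := ht
    _ ≤ A * (φ t * φ s) := mul_le_mul_of_nonneg_left (hφ.submul t s) hA0
    _ = A * φ s * φ t := by ring

theorem LInfPos.add {f g : ℝ → ℂ} (hf : LInfPos φ f) (hg : LInfPos φ g) :
    LInfPos φ (fun t => f t + g t) :=
  ⟨LInf.add hf.1 hg.1, fun t ht => by beta_reduce; rw [hf.2 t ht, hg.2 t ht, add_zero]⟩

theorem LInfPos.sub {f g : ℝ → ℂ} (hf : LInfPos φ f) (hg : LInfPos φ g) :
    LInfPos φ (fun t => f t - g t) :=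
  ⟨LInf.sub hf.1 hg.1, fun t ht => by beta_reduce; rw [hf.2 t ht, hg.2 t ht, sub_zero]⟩

theorem LInfPos.smul {f : ℝ → ℂ} (hf : LInfPos φ f) (c : ℂ) : LInfPos φ (fun t => c * f t) :=
  ⟨LInf.smul hf.1 c, fun t ht => by beta_reduce; rw [hf.2 t ht, mul_zero]⟩

theorem integrable_pair (hφ : IsWeight φ) {f G : ℝ → ℂ} (hf : L1 φ f) (hG : LInf φ G) (s : ℝ) :
    Integrable (fun t => f t * G (t + s)) := by
  obtain ⟨h1, A, hA⟩ := LInf.shift hφ hG s
  refine (hf.2.const_mul A).mono' (hf.1.mul h1) ?_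
  filter_upwards [hA] with t ht
  rw [norm_mul]
  calc ‖f t‖ * ‖G (t + s)‖ ≤ ‖f t‖ * (A * φ t) := mul_le_mul_of_nonneg_left ht (norm_nonneg _)
    _ = A * (φ t * ‖f t‖) := by ring

theorem integrable_pair0 (hφ : IsWeight φ) {f G : ℝ → ℂ} (hf : L1 φ f) (hG : LInf φ G) :
    Integrable (fun t => f t * G t) := by
  have h := integrable_pair hφ hf hG 0
  simpa using h

theorem norm_pair_le (hφ : IsWeight φ) {f G : ℝ → ℂ} {C : ℝ} (hf : L1 φ f)
    (hG : ∀ᵐ t : ℝ, ‖G t‖ ≤ C * φ t) (s : ℝ) :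
    ‖∫ t, f t * G (t + s)‖ ≤ C * (∫ t, φ t * ‖f t‖) * φ s := by
  have hC := LInf.bound_nonneg hφ hG
  have hq := (measurePreserving_add_right volume s).quasiMeasurePreserving
  have h := norm_integral_le_of_norm_le (f := fun t => f t * G (t + s))
    (hf.2.const_mul (C * φ s)) (by
      filter_upwards [hq.ae hG] with t ht
      rw [norm_mul]
      calc ‖f t‖ * ‖G (t + s)‖ ≤ ‖f t‖ * (C * φ (t + s)) :=
            mul_le_mul_of_nonneg_left ht (norm_nonneg _)
        _ ≤ ‖f t‖ * (C * (φ t * φ s)) := by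
            apply mul_le_mul_of_nonneg_left _ (norm_nonneg _)
            exact mul_le_mul_of_nonneg_left (hφ.submul t s) hC
        _ = C * φ s * (φ t * ‖f t‖) := by ring)
  rw [integral_const_mul] at h
  linarith

theorem norm_pair0_le (hφ : IsWeight φ) {f G : ℝ → ℂ} {C : ℝ} (hf : L1 φ f)
    (hG : ∀ᵐ t : ℝ, ‖G t‖ ≤ C * φ t) : ‖∫ t, f t * G t‖ ≤ C * (∫ t, φ t * ‖f t‖) := by
  refine (norm_integral_le_of_norm_le (hf.2.const_mul C) ?_).trans_eq (integral_const_mul _ _)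
  filter_upwards [hG] with t ht
  rw [norm_mul]
  calc ‖f t‖ * ‖G t‖ ≤ ‖f t‖ * (C * φ t) := mul_le_mul_of_nonneg_left ht (norm_nonneg _)
    _ = C * (φ t * ‖f t‖) := by ring

/-- moving the translation from one factor to the other -/
theorem pair_shift (f G : ℝ → ℂ) (s : ℝ) :
    ∫ t, f t * G (t + s) = ∫ t, f (t - s) * G t := by
  rw [← integral_sub_right_eq_self (fun t => f t * G (t + s)) s]
  simp only [sub_add_cancel]

/-! ### `JK`, `MK`, `XK` -/

theorem JK.add (hφ : IsWeight φ) {K : Set ℝ} {f g : ℝ → ℂ} (hf : JK φ K f) (hg : JK φ K g) :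
    JK φ K (fun t => f t + g t) :=
  ⟨LP.add hφ hf.1 hg.1, fun x hx => by
    rw [FT_add hφ hf.1 hg.1 (by simp), hf.2 x hx, hg.2 x hx, add_zero]⟩

theorem JK.smul {K : Set ℝ} {f : ℝ → ℂ} (hf : JK φ K f) (c : ℂ) : JK φ K (fun t => c * f t) :=
  ⟨LP.smul hf.1 c, fun x hx => by rw [FT_smul, hf.2 x hx, mul_zero]⟩

theorem JK.shift (hφ : IsWeight φ) {K : Set ℝ} {f : ℝ → ℂ} (hf : JK φ K f) {s : ℝ} (hs : 0 ≤ s) :
    JK φ K (fun t => f (t - s)) :=
  ⟨LP.shift hφ hf.1 hs, fun x hx => by rw [FT_shift, hf.2 x hx, mul_zero]⟩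

/-- an element of `M_K` is annihilated with all its truncated translates -/
theorem MK.ann (hφ : IsWeight φ) {K : Set ℝ} {h : ℝ → ℂ} (hh : MK φ K h) {f : ℝ → ℂ}
    (hf : JK φ K f) {s : ℝ} (hs : 0 ≤ s) : ∫ t, f t * h (t + s) = 0 := by
  rw [pair_shift]
  exact hh.2 _ (JK.shift hφ hf hs)

theorem MK.add (hφ : IsWeight φ) {K : Set ℝ} {g h : ℝ → ℂ} (hg : MK φ K g) (hh : MK φ K h) :
    MK φ K (fun t => g t + h t) :=
  ⟨LInfPos.add hg.1 hh.1, fun f hf => by
    simp only [mul_add]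
    rw [integral_add (integrable_pair0 hφ hf.1.1 hg.1.1) (integrable_pair0 hφ hf.1.1 hh.1.1),
      hg.2 f hf, hh.2 f hf, add_zero]⟩

theorem MK.smul {K : Set ℝ} {g : ℝ → ℂ} (hg : MK φ K g) (c : ℂ) :
    MK φ K (fun t => c * g t) :=
  ⟨LInfPos.smul hg.1 c, fun f hf => by
    have h : (fun t => f t * (c * g t)) = fun t => c * (f t * g t) := by
      ext1 t
      ring
    rw [h, integral_const_mul, hg.2 f hf, mul_zero]⟩

theorem MK.sub (hφ : IsWeight φ) {K : Set ℝ} {g h : ℝ → ℂ} (hg : MK φ K g) (hh : MK φ K h) :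
    MK φ K (fun t => g t - h t) := by
  have h1 := MK.add hφ hg (MK.smul hh (-1))
  simpa only [neg_one_mul, sub_eq_add_neg] using h1

theorem MK_expPos (hφ : IsWeight φ) {K : Set ℝ} {x : ℝ} (hx : x ∈ K) :
    MK φ K (expPos (x : ℂ)) :=
  ⟨expPos_linfPos hφ (by simp), fun f hf => by
    rw [← FT_eq_expPos hf.1.2, hf.2 x hx]⟩

theorem XK.add (hφ : IsWeight φ) {K : Set ℝ} {G H : ℝ → ℂ} (hG : XK φ K G) (hH : XK φ K H) :
    XK φ K (fun t => G t + H t) :=
  ⟨LInf.add hG.1 hH.1, fun f hf s => by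
    simp only [mul_add]
    rw [integral_add (integrable_pair hφ hf.1.1 hG.1 s) (integrable_pair hφ hf.1.1 hH.1 s),
      hG.2 f hf s, hH.2 f hf s, add_zero]⟩

theorem XK.smul {K : Set ℝ} {G : ℝ → ℂ} (hG : XK φ K G) (c : ℂ) : XK φ K (fun t => c * G t) :=
  ⟨LInf.smul hG.1 c, fun f hf s => by
    have h : (fun t => f t * (c * G (t + s))) = fun t => c * (f t * G (t + s)) := by
      ext1 t
      ring
    rw [h, integral_const_mul, hG.2 f hf s, mul_zero]⟩

theorem XK.sub (hφ : IsWeight φ) {K : Set ℝ} {G H : ℝ → ℂ} (hG : XK φ K G) (hH : XK φ K H) :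
    XK φ K (fun t => G t - H t) := by
  have h1 := XK.add hφ hG (XK.smul hH (-1))
  simpa only [neg_one_mul, sub_eq_add_neg] using h1

/-! ### Exponential sums -/

theorem expR_add (x s t : ℝ) : expR x (s + t) = expR x s * expR x t := by
  unfold expR
  rw [← Complex.exp_add]
  congr 1
  push_cast
  ring

theorem expR_cont (x : ℝ) : Continuous (expR x) := by
  unfold expR
  fun_prop

theorem ES_cont (F : Finset ℝ) (c : ℝ → ℂ) : Continuous (ES F c) := by
  unfold ES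
  exact continuous_finsetSum _ fun x _ => continuous_const.mul (expR_cont x)

theorem ES_norm_le (F : Finset ℝ) (c : ℝ → ℂ) (t : ℝ) : ‖ES F c t‖ ≤ ∑ x ∈ F, ‖c x‖ := by
  unfold ES
  refine (norm_sum_le _ _).trans (Finset.sum_le_sum fun x _ => ?_)
  rw [norm_mul, norm_expR, mul_one]

theorem ES_shift (F : Finset ℝ) (c : ℝ → ℂ) (t s : ℝ) :
    ES F c (t + s) = ES F (fun x => c x * expR x s) t := by
  unfold ES
  refine Finset.sum_congr rfl fun x _ => ?_
  rw [expR_add]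
  ring

theorem ES_linf (hφ : IsWeight φ) (F : Finset ℝ) (c : ℝ → ℂ) : LInf φ (ES F c) := by
  refine ⟨(ES_cont F c).aestronglyMeasurable, ∑ x ∈ F, ‖c x‖, Eventually.of_forall fun t => ?_⟩
  have h0 : 0 ≤ ∑ x ∈ F, ‖c x‖ := Finset.sum_nonneg fun x _ => norm_nonneg _
  exact (ES_norm_le F c t).trans (le_mul_of_one_le_right h0 (hφ.one_le t))

/-- the pairing with an exponential sum, for integrable functions -/
theorem pair_ES {f : ℝ → ℂ} (hf : Integrable f) (F : Finset ℝ) (c : ℝ → ℂ) (s : ℝ) :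
    ∫ t, f t * ES F c (t + s) = ∑ x ∈ F, c x * expR x s * FT f (x : ℂ) := by
  have h : (fun t => f t * ES F c (t + s)) =
      fun t => ∑ x ∈ F, c x * expR x s * (f t * expR x t) := by
    ext1 t
    rw [ES_shift]
    unfold ES
    rw [Finset.mul_sum]
    refine Finset.sum_congr rfl fun x _ => ?_
    ring
  rw [h, integral_finsetSum]
  · refine Finset.sum_congr rfl fun x _ => ?_
    rw [integral_const_mul, FT_real]
  · intro x _
    apply Integrable.const_mul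
    refine hf.norm.mono' (hf.1.mul (expR_measurable x).aestronglyMeasurable)
      (Eventually.of_forall fun t => ?_)
    rw [norm_mul, norm_expR, mul_one]

theorem XK_ES (hφ : IsWeight φ) {K : Set ℝ} {F : Finset ℝ} (hF : (F : Set ℝ) ⊆ K) (c : ℝ → ℂ) :
    XK φ K (ES F c) :=
  ⟨ES_linf hφ F c, fun f hf s => by
    rw [pair_ES (LP.integrable hφ hf.1)]
    exact Finset.sum_eq_zero fun x hx => by rw [hf.2 x (hF hx), mul_zero]⟩

theorem rc_mem {K : Set ℝ} {x : ℝ} : (x : ℂ) ∈ rc K ↔ x ∈ K := by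
  unfold rc
  constructor
  · rintro ⟨y, hy, h⟩
    have : y = x := Complex.ofReal_injective h
    rwa [← this]
  · intro h
    exact ⟨x, h, rfl⟩

/-- `Coh` constants are nonnegative -/
theorem Coh.nonneg (hφ : IsWeight φ) {K : Set ℝ} {T C : ℝ} (h : Coh φ K T C) : 0 ≤ C := by
  have h1 := h ∅ 0 1 (by simp) (by intro t _ _; simp [ES]) 0
  have h2 : ‖ES ∅ 0 0‖ = 0 := by simp [ES]
  rw [h2, mul_one] at h1
  by_contra hC
  have h3 := mul_neg_of_neg_of_pos (not_le.mp hC) (wpos hφ (-|(0 : ℝ)|))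
  linarith

theorem Ineq.nonneg (hφ : IsWeight φ) {K : Set ℝ} {C : ℝ} (h : Ineq φ K C) : 0 ≤ C := by
  have h1 := h ∅ 0 1 (by simp) (by
    intro t _
    have : ‖ES ∅ 0 t‖ = 0 := by simp [ES]
    rw [this, one_mul]
    exact (wpos hφ t).le) 0 le_rfl
  have h2 : ‖ES ∅ 0 0‖ = 0 := by simp [ES]
  rw [h2, mul_one] at h1
  by_contra hC
  have h3 := mul_neg_of_neg_of_pos (not_le.mp hC) (wpos hφ 0)
  linarith

theorem Coh.mono {K K' : Set ℝ} {T C : ℝ} (h : Coh φ K T C) (hK : K' ⊆ K) : Coh φ K' T C :=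
  fun F c A hF hA s => h F c A (hF.trans hK) hA s

/-- enlarging the window -/
theorem Coh.window {K : Set ℝ} {T T' C : ℝ} (h : Coh φ K T C) (hT : T ≤ T') : Coh φ K T' C :=
  fun F c A hF hA s => h F c A hF (fun t h0 h1 => hA t h0 (h1.trans hT)) s

end

end Pool.Agent.WK
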