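import Pool.Agent.WK.Stmts
import Pool.Agent.Helper15_E.Line

/-!
# MP_7d2497_an, squad WK, module LEW: exponential decay puts a function into the weighted space
-/

set_option autoImplicit false

namespace Pool.Agent.WK

open MeasureTheory Filter Topology Complex
open Pool.Agent.H78E

noncomputable section

theorem lew : LewStmt := by
  intro φ hφ
  have pos : ∀ t, 0 < φ t := fun t => lt_of_lt_of_le one_pos (hφ.one_le t)
  refine ⟨?_, ?_, ?_⟩
  · have hI := Helper15_E.integrable_weight hφ (ε := 1 / 4) (by norm_num)
    refine ⟨∫ t : ℝ, φ t * Real.exp (-(1 / 4 * |t|)), ?_, ?_⟩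
    · exact integral_nonneg fun t => mul_nonneg (pos t).le (Real.exp_pos _).le
    · intro f A hf h0 hA
      have hA0 : 0 ≤ A := by
        have h := hA 0 le_rfl
        simp only [zero_div, neg_zero, Real.exp_zero, mul_one] at h
        exact (norm_nonneg _).trans h
      have hb : ∀ t, φ t * ‖f t‖ ≤ A * (φ t * Real.exp (-(1 / 4 * |t|))) := by
        intro t
        rcases lt_or_ge t 0 with ht | ht
        · rw [h0 t ht, norm_zero, mul_zero]
          exact mul_nonneg hA0 (mul_nonneg (pos t).le (Real.exp_pos _).le)
        · have h1 := hA t ht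
          have h2 : -(1 / 4 * |t|) = -(t / 4) := by
            rw [abs_of_nonneg ht]
            ring
          rw [h2]
          calc φ t * ‖f t‖ ≤ φ t * (A * Real.exp (-(t / 4))) :=
                mul_le_mul_of_nonneg_left h1 (pos t).le
            _ = A * (φ t * Real.exp (-(t / 4))) := by ring
      have hL : Integrable (fun t : ℝ => φ t * ‖f t‖) := by
        refine (hI.const_mul A).mono' (hφ.meas.aestronglyMeasurable.mul hf.norm)
          (Eventually.of_forall fun t => ?_)
        rw [Real.norm_eq_abs, abs_of_nonneg (mul_nonneg (pos t).le (norm_nonneg _))]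
        exact hb t
      refine ⟨⟨⟨hf, hL⟩, h0⟩, ?_⟩
      calc ∫ t : ℝ, φ t * ‖f t‖ ≤ ∫ t : ℝ, A * (φ t * Real.exp (-(1 / 4 * |t|))) :=
            integral_mono hL (hI.const_mul A) hb
        _ = (∫ t : ℝ, φ t * Real.exp (-(1 / 4 * |t|))) * A := by
            rw [integral_const_mul, mul_comm]
  · intro T
    obtain ⟨C, hC, h⟩ := Helper15_E.weight_bound hφ (δ := 1) one_pos
    refine ⟨max 1 (C * Real.exp T), le_max_left _ _, fun t ht => ?_⟩
    refine (h t).trans ((mul_le_mul_of_nonneg_left ?_ hC.le).trans (le_max_right _ _))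
    apply Real.exp_le_exp.mpr
    linarith
  · refine ⟨hφ.meas.comp measurable_neg, fun t => hφ.one_le _, fun t τ => ?_, ?_, ?_⟩
    · have h := hφ.submul (-t) (-τ)
      rwa [← neg_add] at h
    · have h := (hφ.bot.comp tendsto_neg_atTop_atBot).neg
      rw [neg_zero] at h
      refine h.congr fun t => ?_
      simp only [Function.comp_apply]
      rw [div_neg, neg_neg]
    · have h := (hφ.top.comp tendsto_neg_atBot_atTop).neg
      rw [neg_zero] at h
      refine h.congr fun t => ?_
      simp only [Function.comp_apply]
      rw [div_neg, neg_neg]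

end

end Pool.Agent.WK
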