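import Pool.Agent.WK.Sim
import Pool.Agent.WK.Nim
import Pool.Agent.WK.Spd

/-!
# MP_7d2497_an, squad WK, row NIC (helper68): dense sets are nice
-/

set_option autoImplicit false

namespace Pool.Agent.WK

open MeasureTheory Filter Topology Complex
open Pool.Agent.H78E

noncomputable section

namespace H68N

variable {φ : ℝ → ℝ}

/-- A function of the half-line space which annihilates everything is zero. -/
theorem zero_of_ann (hφ : IsWeight φ) {h : ℝ → ℂ} (hh : LInfPos φ h)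
    (h0 : ∀ f : ℝ → ℂ, LP φ f → ∫ t : ℝ, f t * h t = 0) : h =ᵐ[volume] 0 := by
  obtain ⟨⟨hm, C, hC⟩, hneg⟩ := hh
  have hpos : ∀ t : ℝ, 0 < φ t := fun t => lt_of_lt_of_le one_pos (hφ.one_le t)
  have hwpos : ∀ t : ℝ, 0 < (1 + t ^ 2)⁻¹ / (φ t) ^ 2 := fun t => by
    have h1 := hpos t
    positivity
  have hwm : AEStronglyMeasurable (fun t : ℝ => (1 + t ^ 2)⁻¹ / (φ t) ^ 2) volume := by
    have h1 : Measurable (fun t : ℝ => (1 + t ^ 2)⁻¹) := by fun_prop
    exact (h1.div (hφ.meas.pow_const 2)).aestronglyMeasurable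
  have hfm : AEStronglyMeasurable
      (fun t : ℝ => (((1 + t ^ 2)⁻¹ / (φ t) ^ 2 : ℝ) : ℂ) * (starRingEnd ℂ) (h t)) volume := by
    refine AEStronglyMeasurable.mul ?_ ?_
    · exact Complex.continuous_ofReal.comp_aestronglyMeasurable hwm
    · exact Complex.continuous_conj.comp_aestronglyMeasurable hm
  have hnf : ∀ t : ℝ, ‖(((1 + t ^ 2)⁻¹ / (φ t) ^ 2 : ℝ) : ℂ) * (starRingEnd ℂ) (h t)‖ =
      (1 + t ^ 2)⁻¹ / (φ t) ^ 2 * ‖h t‖ := fun t => by
    rw [norm_mul, RCLike.norm_conj, Complex.norm_real, Real.norm_of_nonneg (hwpos t).le]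
  have hf : LP φ (fun t : ℝ => (((1 + t ^ 2)⁻¹ / (φ t) ^ 2 : ℝ) : ℂ) *
      (starRingEnd ℂ) (h t)) := by
    refine ⟨⟨hfm, ?_⟩, fun t ht => ?_⟩
    · refine (integrable_inv_one_add_sq.const_mul C).mono'
        (hφ.meas.aestronglyMeasurable.mul hfm.norm) ?_
      filter_upwards [hC] with t ht
      rw [hnf, Real.norm_of_nonneg (mul_nonneg (hpos t).le
        (mul_nonneg (hwpos t).le (norm_nonneg _)))]
      have h1 := hpos t
      have h2 : φ t * ((1 + t ^ 2)⁻¹ / (φ t) ^ 2 * ‖h t‖) =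
          (1 + t ^ 2)⁻¹ * (‖h t‖ / φ t) := by
        field_simp
      rw [h2, mul_comm C]
      refine mul_le_mul_of_nonneg_left ?_ (by positivity)
      rw [div_le_iff₀ h1]
      exact ht
    · change _ * (starRingEnd ℂ) (h t) = 0
      rw [hneg t ht, map_zero, mul_zero]
  have h1 := h0 _ hf
  have h2 : ∀ t : ℝ, (((1 + t ^ 2)⁻¹ / (φ t) ^ 2 : ℝ) : ℂ) * (starRingEnd ℂ) (h t) * h t =
      (((1 + t ^ 2)⁻¹ / (φ t) ^ 2 * ‖h t‖ ^ 2 : ℝ) : ℂ) := fun t => by
    rw [mul_assoc, mul_comm ((starRingEnd ℂ) (h t)) (h t), Complex.mul_conj, Complex.normSq_eq_norm_sq]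
    push_cast
    ring
  have h3 : ∫ t : ℝ, (1 + t ^ 2)⁻¹ / (φ t) ^ 2 * ‖h t‖ ^ 2 = 0 := by
    have h4 : ∫ t : ℝ, (((1 + t ^ 2)⁻¹ / (φ t) ^ 2 * ‖h t‖ ^ 2 : ℝ) : ℂ) = 0 := by
      rw [← h1]
      exact integral_congr_ae (ae_of_all _ fun t => (h2 t).symm)
    rw [integral_complex_ofReal] at h4
    exact Complex.ofReal_eq_zero.1 h4
  have h5 : Integrable (fun t : ℝ => (1 + t ^ 2)⁻¹ / (φ t) ^ 2 * ‖h t‖ ^ 2) volume := by
    have h6 := (hf.1.mulInt72 (h := h) ⟨hm, C, hC⟩).norm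
    refine h6.congr (ae_of_all _ fun t => ?_)
    change ‖_ * _‖ = _
    rw [h2 t, Complex.norm_real, Real.norm_of_nonneg (mul_nonneg (hwpos t).le (by positivity))]
  have h7 := (integral_eq_zero_iff_of_nonneg
    (fun t => mul_nonneg (hwpos t).le (by positivity)) h5).1 h3
  filter_upwards [h7] with t ht
  have h8 : (1 + t ^ 2)⁻¹ / (φ t) ^ 2 * ‖h t‖ ^ 2 = 0 := ht
  have h9 : ‖h t‖ ^ 2 = 0 := (mul_eq_zero.1 h8).resolve_left (hwpos t).ne'
  exact norm_eq_zero.1 (pow_eq_zero_iff (two_ne_zero) |>.1 h9)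

/-- The transform of `kx x` at `x`. -/
theorem FT_kx (x : ℝ) : FT (kx x) (x : ℂ) = 1 := by
  have h1 : ∀ t : ℝ, kx x t * Complex.exp (-(Complex.I * (t : ℂ) * (x : ℂ))) =
      (Set.Ici (0 : ℝ)).indicator (fun t : ℝ => ((Real.exp (-t) : ℝ) : ℂ)) t := fun t => by
    unfold kx
    by_cases h : 0 ≤ t
    · rw [if_pos h, Set.indicator_of_mem (Set.mem_Ici.2 h), ← Complex.exp_add, Complex.ofReal_exp]
      congr 1
      push_cast
      ring
    · rw [if_neg h, Set.indicator_of_notMem (fun h' => h (Set.mem_Ici.1 h')), zero_mul]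
  unfold FT
  rw [integral_congr_ae (ae_of_all _ h1), integral_indicator measurableSet_Ici,
    integral_Ici_eq_integral_Ioi, integral_complex_ofReal, integral_exp_neg_Ioi_zero, Complex.ofReal_one]

theorem LP_kx (lew : LewStmt) (hφ : IsWeight φ) (x : ℝ) : LP φ (kx x) := by
  obtain ⟨⟨D, _, hD⟩, _⟩ := lew φ hφ
  refine (hD (kx x) 1 ?_ (fun t ht => ?_) fun t ht => ?_).1
  · have h1 : Measurable (kx x) := by
      unfold kx
      exact Measurable.ite measurableSet_Ici (by fun_prop) measurable_const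
    exact h1.aestronglyMeasurable
  · unfold kx
    rw [if_neg (not_le.2 ht)]
  · unfold kx
    rw [if_pos ht, Complex.norm_exp, one_mul]
    refine Real.exp_le_exp.2 ?_
    have h1 : ((-1 + Complex.I * (x : ℂ)) * (t : ℂ)).re = -t := by
      simp
    rw [h1]
    linarith

/-- the pairing is additive on differences, first variable -/
theorem pr_sub_left {f g h : ℝ → ℂ} (hf : L1 φ f) (hg : L1 φ g) (hh : LInf φ h) (a : ℂ) :
    ∫ t : ℝ, (f t - a * g t) * h t = (∫ t : ℝ, f t * h t) - a * ∫ t : ℝ, g t * h t := by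
  rw [← integral_const_mul, ← integral_sub (hf.mulInt72 hh) ((hg.mulInt72 hh).const_mul a)]
  congr 1
  funext t
  ring

theorem pr_sub_right {f g h : ℝ → ℂ} (hf : L1 φ f) (hg : LInf φ g) (hh : LInf φ h) (a : ℂ) :
    ∫ t : ℝ, f t * (h t - a * g t) = (∫ t : ℝ, f t * h t) - a * ∫ t : ℝ, f t * g t := by
  rw [← integral_const_mul, ← integral_sub (hf.mulInt72 hh) ((hf.mulInt72 hg).const_mul a)]
  congr 1
  funext t
  ring

theorem FT_sub (hφ : IsWeight φ) {f g : ℝ → ℂ} (hf : LP φ f) (hg : LP φ g) (a : ℂ) (x : ℝ) :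
    FT (fun t => f t - a * g t) (x : ℂ) = FT f (x : ℂ) - a * FT g (x : ℂ) := by
  have h1 := pr_sub_left hf.1 hg.1 (H3N.linfPos_expPos hφ x).1 a
  have h2 : LP φ (fun t => f t - a * g t) := H25.LP_sub hφ hf (H25.LP_mul hg a)
  rw [FT_expPos_sim h2, FT_expPos_sim hf, FT_expPos_sim hg] at h1
  exact h1

theorem pr_sum {ι : Type} (s : Finset ι) {f : ι → ℝ → ℂ} {h : ℝ → ℂ} (c : ι → ℂ)
    (hf : ∀ i ∈ s, L1 φ (f i)) (hh : LInf φ h) :
    ∫ t : ℝ, (∑ i ∈ s, c i * f i t) * h t = ∑ i ∈ s, c i * ∫ t : ℝ, f i t * h t := by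
  calc ∫ t : ℝ, (∑ i ∈ s, c i * f i t) * h t = ∫ t : ℝ, ∑ i ∈ s, c i * (f i t * h t) := by
        congr 1
        funext t
        rw [Finset.sum_mul]
        exact Finset.sum_congr rfl fun i _ => by ring
    _ = ∑ i ∈ s, ∫ t : ℝ, c i * (f i t * h t) :=
        integral_finsetSum s fun i hi => ((hf i hi).mulInt72 hh).const_mul (c i)
    _ = ∑ i ∈ s, c i * ∫ t : ℝ, f i t * h t := by
        refine Finset.sum_congr rfl fun i _ => ?_
        rw [integral_const_mul]

/-- (*) of the proof. -/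
theorem star (hφ : IsWeight φ) {K Z : Set ℝ} (hD : Dns φ K Z) {u : ℝ → ℝ → ℂ}
    (hu : ∀ x ∈ K, x ∉ Z → LP φ (u x) ∧ FT (u x) (x : ℂ) = 1 ∧
      ∀ y ∈ K, y ≠ x → FT (u x) (y : ℂ) = 0) {h : ℝ → ℂ} (hh : MK φ K h)
    (h0 : ∀ x ∈ K, x ∉ Z → ∫ t : ℝ, u x t * h t = 0) {f : ℝ → ℂ} (hf : LP φ f)
    (hfZ : ∀ x ∈ Z, FT f (x : ℂ) = 0) : ∫ t : ℝ, f t * h t = 0 := by
  obtain ⟨C, hC⟩ := hh.1.1.2
  have hC0 : 0 ≤ C := by
    have h1 : ∃ t : ℝ, ‖h t‖ ≤ C * φ t := hC.exists
    obtain ⟨t, ht⟩ := h1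
    by_contra hcon
    have h2 : C * φ t < 0 :=
      mul_neg_of_neg_of_pos (not_le.1 hcon) (lt_of_lt_of_le one_pos (hφ.one_le t))
    linarith [norm_nonneg (h t)]
  have key : ∀ ε : ℝ, 0 < ε → ‖∫ t : ℝ, f t * h t‖ ≤ C * ε := by
    intro ε hε
    obtain ⟨f', hf', ⟨F, hFK, hF0⟩, hff'⟩ := hD f hf hfZ ε hε
    have hsum : LP φ (fun t => ∑ x ∈ F, FT f' (x : ℂ) * u x t) :=
      H25.LP_sum hφ F fun x hx =>
        H25.LP_mul (hu x (hFK x hx).1 (hFK x hx).2).1 _
    have hJ : JK φ K (fun t => f' t - ∑ x ∈ F, FT f' (x : ℂ) * u x t) := by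
      refine ⟨H25.LP_sub hφ hf' hsum, fun y hy => ?_⟩
      have h1 := FT_sub hφ hf' hsum 1 y
      simp only [one_mul] at h1
      rw [h1, H25.FT_sum hφ F (fun x hx => (hu x (hFK x hx).1 (hFK x hx).2).1) _ (by simp)]
      by_cases hyF : y ∈ F
      · rw [Finset.sum_eq_single y]
        · rw [(hu y (hFK y hyF).1 (hFK y hyF).2).2.1]
          ring
        · intro x hx hxy
          rw [(hu x (hFK x hx).1 (hFK x hx).2).2.2 y hy (Ne.symm hxy), mul_zero]
        · intro h2
          exact absurd hyF h2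
      · rw [hF0 y hy hyF, Finset.sum_eq_zero, sub_zero]
        intro x hx
        have hxy : y ≠ x := fun h2 => hyF (h2 ▸ hx)
        rw [(hu x (hFK x hx).1 (hFK x hx).2).2.2 y hy hxy, mul_zero]
    have h1 := hh.2 _ hJ
    have h2 := pr_sub_left hf'.1 hsum.1 hh.1.1 1
    simp only [one_mul] at h2
    rw [h1, pr_sum F _ (fun x hx => (hu x (hFK x hx).1 (hFK x hx).2).1.1) hh.1.1,
      Finset.sum_eq_zero (fun x hx => by rw [h0 x (hFK x hx).1 (hFK x hx).2, mul_zero]),
      sub_zero] at h2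
    have h3 := pr_sub_left hf.1 hf'.1 hh.1.1 1
    simp only [one_mul] at h3
    rw [← h2, sub_zero] at h3
    rw [← h3]
    have h4 : LP φ (fun t => f t - f' t) := H25.LP_sub hφ hf hf'
    calc ‖∫ t : ℝ, (f t - f' t) * h t‖ ≤ ∫ t : ℝ, ‖(f t - f' t) * h t‖ :=
          norm_integral_le_integral_norm _
      _ ≤ ∫ t : ℝ, C * (φ t * ‖f t - f' t‖) := by
          refine integral_mono_ae (h4.1.mulInt72 hh.1.1).norm (h4.1.2.const_mul C) ?_
          filter_upwards [hC] with t ht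
          rw [norm_mul]
          calc ‖f t - f' t‖ * ‖h t‖ ≤ ‖f t - f' t‖ * (C * φ t) :=
                mul_le_mul_of_nonneg_left ht (norm_nonneg _)
            _ = C * (φ t * ‖f t - f' t‖) := by ring
      _ = C * ∫ t : ℝ, φ t * ‖f t - f' t‖ := integral_const_mul _ _
      _ ≤ C * ε := mul_le_mul_of_nonneg_left hff'.le hC0
  have h5 : ‖∫ t : ℝ, f t * h t‖ ≤ 0 := by
    refine le_of_forall_pos_le_add fun ε hε => ?_
    have h6 := key (ε / (C + 1)) (by positivity)
    have h7 : C * (ε / (C + 1)) ≤ ε := by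
      rw [mul_div_assoc', div_le_iff₀ (by linarith)]
      nlinarith
    linarith
  exact norm_le_zero_iff.1 h5

/-- The consequence of (*). -/
theorem star_cases (lew : LewStmt) (hφ : IsWeight φ) {K Z : Set ℝ} (hZ : Z.Subsingleton)
    (hD : Dns φ K Z) {u : ℝ → ℝ → ℂ}
    (hu : ∀ x ∈ K, x ∉ Z → LP φ (u x) ∧ FT (u x) (x : ℂ) = 1 ∧
      ∀ y ∈ K, y ≠ x → FT (u x) (y : ℂ) = 0) {h : ℝ → ℂ} (hh : MK φ K h)
    (h0 : ∀ x ∈ K, x ∉ Z → ∫ t : ℝ, u x t * h t = 0) :
    h =ᵐ[volume] 0 ∨ ∃ z ∈ Z, ∃ c : ℂ, h =ᵐ[volume] fun t => c * expPos (z : ℂ) t := by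
  rcases hZ.eq_empty_or_singleton with hZe | ⟨z, hz⟩
  · left
    refine zero_of_ann hφ hh.1 fun f hf => star hφ hD hu hh h0 hf ?_
    rw [hZe]
    intro x hx
    exact absurd hx (Set.notMem_empty x)
  · right
    refine ⟨z, by rw [hz]; exact Set.mem_singleton z, ∫ t : ℝ, kx z t * h t, ?_⟩
    have hE := H3N.linfPos_expPos hφ z
    have h1 : (fun t => h t - (∫ t : ℝ, kx z t * h t) * expPos (z : ℂ) t) =ᵐ[volume] 0 := by
      refine zero_of_ann hφ ?_ fun f hf => ?_
      · refine ⟨?_, fun t ht => ?_⟩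
        · have h2 := hh.1.1.add72 (hE.1.smul72 (-(∫ t : ℝ, kx z t * h t)))
          refine (congrArg (LInf φ) ?_).mp h2
          funext t
          simp only [Pi.add_apply, Pi.smul_apply, smul_eq_mul]
          ring
        · change h t - _ * expPos (z : ℂ) t = 0
          rw [hh.1.2 t ht, hE.2 t ht, mul_zero, sub_zero]
      · rw [pr_sub_right hf.1 hE.1 hh.1.1, FT_expPos_sim hf]
        have hk := LP_kx lew hφ z
        have h3 : LP φ (fun t => f t - FT f (z : ℂ) * kx z t) :=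
          H25.LP_sub hφ hf (H25.LP_mul hk _)
        have h4 := star hφ hD hu hh h0 h3 (by
          rw [hz]
          intro x hx
          rw [Set.mem_singleton_iff.1 hx, FT_sub hφ hf hk, FT_kx]
          ring)
        rw [pr_sub_left hf.1 hk.1 hh.1.1] at h4
        linear_combination h4
    filter_upwards [h1] with t ht
    exact sub_eq_zero.1 ht

theorem MK_expPos (hφ : IsWeight φ) {K : Set ℝ} {x : ℝ} (hx : x ∈ K) :
    MK φ K (expPos (x : ℂ)) :=
  ⟨H3N.linfPos_expPos hφ x, fun f hf => by rw [FT_expPos_sim hf.1, hf.2 x hx]⟩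

theorem MK_sub {K : Set ℝ} {g h : ℝ → ℂ} (hh : MK φ K h) (hg : MK φ K g)
    (a : ℂ) : MK φ K (fun t => h t - a * g t) := by
  refine ⟨⟨?_, fun t ht => ?_⟩, fun f hf => ?_⟩
  · have h2 := hh.1.1.add72 (hg.1.1.smul72 (-a))
    refine (congrArg (LInf φ) ?_).mp h2
    funext t
    simp only [Pi.add_apply, Pi.smul_apply, smul_eq_mul]
    ring
  · change h t - a * g t = 0
    rw [hh.1.2 t ht, hg.1.2 t ht, mul_zero, sub_zero]
  · rw [pr_sub_right hf.1.1 hg.1.1 hh.1.1, hh.2 f hf, hg.2 f hf, mul_zero, sub_zero]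

/-- Two exponentials with different real frequencies are independent on the half-line. -/
theorem exp_indep {x z : ℝ} (hxz : x ≠ z) {A B : ℂ}
    (h : ∀ s : ℝ, 0 ≤ s → A * expR x s + B * expR z s = 0) : B = 0 := by
  have h0 := h 0 le_rfl
  have e0 : ∀ y : ℝ, expR y 0 = 1 := fun y => by
    unfold expR
    simp
  rw [e0, e0, mul_one, mul_one] at h0
  have hd : z - x ≠ 0 := sub_ne_zero.2 (Ne.symm hxz)
  have h1 := h (Real.pi / |z - x|) (by positivity)
  have h2 : expR z (Real.pi / |z - x|) = -expR x (Real.pi / |z - x|) := by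
    unfold expR
    have h3 : -(Complex.I * ((Real.pi / |z - x| : ℝ) : ℂ) * (z : ℂ)) =
        -(Complex.I * ((Real.pi / |z - x| : ℝ) : ℂ) * (x : ℂ)) +
          -(Complex.I * (((z - x) * (Real.pi / |z - x|) : ℝ) : ℂ)) := by
      push_cast
      ring
    rw [h3, Complex.exp_add]
    have h4 : Complex.exp (-(Complex.I * (((z - x) * (Real.pi / |z - x|) : ℝ) : ℂ))) = -1 := by
      rcases lt_or_gt_of_ne hd with hneg | hpos
      · have h5 : (z - x) * (Real.pi / |z - x|) = -Real.pi := by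
          rw [abs_of_neg hneg]
          field_simp
        rw [h5]
        have h6 : -(Complex.I * ((-Real.pi : ℝ) : ℂ)) = (Real.pi : ℂ) * Complex.I := by
          push_cast
          ring
        rw [h6, Complex.exp_pi_mul_I]
      · have h5 : (z - x) * (Real.pi / |z - x|) = Real.pi := by
          rw [abs_of_pos hpos]
          field_simp
        rw [h5]
        have h6 : -(Complex.I * ((Real.pi : ℝ) : ℂ)) = -((Real.pi : ℂ) * Complex.I) := by
          ring
        rw [h6, Complex.exp_neg, Complex.exp_pi_mul_I]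
        norm_num
    rw [h4]
    ring
  have h5 : expR x (Real.pi / |z - x|) ≠ 0 := by
    unfold expR
    exact Complex.exp_ne_zero _
  rw [h2] at h1
  have h6 : (A - B) * expR x (Real.pi / |z - x|) = 0 := by
    linear_combination h1
  have h7 : A - B = 0 := (mul_eq_zero.1 h6).resolve_right h5
  have h8 : (2 : ℂ) * B = 0 := by
    linear_combination h0 - h7
  exact (mul_eq_zero.1 h8).resolve_left two_ne_zero

theorem expPos_add {x t s : ℝ} (ht : 0 ≤ t) (hs : 0 ≤ s) :
    expPos (x : ℂ) (t + s) = expR x s * expPos (x : ℂ) t := by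
  unfold expPos expR
  rw [if_pos (add_nonneg ht hs), if_pos ht, ← Complex.exp_add]
  congr 1
  push_cast
  ring

end H68N

open H68N

theorem nic (niu : NiuStmt) (nim : NimStmt) (lew : LewStmt) (spc : SpcStmt) : NicStmt := by
  intro φ hφ K Z hZK hZ hcl hcount hD
  obtain ⟨hn1, hn2⟩ := niu φ hφ K Z hZK hZ hD
  have hex : ∃ u : ℝ → ℝ → ℂ, ∀ x ∈ K, x ∉ Z → LP φ (u x) ∧ FT (u x) (x : ℂ) = 1 ∧
      ∀ y ∈ K, y ≠ x → FT (u x) (y : ℂ) = 0 := by
    have h1 : ∀ x : ℝ, ∃ u : ℝ → ℂ, x ∈ K → x ∉ Z → LP φ u ∧ FT u (x : ℂ) = 1 ∧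
        ∀ y ∈ K, y ≠ x → FT u (y : ℂ) = 0 := by
      intro x
      by_cases hx : x ∈ K ∧ x ∉ Z
      · obtain ⟨u, hu⟩ := hn1 x hx.1 hx.2
        exact ⟨u, fun _ _ => hu⟩
      · exact ⟨0, fun h2 h3 => absurd ⟨h2, h3⟩ hx⟩
    choose u hu using h1
    exact ⟨u, hu⟩
  obtain ⟨u, hu⟩ := hex
  refine ⟨hcl, hcount, hn2, ?_, ?_⟩
  · intro h hh hne
    by_cases hall : ∀ x ∈ K, x ∉ Z → ∫ t : ℝ, u x t * h t = 0
    · rcases star_cases lew hφ hZ hD hu hh hall with h1 | ⟨z, hz, c, hc⟩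
      · exact absurd h1 hne
      · refine ⟨(z : ℂ), ?_⟩
        rw [(spc φ hφ h hh.1).1]
        refine ⟨by simp, fun f hf hann => ?_⟩
        have hc0 : c ≠ 0 := by
          intro h1
          apply hne
          filter_upwards [hc] with t ht
          rw [ht, h1, zero_mul]
          rfl
        have h2 := hann 0 le_rfl
        have h3 : ∫ t : ℝ, f t * h (t + 0) = c * FT f (z : ℂ) := by
          rw [← FT_expPos_sim hf, ← integral_const_mul]
          refine integral_congr_ae ?_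
          filter_upwards [hc] with t ht
          rw [add_zero, ht]
          ring
        rw [h3] at h2
        exact (mul_eq_zero.1 h2).resolve_left hc0
    · push Not at hall
      obtain ⟨x, hx, hxZ, hne0⟩ := hall
      obtain ⟨hu1, hu2, hu3⟩ := hu x hx hxZ
      exact ⟨(x : ℂ), (nim φ hφ K x (u x) h hu1 hu2 hu3 hh).2 hne0⟩
  · intro h hh x hspec
    have hxs : (x : ℂ) ∈ SpecPos φ h := by rw [hspec]; exact Set.mem_singleton _
    have hxK : x ∈ K := by
      by_contra hcon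
      obtain ⟨f, hf, hne⟩ := hn2 (x : ℂ) (by simp) (by
        rintro ⟨y, hy, hyx⟩
        have h1 : (y : ℂ) = (x : ℂ) := hyx
        exact hcon (Complex.ofReal_injective h1 ▸ hy))
      apply hne
      rw [← FT_expPos_sim hf.1]
      exact (MK_of_mem_BPos hφ hh hxs.2).2 f hf
    have hcy : ∀ y ∈ K, y ∉ Z → y ≠ x → ∫ t : ℝ, u y t * h t = 0 := by
      intro y hy hyZ hyx
      by_contra hcon
      obtain ⟨hu1, hu2, hu3⟩ := hu y hy hyZ
      have h1 := (nim φ hφ K y (u y) h hu1 hu2 hu3 hh).2 hcon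
      rw [hspec] at h1
      exact hyx (Complex.ofReal_injective (Set.mem_singleton_iff.1 h1))
    by_cases hxZ : x ∈ Z
    · rcases star_cases lew hφ hZ hD hu hh
        (fun y hy hyZ => hcy y hy hyZ (fun h1 => hyZ (h1 ▸ hxZ))) with h1 | ⟨z, hz, c, hc⟩
      · refine ⟨0, ?_⟩
        filter_upwards [h1] with t ht
        rw [ht, zero_mul]
        rfl
      · rw [hZ hz hxZ] at hc
        exact ⟨c, hc⟩
    · obtain ⟨hu1, hu2, hu3⟩ := hu x hxK hxZ
      have hE := MK_expPos hφ hxK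
      have hh' : MK φ K (fun t => h t - (∫ t : ℝ, u x t * h t) * expPos (x : ℂ) t) :=
        MK_sub hh hE _
      have h0' : ∀ y ∈ K, y ∉ Z →
          ∫ t : ℝ, u y t * (h t - (∫ t : ℝ, u x t * h t) * expPos (x : ℂ) t) = 0 := by
        intro y hy hyZ
        obtain ⟨hv1, hv2, hv3⟩ := hu y hy hyZ
        rw [pr_sub_right hv1.1 hE.1.1 hh.1.1, FT_expPos_sim hv1]
        by_cases hyx : y = x
        · rw [hyx, hu2]
          ring
        · rw [hcy y hy hyZ hyx, hv3 x hxK (Ne.symm hyx)]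
          ring
      rcases star_cases lew hφ hZ hD hu hh' h0' with h1 | ⟨z, hz, c, hc⟩
      · refine ⟨∫ t : ℝ, u x t * h t, ?_⟩
        filter_upwards [h1] with t ht
        exact sub_eq_zero.1 ht
      · have hxz : x ≠ z := fun h1 => hxZ (h1 ▸ hz)
        have hae : ∀ᵐ t : ℝ, h t = (∫ t : ℝ, u x t * h t) * expPos (x : ℂ) t +
            c * expPos (z : ℂ) t := by
          filter_upwards [hc] with t ht
          linear_combination ht
        by_cases hc0 : c = 0
        · refine ⟨∫ t : ℝ, u x t * h t, ?_⟩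
          filter_upwards [hae] with t ht
          rw [ht, hc0]
          ring
        · exfalso
          have hzs : (z : ℂ) ∈ SpecPos φ h := by
            rw [(spc φ hφ h hh.1).1]
            refine ⟨by simp, fun f hf hann => ?_⟩
            have hEz := H3N.linfPos_expPos hφ z
            have h2 : ∀ s : ℝ, 0 ≤ s →
                ((∫ t : ℝ, u x t * h t) * FT f (x : ℂ)) * expR x s +
                  (c * FT f (z : ℂ)) * expR z s = 0 := by
              intro s hs
              rw [← hann s hs]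
              have h3 : ∀ᵐ t : ℝ, h (t + s) = (∫ t : ℝ, u x t * h t) * expPos (x : ℂ) (t + s) +
                  c * expPos (z : ℂ) (t + s) :=
                (measurePreserving_add_right volume s).quasiMeasurePreserving.ae hae
              have h4 : ∫ t : ℝ, f t * h (t + s) =
                  ∫ t : ℝ, (((∫ t : ℝ, u x t * h t) * expR x s) * (f t * expPos (x : ℂ) t) +
                    (c * expR z s) * (f t * expPos (z : ℂ) t)) := by
                refine integral_congr_ae ?_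
                filter_upwards [h3] with t ht
                rcases lt_or_ge t 0 with ht0 | ht0
                · rw [hf.2 t ht0]
                  ring
                · rw [ht, expPos_add ht0 hs, expPos_add ht0 hs]
                  ring
              rw [h4, integral_add ((hf.1.mulInt72 hE.1.1).const_mul _)
                ((hf.1.mulInt72 hEz.1).const_mul _), integral_const_mul, integral_const_mul,
                FT_expPos_sim hf, FT_expPos_sim hf]
              ring
            have h5 := exp_indep hxz h2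
            exact (mul_eq_zero.1 h5).resolve_left hc0
          rw [hspec] at hzs
          exact hxz (Complex.ofReal_injective (Set.mem_singleton_iff.1 hzs)).symm

end

end Pool.Agent.WK
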