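import Pool.Agent.WK.Spe

/-!
# MP_7d2497_an: the spectrum of the extension, without sparsity
-/

set_option autoImplicit false

namespace Pool.Agent.WK

open MeasureTheory Filter Topology Complex
open Pool.Agent.H78E

noncomputable section

open H51

/-- SPEG: the spectrum of the extension, for sets with separating functions. -/
theorem speG (hNim : NimStmt) (hSpx : SpxStmt) (hVan : VanStmt) (hCon : ConStmt)
    (hFub : FubStmt) (hSpc : SpcStmt) {φ : ℝ → ℝ} (hφ : IsWeight φ) (K : Set ℝ)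
    (hcl : IsClosed K) (hco : K.Countable)
    (hU : ∀ x ∈ K, ∃ u : ℝ → ℂ, LP φ u ∧ FT u (x : ℂ) = 1 ∧ ∀ y ∈ K, y ≠ x → FT u (y : ℂ) = 0)
    (hN : ∀ x : ℝ, x ∉ K → ∃ f : ℝ → ℂ, JK φ K f ∧ FT f (x : ℂ) ≠ 0) (g G : ℝ → ℂ)
    (hg : MK φ K g) (hS : SpecPos φ g = rc K) (hX : XK φ K G)
    (hGg : ∀ᵐ t : ℝ, 0 ≤ t → G t = g t) : Spec φ G = K := by
  have hXs : ∀ G' : ℝ → ℂ, XK φ K G' → Spec φ G' ⊆ K := (hSpx φ hφ K).1 hN
  refine Set.Subset.antisymm (hXs G hX) fun x hx => ?_
  obtain ⟨u, hu, hu1, hu2⟩ := hU x hx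
  obtain ⟨hn, -⟩ := hNim φ hφ K x u g hu hu1 hu2 hg
  set c : ℂ := ∫ t : ℝ, u t * g t with hc
  have hH : ∀ s : ℝ, 0 ≤ s → ∫ t : ℝ, u t * G (t + s) = c * expR x s := by
    intro s hs
    rw [← hn s hs]
    refine integral_congr_ae ?_
    have h1 : ∀ᵐ t : ℝ, 0 ≤ t + s → G (t + s) = g (t + s) :=
      (quasiMeasurePreserving_add_right volume s).ae hGg
    filter_upwards [h1] with t ht
    rcases lt_or_ge t 0 with h | h
    · simp only [hu.2 t h, zero_mul]
    · simp only [ht (add_nonneg h hs)]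
  have hc0 : c ≠ 0 := by
    intro h0
    have hxs : (x : ℂ) ∈ SpecPos φ g := by
      rw [hS]
      exact ⟨x, hx, rfl⟩
    have h2 := (((hSpc φ hφ g hg.1).1 (x : ℂ)).1 hxs).2 u hu fun s hs => by
      rw [hn s hs, h0, zero_mul]
    rw [hu1] at h2
    exact one_ne_zero h2
  obtain ⟨hcont, hbd⟩ := hCon φ hφ u G hu.1 hX.1
  have hHL : LInf φ (fun s : ℝ => ∫ t : ℝ, u t * G (t + s)) := by
    obtain ⟨C, hC⟩ := hX.1.2
    exact ⟨hcont.aestronglyMeasurable, C * ∫ t : ℝ, φ t * ‖u t‖,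
      Eventually.of_forall fun s => hbd C hC s⟩
  set D : ℝ → ℂ := fun s => (∫ t : ℝ, u t * G (t + s)) - c * expR x s with hD
  have hDL : LInf φ D := linf_sub hHL (expR_linf hφ x) c
  have hDX : XK φ K D := by
    refine ⟨hDL, fun f hf a => ?_⟩
    have e1 : ∫ t : ℝ, f t * ∫ s : ℝ, u s * G (s + (t + a)) = 0 := by
      rw [hFub φ hφ f u G hf.1.1 hu.1 hX.1 a]
      have : ∀ s : ℝ, u s * ∫ t : ℝ, f t * G (t + (s + a)) = 0 := fun s => by
        rw [hX.2 f hf (s + a), mul_zero]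
      simp only [this, integral_zero]
    have e2 : ∫ t : ℝ, f t * expR x (t + a) = 0 := by
      have : ∀ t : ℝ, f t * expR x (t + a) = expR x a * (f t * expR x t) := fun t => by
        rw [expR_add]
        ring
      simp only [this]
      rw [integral_const_mul]
      have h3 : ∫ t : ℝ, f t * expR x t = 0 := hf.2 x hx
      rw [h3, mul_zero]
    have i1 : Integrable (fun t : ℝ => f t * ∫ s : ℝ, u s * G (s + (t + a))) :=
      integrable_mul hf.1.1 (LInf.shift72 hφ hHL a)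
    have i2 : Integrable (fun t : ℝ => f t * expR x (t + a)) :=
      integrable_mul hf.1.1 (LInf.shift72 hφ (expR_linf hφ x) a)
    have e3 : ∀ t : ℝ, f t * D (t + a) =
        f t * (∫ s : ℝ, u s * G (s + (t + a))) - c * (f t * expR x (t + a)) := fun t => by
      simp only [hD]
      ring
    simp only [e3]
    rw [integral_sub i1 (i2.const_mul c), e1, integral_const_mul, e2, mul_zero, sub_zero]
  have hD0 : D =ᵐ[volume] 0 := by
    refine hVan φ hφ K hcl hco D hDL (Eventually.of_forall fun t ht => ?_) (hXs D hDX)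
    simp only [hD]
    rw [hH t ht, sub_self]
  rw [mem_spec hφ hX.1]
  intro f hf hfG
  have k1 : ∫ t : ℝ, f t * ∫ s : ℝ, u s * G (s + (t + 0)) = 0 := by
    rw [hFub φ hφ f u G hf hu.1 hX.1 0]
    have : ∀ s : ℝ, u s * ∫ t : ℝ, f t * G (t + (s + 0)) = 0 := fun s => by
      rw [hfG (s + 0), mul_zero]
    simp only [this, integral_zero]
  have k2 : ∫ t : ℝ, f t * ∫ s : ℝ, u s * G (s + (t + 0)) = c * ∫ t : ℝ, f t * expR x t := by
    rw [← integral_const_mul]
    refine integral_congr_ae ?_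
    filter_upwards [hD0] with t ht
    have h4 : (∫ s : ℝ, u s * G (s + t)) = c * expR x t := by
      have h5 : (∫ s : ℝ, u s * G (s + t)) - c * expR x t = 0 := ht
      exact sub_eq_zero.1 h5
    simp only [add_zero]
    rw [h4]
    ring
  rw [k1] at k2
  rcases mul_eq_zero.1 k2.symm with h | h
  · exact absurd h hc0
  · exact h

end

end Pool.Agent.WK
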