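import Pool.Agent.WK.Defs

/-!
# MP_7d2497_an, squad WK: statements of the modules, with proofs in words
-/

set_option autoImplicit false

namespace Pool.Agent.WK

open MeasureTheory Filter Topology Complex
open Pool.Agent.H78E

noncomputable section

/-- The real points as complex points. -/
def rc (K : Set ℝ) : Set ℂ := (fun x : ℝ => (x : ℂ)) '' K

/-- Convolution. -/
def cv (f k : ℝ → ℂ) (t : ℝ) : ℂ := ∫ s : ℝ, f (t - s) * k s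

/-- The exponential with transform `1 / (1 + i (z - x))`. -/
def kx (x : ℝ) (t : ℝ) : ℂ :=
  if 0 ≤ t then Complex.exp ((-1 + Complex.I * (x : ℂ)) * (t : ℂ)) else 0

/-- Multiplication of the transform by `(z - x) / (z - x - i)`. -/
def RR (x : ℝ) (f : ℝ → ℂ) (t : ℝ) : ℂ := f t - cv f (kx x) t

/-- The uniform density on `[0, L]`, modulated at `y`. -/
def ka (L y : ℝ) (t : ℝ) : ℂ :=
  if 0 ≤ t ∧ t ≤ L then ((1 / L : ℝ) : ℂ) * Complex.exp (Complex.I * (y : ℂ) * (t : ℂ)) else 0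

/-! ### Kit -/

/-- LEW. Exponential decay puts a function into the weighted space.

Proof: `φ t ≤ C exp(|t|/8)` by `Helper15_E.weight_bound`; `D = ∫_0^∞ C exp(t/8) exp(-t/4) dt = 8 C`
(or use `Helper15_E.integrable_weight` with `ε = 1/4`). Local boundedness of `φ` is the second
part; the third part: the reflection of a weight is a weight. -/
def LewStmt : Prop := ∀ φ : ℝ → ℝ, IsWeight φ →
  (∃ D : ℝ, 0 ≤ D ∧ ∀ (f : ℝ → ℂ) (A : ℝ), AEStronglyMeasurable f volume →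
    (∀ t : ℝ, t < 0 → f t = 0) → (∀ t : ℝ, 0 ≤ t → ‖f t‖ ≤ A * Real.exp (-(t / 4))) →
    LP φ f ∧ ∫ t : ℝ, φ t * ‖f t‖ ≤ D * A) ∧
  (∀ T : ℝ, ∃ S : ℝ, 1 ≤ S ∧ ∀ t : ℝ, |t| ≤ T → φ t ≤ S) ∧
  IsWeight (fun t => φ (-t))

/-- CNV. Convolution of elements of the weighted space of the half-line.

Proof: Fubini (`MeasureTheory.Integrable.integrable_convolution` or
`Helper15_E.integrable_prod`-like argument), `φ (t) ≤ φ (t-s) φ (s)`; the transform is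
multiplicative since `exp(-itz) = exp(-i(t-s)z) exp(-isz)` and `|exp(-itz)| ≤ 1` for `t ≥ 0`,
`Im z ≤ 0`. For `t < 0` the integrand is identically `0`. -/
def CnvStmt : Prop := ∀ φ : ℝ → ℝ, IsWeight φ → ∀ f k : ℝ → ℂ, LP φ f → LP φ k →
  LP φ (cv f k) ∧ ∫ t : ℝ, φ t * ‖cv f k t‖ ≤ (∫ t : ℝ, φ t * ‖f t‖) * (∫ t : ℝ, φ t * ‖k t‖) ∧
    ∀ z : ℂ, z.im ≤ 0 → FT (cv f k) z = FT f z * FT k z

/-- FAC. The operator `RR x`.

Proof: `kx x` is in LP by LEW, `FT (kx x) z = 1 / (1 + i(z-x))` for `Im z ≤ 0`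
(`integral_exp_mul_complex_Ioi`), and `1 - 1/(1+i(z-x)) = (z-x)/(z-x-i)`. CNV gives the rest.
`kx x` is bounded, so `cv` is additive on integrable functions, for every `t`. -/
def FacStmt : Prop := ∀ φ : ℝ → ℝ, IsWeight φ → ∃ D : ℝ, 0 ≤ D ∧ ∀ (x : ℝ) (f : ℝ → ℂ), LP φ f →
  LP φ (RR x f) ∧ ∫ t : ℝ, φ t * ‖RR x f t‖ ≤ D * ∫ t : ℝ, φ t * ‖f t‖ ∧
    (∀ z : ℂ, z.im ≤ 0 →
      FT (RR x f) z = (z - (x : ℂ)) / (z - (x : ℂ) - Complex.I) * FT f z) ∧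
    ∀ g : ℝ → ℂ, LP φ g → ∀ a : ℂ, ∀ t : ℝ, RR x (fun t => f t - a * g t) t = RR x f t - a * RR x g t

/-- CON. Correlations are continuous and weighted bounded.

Proof: `∫ f(t) G(t+s) dt = ∫ f(t-s) G(t) dt`, and `s ↦ f(· - s)` is continuous into the weighted
`L^1` space: true for continuous functions with compact support (`φ` is locally bounded), which are
dense in it (e.g. `f φ ∈ L^1`, approximate in `L^1` with the measure `φ dt`), and the translation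
by `s` has norm at most `φ s`, locally bounded. The bound: `φ(t+s) ≤ φ(t) φ(s)`. -/
def ConStmt : Prop := ∀ φ : ℝ → ℝ, IsWeight φ → ∀ f G : ℝ → ℂ, L1 φ f → LInf φ G →
  Continuous (fun s : ℝ => ∫ t : ℝ, f t * G (t + s)) ∧
    ∀ C : ℝ, (∀ᵐ t : ℝ, ‖G t‖ ≤ C * φ t) →
      ∀ s : ℝ, ‖∫ t : ℝ, f t * G (t + s)‖ ≤ C * (∫ t : ℝ, φ t * ‖f t‖) * φ s

/-- FUB. Fubini, compare `Helper15_E.integrable_prod`. -/
def FubStmt : Prop := ∀ φ : ℝ → ℝ, IsWeight φ → ∀ f u G : ℝ → ℂ, L1 φ f → L1 φ u → LInf φ G →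
  ∀ a : ℝ, ∫ t : ℝ, f t * ∫ s : ℝ, u s * G (s + (t + a)) =
    ∫ s : ℝ, u s * ∫ t : ℝ, f t * G (t + (s + a))

/-- QAI. The approximate identity `q l`.

Proof: `q l t = l q 1 (l t)`; substitute `u = l t`; `φ (u/l) ≤ C exp(u/2)` for `l ≥ 1` by
`Helper15_E.weight_bound`, and `∫ u^3 exp(-u/2) < ∞`; dominated convergence and
`∫ q 1 = 1`. (The second part at `ψ 0`: `∫ q 1 u ψ(u/(n+1)) du → ψ 0`.) -/
def QaiStmt : Prop := ∀ φ : ℝ → ℝ, IsWeight φ →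
  (∃ D : ℝ, ∀ l : ℝ, 1 ≤ l → LP φ (q l) ∧ ∫ t : ℝ, φ t * ‖q l t‖ ≤ D) ∧
  ∀ ψ : ℝ → ℂ, Continuous ψ → (∃ C : ℝ, ∀ t : ℝ, ‖ψ t‖ ≤ C * φ t) →
    Tendsto (fun n : ℕ => ∫ t : ℝ, q ((n : ℝ) + 1) t * ψ t) atTop (𝓝 (ψ 0))

/-- DEN. Density of the combinations of `q (n + 3/2)`.

Proof: truncation: `f 1_[r,R]` is close to `f` in the weighted norm for small `r > 0`, large `R`
(dominated convergence). For `f` supported in `[r,R]` apply `Helper13_E.dens : DensStmt`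
to `f(t) exp(t/2) / t^3`, integrable: `∫ |f exp(t/2)/t^3 - ∑ c_n exp(-(n+1)t)| < η`; multiply by
`φ(t) t^3 exp(-t/2)`, which is bounded (`weight_bound` with `δ = 1/4`): `f` is close to
`∑ c_n t^3 exp(-(n+3/2)t) = ∑ c_n (6/(n+3/2)^4) q (n+3/2) t`. -/
def DenStmt : Prop := ∀ φ : ℝ → ℝ, IsWeight φ → ∀ f : ℝ → ℂ, LP φ f → ∀ ε : ℝ, 0 < ε →
  ∃ (N : ℕ) (c : ℕ → ℂ),
    ∫ t : ℝ, φ t * ‖f t - ∑ n ∈ Finset.range N, c n * q ((n : ℝ) + 3 / 2) t‖ < ε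

/-! ### Blaschke products -/

/-- BF0. The factors. With `w = z - x`: `|bf| = |w| / |w - i| ≤ 1` since `Im w ≤ 1/2`;
`1 - bf x z = -(1 + 2 i z) / ((2x - i)(z - x - i))`. For `|x| ≥ 2(|z|+1)`:
`|w - i| ≥ |x| - |z| - 1 ≥ |x|/2`, `|2x - i| ≥ 2|x|`, so `|1 - bf| ≤ (1+2|z|)/x^2`. For
`|x| < 2(|z|+1)`: `|w - i| ≥ 3/4`, `|2x-i| = √(1+4x²)`,
and `(1+x²) ≤ (1+|x|/2) √(1+4x²) ≤ (2+|z|) √(1+4x²)`. -/
def Bf0Stmt : Prop := ∀ (x : ℝ) (z : ℂ), z.im ≤ 1 / 4 →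
  ‖bf x z‖ ≤ 1 ∧ ‖1 - bf x z‖ ≤ 8 * (1 + ‖z‖) ^ 2 * (1 / (1 + x ^ 2)) ∧
    (bf x z = 0 ↔ z = (x : ℂ))

/-- BF1. Existence of the finite products.

Proof: `q l` for `F = ∅` (`∫_0^∞ t^3/6 exp(-(l+iz)t) dt = (l+iz)^(-4)` for `Im z < l`). Step
`F → insert x F`: `f'(t) = c (f(t) - ∫_0^t f(s) exp((-1+ix)(t-s)) ds)`, `c = (2x+i)/(2x-i)`; if
`|f(t)| ≤ A exp(-t/2)` then the integral is at most `2A exp(-t/2)`; its transform is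
`FT f z / (1 + i(z-x))` by Fubini (`Im z ≤ 1/4`, all integrals converge absolutely), and
`c (1 - 1/(1+i(z-x))) = bf x z`. -/
def Bf1Stmt : Prop := ∀ l : ℝ, 1 ≤ l → IsB l ∅ (q l) ∧ ∀ F : Finset ℝ, ∃ f : ℝ → ℂ, IsB l F f

/-- BF2. Inversion: `W(t) = w(t) exp(t/4)` is continuous and integrable, its Fourier transform is
`FT w (x + i/4)`, integrable, so `2π |W(t)| ≤ M` for every `t`
(`MeasureTheory.Integrable.fourierInv_fourier_eq` with the `2π` normalisation). -/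
def Bf2Stmt : Prop := ∀ (w : ℝ → ℂ) (A M : ℝ), Continuous w → (∀ t : ℝ, t ≤ 0 → w t = 0) →
  (∀ t : ℝ, 0 ≤ t → ‖w t‖ ≤ A * Real.exp (-(t / 2))) →
  Integrable (fun x : ℝ => FT w ((x : ℂ) + Complex.I / 4)) →
  (∫ x : ℝ, ‖FT w ((x : ℂ) + Complex.I / 4)‖) ≤ M →
  ∀ t : ℝ, ‖w t‖ ≤ M * Real.exp (-(t / 4))

/-- BF3. Comparison of two products (uses BF0, BF2).

Proof: `w = f - f'`, `FT w z = (l/(l+iz))^4 ∏_F bf (1 - ∏_(F' \ F) bf)` for `Im z ≤ 1/4`;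
`|1 - ∏ b_j| ≤ ∑ |1 - b_j|` as `|b_j| ≤ 1`; so for `z = x + i/4` it is at most
`|l/(l+iz)|^4 8 (1+|z|)^2 ∑ 1/(1+x_j^2)`, and `|l + iz|^2 = (l-1/4)^2 + x^2`, so the
integral over `x` of `|l/(l+iz)|^4 8 (1+|z|)^2` is finite, depending on `l` only. The transform
of `w` is continuous in `x` (explicit formula). Apply BF2. -/
def Bf3Stmt : Prop := ∀ l : ℝ, 1 ≤ l → ∃ C : ℝ, 0 ≤ C ∧ ∀ (F F' : Finset ℝ) (f f' : ℝ → ℂ),
  F ⊆ F' → IsB l F f → IsB l F' f' →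
    ∀ t : ℝ, ‖f t - f' t‖ ≤ C * (∑ x ∈ F' \ F, 1 / (1 + x ^ 2)) * Real.exp (-(t / 4))

/-- BLA. Infinite products (uses BF0, BF1, BF3).

Proof: `f_F` from BF1 for finite `F ⊆ K`; by BF3 the net `f_F(t)`, `F ↑ K`, is Cauchy for every
`t`; let `f(t)` be the limit; `|f_F(t) - f(t)| ≤ C (∑_(K \ F) 1/(1+x²)) exp(-t/4)`, uniform on
compact sets, so `f` is continuous; `F = ∅` gives the third and fourth claims. For `Im z ≤ 0`: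
`FT f_F z → FT f z` as `F ↑ K`. If `z = x ∈ K`, `FT f_F x = 0` for `F ∋ x`. If `z ∉ K`: take `F0`
with `8(1+|z|)^2 ∑_(K \ F0) 1/(1+x²) ≤ 1/2`; for `F ⊇ F0`, `|∏_F bf| ≥ |∏_(F0) bf| / 2 > 0`,
and `(l/(l+iz))^4 ≠ 0`. -/
def BlaStmt : Prop := ∀ l : ℝ, 1 ≤ l → ∃ C : ℝ, 0 ≤ C ∧ ∀ K : Set ℝ, Sparse K →
  ∃ f : ℝ → ℂ, Continuous f ∧ (∀ t : ℝ, t ≤ 0 → f t = 0) ∧
    (∃ A : ℝ, ∀ t : ℝ, 0 ≤ t → ‖f t‖ ≤ A * Real.exp (-(t / 4))) ∧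
    (∀ t : ℝ, ‖f t - q l t‖ ≤ C * (∑' x : K, 1 / (1 + (x : ℝ) ^ 2)) * Real.exp (-(t / 4))) ∧
    ∀ z : ℂ, z.im ≤ 0 → (FT f z = 0 ↔ z ∈ rc K)

/-! ### Sets -/

/-- SUM. (1) at most `N` points in every unit interval: split by `⌊x⌋ = m`; each `x ∈ [m,m+1)`
has `1/(1+x²) ≤ 4/(1+m²)`-like bounds, `∑_m N·4/(1+m²) < ∞`. (2) if infinitely many points are in
`[-R,R]` each contributes `≥ 1/(1+R²)`. (3) `K = ⋃ K ∩ [-n,n]`; closed: a point `x` has the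
neighbourhood `[-R,R]`, `R > |x|`, in which `K` is finite, hence closed. -/
def SumStmt : Prop :=
  (∀ (K : Set ℝ) (N : ℕ), LocB K N → Sparse K) ∧ (∀ K : Set ℝ, Sparse K → LocFin K) ∧
    (∀ K : Set ℝ, LocFin K → IsClosed K ∧ K.Countable) ∧
    (∀ K K' : Set ℝ, K' ⊆ K → Sparse K → Sparse K') ∧
    (∀ (K : Set ℝ) (y : ℝ), Sparse K → Sparse (insert y K))

/-- BLK. Far out clusters.

Proof: for every `k` the negation of `LocB` with `R = 4^k`, `N = k` gives a finset of more than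
`k` points of `L`, in an interval `[y,y+1]`, all with `|x| ≥ 4^k`; take `F_k` of exactly `k+1`
of them (`Finset.exists_subset_card_eq`). `K = ⋃ F_k`: `∑_K 1/(1+x²) ≤ ∑_k (k+1) 16^(-k) < ∞`
(the tsum over the union is at most the sum of the tsums; e.g. the map
`Σ k, F_k → K` is onto, so `Summable` by comparison with a section). -/
def BlkStmt : Prop := ∀ L : Set ℝ, (∀ (R : ℝ) (N : ℕ), ¬ LocB {x | x ∈ L ∧ R ≤ |x|} N) →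
  ∃ K : Set ℝ, K ⊆ L ∧ Sparse K ∧ ∀ N : ℕ, ¬ LocB K N

/-- CLU. Coherence bounds the local counts.

Proof: WLOG `T ≥ 1` (enlarging `T` weakens the hypothesis of the inequality), `C ≥ 0`, put
`η = 2/(3T)`. Let `x_1, …, x_n` be distinct points of `K` in an interval of length `η` with centre
`c`, `y_j = x_j - c`, `|y_j| ≤ η/2`. Define `p_1(t) = exp(-i y_1 t)`,
`p_n(t) = ∫_0^t exp(-i y_n (t-s)) p_(n-1)(s) ds`: a combination of the `exp(-i y_j t)`, since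
`∫_0^t exp(-iy_n(t-s)) exp(-iy_j s) ds = (exp(-iy_j t) - exp(-iy_n t)) / (-i(y_j - y_n))`.
`|p_n(t)| ≤ |t|^(n-1)/(n-1)!`, and for `t ≥ 0`, by induction,
`|p_n(t) - t^(n-1)/(n-1)!| ≤ (η t/2) t^(n-1)/(n-1)!` (because
`|exp(-iy_n(t-s)) p_(n-1)(s) - s^(n-2)/(n-2)!| ≤ (η(t-s)/2 + ηs/2) s^(n-2)/(n-2)!`).
Apply `Coh` to `P(t) = exp(-ict) p_n(t - T/2)`, a sum with frequencies `x_j`: on `[0,T]`,
`|P| ≤ (T/2)^(n-1)/(n-1)!`, and `|P(2T)| = |p_n(3T/2)| ≥ (1/2) (3T/2)^(n-1)/(n-1)!` as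
`η (3T/2)/2 = 1/2`. So `3^(n-1)/2 ≤ C φ(-2T)` and `n` is bounded by some `n0`. A unit interval
is a union of at most `⌈1/η⌉` intervals of length `η`. -/
def CluStmt : Prop := ∀ φ : ℝ → ℝ, IsWeight φ → ∀ (K : Set ℝ) (T C : ℝ), Coh φ K T C →
  ∃ N : ℕ, LocB K N

/-- SPU. Separating functions for sparse sets: BLA for `K \ {x}` (with `l = 1`), multiplied by a
constant (`FT f x ≠ 0` as `x ∉ K \ {x}`), LEW. -/
def SpuStmt : Prop := ∀ φ : ℝ → ℝ, IsWeight φ → ∀ K : Set ℝ, Sparse K → ∀ x : ℝ,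
  ∃ u : ℝ → ℂ, LP φ u ∧ Continuous u ∧ (∃ A : ℝ, ∀ t : ℝ, 0 ≤ t → ‖u t‖ ≤ A * Real.exp (-(t / 4))) ∧
    FT u (x : ℂ) = 1 ∧ ∀ y ∈ K, y ≠ x → FT u (y : ℂ) = 0

/-- SPD. Density for sparse sets (uses BLA, DEN, LEW, SUM).

Proof: by DEN it suffices to approximate `c q l`, `l = n + 3/2 ≥ 1`: BLA for `K \ F`, `F` finite
large: `f_F` has transform `0` on `K \ F` and
`∫ φ |q l - f_F| ≤ D C ∑_(K \ F) 1/(1+x²)`, small (`tendsto_tsum_compl_atTop_zero`). Finite sums: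
the exceptional sets are united. -/
def SpdStmt : Prop := ∀ φ : ℝ → ℝ, IsWeight φ → ∀ K : Set ℝ, Sparse K → Dns φ K ∅

/-! ### Nice sets -/

/-- NIU. (uses FAC, CNV)

Proof: `f ∈ LP` with `FT f = 0` on `Z` and `FT f z ≠ 0`, for `z ∉ Z`, `Im z ≤ 0`: `q 1` if `Z = ∅`,
`RR z0 (q 1)` if `Z = {z0}`. (1) `x ∈ K \ Z`: `Dns` with `ε = |FT f x|/2` gives `f'` with
`FT f' x ≠ 0` (`|FT f x - FT f' x| ≤ ∫ |f - f'| ≤ ∫ φ |f - f'|`), `FT f' = 0` on `K \ F`; apply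
`RR y` for all `y ∈ F \ {x}`, and normalise. (2) `z ∉ K`: the same, apply `RR y` for all
`y ∈ F`. -/
def NiuStmt : Prop := ∀ φ : ℝ → ℝ, IsWeight φ → ∀ K Z : Set ℝ, Z ⊆ K → Z.Subsingleton →
  Dns φ K Z →
  (∀ x ∈ K, x ∉ Z → ∃ u : ℝ → ℂ, LP φ u ∧ FT u (x : ℂ) = 1 ∧ ∀ y ∈ K, y ≠ x → FT u (y : ℂ) = 0) ∧
  (∀ z : ℂ, z.im ≤ 0 → z ∉ rc K → ∃ f : ℝ → ℂ, JK φ K f ∧ FT f z ≠ 0)

/-- NIM. (uses FUB and `Helper72_E` `bipolarPos`)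

Proof: (1) for `s ≥ 0`, `u(· - s) - exp(-isx) u ∈ J_K`, so
`∫ u(t) h(t+s) dt = ∫ u(t-s) h(t) dt = exp(-isx) ∫ u h`. (2) `bipolarPos`: let `f ∈ LP` with
`∫ f(t) h(t+s) dt = 0` for all `s ≥ 0`; then `0 = ∫ u(s) ∫ f(t) h(t+s) dt ds =
∫ f(t) ∫ u(s) h(s+t) ds dt = (∫ u h) ∫ f(t) exp(-itx) dt`. -/
def NimStmt : Prop := ∀ φ : ℝ → ℝ, IsWeight φ → ∀ (K : Set ℝ) (x : ℝ) (u h : ℝ → ℂ),
  LP φ u → FT u (x : ℂ) = 1 → (∀ y ∈ K, y ≠ x → FT u (y : ℂ) = 0) → MK φ K h →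
  (∀ s : ℝ, 0 ≤ s → ∫ t : ℝ, u t * h (t + s) = (∫ t : ℝ, u t * h t) * expR x s) ∧
    ((∫ t : ℝ, u t * h t) ≠ 0 → (x : ℂ) ∈ SpecPos φ h)

/-- NIC. Dense sets are nice (uses NIU, NIM, FAC, SPC).

Proof: (n1) is NIU (2). Let `u_x`, `x ∈ K \ Z`, be from NIU and `c_x(h) = ∫ u_x h`.
(*) If `h ∈ M_K` and all `c_x(h) = 0` then `∫ f h = 0` for all `f ∈ LP` with `FT f = 0` on `Z`:
for `f'` with transform `0` on `K \ F`, `F ⊆ K \ Z` finite, `f' - ∑_F FT f' x • u_x ∈ J_K`, so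
`∫ f' h = 0`; use `Dns`. Hence `h = 0` a.e. (`Z = ∅`) or `h = c expPos z0` a.e.
(`Z = {z0}`: with `v ∈ LP`, `FT v z0 = 1`, `c = ∫ v h`, `f - FT f z0 v`; all `f ∈ LP` are tested).
(n2) if some `c_x(h) ≠ 0`, `x ∈ SpecPos h` by NIM; otherwise `h = c expPos z0`, `c ≠ 0`, and
`z0 ∈ SpecPos h`. (n3) `SpecPos h = {x}`: `x ∈ K` by (n1) (a function in `J_K` annihilates all
translates of `h`); `c_y(h) = 0` for `y ∈ K \ Z`, `y ≠ x` by NIM. If `x ∈ Z`: (*). If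
`x ∈ K \ Z`: `h' = h - c_x(h) expPos x ∈ M_K` has all `c_y = 0`; so `h' = c expPos z0`; if `c ≠ 0`
then `z0 ∈ SpecPos h`: for `f ∈ LP` annihilating all translates,
`c_x FT f x exp(-isx) + c FT f z0 exp(-isz0) = 0` for `s ≥ 0`, so `FT f z0 = 0`; contradiction
as `z0 ≠ x`. -/
def NicStmt : Prop := ∀ φ : ℝ → ℝ, IsWeight φ → ∀ K Z : Set ℝ, Z ⊆ K → Z.Subsingleton →
  IsClosed K → K.Countable → Dns φ K Z → Nice φ K

/-- SPC. Description of the half-line spectrum by `bipolarPos`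
(`FT f z = ∫ f expPos z` for `f ∈ LP`). Closed: `z ↦ FT f z` is continuous on `Im z ≤ 0`. -/
def SpcStmt : Prop := ∀ φ : ℝ → ℝ, IsWeight φ → ∀ g : ℝ → ℂ, LInfPos φ g →
  (∀ z : ℂ, z ∈ SpecPos φ g ↔ z.im ≤ 0 ∧ ∀ f : ℝ → ℂ, LP φ f →
    (∀ s : ℝ, 0 ≤ s → ∫ t : ℝ, f t * g (t + s) = 0) → FT f z = 0) ∧ IsClosed (SpecPos φ g)

/-- SIM. (uses SPC) `g ∈ M_K` nonzero: the spectrum is nonempty by (n2), in `K` by (n1) (`f ∈ J_K`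
annihilates all translates of `g`: `∫ f(t) g(t+s) dt = ∫ f(t-s) g(t) dt`, `f(· - s) ∈ J_K`). Every
`h ∈ BPos g` is in `M_K` (`bipolarPos`), so a one point spectrum `{z}` has `z ∈ K` by (n1), and
(n3) applies. -/
def SimStmt : Prop := ∀ φ : ℝ → ℝ, IsWeight φ → ∀ K : Set ℝ, Nice φ K → ∀ g : ℝ → ℂ, MK φ K g →
  (¬ g =ᵐ[volume] 0) → (SpecPos φ g).Nonempty ∧ SimpleSpec φ g ∧ SpecPos φ g ⊆ rc K

/-! ### Uniqueness and STEP A -/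

/-- VAN. Uniqueness.

Proof: `Helper15_E.line` gives `k` analytic off `Spec D`, hence off `K`, with `k z = 0` for
`Im z > 0`. The complement of the countable closed set `K` in the plane is connected
(`Set.Countable.isPathConnected_compl_of_one_lt_rank`) and open, so `k = 0` there (identity
theorem `AnalyticOnNhd.eqOn_zero_of_preconnected_of_eventuallyEq_zero`), so
`∫_(-∞)^0 D(t) exp(izt) dt = 0` for `Im z < 0`; `z = -i(n+1)`: `∫_0^∞ D(-t) exp(-(n+1)t) dt = 0`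
for all `n`, so `D(-t) exp(-t) = 0` a.e. on `t > 0` by `Helper13_E.dens : DensStmt` (density of
the exponentials in `L^1(0,∞)`, and `L^∞`-duality tested with the bounded function
`D(-t)exp(-t/2)...`; or any other injectivity of the Laplace transform, e.g. Weierstrass). -/
def VanStmt : Prop := ∀ φ : ℝ → ℝ, IsWeight φ → ∀ K : Set ℝ, IsClosed K → K.Countable →
  ∀ D : ℝ → ℂ, LInf φ D → (∀ᵐ t : ℝ, 0 ≤ t → D t = 0) → Spec φ D ⊆ K → D =ᵐ[volume] 0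

/-- SPX. (uses `H78E.mem_Spec`, FUB) The spectrum of an element of `X_K` is in `K`: for `x ∉ K` the
function `f ∈ J_K` annihilates all translates of `G` and `∫ f expR x = FT f x ≠ 0`. The spectrum
of a correlation is in the spectrum: if `f'` annihilates all translates of `G`, then
`∫ f'(s) D(s+a) ds = ∫ f(t) ∫ f'(s) G(s+(t+a)) ds dt = 0`. -/
def SpxStmt : Prop := ∀ φ : ℝ → ℝ, IsWeight φ → ∀ K : Set ℝ,
  ((∀ x : ℝ, x ∉ K → ∃ f : ℝ → ℂ, JK φ K f ∧ FT f (x : ℂ) ≠ 0) →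
    ∀ G : ℝ → ℂ, XK φ K G → Spec φ G ⊆ K) ∧
  ∀ f G : ℝ → ℂ, L1 φ f → LInf φ G → Spec φ (fun s => ∫ t : ℝ, f t * G (t + s)) ⊆ Spec φ G

/-- ASUR. (uses SIM, CON, SPX, VAN)

Proof: `h = 0` a.e.: `G = 0`. Otherwise by SIM (E) gives `G` with `G = h` on `t ≥ 0` and
`rc (Spec G) = SpecPos h ⊆ rc K`. For `f ∈ J_K` let `D(s) = ∫ f(t) G(t+s) dt`, in LInf (CON),
continuous, `0` for `s ≥ 0` (there `G = h`, `f(· - s) ∈ J_K`), `Spec D ⊆ K` (SPX); VAN. -/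
def AsurStmt : Prop := ∀ φ : ℝ → ℝ, IsWeight φ → ∀ K : Set ℝ, Nice φ K → ∀ L : Set ℝ, K ⊆ L →
  PropertyE φ L → ∀ h : ℝ → ℂ, MK φ K h → ∃ G : ℝ → ℂ, XK φ K G ∧ ∀ᵐ t : ℝ, 0 ≤ t → G t = h t

/-- OPN. Open mapping (uses SPX, VAN for injectivity).

Proof: `XX = {u ∈ Lp ℂ ∞ | u·φ satisfies X_K}`, `MM = {u ∈ Lp ℂ ∞ | u = 0 a.e. on t < 0,
∫ f u φ = 0 for f ∈ J_K}`: closed subspaces (each condition is the kernel of a continuous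
functional `u ↦ ∫ (f φ(·+s)…) u`), so Banach spaces. Restriction `r u = 1_[0,∞) u`,
`XX → MM` (for `f ∈ J_K`, `s = 0`), is continuous, injective (SPX, VAN), onto by hypothesis; so its
inverse is continuous (`ContinuousLinearEquiv.ofBijective`), with norm `C0`. For `p = ES F c`,
`F ⊆ K`: `p/φ ∈ XX` as `∫ f(t) exp(-ix(t+s)) dt = exp(-ixs) FT f x = 0`. So
`|p(t)| ≤ C0 A φ(t)` for almost every `t`; for all `t` with `C = C0 S`, `φ ≤ S` on `[-1,1]`, by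
continuity of `p` and `φ(t+τ) ≤ S φ(t)`. -/
def OpnStmt : Prop := ∀ φ : ℝ → ℝ, IsWeight φ → ∀ K : Set ℝ, Nice φ K →
  (∀ h : ℝ → ℂ, MK φ K h → ∃ G : ℝ → ℂ, XK φ K G ∧ ∀ᵐ t : ℝ, 0 ≤ t → G t = h t) →
  ∃ C : ℝ, Ineq φ K C

/-- REFL. Reflection.

Proof: WLOG `C ≥ 1`. `p*(t) = conj p(-t)` is `ES F (conj c)`: the same frequencies. Let
`k ≥ 1` with `φ(-t) ≤ k φ(t)` for `t ≥ 0` (the limit, and local boundedness), and `T > 0` with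
`φ(-t) ≤ ρ φ(t)` for `t ≥ T`, `ρ C² k ≤ 1/2`. For `p = ES F c`, `F ⊆ K`, let
`A = sup_(t ≥ 0) |p(t)|/φ(-t)`, finite as `|p| ≤ ∑ |c_x|`, `φ ≥ 1`. For `t ≥ 0`:
`|p(t)| ≤ A φ(-t) ≤ A k φ(t)`, so `|p(s)| ≤ C k A φ(s)` for `s ≤ 0`. Let
`m ≥ |p|` on `[-T,0]`. For `t ≥ 0`, `|p*(t)| = |p(-t)| ≤ m ≤ m φ(t)` if `t ≤ T`, and
`≤ C k A φ(-t) ≤ C k A ρ φ(t)` if `t ≥ T`; so `|p*(t)| ≤ (m + ρ C k A) φ(t)`, and `Ineq` for `p*`
at `s = -t`: `|p(t)| = |p*(-t)| ≤ C (m + ρ C k A) φ(-t)` for `t ≥ 0`. So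
`A ≤ C m + A/2`, `A ≤ 2 C m`. Thus `|p(s)| ≤ 2 C² k m φ(-|s|)` for all `s`. Translate by `T`:
`p̃(t) = p(t+T) = ES F (c_x exp(-ixT))`, `|s - T|` versus `|s|`: `φ(-|s-T|) ≤ S φ(-|s|)`,
`S = sup_[-T,T] φ`. -/
def ReflStmt : Prop := ∀ φ : ℝ → ℝ, IsWeight φ →
  Tendsto (fun t => φ (-t) / φ t) atTop (𝓝 0) → ∀ (K : Set ℝ) (C : ℝ), Ineq φ K C →
  ∃ T C' : ℝ, Coh φ K T C'

/-! ### Fast sequences -/

/-- AV. Averages (uses CNV, FAC).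

Proof: `v2 = cv v (kx x0)` has `∫ φ|v2| ≤ D ∫ φ|v|`, and, with `w = cv v (ka L y)`,
`RR x0 w = w - cv w (kx x0)`, whose transform is `i(z-x0) k(z) FT v2 z`, `k = FT (ka L y)`,
`i(z-y) k(z) = (1/L)(1 - exp(-iL(z-y)))`. So
`RR x0 (cv v (ka L y)) (t) = (1/L)(v2(t) - exp(iyL) v2(t-L)) + i(y-x0) cv v2 (ka L y) t`
for almost every `t` (prove it directly: `v2(t) = ∫_0^t v(s) exp((-1+ix0)(t-s)) ds` satisfies
`v2' = v + (-1+ix0) v2` in the integrated form; or by injectivity of the transform on `L^1`).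
Hence the bound, with `∫ φ |cv v2 (ka L y)| ≤ S ∫ φ|v2|` for `φ ≤ S` on `[0,L]`, and
`∫ φ(t) |v2(t-L)| dt ≤ φ(L) ∫ φ |v2|`. `FT (ka L y) y = 1`. -/
def AvStmt : Prop := ∀ φ : ℝ → ℝ, IsWeight φ → ∀ x0 : ℝ, ∃ D : ℝ, 0 ≤ D ∧
  ∀ (L y S : ℝ) (v : ℝ → ℂ), 0 < L → (∀ t : ℝ, 0 ≤ t → t ≤ L → φ t ≤ S) → LP φ v →
    LP φ (cv v (ka L y)) ∧ FT (cv v (ka L y)) (y : ℂ) = FT v (y : ℂ) ∧
    (∀ x : ℝ, FT v (x : ℂ) = 0 → FT (cv v (ka L y)) (x : ℂ) = 0) ∧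
    ∫ t : ℝ, φ t * ‖RR x0 (cv v (ka L y)) t‖ ≤
      D * ((1 + φ L) / L + |y - x0| * S) * ∫ t : ℝ, φ t * ‖v t‖

/-- DE0. Density in `{FT f x0 = 0}` (uses DEN, FAC).

Proof: (1) functions in LP with compact support and `FT f x0 = 0` are dense in
`{f ∈ LP, FT f x0 = 0}`: truncate at `R` and subtract `FT (f 1_[0,R]) x0` times a fixed function
`v` of compact support with `FT v x0 = 1` (e.g. `ka 1 x0`). (2) if `f` has compact support and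
`FT f x0 = 0`, `g(t) = ∫_0^t exp(ix0(t-s)) f(s) ds` has compact support and is bounded, and
`f = RR x0 (f + g)` a.e. (transforms: `FT f = i(z-x0) FT g`; direct proof:
`cv (f+g) (kx x0) = g`, since `g` solves `g' = ix0 g + f` in the integrated form). (3) DEN
approximates `f + g` by a combination `w` of `q (n+3/2)`, and `∫ φ|RR x0 (f+g-w)| ≤ D ε`. -/
def De0Stmt : Prop := ∀ φ : ℝ → ℝ, IsWeight φ → ∀ (x0 : ℝ) (f : ℝ → ℂ), LP φ f →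
  FT f (x0 : ℂ) = 0 → ∀ ε : ℝ, 0 < ε → ∃ (N : ℕ) (c : ℕ → ℂ),
    ∫ t : ℝ, φ t * ‖f t - ∑ n ∈ Finset.range N, c n * RR x0 (q ((n : ℝ) + 3 / 2)) t‖ < ε

/-- FAST. Fast sequences are nice (uses AV, DE0, FAC, LEW).

Proof: `E` has an accumulation point `x0 ∈ E`. Construct `L_N > 0`, `x_N ∈ E \ {x0}`, recursively,
and for `m`, `n ≤ N` the functions `v_(m,n,N)`: `v_(m,n,n) = q (m+3/2)`,
`v_(m,n,N+1) = v_(m,n,N) - cv v_(m,n,N) (ka L_N x_N)`. At stage `N` the finitely many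
`v_(m,n,N)`, `m,n ≤ N`, are known; `V ≥ ∫ φ |v_(m,n,N)|`; choose `L_N` with
`D (1 + φ(L_N))/L_N V ≤ 2^(-N)/2` (possible: `t/φ(t)` is unbounded, so `φ(L)/L` is arbitrarily
small for some `L > 0`, and `1/L ≤ φ(L)/L`), then `S_N ≥ φ` on `[0,L_N]`, then `x_N ∈ E`,
`0 < |x_N - x0| < min(|x_(N-1) - x0|, 2^(-N))` with `D |x_N - x0| S_N V ≤ 2^(-N)/2`. So
`∫ φ |RR x0 v_(m,n,N+1) - RR x0 v_(m,n,N)| ≤ 2^(-N)` for `N ≥ m,n`, and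
`f_(m,n) = lim_N RR x0 v_(m,n,N)` exists in LP (completeness: a.e. absolutely convergent series),
`∫ φ |RR x0 q(m+3/2) - f_(m,n)| ≤ 2^(1-n)` for `n ≥ m`; its transform is `0` at `x0` and at all
`x_j`, `j ≥ n` (AV: `FT v_(m,n,N) x_j = 0` for `n ≤ j < N`). `K = {x0} ∪ {x_N}` is closed,
countable, infinite, and `Dns φ K {x0}` by DE0. -/
def FastStmt : Prop := ∀ φ : ℝ → ℝ, IsWeight φ → (¬ ∃ C : ℝ, ∀ t : ℝ, 0 ≤ t → t ≤ C * φ t) →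
  ∀ E : Set ℝ, IsClosed E → Bornology.IsBounded E → E.Infinite →
  ∃ (K : Set ℝ) (x0 : ℝ), K ⊆ E ∧ x0 ∈ K ∧ K.Infinite ∧ IsClosed K ∧ K.Countable ∧
    Dns φ K {x0}

/-! ### Sufficiency -/

/-- ADD. Adding one point (uses SPU, LEW).

Proof: `C ≥ 0` (take `F = ∅`, `A = 1`). `f = u` from SPU at `y`: `FT f y = 1`, `FT f = 0` on `K`,
`|f(t)| ≤ A exp(-t/4)`. WLOG `T ≥ 0`. Choose `T' ≥ T` with
`(1+C) ∫_(T')^∞ |f(t)| φ(-t) dt ≤ 1/2` (the reflection of `φ` is a weight, LEW). Let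
`p = ES F c`, `F ⊆ insert y K`, `p(t) = a exp(-ity) + q(t)`, `q` with frequencies in `K`
(`a = 0` possible), `|p| ≤ m` on `[0,T']`. Then `∫ f p = a` (`∫ f(t) exp(-ixt) dt = FT f x`),
`|q| ≤ m + |a|` on `[0,T]`, so `|q(s)| ≤ C(m+|a|) φ(-|s|)` and
`|p(s)| ≤ (1+C)(m+|a|) φ(-|s|)` for all `s`; so
`|a| ≤ m ∫ |f| + (1+C)(m+|a|) ∫_(T')^∞ |f(t)| φ(-t) dt ≤ m ∫ |f| + (m+|a|)/2`, and
`|a| ≤ m (2 ∫ |f| + 1)`. -/
def AddStmt : Prop := ∀ φ : ℝ → ℝ, IsWeight φ → ∀ (K : Set ℝ) (T C y : ℝ), Coh φ K T C →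
  Sparse K → y ∉ K → ∃ T' C' : ℝ, Coh φ (insert y K) T' C'

/-- AID. Approximate identity adapted to a sparse set (uses BLA, LEW, QAI).

Proof: for `n`, `l = n+1`, `C_l` from BLA, `D` from LEW, choose a finite `F_n ⊆ K` with
`D C_l ∑_(K \ F_n) 1/(1+x²) ≤ 1/(n+1)`, `f_n` from BLA for `K \ F_n`; then
`∫ φ |f_n - q l| ≤ 1/(n+1)`, and QAI. -/
def AidStmt : Prop := ∀ φ : ℝ → ℝ, IsWeight φ → ∀ K : Set ℝ, Sparse K →
  ∃ (f : ℕ → ℝ → ℂ) (F : ℕ → Finset ℝ) (D : ℝ),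
    (∀ n : ℕ, LP φ (f n) ∧ ∫ t : ℝ, φ t * ‖f n t‖ ≤ D) ∧
    (∀ n : ℕ, (F n : Set ℝ) ⊆ K ∧ ∀ x ∈ K, x ∉ F n → FT (f n) (x : ℂ) = 0) ∧
    ∀ ψ : ℝ → ℂ, Continuous ψ → (∃ C : ℝ, ∀ t : ℝ, ‖ψ t‖ ≤ C * φ t) →
      Tendsto (fun n : ℕ => ∫ t : ℝ, f n t * ψ t) atTop (𝓝 (ψ 0))

/-- WLM. Weak limits along an ultrafilter.

Proof: for `k ∈ L^1(ℝ)` (unweighted) `ℓ(k) = lim_U ∫ (k/φ) P_n`, a linear functional with norm
at most `C` (bounded sequences of complex numbers converge along `U`); `DualStmt` (proved: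
`Pool.Agent.H61.dual` or the name used by `H78E`, see the kit) gives a bounded measurable `h`
with `ℓ(k) = ∫ k h`; `G = h φ`. -/
def WlmStmt : Prop := ∀ φ : ℝ → ℝ, IsWeight φ → ∀ (U : Ultrafilter ℕ) (P : ℕ → ℝ → ℂ) (C : ℝ),
  (∀ n : ℕ, AEStronglyMeasurable (P n) volume) → (∀ (n : ℕ) (t : ℝ), ‖P n t‖ ≤ C * φ t) →
  ∃ G : ℝ → ℂ, LInf φ G ∧ ∀ f : ℝ → ℂ, L1 φ f →
    Tendsto (fun n => ∫ t : ℝ, f t * P n t) U (𝓝 (∫ t : ℝ, f t * G t))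

/-- EXT. The extension (uses SPU, NIM, AID, WLM, CON, FUB).

Proof: `f_n, F_n, D` from AID, `u_x` from SPU. For `s ≥ 0`,
`∫ f_n(t) g(t+s) dt = P_n(s)`, `P_n = ES F_n (x ↦ FT f_n x ∫ u_x g)`: because
`f_n(· - s) - ∑_(F_n) exp(-isx) FT f_n x u_x ∈ J_K`. `|P_n(s)| ≤ ‖g‖ D φ(s)` for `s ≥ 0`; on
`[0,T]` at most `‖g‖ D S`, so by `Coh`, `|P_n(s)| ≤ C ‖g‖ D S φ(-|s|) = … φ(s)` for `s ≤ 0`.
WLM (any ultrafilter `U ≤ atTop`) gives `G`. For `f ∈ LP`: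
`∫ f P_n = ∫ f_n(t) ∫ f(s) g(s+t) ds dt → ∫ f g` (FUB, CON, AID); so `G = g` a.e. on `t ≥ 0`. For
`f ∈ J_K`, `s ∈ ℝ`: `∫ f(t) G(t+s) dt = ∫ f(t-s) G(t) dt = lim_U ∫ f(t) P_n(t+s) dt = 0`. -/
def ExtStmt : Prop := ∀ φ : ℝ → ℝ, IsWeight φ → ∀ (K : Set ℝ) (T C : ℝ), Sparse K →
  Coh φ K T C → ∀ g : ℝ → ℂ, MK φ K g →
  ∃ G : ℝ → ℂ, XK φ K G ∧ ∀ᵐ t : ℝ, 0 ≤ t → G t = g t

/-- SPE. The spectrum of the extension (uses SPU, NIM, SPX, VAN, CON, FUB, SUM, SPC).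

Proof: `Spec G ⊆ K` by SPX (for `x ∉ K` the function of SPU at `x` is in `J_K`). Let `x ∈ K`,
`u = u_x` from SPU, `H(s) = ∫ u(t) G(t+s) dt`, `c = ∫ u g`. For `s ≥ 0`, `H(s) = c exp(-isx)`
(NIM). `c ≠ 0`: otherwise `u` annihilates all translates of `g`, and `x ∈ SpecPos g` gives
`FT u x = 0` (SPC), but it is `1`. `D = H - c expR x` is in `X_K` (FUB), `0` for `s ≥ 0`,
continuous, so `D = 0` (SPX, VAN; `K` is closed and countable). Then `x ∈ Spec G`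
(`H78E.mem_Spec`): if `f` annihilates all translates of `G`,
`c ∫ f expR x = ∫ f H = ∫ u(s) ∫ f(t) G(t+s) dt ds = 0`. -/
def SpeStmt : Prop := ∀ φ : ℝ → ℝ, IsWeight φ → ∀ K : Set ℝ, Sparse K → ∀ g G : ℝ → ℂ,
  MK φ K g → SpecPos φ g = rc K → XK φ K G → (∀ᵐ t : ℝ, 0 ≤ t → G t = g t) → Spec φ G = K

/-- DISC. Discreteness when `t/φ` is bounded (uses SPC, FAC).

Proof: otherwise there are `x_n ∈ K`, `x_n → x0`, `x_n ≠ x0`, and `x0 ∈ K` (closed, SPC). Let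
`h(t) = t exp(-itx0)` on `t ≥ 0`, in LInfPos. `h ∈ BPos g` (`bipolarPos`): for `f ∈ LP`
annihilating the translates of `g`, `∫ f(t) (exp(-itx_n) - exp(-itx0))/(x_n - x0) dt = 0`, and the
quotient is at most `t ≤ C φ(t)` and tends to `-it exp(-itx0)`. `SpecPos h = {x0}`: `f ∈ LP`
annihilates all translates of `h` iff `FT f x0 = 0` and `∫ t f(t) exp(-itx0) dt = 0`; so `x0` is in
it; for `z ≠ x0`, `Im z ≤ 0`, `f = RR x0 (RR x0 (q 1))` satisfies both (its transform has a double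
zero; the second integral is the derivative of the transform, `f` decays exponentially; or
explicitly) and `FT f z ≠ 0`. As the spectrum of `g` is simple, `h = c expPos z'` a.e., so
`t = |c| exp(t Im z')` for a.e. `t ≥ 0`: impossible. -/
def DiscStmt : Prop := ∀ φ : ℝ → ℝ, IsWeight φ → (∃ C : ℝ, ∀ t : ℝ, 0 ≤ t → t ≤ C * φ t) →
  ∀ g : ℝ → ℂ, LInfPos φ g → SimpleSpec φ g → ∀ K : Set ℝ, SpecPos φ g = rc K → LocFin K

/-- SYN. Synthesis: owner helper67 (weighted copy of the Riesz idempotents of `Helper78_E`).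

Proof: note 2307, STEP F. -/
def SynStmt : Prop := ∀ φ : ℝ → ℝ, IsWeight φ → ∀ (g : ℝ → ℂ) (K : Set ℝ), LInfPos φ g →
  SimpleSpec φ g → SpecPos φ g = rc K → K.Nonempty → LocFin K → MK φ K g

/-! ### Assembly -/

/-- NEG. Necessity (uses SUM, SPD, NIC, ASUR, OPN, REFL, CLU, BLK, FAST).

Proof: (P) if `K ⊆ L` is nice, then `∃ C, Ineq φ K C` (ASUR, OPN), so `Coh φ K T C` (REFL).
(ii): suppose both alternatives fail; `FAST` for a bounded closed infinite `E ⊆ L` gives an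
infinite `K ⊆ E`, nice by NIC (`Z = {x0}`), so `LocB K N` (CLU), so `Sparse K`, `LocFin K`, `K`
finite (bounded): contradiction. (i): if `LocB {x ∈ L, R ≤ |x|} N` for some `R, N`, this set is
sparse, nice (SPD, SUM, NIC with `Z = ∅`), and (P). Otherwise BLK gives a sparse `K ⊆ L`, nice,
(P) and CLU: contradiction. -/
def NegStmt : Prop := ∀ φ : ℝ → ℝ, IsWeight φ → Tendsto (fun t => φ (-t) / φ t) atTop (𝓝 0) →
  ∀ L : Set ℝ, PropertyE φ L → CondI φ L ∧ CondII φ L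

/-- POS. Sufficiency (uses SPC, DISC, CLU, SUM, ADD, SYN, EXT, SPE).

Proof: `K = {x | (x : ℂ) ∈ SpecPos φ g}`, `SpecPos φ g = rc K`, `K ⊆ L`, closed (SPC).
`LocFin K`: DISC, or `K ∩ [-R,R]` is a bounded closed subset of `L`. `K' = {x ∈ K, R ≤ |x|}` has
`Coh`, so `LocB` (CLU), `Sparse K'` (SUM); `K \ K'` is finite; add its points one by one (ADD,
SUM): `Coh φ K T' C'`, `Sparse K`. SYN: `MK φ K g`. EXT, SPE. -/
def PosStmt : Prop := ∀ φ : ℝ → ℝ, IsWeight φ → ∀ L : Set ℝ, CondI φ L → CondII φ L →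
  PropertyE φ L

end

end Pool.Agent.WK
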